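import Mathlib

/-!
Asymptotic capacity of the range of a random walk on `ℤ^d`: definitions, existence of the limit
in mean, and identification with any almost sure limit.
-/

namespace Pool.Agent.R986.AC

open MeasureTheory Filter Topology

/-- the lattice `ℤ^d` -/
abbrev V (d : ℕ) := Fin d → ℤ

/-- law of the i.i.d. steps with distribution `μ` -/
noncomputable def law {d : ℕ} (μ : PMF (V d)) : Measure (ℕ → V d) :=
  Measure.infinitePi (fun _ : ℕ => μ.toMeasure)

instance law_prob {d : ℕ} (μ : PMF (V d)) : IsProbabilityMeasure (law μ) := by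
  unfold law; infer_instance

/-- position at time `n` of the walk started at the origin, with steps `ω` -/
def pos {d : ℕ} (ω : ℕ → V d) (n : ℕ) : V d := ∑ i ∈ Finset.range n, ω i

/-- the escape probability `P_x[S_A = ∞]`, where `S_A` is the first time `m ≥ 1` with
`X_m ∈ A` -/
noncomputable def esc {d : ℕ} (μ : PMF (V d)) (A : Finset (V d)) (x : V d) : ℝ :=
  (law μ).real {ω | ∀ m : ℕ, 1 ≤ m → x + pos ω m ∉ A}

/-- the capacity `Cap_μ(A) = ∑_{x ∈ A} P_x[S_A = ∞]` -/
noncomputable def cap {d : ℕ} (μ : PMF (V d)) (A : Finset (V d)) : ℝ := ∑ x ∈ A, esc μ A x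

/-- the range `R_n = {X_0, ..., X_n}` of the walk started at the origin -/
def ran {d : ℕ} (ω : ℕ → V d) (n : ℕ) : Finset (V d) := (Finset.range (n + 1)).image (pos ω)

/-- the asymptotic capacity of the range, defined as the limit in mean; see `acap_mean` (the limit
exists) and `acap_ae` (it equals every almost sure limit of `Cap(R_n)/n`) -/
noncomputable def acap {d : ℕ} (μ : PMF (V d)) : ℝ :=
  limUnder atTop (fun n : ℕ => (∫ ω, cap μ (ran ω n) ∂(law μ)) / n)

variable {d : ℕ}

lemma esc_nonneg (μ : PMF (V d)) (A : Finset (V d)) (x : V d) : 0 ≤ esc μ A x :=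
  measureReal_nonneg

lemma esc_le_one (μ : PMF (V d)) (A : Finset (V d)) (x : V d) : esc μ A x ≤ 1 :=
  measureReal_le_one

lemma esc_anti (μ : PMF (V d)) {A B : Finset (V d)} (h : A ⊆ B) (x : V d) :
    esc μ B x ≤ esc μ A x := by
  unfold esc
  apply measureReal_mono _ (measure_ne_top _ _)
  intro ω hω m hm hA
  exact hω m hm (h hA)

lemma cap_nonneg (μ : PMF (V d)) (A : Finset (V d)) : 0 ≤ cap μ A :=
  Finset.sum_nonneg fun x _ => esc_nonneg μ A x

lemma cap_le_card (μ : PMF (V d)) (A : Finset (V d)) : cap μ A ≤ A.card := by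
  unfold cap
  calc ∑ x ∈ A, esc μ A x ≤ ∑ x ∈ A, (1 : ℝ) := Finset.sum_le_sum fun x _ => esc_le_one μ A x
    _ = A.card := by simp

lemma cap_union_le (μ : PMF (V d)) (A B : Finset (V d)) :
    cap μ (A ∪ B) ≤ cap μ A + cap μ B := by
  have h1 := Finset.sum_union_inter (s₁ := A) (s₂ := B) (f := esc μ (A ∪ B))
  have h2 : 0 ≤ ∑ x ∈ A ∩ B, esc μ (A ∪ B) x :=
    Finset.sum_nonneg fun x _ => esc_nonneg μ _ x
  have h3 : ∑ x ∈ A, esc μ (A ∪ B) x ≤ ∑ x ∈ A, esc μ A x :=
    Finset.sum_le_sum fun x _ => esc_anti μ Finset.subset_union_left x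
  have h4 : ∑ x ∈ B, esc μ (A ∪ B) x ≤ ∑ x ∈ B, esc μ B x :=
    Finset.sum_le_sum fun x _ => esc_anti μ Finset.subset_union_right x
  unfold cap
  linarith

lemma cap_translate (μ : PMF (V d)) (A : Finset (V d)) (z : V d) :
    cap μ (A.image (fun x => z + x)) = cap μ A := by
  unfold cap
  rw [Finset.sum_image (fun x _ y _ h => add_left_cancel h)]
  apply Finset.sum_congr rfl
  intro x _
  unfold esc
  congr 1
  ext ω
  simp only [Set.mem_ofPred_eq]
  constructor
  · intro h m hm hA
    apply h m hm
    rw [Finset.mem_image]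
    exact ⟨x + pos ω m, hA, by rw [add_assoc]⟩
  · intro h m hm hA
    rw [Finset.mem_image] at hA
    obtain ⟨y, hy, hyx⟩ := hA
    have : y = x + pos ω m := by
      have h3 : z + y = z + (x + pos ω m) := by rw [hyx, add_assoc]
      exact add_left_cancel h3
    exact h m hm (this ▸ hy)

lemma pos_zero (ω : ℕ → V d) : pos ω 0 = 0 := by simp [pos]

lemma pos_add (ω : ℕ → V d) (m k : ℕ) :
    pos ω (m + k) = pos ω m + pos (fun i => ω (m + i)) k := by
  unfold pos
  rw [Finset.sum_range_add]

lemma pos_one (ω : ℕ → V d) : pos ω 1 = ω 0 := by simp [pos]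

lemma ran_add (ω : ℕ → V d) (m n : ℕ) :
    ran ω (m + n) = ran ω m ∪ (ran (fun i => ω (m + i)) n).image (fun x => pos ω m + x) := by
  unfold ran
  ext y
  simp only [Finset.mem_image, Finset.mem_union, Finset.mem_range]
  constructor
  · rintro ⟨k, hk, rfl⟩
    by_cases h : k < m + 1
    · exact Or.inl ⟨k, h, rfl⟩
    · right
      refine ⟨pos (fun i => ω (m + i)) (k - m), ⟨k - m, by omega, rfl⟩, ?_⟩
      rw [← pos_add]
      congr 1
      omega
  · rintro (⟨k, hk, rfl⟩ | ⟨_, ⟨k, hk, rfl⟩, rfl⟩)
    · exact ⟨k, by omega, rfl⟩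
    · exact ⟨m + k, by omega, pos_add ω m k⟩

lemma card_ran_le (ω : ℕ → V d) (n : ℕ) : (ran ω n).card ≤ n + 1 := by
  unfold ran
  exact Finset.card_image_le.trans (by simp)

lemma mem_ran (ω : ℕ → V d) (n k : ℕ) (hk : k ≤ n) : pos ω k ∈ ran ω n := by
  unfold ran
  exact Finset.mem_image_of_mem _ (Finset.mem_range.mpr (by omega))

lemma ran_congr {ω ω' : ℕ → V d} (n : ℕ) (h : ∀ i < n, ω i = ω' i) : ran ω n = ran ω' n := by
  unfold ran
  apply Finset.image_congr
  intro k hk
  have hk' : k < n + 1 := by simpa using hk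
  unfold pos
  apply Finset.sum_congr rfl
  intro i hi
  exact h i (by have := Finset.mem_range.mp hi; omega)

lemma pos_congr {ω ω' : ℕ → V d} (n : ℕ) (h : ∀ i < n, ω i = ω' i) : pos ω n = pos ω' n := by
  unfold pos
  apply Finset.sum_congr rfl
  intro i hi
  exact h i (Finset.mem_range.mp hi)

/-- functions of finitely many steps are measurable -/
lemma meas_dep {β : Type*} [MeasurableSpace β] (n : ℕ) (F : (ℕ → V d) → β)
    (h : ∀ ω ω' : ℕ → V d, (∀ i < n, ω i = ω' i) → F ω = F ω') : Measurable F := by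
  let r : (ℕ → V d) → (Fin n → V d) := fun ω i => ω i
  let e : (Fin n → V d) → (ℕ → V d) := fun v i => if hi : i < n then v ⟨i, hi⟩ else 0
  have h1 : F = (fun v => F (e v)) ∘ r := by
    funext ω
    apply h
    intro i hi
    simp [r, e, hi]
  rw [h1]
  have hr : Measurable r := measurable_pi_lambda _ fun i => measurable_pi_apply _
  exact (Measurable.of_discrete (f := fun v => F (e v))).comp hr

lemma meas_cap (μ : PMF (V d)) (n : ℕ) : Measurable fun ω : ℕ → V d => cap μ (ran ω n) :=
  meas_dep n _ fun ω ω' h => by rw [ran_congr n h]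

lemma meas_pos {β : Type*} [MeasurableSpace β] (n : ℕ) (f : V d → β) :
    Measurable fun ω : ℕ → V d => f (pos ω n) :=
  meas_dep n _ fun ω ω' h => by rw [pos_congr n h]

lemma cap_ran_le (μ : PMF (V d)) (ω : ℕ → V d) (n : ℕ) : cap μ (ran ω n) ≤ n + 1 := by
  refine (cap_le_card μ _).trans ?_
  exact_mod_cast card_ran_le ω n

lemma integrable_cap (μ : PMF (V d)) (n : ℕ) :
    Integrable (fun ω : ℕ → V d => cap μ (ran ω n)) (law μ) := by
  refine Integrable.of_bound (meas_cap μ n).aestronglyMeasurable ((n : ℝ) + 1) ?_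
  filter_upwards with ω
  rw [Real.norm_of_nonneg (cap_nonneg μ _)]
  exact cap_ran_le μ ω n

lemma law_shift (μ : PMF (V d)) (m : ℕ) :
    MeasurePreserving (fun (ω : ℕ → V d) (k : ℕ) => ω (m + k)) (law μ) (law μ) := by
  have hmeas : Measurable (fun (ω : ℕ → V d) (k : ℕ) => ω (m + k)) :=
    measurable_pi_lambda _ fun k => measurable_pi_apply _
  refine ⟨hmeas, ?_⟩
  unfold law
  have key : ∀ (s : Finset ℕ) (t : ℕ → Set (V d)), (∀ i, MeasurableSet (t i)) →
      ((Measure.infinitePi (fun _ : ℕ => μ.toMeasure)).map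
        (fun (ω : ℕ → V d) (k : ℕ) => ω (m + k))) (Set.pi (s : Set ℕ) t) =
      ∏ i ∈ s, μ.toMeasure (t i) := by
    intro s t ht
    rw [Measure.map_apply hmeas (MeasurableSet.pi s.countable_toSet (fun i _ => ht i))]
    have hset : (fun (ω : ℕ → V d) (k : ℕ) => ω (m + k)) ⁻¹' (Set.pi (s : Set ℕ) t) =
        Set.pi ((s.map (addLeftEmbedding m) : Finset ℕ) : Set ℕ) (fun j => t (j - m)) := by
      ext ω
      simp only [Set.mem_preimage, Set.mem_pi, Finset.mem_coe, Finset.mem_map,
        addLeftEmbedding_apply]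
      constructor
      · rintro h j ⟨i, hi, rfl⟩
        simpa using h i hi
      · intro h i hi
        simpa using h (m + i) ⟨i, hi, rfl⟩
    rw [hset, Measure.infinitePi_pi _ (fun i _ => ht _), Finset.prod_map]
    apply Finset.prod_congr rfl
    intro i _
    simp [addLeftEmbedding_apply]
  exact Measure.eq_infinitePi _ key

lemma cap_subadd (μ : PMF (V d)) :
    Subadditive (fun n : ℕ => ∫ ω, cap μ (ran ω n) ∂(law μ)) := by
  intro m n
  have h1 : ∀ ω : ℕ → V d, cap μ (ran ω (m + n)) ≤
      cap μ (ran ω m) + cap μ (ran (fun i => ω (m + i)) n) := by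
    intro ω
    rw [ran_add]
    refine (cap_union_le μ _ _).trans ?_
    rw [cap_translate]
  have hmp := law_shift μ m
  have h2 : ∫ ω, cap μ (ran (fun i => ω (m + i)) n) ∂(law μ) =
      ∫ ω, cap μ (ran ω n) ∂(law μ) := by
    have h3 := integral_map (μ := law μ) (φ := fun (ω : ℕ → V d) (k : ℕ) => ω (m + k))
      hmp.measurable.aemeasurable (f := fun ω => cap μ (ran ω n))
      (meas_cap μ n).aestronglyMeasurable
    rw [hmp.map_eq] at h3
    exact h3.symm
  have hi : Integrable (fun ω : ℕ → V d => cap μ (ran (fun i => ω (m + i)) n)) (law μ) :=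
    hmp.integrable_comp_of_integrable (integrable_cap μ n)
  calc ∫ ω, cap μ (ran ω (m + n)) ∂(law μ)
      ≤ ∫ ω, (cap μ (ran ω m) + cap μ (ran (fun i => ω (m + i)) n)) ∂(law μ) :=
        integral_mono (integrable_cap μ _) ((integrable_cap μ m).add hi) h1
    _ = _ := by
        rw [integral_add (integrable_cap μ m) hi, h2]

/-- the limit in mean exists -/
theorem acap_mean (μ : PMF (V d)) :
    Tendsto (fun n : ℕ => (∫ ω, cap μ (ran ω n) ∂(law μ)) / n) atTop (𝓝 (acap μ)) := by
  have hb : BddBelow (Set.range fun n : ℕ => (∫ ω, cap μ (ran ω n) ∂(law μ)) / n) := by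
    refine ⟨0, ?_⟩
    rintro _ ⟨n, rfl⟩
    exact div_nonneg (integral_nonneg fun ω => cap_nonneg μ _) (Nat.cast_nonneg n)
  have h := (cap_subadd μ).tendsto_lim hb
  have h2 := h.limUnder_eq
  unfold acap
  rw [h2]
  exact h

/-- every almost sure limit of `Cap(R_n)/n` equals the asymptotic capacity -/
theorem acap_ae (μ : PMF (V d)) (c : ℝ)
    (hc : ∀ᵐ ω ∂(law μ), Tendsto (fun n : ℕ => cap μ (ran ω n) / n) atTop (𝓝 c)) :
    c = acap μ := by
  have h1 : Tendsto (fun n : ℕ => ∫ ω, cap μ (ran ω n) / n ∂(law μ)) atTop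
      (𝓝 (∫ _, c ∂(law μ))) := by
    apply tendsto_integral_of_dominated_convergence (fun _ => (2 : ℝ))
    · intro n
      exact ((meas_cap μ n).div_const _).aestronglyMeasurable
    · exact integrable_const _
    · intro n
      filter_upwards with ω
      rw [Real.norm_of_nonneg (div_nonneg (cap_nonneg μ _) (Nat.cast_nonneg n))]
      rcases Nat.eq_zero_or_pos n with h0 | h0
      · subst h0; simp
      · have hn : (1 : ℝ) ≤ n := by exact_mod_cast h0
        rw [div_le_iff₀ (by linarith)]
        have := cap_ran_le μ ω n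
        linarith
    · exact hc
  have h2 : ∀ n : ℕ, ∫ ω, cap μ (ran ω n) / n ∂(law μ) =
      (∫ ω, cap μ (ran ω n) ∂(law μ)) / n := fun n => integral_div _ _
  simp only [h2] at h1
  have h3 : ∫ _ : ℕ → V d, c ∂(law μ) = c := by simp
  rw [h3] at h1
  exact tendsto_nhds_unique h1 (acap_mean μ)

/-! ### First step decomposition -/

/-- prepend a step -/
def cons (s : V d) (ω : ℕ → V d) : ℕ → V d := fun n => Nat.casesOn n s ω

lemma cons_zero (s : V d) (ω : ℕ → V d) : cons s ω 0 = s := rfl

lemma cons_succ (s : V d) (ω : ℕ → V d) (n : ℕ) : cons s ω (n + 1) = ω n := rfl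

lemma meas_cons (s : V d) : Measurable (cons s) := by
  apply measurable_pi_lambda
  intro n
  cases n with
  | zero => exact measurable_const
  | succ n => exact measurable_pi_apply n

lemma pos_cons (s : V d) (ω : ℕ → V d) (n : ℕ) : pos (cons s ω) (n + 1) = s + pos ω n := by
  unfold pos
  rw [Finset.sum_range_succ']
  simp only [cons_succ, cons_zero]
  rw [add_comm]

lemma law_cons (μ : PMF (V d)) (S : Finset (V d)) (hS : ∀ s, s ∉ S → μ s = 0) :
    law μ = ∑ s ∈ S, μ s • (law μ).map (cons s) := by
  symm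
  classical
  have hpm : ∀ B : Set (V d), μ.toMeasure B = ∑ s ∈ S, if s ∈ B then μ s else 0 := by
    intro B
    rw [PMF.toMeasure_apply (hs := MeasurableSet.of_discrete), tsum_eq_sum (s := S)]
    · apply Finset.sum_congr rfl
      intro s _
      simp [Set.indicator_apply]
    · intro s hs
      simp [Set.indicator_apply, hS s hs]
  have key : ∀ (I : Finset ℕ) (t : ℕ → Set (V d)), (∀ i, MeasurableSet (t i)) →
      (∑ s ∈ S, μ s • (law μ).map (cons s)) (Set.pi (I : Set ℕ) t) =
      ∏ i ∈ I, μ.toMeasure (t i) := by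
    intro I t ht
    classical
    obtain ⟨n, hn⟩ : ∃ n, I ⊆ Finset.range (n + 1) := by
      refine ⟨I.sup id, fun i hi => Finset.mem_range.mpr ?_⟩
      exact Nat.lt_succ_of_le (Finset.le_sup (f := id) hi)
    let t' : ℕ → Set (V d) := fun i => if i ∈ I then t i else Set.univ
    have ht' : ∀ i, MeasurableSet (t' i) := fun i => MeasurableSet.of_discrete
    have e1 : Set.pi (I : Set ℕ) t = Set.pi ((Finset.range (n + 1) : Finset ℕ) : Set ℕ) t' := by
      ext ω
      simp only [Set.mem_pi, Finset.mem_coe]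
      constructor
      · intro h i _
        by_cases hi : i ∈ I
        · simpa [t', hi] using h i hi
        · simp [t', hi]
      · intro h i hi
        simpa [t', hi] using h i (hn hi)
    have e2 : ∏ i ∈ I, μ.toMeasure (t i) = ∏ i ∈ Finset.range (n + 1), μ.toMeasure (t' i) := by
      rw [← Finset.prod_subset hn]
      · apply Finset.prod_congr rfl
        intro i hi
        simp [t', hi]
      · intro i _ hi
        have : t' i = Set.univ := by simp [t', hi]
        rw [this]
        exact measure_univ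
    rw [e1, e2, Finset.prod_range_succ', Measure.finsetSum_apply]
    have e3 : ∀ s ∈ S, (μ s • (law μ).map (cons s))
        (Set.pi ((Finset.range (n + 1) : Finset ℕ) : Set ℕ) t') =
        (∏ i ∈ Finset.range n, μ.toMeasure (t' (i + 1))) * (if s ∈ t' 0 then μ s else 0) := by
      intro s _
      rw [Measure.smul_apply, smul_eq_mul,
        Measure.map_apply (meas_cons s) (MeasurableSet.pi (Finset.countable_toSet _)
          (fun i _ => ht' i))]
      by_cases hs : s ∈ t' 0
      · have e4 : cons s ⁻¹' (Set.pi ((Finset.range (n + 1) : Finset ℕ) : Set ℕ) t') =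
            Set.pi ((Finset.range n : Finset ℕ) : Set ℕ) (fun i => t' (i + 1)) := by
          ext ω
          simp only [Set.mem_preimage, Set.mem_pi, Finset.mem_coe, Finset.mem_range]
          constructor
          · intro h i hi
            exact h (i + 1) (by omega)
          · intro h i hi
            cases i with
            | zero => exact hs
            | succ i => exact h i (by omega)
        rw [e4, if_pos hs]
        unfold law
        rw [Measure.infinitePi_pi _ (fun i _ => ht' _), mul_comm]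
      · have e4 : cons s ⁻¹' (Set.pi ((Finset.range (n + 1) : Finset ℕ) : Set ℕ) t') = ∅ := by
          ext ω
          simp only [Set.mem_preimage, Set.mem_pi, Finset.mem_coe, Finset.mem_range,
            Set.mem_empty_iff_false, iff_false]
          intro h
          exact hs (h 0 (by omega))
        rw [e4, if_neg hs]
        simp
    rw [Finset.sum_congr rfl e3, ← Finset.mul_sum, ← hpm]
  exact Measure.eq_infinitePi _ key

/-- first step decomposition of integrals -/
lemma integral_cons (μ : PMF (V d)) (S : Finset (V d)) (hS : ∀ s, s ∉ S → μ s = 0)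
    (F : (ℕ → V d) → ℝ) (hF : Measurable F)
    (hi : ∀ s ∈ S, Integrable (fun ω => F (cons s ω)) (law μ)) :
    Integrable F (law μ) ∧
    ∫ ω, F ω ∂(law μ) = ∑ s ∈ S, (μ s).toReal * ∫ ω, F (cons s ω) ∂(law μ) := by
  have h1 : ∀ s ∈ S, Integrable F (μ s • (law μ).map (cons s)) := by
    intro s hs
    apply Integrable.smul_measure _ (PMF.apply_ne_top μ s)
    rw [integrable_map_measure hF.aestronglyMeasurable (meas_cons s).aemeasurable]
    exact hi s hs
  have hint : Integrable F (∑ s ∈ S, μ s • (law μ).map (cons s)) :=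
    integrable_finsetSum_measure.mpr h1
  refine ⟨by rw [law_cons μ S hS]; exact hint, ?_⟩
  conv_lhs => rw [law_cons μ S hS]
  rw [integral_finsetSum_measure h1]
  apply Finset.sum_congr rfl
  intro s _
  rw [integral_smul_measure, integral_map (meas_cons s).aemeasurable hF.aestronglyMeasurable]
  rfl

end Pool.Agent.R986.AC
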