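import Mathlib
import Pool.Agent.R986.AC1

/-!
Potential theory of the simple random walk on `ℤ^4`: two sided bounds for the Green function by
explicit super- and subharmonic functions.
-/

namespace Pool.Agent.R986.AC

open Filter Topology

/-- the lattice `ℤ^4` -/
abbrev W := V 4

/-- unit vectors -/
def ee (i : Fin 4) : W := Pi.single i 1

/-- transition operator of the nearest neighbour walk with drift `ε/4` in direction `e_0` -/
noncomputable def Q (ε : ℝ) : (W → ℝ) →ₗ[ℝ] (W → ℝ) where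
  toFun f x := (∑ i : Fin 4, (f (x + ee i) + f (x - ee i))) / 8 +
    ε / 8 * (f (x + ee 0) - f (x - ee 0))
  map_add' f g := by
    funext x
    simp only [Fin.sum_univ_four, Pi.add_apply]
    ring
  map_smul' c f := by
    funext x
    simp only [Fin.sum_univ_four, Pi.smul_apply, smul_eq_mul, RingHom.id_apply]
    ring

lemma Q_apply (ε : ℝ) (f : W → ℝ) (x : W) :
    Q ε f x = (∑ i : Fin 4, (f (x + ee i) + f (x - ee i))) / 8 +
    ε / 8 * (f (x + ee 0) - f (x - ee 0)) := rfl

lemma Q0_apply (f : W → ℝ) (x : W) :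
    Q 0 f x = (∑ i : Fin 4, (f (x + ee i) + f (x - ee i))) / 8 := by
  rw [Q_apply]; ring

lemma Q_mono {ε : ℝ} (h0 : 0 ≤ ε) (h1 : ε ≤ 1) {f g : W → ℝ} (h : ∀ x, f x ≤ g x) (x : W) :
    Q ε f x ≤ Q ε g x := by
  rw [Q_apply, Q_apply]
  simp only [Fin.sum_univ_four]
  have a0 := h (x + ee 0)
  have b0 := h (x - ee 0)
  have a1 := h (x + ee 1)
  have b1 := h (x - ee 1)
  have a2 := h (x + ee 2)
  have b2 := h (x - ee 2)
  have a3 := h (x + ee 3)
  have b3 := h (x - ee 3)
  nlinarith [mul_nonneg h0 (sub_nonneg.mpr a0), mul_nonneg (sub_nonneg.mpr h1) (sub_nonneg.mpr b0)]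

lemma Q_const (ε c : ℝ) : Q ε (fun _ => c) = fun _ => c := by
  funext x
  rw [Q_apply]
  simp only [Fin.sum_univ_four]
  ring

lemma Qp_mono {ε : ℝ} (h0 : 0 ≤ ε) (h1 : ε ≤ 1) (n : ℕ) {f g : W → ℝ} (h : ∀ x, f x ≤ g x)
    (x : W) : (Q ε ^ n) f x ≤ (Q ε ^ n) g x := by
  induction n generalizing f g with
  | zero => simpa using h x
  | succ n ih =>
    rw [pow_succ, Module.End.mul_apply, Module.End.mul_apply]
    exact ih (Q_mono h0 h1 h)

lemma Qp_const (ε c : ℝ) (n : ℕ) : (Q ε ^ n) (fun _ => c) = fun _ => c := by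
  induction n with
  | zero => simp
  | succ n ih => rw [pow_succ, Module.End.mul_apply, Q_const, ih]

lemma Q_trans (ε : ℝ) (f : W → ℝ) (y : W) :
    Q ε (fun x => f (x - y)) = fun x => Q ε f (x - y) := by
  funext x
  simp only [Q_apply, Fin.sum_univ_four]
  have h1 : ∀ e : W, x + e - y = x - y + e := fun e => by abel
  have h2 : ∀ e : W, x - e - y = x - y - e := fun e => by abel
  simp only [h1, h2]

lemma Qp_trans (ε : ℝ) (n : ℕ) (f : W → ℝ) (y : W) :
    (Q ε ^ n) (fun x => f (x - y)) = fun x => (Q ε ^ n) f (x - y) := by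
  induction n generalizing f with
  | zero => simp
  | succ n ih =>
    rw [pow_succ, Module.End.mul_apply, Module.End.mul_apply, Q_trans, ih]

/-- squared norm -/
def nsq (x : W) : ℝ := ∑ i, (x i : ℝ) ^ 2

lemma nsq_nonneg (x : W) : 0 ≤ nsq x := Finset.sum_nonneg fun i _ => sq_nonneg _

lemma sq_le_nsq (x : W) (i : Fin 4) : (x i : ℝ) ^ 2 ≤ nsq x :=
  Finset.single_le_sum (f := fun i => (x i : ℝ) ^ 2) (fun i _ => sq_nonneg _) (Finset.mem_univ i)

lemma nsq_add (x : W) (i : Fin 4) : nsq (x + ee i) = nsq x + 1 + 2 * x i := by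
  unfold nsq ee
  fin_cases i <;> simp [Fin.sum_univ_four] <;> ring

lemma nsq_sub (x : W) (i : Fin 4) : nsq (x - ee i) = nsq x + 1 - 2 * x i := by
  unfold nsq ee
  fin_cases i <;> simp [Fin.sum_univ_four] <;> ring

/-- the superharmonic function -/
noncomputable def ff (x : W) : ℝ := 1 / (8 + nsq x)

lemma ff_pos (x : W) : 0 < ff x := by
  unfold ff
  have := nsq_nonneg x
  positivity

lemma ff_super (x : W) : Q 0 ff x ≤ ff x := by
  rw [Q0_apply]
  have hn := nsq_nonneg x
  set B : ℝ := 9 + nsq x with hB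
  have hB9 : 9 ≤ B := by linarith
  have hD : 0 < B ^ 2 - 4 * B + 36 := by nlinarith
  have key : ∀ i : Fin 4, ff (x + ee i) + ff (x - ee i) ≤
      2 / B * (1 + 4 * (x i : ℝ) ^ 2 / (B ^ 2 - 4 * B + 36)) := by
    intro i
    have hx : (x i : ℝ) ^ 2 ≤ B - 9 := by have := sq_le_nsq x i; linarith
    unfold ff
    rw [nsq_add, nsq_sub]
    have e1 : 8 + (nsq x + 1 + 2 * (x i : ℝ)) = B + 2 * x i := by rw [hB]; ring
    have e2 : 8 + (nsq x + 1 - 2 * (x i : ℝ)) = B - 2 * x i := by rw [hB]; ring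
    rw [e1, e2]
    set t : ℝ := (x i : ℝ) with ht
    have h4 : 0 < B ^ 2 - 4 * t ^ 2 := by nlinarith
    have hp1 : 0 < B + 2 * t := by
      by_contra hc
      push Not at hc
      nlinarith
    have hp2 : 0 < B - 2 * t := by
      by_contra hc
      push Not at hc
      nlinarith
    have e3 : 1 / (B + 2 * t) + 1 / (B - 2 * t) = 2 / B * (1 + 4 * t ^ 2 / (B ^ 2 - 4 * t ^ 2)) := by
      have h5 : B ^ 2 - 4 * t ^ 2 = (B + 2 * t) * (B - 2 * t) := by ring
      have hB0 : B ≠ 0 := by linarith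
      rw [h5]
      field_simp
      ring
    rw [e3]
    apply mul_le_mul_of_nonneg_left _ (by positivity)
    have h6 : 4 * t ^ 2 / (B ^ 2 - 4 * t ^ 2) ≤ 4 * t ^ 2 / (B ^ 2 - 4 * B + 36) := by
      apply div_le_div_of_nonneg_left (by positivity) hD
      nlinarith
    linarith
  have hsum : ∑ i : Fin 4, (ff (x + ee i) + ff (x - ee i)) ≤
      2 / B * (4 + 4 * (B - 9) / (B ^ 2 - 4 * B + 36)) := by
    refine (Finset.sum_le_sum fun i _ => key i).trans (le_of_eq ?_)
    rw [← Finset.mul_sum, Finset.sum_add_distrib, ← Finset.sum_div, ← Finset.mul_sum]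
    have : ∑ i : Fin 4, (x i : ℝ) ^ 2 = B - 9 := by
      have : nsq x = ∑ i : Fin 4, (x i : ℝ) ^ 2 := rfl
      rw [← this, hB]; ring
    rw [this]
    simp
  have hf : ff x = 1 / (B - 1) := by
    unfold ff
    rw [hB]
    congr 1
    ring
  rw [hf]
  have h7 : 4 * (B - 9) / (B ^ 2 - 4 * B + 36) ≤ 4 / (B - 1) := by
    rw [div_le_div_iff₀ hD (by linarith)]
    nlinarith
  have h8 : 2 / B * (4 + 4 * (B - 9) / (B ^ 2 - 4 * B + 36)) ≤ 2 / B * (4 + 4 / (B - 1)) :=
    mul_le_mul_of_nonneg_left (by linarith) (by positivity)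
  have h9 : 2 / B * (4 + 4 / (B - 1)) = 8 / (B - 1) := by
    have hB0 : B ≠ 0 := by linarith
    have hB1 : B - 1 ≠ 0 := by linarith
    field_simp
    ring
  rw [div_le_iff₀ (by norm_num)]
  calc ∑ i : Fin 4, (ff (x + ee i) + ff (x - ee i)) ≤ 8 / (B - 1) := by linarith
    _ = 1 / (B - 1) * 8 := by ring

/-- indicator of the origin -/
def dl (x : W) : ℝ := if x = 0 then 1 else 0

lemma dl_nonneg (x : W) : 0 ≤ dl x := by unfold dl; split_ifs <;> norm_num

lemma ff_zero : ff 0 - Q 0 ff 0 = 1 / 72 := by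
  rw [Q0_apply]
  unfold ff
  simp only [nsq_add, nsq_sub]
  have : nsq 0 = 0 := by simp [nsq]
  rw [this]
  simp only [Fin.sum_univ_four, Pi.zero_apply, Int.cast_zero]
  norm_num

lemma dl_le (x : W) : dl x ≤ 72 * (ff x - Q 0 ff x) := by
  unfold dl
  split_ifs with h
  · subst h
    rw [ff_zero]; norm_num
  · have := ff_super x
    linarith

/-- transition probabilities -/
noncomputable def q (n : ℕ) : W → ℝ := (Q 0 ^ n) dl

lemma q_nonneg (n : ℕ) (x : W) : 0 ≤ q n x := by
  have h := Qp_mono (ε := 0) le_rfl zero_le_one n (f := fun _ => 0) (g := dl) dl_nonneg x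
  rw [Qp_const] at h
  exact h

lemma Qp_ff_nonneg (n : ℕ) (x : W) : 0 ≤ (Q 0 ^ n) ff x := by
  have h := Qp_mono (ε := 0) le_rfl zero_le_one n (f := fun _ => 0) (g := ff)
    (fun x => (ff_pos x).le) x
  rw [Qp_const] at h
  exact h

lemma q_le (n : ℕ) (x : W) : q n x ≤ 72 * ((Q 0 ^ n) ff x - (Q 0 ^ (n + 1)) ff x) := by
  have h := Qp_mono (ε := 0) le_rfl zero_le_one n (f := dl) (g := (72 : ℝ) • (ff - Q 0 ff))
    (fun x => by simpa using dl_le x) x
  rw [map_smul, map_sub] at h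
  rw [pow_succ, Module.End.mul_apply]
  simpa [q] using h

lemma sum_q_le (M : ℕ) (x : W) : ∑ m ∈ Finset.range M, q m x ≤ 72 * ff x := by
  have h1 : ∑ m ∈ Finset.range M, q m x ≤ 72 * (ff x - (Q 0 ^ M) ff x) := by
    induction M with
    | zero => simp
    | succ M ih =>
      rw [Finset.sum_range_succ]
      have := q_le M x
      linarith
  have := Qp_ff_nonneg M x
  linarith

lemma q_summable (x : W) : Summable fun m => q m x :=
  summable_of_sum_range_le (fun m => q_nonneg m x) (fun M => sum_q_le M x)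

/-- the Green function of the simple random walk -/
noncomputable def G (x : W) : ℝ := ∑' m, q m x

lemma G_le (x : W) : G x ≤ 72 * ff x :=
  (q_summable x).tsum_le_of_sum_range_le (sum_q_le · x)

lemma sum_le_G (M : ℕ) (x : W) : ∑ m ∈ Finset.range M, q m x ≤ G x :=
  (q_summable x).sum_le_tsum _ (fun m _ => q_nonneg m x)

lemma G_nonneg (x : W) : 0 ≤ G x := tsum_nonneg fun m => q_nonneg m x

lemma q_tendsto (x : W) : Tendsto (fun m => q m x) atTop (𝓝 0) :=
  (q_summable x).tendsto_atTop_zero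

/-! ### Lower bound -/

/-- the function which is subharmonic away from the origin -/
noncomputable def gg (x : W) : ℝ := 1 / max (nsq x - 3) 1

lemma gg_pos (x : W) : 0 < gg x := by
  unfold gg
  have : (0 : ℝ) < max (nsq x - 3) 1 := lt_of_lt_of_le one_pos (le_max_right _ _)
  positivity

lemma gg_le_one (x : W) : gg x ≤ 1 := by
  unfold gg
  have : (1 : ℝ) ≤ max (nsq x - 3) 1 := le_max_right _ _
  rw [div_le_one (by linarith)]
  exact this

lemma gg_sub (x : W) (hx : 9 ≤ nsq x) : gg x ≤ Q 0 gg x := by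
  rw [Q0_apply]
  set B : ℝ := nsq x - 2 with hB
  have hB7 : 7 ≤ B := by linarith
  have key : ∀ i : Fin 4, 2 / B * (1 + 4 * (x i : ℝ) ^ 2 / B ^ 2) ≤
      gg (x + ee i) + gg (x - ee i) := by
    intro i
    have hxi : (x i : ℝ) ^ 2 ≤ B + 2 := by have := sq_le_nsq x i; linarith
    set t : ℝ := (x i : ℝ) with ht
    have hab : ∀ u : ℝ, u ^ 2 ≤ B + 2 → 1 ≤ B - 2 * u := by
      intro u hu
      by_cases h3 : u ≤ 3
      · linarith
      · push Not at h3
        nlinarith
    have h1 : 1 ≤ B - 2 * t := hab t hxi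
    have h2 : 1 ≤ B + 2 * t := by
      have := hab (-t) (by rw [neg_sq]; exact hxi)
      linarith
    unfold gg
    rw [nsq_add, nsq_sub]
    have e1 : nsq x + 1 + 2 * (x i : ℝ) - 3 = B + 2 * t := by rw [hB]; ring
    have e2 : nsq x + 1 - 2 * (x i : ℝ) - 3 = B - 2 * t := by rw [hB]; ring
    rw [e1, e2, max_eq_left h1, max_eq_left h2]
    have hp1 : 0 < B + 2 * t := by linarith
    have hp2 : 0 < B - 2 * t := by linarith
    have h4 : 0 < B ^ 2 - 4 * t ^ 2 := by nlinarith [mul_pos hp1 hp2]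
    have e3 : 1 / (B + 2 * t) + 1 / (B - 2 * t) = 2 / B * (1 + 4 * t ^ 2 / (B ^ 2 - 4 * t ^ 2)) := by
      have h5 : B ^ 2 - 4 * t ^ 2 = (B + 2 * t) * (B - 2 * t) := by ring
      have hB0 : B ≠ 0 := by linarith
      rw [h5]
      field_simp
      ring
    rw [e3]
    apply mul_le_mul_of_nonneg_left _ (by positivity)
    have h6 : 4 * t ^ 2 / B ^ 2 ≤ 4 * t ^ 2 / (B ^ 2 - 4 * t ^ 2) := by
      apply div_le_div_of_nonneg_left (by positivity) h4
      nlinarith
    linarith
  have hsum : 2 / B * (4 + 4 * (B + 2) / B ^ 2) ≤ ∑ i : Fin 4, (gg (x + ee i) + gg (x - ee i)) := by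
    refine le_trans (le_of_eq ?_) (Finset.sum_le_sum fun i _ => key i)
    rw [← Finset.mul_sum, Finset.sum_add_distrib, ← Finset.sum_div, ← Finset.mul_sum]
    have : ∑ i : Fin 4, (x i : ℝ) ^ 2 = B + 2 := by
      have : nsq x = ∑ i : Fin 4, (x i : ℝ) ^ 2 := rfl
      rw [← this, hB]; ring
    rw [this]
    simp
  have hf : gg x = 1 / (B - 1) := by
    unfold gg
    rw [max_eq_left (by linarith), hB]
    congr 1
    ring
  rw [hf, le_div_iff₀ (by norm_num)]
  have h7 : 4 / (B - 1) ≤ 4 * (B + 2) / B ^ 2 := by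
    rw [div_le_div_iff₀ (by linarith) (by positivity)]
    nlinarith
  have h8 : 2 / B * (4 + 4 / (B - 1)) ≤ 2 / B * (4 + 4 * (B + 2) / B ^ 2) :=
    mul_le_mul_of_nonneg_left (by linarith) (by positivity)
  have h9 : 2 / B * (4 + 4 / (B - 1)) = 8 / (B - 1) := by
    have hB0 : B ≠ 0 := by linarith
    have hB1 : B - 1 ≠ 0 := by linarith
    field_simp
    ring
  calc 1 / (B - 1) * 8 = 8 / (B - 1) := by ring
    _ ≤ _ := by linarith

/-- a cube -/
noncomputable def cube (k : ℕ) : Finset W := Fintype.piFinset fun _ => Finset.Icc (-(k : ℤ)) k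

lemma nsq_of_not_mem_cube (k : ℕ) (x : W) (h : x ∉ cube k) : ((k : ℝ) + 1) ^ 2 ≤ nsq x := by
  unfold cube at h
  rw [Fintype.mem_piFinset] at h
  push Not at h
  obtain ⟨i, hi⟩ := h
  rw [Finset.mem_Icc, not_and_or] at hi
  refine le_trans ?_ (sq_le_nsq x i)
  have h2 : ((k : ℝ) + 1) ^ 2 = (((k : ℤ) + 1 : ℤ) : ℝ) ^ 2 := by push_cast; ring
  rw [h2]
  rcases hi with hi | hi
  · have h3 : (k : ℤ) + 1 ≤ -(x i) := by omega
    have h4 : (((k : ℤ) + 1 : ℤ) : ℝ) ≤ -(x i : ℝ) := by exact_mod_cast h3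
    have h5 : (0 : ℝ) ≤ (((k : ℤ) + 1 : ℤ) : ℝ) := by positivity
    nlinarith
  · have h3 : (k : ℤ) + 1 ≤ x i := by omega
    have h4 : (((k : ℤ) + 1 : ℤ) : ℝ) ≤ (x i : ℝ) := by exact_mod_cast h3
    have h5 : (0 : ℝ) ≤ (((k : ℤ) + 1 : ℤ) : ℝ) := by positivity
    nlinarith

/-- indicator of a finite set -/
def ind (A : Finset W) (x : W) : ℝ := if x ∈ A then 1 else 0

lemma ind_eq_sum (A : Finset W) : ind A = ∑ y ∈ A, fun x => dl (x - y) := by
  funext x
  rw [Finset.sum_apply]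
  unfold ind dl
  have : ∀ y ∈ A, (if x - y = 0 then (1 : ℝ) else 0) = if y = x then 1 else 0 := by
    intro y _
    by_cases h : y = x
    · subst h; simp
    · have : x - y ≠ 0 := fun h2 => h (sub_eq_zero.mp h2).symm
      simp [h, this]
  rw [Finset.sum_congr rfl this, Finset.sum_ite_eq']

lemma Qp_ind (A : Finset W) (n : ℕ) (x : W) : (Q 0 ^ n) (ind A) x = ∑ y ∈ A, q n (x - y) := by
  rw [ind_eq_sum, map_sum, Finset.sum_apply]
  apply Finset.sum_congr rfl
  intro y _
  rw [Qp_trans]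
  rfl

lemma gg_diff (x : W) : gg x - Q 0 gg x ≤ ind (cube 2) x := by
  by_cases h : x ∈ cube 2
  · unfold ind
    rw [if_pos h]
    have h1 := Q_mono (ε := 0) le_rfl zero_le_one (f := fun _ => 0) (g := gg)
      (fun x => (gg_pos x).le) x
    rw [Q_const] at h1
    have := gg_le_one x
    linarith
  · unfold ind
    rw [if_neg h]
    have h2 := nsq_of_not_mem_cube 2 x h
    norm_num at h2
    have := gg_sub x h2
    linarith

lemma gg_small (η : ℝ) (hη : 0 < η) : ∃ k : ℕ, ∀ x, gg x ≤ η + ind (cube k) x := by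
  obtain ⟨k, hk⟩ := exists_nat_gt (3 + 1 / η)
  refine ⟨k, fun x => ?_⟩
  by_cases h : x ∈ cube k
  · unfold ind
    rw [if_pos h]
    have := gg_le_one x
    linarith
  · unfold ind
    rw [if_neg h, add_zero]
    have h2 := nsq_of_not_mem_cube k x h
    have hη' : 0 < 1 / η := by positivity
    have h3 : 3 + 1 / η ≤ nsq x := by nlinarith
    unfold gg
    have h4 : 1 / η ≤ max (nsq x - 3) 1 := le_trans (by linarith) (le_max_left _ _)
    have h5 := one_div_le_one_div_of_le hη' h4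
    simpa using h5

lemma Qp_gg_tendsto (x : W) : Tendsto (fun n => (Q 0 ^ n) gg x) atTop (𝓝 0) := by
  rw [Metric.tendsto_atTop]
  intro η hη
  obtain ⟨k, hk⟩ := gg_small (η / 2) (by linarith)
  have h1 : Tendsto (fun n => ∑ y ∈ cube k, q n (x - y)) atTop (𝓝 (∑ y ∈ cube k, (0 : ℝ))) :=
    tendsto_finsetSum _ fun y _ => q_tendsto (x - y)
  simp only [Finset.sum_const_zero] at h1
  rw [Metric.tendsto_atTop] at h1
  obtain ⟨N, hN⟩ := h1 (η / 2) (by linarith)
  refine ⟨N, fun n hn => ?_⟩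
  have h2 := hN n hn
  rw [Real.dist_eq, sub_zero] at h2
  have h3 : (Q 0 ^ n) gg x ≤ η / 2 + ∑ y ∈ cube k, q n (x - y) := by
    have h4 := Qp_mono (ε := 0) le_rfl zero_le_one n (f := gg)
      (g := (fun _ => η / 2) + ind (cube k)) (fun x => by simpa using hk x) x
    rw [map_add, Pi.add_apply, Qp_const, Qp_ind] at h4
    exact h4
  have h5 : 0 ≤ (Q 0 ^ n) gg x := by
    have h := Qp_mono (ε := 0) le_rfl zero_le_one n (f := fun _ => 0) (g := gg)
      (fun x => (gg_pos x).le) x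
    rw [Qp_const] at h
    exact h
  rw [Real.dist_eq, sub_zero, abs_of_nonneg h5]
  have h6 := le_abs_self (∑ y ∈ cube k, q n (x - y))
  linarith

lemma gg_le_sum (x : W) : gg x ≤ ∑ y ∈ cube 2, G (x - y) := by
  have h1 : ∀ N : ℕ, gg x - (Q 0 ^ N) gg x ≤ ∑ y ∈ cube 2, G (x - y) := by
    intro N
    have h2 : gg x - (Q 0 ^ N) gg x ≤ ∑ m ∈ Finset.range N, ∑ y ∈ cube 2, q m (x - y) := by
      induction N with
      | zero => simp
      | succ N ih =>
        rw [Finset.sum_range_succ]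
        have h3 := Qp_mono (ε := 0) le_rfl zero_le_one N (f := gg - Q 0 gg)
          (g := ind (cube 2)) (fun x => by simpa using gg_diff x) x
        rw [map_sub, Pi.sub_apply, Qp_ind] at h3
        have h4 : (Q 0 ^ (N + 1)) gg x = (Q 0 ^ N) (Q 0 gg) x := by
          rw [pow_succ, Module.End.mul_apply]
        rw [h4]
        linarith
    refine h2.trans ?_
    rw [Finset.sum_comm]
    exact Finset.sum_le_sum fun y _ => sum_le_G N (x - y)
  have h2 := Qp_gg_tendsto x
  have h3 : Tendsto (fun N => gg x - (Q 0 ^ N) gg x) atTop (𝓝 (gg x - 0)) :=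
    tendsto_const_nhds.sub h2
  rw [sub_zero] at h3
  exact le_of_tendsto' h3 h1

lemma q_succ (m : ℕ) (x : W) : q (m + 1) x = Q 0 (q m) x := by
  unfold q
  rw [pow_succ', Module.End.mul_apply]

lemma q_succ_ge (m : ℕ) (x : W) (i : Fin 4) :
    q m (x + ee i) ≤ 8 * q (m + 1) x ∧ q m (x - ee i) ≤ 8 * q (m + 1) x := by
  rw [q_succ, Q0_apply]
  have h : q m (x + ee i) + q m (x - ee i) ≤ ∑ j : Fin 4, (q m (x + ee j) + q m (x - ee j)) :=
    Finset.single_le_sum (f := fun j => q m (x + ee j) + q m (x - ee j))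
      (fun j _ => add_nonneg (q_nonneg _ _) (q_nonneg _ _)) (Finset.mem_univ i)
  have h1 := q_nonneg m (x + ee i)
  have h2 := q_nonneg m (x - ee i)
  constructor <;> linarith

lemma G_shift (x : W) (i : Fin 4) : G (x + ee i) ≤ 8 * G x ∧ G (x - ee i) ≤ 8 * G x := by
  have hs : Summable fun m => q (m + 1) x := (summable_nat_add_iff 1).mpr (q_summable x)
  have h1 : ∑' m, q (m + 1) x ≤ G x := by
    have := (q_summable x).tsum_eq_zero_add
    have h0 := q_nonneg 0 x
    unfold G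
    linarith
  have h2 : G (x + ee i) ≤ ∑' m, 8 * q (m + 1) x :=
    (q_summable _).tsum_le_tsum (fun m => (q_succ_ge m x i).1) (hs.mul_left 8)
  have h3 : G (x - ee i) ≤ ∑' m, 8 * q (m + 1) x :=
    (q_summable _).tsum_le_tsum (fun m => (q_succ_ge m x i).2) (hs.mul_left 8)
  rw [tsum_mul_left] at h2 h3
  constructor <;> linarith

/-- shifts by `y` are harmless -/
def Good (y : W) : Prop := ∃ C : ℝ, 0 < C ∧ ∀ x, G (x + y) ≤ C * G x

lemma good_zero : Good 0 := ⟨1, one_pos, fun x => by simp⟩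

lemma good_add {y z : W} (hy : Good y) (hz : Good z) : Good (y + z) := by
  obtain ⟨C, hC, h1⟩ := hy
  obtain ⟨D, hD, h2⟩ := hz
  refine ⟨D * C, by positivity, fun x => ?_⟩
  rw [← add_assoc]
  calc G (x + y + z) ≤ D * G (x + y) := h2 _
    _ ≤ D * (C * G x) := mul_le_mul_of_nonneg_left (h1 x) hD.le
    _ = _ := by ring

lemma good_e (i : Fin 4) : Good (ee i) := ⟨8, by norm_num, fun x => (G_shift x i).1⟩

lemma good_ne (i : Fin 4) : Good (-ee i) :=
  ⟨8, by norm_num, fun x => by rw [← sub_eq_add_neg]; exact (G_shift x i).2⟩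

lemma good_nsmul {y : W} (hy : Good y) (n : ℕ) : Good (n • y) := by
  induction n with
  | zero => simpa using good_zero
  | succ n ih => rw [succ_nsmul]; exact good_add ih hy

lemma good_all (y : W) : Good y := by
  have h1 : y = ∑ i : Fin 4, (y i) • ee i := by
    funext j
    rw [Finset.sum_apply]
    simp only [Pi.smul_apply, ee, smul_eq_mul, Pi.single_apply, mul_ite, mul_one, mul_zero]
    simp
  rw [h1]
  have h2 : ∀ s : Finset (Fin 4), Good (∑ i ∈ s, (y i) • ee i) := by
    intro s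
    classical
    induction s using Finset.induction_on with
    | empty => simpa using good_zero
    | insert a s ha ih =>
      rw [Finset.sum_insert ha]
      refine good_add ?_ ih
      rcases Int.natAbs_eq (y a) with h | h
      · rw [h, natCast_zsmul]
        exact good_nsmul (good_e a) _
      · rw [h, neg_zsmul, natCast_zsmul, ← neg_nsmul]
        exact good_nsmul (good_ne a) _
  exact h2 _

/-- lower bound for the Green function -/
theorem G_lower : ∃ c : ℝ, 0 < c ∧ ∀ x, c / (8 + nsq x) ≤ G x := by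
  choose C hC h using good_all
  set D : ℝ := ∑ y ∈ cube 2, C (-y) with hD
  have hne : (cube 2).Nonempty := ⟨0, by
    unfold cube
    rw [Fintype.mem_piFinset]
    intro i
    simp⟩
  have hD0 : 0 < D := Finset.sum_pos (fun y _ => hC _) hne
  refine ⟨1 / D, by positivity, fun x => ?_⟩
  have h1 : gg x ≤ D * G x := by
    refine (gg_le_sum x).trans ?_
    rw [hD, Finset.sum_mul]
    apply Finset.sum_le_sum
    intro y _
    rw [sub_eq_add_neg]
    exact h (-y) x
  have h2 : 1 / (8 + nsq x) ≤ gg x := by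
    unfold gg
    apply one_div_le_one_div_of_le
    · exact lt_of_lt_of_le one_pos (le_max_right _ _)
    · have := nsq_nonneg x
      apply max_le <;> linarith
  rw [div_div, mul_comm, ← div_div, div_le_iff₀ hD0]
  linarith

end Pool.Agent.R986.AC
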