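import Mathlib
import Pool.Agent.R986.AC2

/-!
First step analysis for the walk with drift, and the energy lower bound for the capacity of a
nonreversible walk in terms of the Green function of the simple random walk.
-/

namespace Pool.Agent.R986.AC

open MeasureTheory Filter Topology

/-- the steps `± e_i` -/
def dirs : Finset W := (Finset.univ.image ee) ∪ (Finset.univ.image fun i => -ee i)

lemma ee_inj : Function.Injective ee := by
  intro i j h
  unfold ee at h
  by_contra hne
  have := congrFun h i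
  simp [hne] at this

lemma ee_ne_neg (i j : Fin 4) : ee i ≠ -ee j := by
  intro h
  have := congrFun h i
  unfold ee at this
  simp only [Pi.single_eq_same, Pi.neg_apply, Pi.single_apply] at this
  split_ifs at this
  omega

lemma sum_dirs (f : W → ℝ) : ∑ s ∈ dirs, f s = ∑ i : Fin 4, (f (ee i) + f (-ee i)) := by
  unfold dirs
  rw [Finset.sum_union]
  · rw [Finset.sum_image (fun i _ j _ h => ee_inj h),
      Finset.sum_image (fun i _ j _ h => ee_inj (neg_injective h)), Finset.sum_add_distrib]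
  · rw [Finset.disjoint_left]
    intro x hx hy
    rw [Finset.mem_image] at hx hy
    obtain ⟨i, _, rfl⟩ := hx
    obtain ⟨j, _, hj⟩ := hy
    exact ee_ne_neg i j hj.symm

/-- `μ` is the nearest neighbour law with weights `(1 ± ε)/8` on `± e_0` and `1/8` on the other
unit vectors -/
def IsW (μ : PMF W) (ε : ℝ) : Prop :=
  (∀ s, s ∉ dirs → μ s = 0) ∧
  (∀ i : Fin 4, (μ (ee i)).toReal = if i = 0 then (1 + ε) / 8 else 1 / 8) ∧
  (∀ i : Fin 4, (μ (-ee i)).toReal = if i = 0 then (1 - ε) / 8 else 1 / 8)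

variable {μ : PMF W} {ε : ℝ}

lemma Qsum (hμ : IsW μ ε) (h : W → ℝ) (x : W) :
    ∑ s ∈ dirs, (μ s).toReal * h (x + s) = Q ε h x := by
  rw [sum_dirs (fun s => (μ s).toReal * h (x + s)), Q_apply]
  simp only [hμ.2.1, hμ.2.2, Fin.sum_univ_four]
  simp only [if_true, Fin.isValue, one_ne_zero, if_false, sub_eq_add_neg]
  have h2 : ((2 : Fin 4) = 0) = False := by simp
  have h3 : ((3 : Fin 4) = 0) = False := by simp
  simp only [h2, h3, if_false]
  ring

lemma walk_int (hμ : IsW μ ε) (f : W → ℝ) (n : ℕ) (x : W) :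
    Integrable (fun ω => f (x + pos ω n)) (law μ) ∧
    ∫ ω, f (x + pos ω n) ∂(law μ) = (Q ε ^ n) f x := by
  induction n generalizing x with
  | zero => simp [pos_zero]
  | succ n ih =>
    have h1 : ∀ s ω, f (x + pos (cons s ω) (n + 1)) = f (x + s + pos ω n) := by
      intro s ω
      rw [pos_cons, add_assoc]
    have h2 := integral_cons μ dirs hμ.1 (fun ω => f (x + pos ω (n + 1)))
      (meas_pos (n + 1) (fun y => f (x + y)))
      (fun s _ => by simp only [h1]; exact (ih (x + s)).1)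
    refine ⟨h2.1, ?_⟩
    rw [h2.2]
    simp only [h1, (ih _).2]
    rw [Qsum hμ, pow_succ', Module.End.mul_apply]

/-- probability of avoiding `A` at times `1, ..., n` -/
noncomputable def av (μ : PMF W) (A : Finset W) (n : ℕ) (x : W) : ℝ :=
  (law μ).real {ω | ∀ m : ℕ, 1 ≤ m → m ≤ n → x + pos ω m ∉ A}

lemma meas_av (A : Finset W) (n : ℕ) (x : W) :
    MeasurableSet {ω : ℕ → W | ∀ m : ℕ, 1 ≤ m → m ≤ n → x + pos ω m ∉ A} := by
  have h : Measurable fun ω : ℕ → W => ∀ m : ℕ, 1 ≤ m → m ≤ n → x + pos ω m ∉ A := by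
    apply meas_dep n
    intro ω ω' h
    have h2 : ∀ m ≤ n, pos ω m = pos ω' m := fun m hm => pos_congr m fun i hi => h i (by omega)
    apply propext
    constructor
    · intro h3 m h1 hm
      rw [← h2 m hm]
      exact h3 m h1 hm
    · intro h3 m h1 hm
      rw [h2 m hm]
      exact h3 m h1 hm
  exact measurableSet_setOfPred.mpr h

lemma av_zero (A : Finset W) (x : W) : av μ A 0 x = 1 := by
  unfold av
  have : {ω : ℕ → W | ∀ m : ℕ, 1 ≤ m → m ≤ 0 → x + pos ω m ∉ A} = Set.univ := by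
    ext ω
    simp only [Set.mem_ofPred_eq, Set.mem_univ, iff_true]
    intro m h1 h2
    omega
  rw [this]
  simp

lemma av_succ (hμ : IsW μ ε) (A : Finset W) (n : ℕ) (x : W) :
    av μ A (n + 1) x = Q ε (fun z => if z ∈ A then 0 else av μ A n z) x := by
  rw [← Qsum hμ]
  unfold av
  rw [← integral_indicator_one (meas_av A (n + 1) x)]
  have hcons : ∀ s ω, ({ω : ℕ → W | ∀ m : ℕ, 1 ≤ m → m ≤ n + 1 → x + pos ω m ∉ A}).indicator
      (1 : (ℕ → W) → ℝ) (cons s ω) = if x + s ∈ A then 0 else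
      ({ω : ℕ → W | ∀ m : ℕ, 1 ≤ m → m ≤ n → x + s + pos ω m ∉ A}).indicator 1 ω := by
    intro s ω
    by_cases hs : x + s ∈ A
    · rw [if_pos hs]
      apply Set.indicator_of_notMem
      simp only [Set.mem_ofPred_eq]
      intro h
      apply h 1 le_rfl (by omega)
      rw [pos_cons s ω 0, pos_zero, add_zero]
      exact hs
    · rw [if_neg hs]
      apply Set.indicator_eq_indicator
      · simp only [Set.mem_ofPred_eq]
        constructor
        · intro h m h1 hm
          have := h (m + 1) (by omega) (by omega)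
          rwa [pos_cons, ← add_assoc] at this
        · intro h m h1 hm
          cases m with
          | zero => omega
          | succ m =>
            rw [pos_cons, ← add_assoc]
            cases m with
            | zero => rwa [pos_zero, add_zero]
            | succ m => exact h (m + 1) (by omega) (by omega)
      · rfl
  have h2 := integral_cons μ dirs hμ.1
    (({ω : ℕ → W | ∀ m : ℕ, 1 ≤ m → m ≤ n + 1 → x + pos ω m ∉ A}).indicator 1)
    (measurable_one.indicator (meas_av A (n + 1) x)) (by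
      intro s _
      simp only [hcons]
      by_cases hs : x + s ∈ A
      · simp [hs]
      · simp only [if_neg hs]
        exact (integrable_const (1 : ℝ)).indicator (meas_av A n (x + s)))
  rw [h2.2]
  apply Finset.sum_congr rfl
  intro s _
  congr 1
  simp only [hcons]
  by_cases hs : x + s ∈ A
  · simp [hs]
  · simp only [if_neg hs]
    rw [integral_indicator_one (meas_av A n (x + s))]

lemma av_tendsto (A : Finset W) (x : W) :
    Tendsto (fun n => av μ A n x) atTop (𝓝 (esc μ A x)) := by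
  have hE : {ω : ℕ → W | ∀ m : ℕ, 1 ≤ m → x + pos ω m ∉ A} =
      ⋂ n : ℕ, {ω : ℕ → W | ∀ m : ℕ, 1 ≤ m → m ≤ n → x + pos ω m ∉ A} := by
    ext ω
    simp only [Set.mem_iInter, Set.mem_ofPred_eq]
    constructor
    · intro h n m h1 _
      exact h m h1
    · intro h m h1
      exact h m m h1 le_rfl
  unfold av esc
  rw [hE]
  have h := tendsto_measure_iInter_atTop (μ := law μ)
    (s := fun n : ℕ => {ω : ℕ → W | ∀ m : ℕ, 1 ≤ m → m ≤ n → x + pos ω m ∉ A})
    (fun n => (meas_av A n x).nullMeasurableSet)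
    (fun a b hab ω hω m h1 hm => hω m h1 (hm.trans hab))
    ⟨0, measure_ne_top _ _⟩
  exact (ENNReal.tendsto_toReal (measure_ne_top _ _)).comp h

lemma esc_step (hμ : IsW μ ε) (A : Finset W) (x : W) :
    esc μ A x = Q ε (fun z => if z ∈ A then 0 else esc μ A z) x := by
  have h1 := (tendsto_add_atTop_iff_nat 1).mpr (av_tendsto (μ := μ) A x)
  have h2 : Tendsto (fun n => Q ε (fun z => if z ∈ A then 0 else av μ A n z) x) atTop
      (𝓝 (Q ε (fun z => if z ∈ A then 0 else esc μ A z) x)) := by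
    have h3 : ∀ z, Tendsto (fun n => (if z ∈ A then (0 : ℝ) else av μ A n z)) atTop
        (𝓝 (if z ∈ A then 0 else esc μ A z)) := by
      intro z
      by_cases hz : z ∈ A
      · simp [hz]
      · simp only [hz, if_false]
        exact av_tendsto A z
    simp only [Q_apply]
    apply Tendsto.add
    · apply Tendsto.div_const
      exact tendsto_finsetSum _ fun i _ => (h3 _).add (h3 _)
    · exact ((h3 _).sub (h3 _)).const_mul _
  have h4 : (fun n => av μ A (n + 1) x) =
      fun n => Q ε (fun z => if z ∈ A then 0 else av μ A n z) x := by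
    funext n
    exact av_succ hμ A n x
  rw [h4] at h1
  exact tendsto_nhds_unique h1 h2

/-! ### The hitting functions -/

/-- `P_x[H_A ≤ n]` -/
noncomputable def hit (ε : ℝ) (A : Finset W) : ℕ → W → ℝ
  | 0 => ind A
  | n + 1 => fun x => if x ∈ A then 1 else Q ε (hit ε A n) x

lemma hit_mem (A : Finset W) (n : ℕ) (x : W) (hx : x ∈ A) : hit ε A n x = 1 := by
  cases n with
  | zero => simp [hit, ind, hx]
  | succ n => simp [hit, hx]

lemma hit_not_mem (A : Finset W) (n : ℕ) (x : W) (hx : x ∉ A) :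
    hit ε A (n + 1) x = Q ε (hit ε A n) x := by
  simp [hit, hx]

lemma hit_bounds (h0 : 0 ≤ ε) (h1 : ε ≤ 1) (A : Finset W) (n : ℕ) (x : W) :
    0 ≤ hit ε A n x ∧ hit ε A n x ≤ 1 := by
  induction n generalizing x with
  | zero =>
    simp only [hit, ind]
    split_ifs <;> norm_num
  | succ n ih =>
    by_cases hx : x ∈ A
    · rw [hit_mem A _ x hx]; norm_num
    · rw [hit_not_mem A n x hx]
      constructor
      · have := Q_mono h0 h1 (f := fun _ => 0) (g := hit ε A n) (fun z => (ih z).1) x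
        rw [Q_const] at this
        exact this
      · have := Q_mono h0 h1 (g := fun _ => 1) (f := hit ε A n) (fun z => (ih z).2) x
        rw [Q_const] at this
        exact this

lemma hit_mono (h0 : 0 ≤ ε) (h1 : ε ≤ 1) (A : Finset W) (n : ℕ) (x : W) :
    hit ε A n x ≤ hit ε A (n + 1) x := by
  induction n generalizing x with
  | zero =>
    by_cases hx : x ∈ A
    · rw [hit_mem A _ x hx, hit_mem A _ x hx]
    · have h2 := (hit_bounds h0 h1 A 1 x).1
      have : hit ε A 0 x = 0 := by simp [hit, ind, hx]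
      rw [this]
      exact h2
  | succ n ih =>
    by_cases hx : x ∈ A
    · rw [hit_mem A _ x hx, hit_mem A _ x hx]
    · rw [hit_not_mem A n x hx, hit_not_mem A (n + 1) x hx]
      exact Q_mono h0 h1 ih x

lemma one_sub_hit (hμ : IsW μ ε) (A : Finset W) (n : ℕ) (x : W) :
    1 - hit ε A n x = if x ∈ A then 0 else av μ A n x := by
  induction n generalizing x with
  | zero =>
    by_cases hx : x ∈ A
    · simp [hx, hit_mem A 0 x hx]
    · simp [hx, av_zero, hit, ind]
  | succ n ih =>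
    by_cases hx : x ∈ A
    · simp [hx, hit_mem A (n + 1) x hx]
    · rw [if_neg hx, hit_not_mem A n x hx, av_succ hμ]
      have h2 : (fun z => if z ∈ A then 0 else av μ A n z) = (fun _ => (1 : ℝ)) - hit ε A n := by
        funext z
        rw [Pi.sub_apply, ih z]
      rw [h2, map_sub, Pi.sub_apply, Q_const]

lemma av_eq (hμ : IsW μ ε) (A : Finset W) (n : ℕ) (x : W) :
    av μ A (n + 1) x = 1 - Q ε (hit ε A n) x := by
  rw [av_succ hμ]
  have h2 : (fun z => if z ∈ A then 0 else av μ A n z) = (fun _ => (1 : ℝ)) - hit ε A n := by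
    funext z
    rw [Pi.sub_apply, one_sub_hit hμ]
  rw [h2, map_sub, Pi.sub_apply, Q_const]

/-! ### Bilinear form on finitely supported functions -/

/-- finite support -/
def FS (f : W → ℝ) : Prop := (Function.support f).Finite

/-- pairing -/
noncomputable def ip (f g : W → ℝ) : ℝ := ∑' x, f x * g x

lemma fs_summable {f : W → ℝ} (hf : FS f) (g : W → ℝ) : Summable fun x => f x * g x := by
  apply summable_of_hasFiniteSupport
  apply hf.subset
  intro x hx hx2
  exact hx (by simp [hx2])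

lemma ip_comm (f g : W → ℝ) : ip f g = ip g f := by
  unfold ip
  simp only [mul_comm]

lemma ip_add {f : W → ℝ} (hf : FS f) (g h : W → ℝ) : ip f (g + h) = ip f g + ip f h := by
  unfold ip
  rw [← (fs_summable hf g).tsum_add (fs_summable hf h)]
  simp only [Pi.add_apply, mul_add]

lemma ip_sub {f : W → ℝ} (hf : FS f) (g h : W → ℝ) : ip f (g - h) = ip f g - ip f h := by
  unfold ip
  rw [← (fs_summable hf g).tsum_sub (fs_summable hf h)]
  simp only [Pi.sub_apply, mul_sub]

lemma ip_smul (f : W → ℝ) (c : ℝ) (g : W → ℝ) : ip f (c • g) = c * ip f g := by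
  unfold ip
  rw [← tsum_mul_left]
  simp only [Pi.smul_apply, smul_eq_mul]
  congr 1
  funext x
  ring

lemma ip_sum {ι : Type*} {f : W → ℝ} (hf : FS f) (s : Finset ι) (g : ι → W → ℝ) :
    ip f (∑ i ∈ s, g i) = ∑ i ∈ s, ip f (g i) := by
  classical
  induction s using Finset.induction_on with
  | empty => simp [ip]
  | insert a s ha ih => rw [Finset.sum_insert ha, Finset.sum_insert ha, ip_add hf, ih]

lemma fs_add {f g : W → ℝ} (hf : FS f) (hg : FS g) : FS (f + g) :=
  (hf.union hg).subset (Function.support_add f g)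

lemma fs_smul (c : ℝ) {f : W → ℝ} (hf : FS f) : FS (c • f) :=
  hf.subset (Function.support_const_smul_subset c f)

lemma fs_sub {f g : W → ℝ} (hf : FS f) (hg : FS g) : FS (f - g) :=
  (hf.union hg).subset (Function.support_sub f g)

lemma fs_sum {ι : Type*} (s : Finset ι) (g : ι → W → ℝ) (h : ∀ i ∈ s, FS (g i)) :
    FS (∑ i ∈ s, g i) := by
  classical
  induction s using Finset.induction_on with
  | empty => simp [FS]
  | insert a s ha ih =>
    rw [Finset.sum_insert ha]
    exact fs_add (h a (Finset.mem_insert_self a s))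
      (ih fun i hi => h i (Finset.mem_insert_of_mem hi))

/-- translation -/
def T (y : W) (f : W → ℝ) : W → ℝ := fun x => f (x + y)

lemma fs_T {f : W → ℝ} (hf : FS f) (y : W) : FS (T y f) := by
  have : Function.support (T y f) = (fun x => x + y) ⁻¹' Function.support f := by
    ext x; simp [T]
  unfold FS
  rw [this]
  exact hf.preimage (fun a _ b _ h => add_right_cancel h)

lemma ip_T (f g : W → ℝ) (y : W) : ip f (T y g) = ip (T (-y) f) g := by
  unfold ip T
  rw [← (Equiv.addRight y).tsum_eq (fun x => f (x + -y) * g x)]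
  simp

lemma ip_T_symm (f : W → ℝ) (y : W) : ip f (T (-y) f) = ip f (T y f) := by
  rw [ip_T, neg_neg, ip_comm]

lemma Q_eq (ε : ℝ) (f : W → ℝ) : Q ε f = (1 / 8 : ℝ) • (∑ i : Fin 4, (T (ee i) f + T (-ee i) f)) +
    (ε / 8) • (T (ee 0) f - T (-ee 0) f) := by
  funext x
  rw [Q_apply]
  simp only [Fin.sum_univ_four, Pi.add_apply, Pi.smul_apply, Pi.sub_apply, smul_eq_mul, T]
  simp only [sub_eq_add_neg]
  ring

lemma fs_Q {f : W → ℝ} (hf : FS f) (ε : ℝ) : FS (Q ε f) := by
  rw [Q_eq]
  refine fs_add (fs_smul _ (fs_sum _ _ fun i _ => fs_add (fs_T hf _) (fs_T hf _)))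
    (fs_smul _ (fs_sub (fs_T hf _) (fs_T hf _)))

lemma fs_Qp {f : W → ℝ} (hf : FS f) (ε : ℝ) (n : ℕ) : FS ((Q ε ^ n) f) := by
  induction n with
  | zero => simpa using hf
  | succ n ih => rw [pow_succ', Module.End.mul_apply]; exact fs_Q ih ε

lemma ip_Q {f : W → ℝ} (hf : FS f) (ε : ℝ) (g : W → ℝ) : ip f (Q ε g) =
    (1 / 8) * (∑ i : Fin 4, (ip f (T (ee i) g) + ip f (T (-ee i) g))) +
    (ε / 8) * (ip f (T (ee 0) g) - ip f (T (-ee 0) g)) := by
  rw [Q_eq, ip_add hf, ip_smul, ip_smul, ip_sum hf, ip_sub hf]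
  simp only [ip_add hf]

lemma ip_Q_self {f : W → ℝ} (hf : FS f) (ε : ℝ) : ip f (Q ε f) = ip f (Q 0 f) := by
  rw [ip_Q hf, ip_Q hf]
  have := ip_T_symm f (ee 0)
  rw [this]
  ring

lemma ip_Q0_symm {f g : W → ℝ} (hf : FS f) (hg : FS g) : ip f (Q 0 g) = ip (Q 0 f) g := by
  rw [ip_comm (Q 0 f) g, ip_Q hf, ip_Q hg]
  simp only [zero_div, zero_mul, add_zero]
  congr 1
  apply Finset.sum_congr rfl
  intro i _
  rw [ip_T f g, ip_T f g, neg_neg, ip_comm _ g, ip_comm _ g, add_comm]

lemma ip_T_le {f : W → ℝ} (hf : FS f) (y : W) : ip f (T y f) ≤ ip f f := by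
  have h1 : 0 ≤ ip (f - T y f) (f - T y f) := tsum_nonneg fun x => mul_self_nonneg _
  have hT := fs_T hf y
  rw [ip_sub (fs_sub hf hT), ip_comm _ f, ip_comm _ (T y f), ip_sub hf, ip_sub hT,
    ip_comm (T y f) f] at h1
  have h2 : ip (T y f) (T y f) = ip f f := by
    rw [ip_T]
    congr 1
    funext x
    simp [T]
  rw [h2] at h1
  linarith

/-- the Dirichlet form -/
noncomputable def D (f g : W → ℝ) : ℝ := ip f g - ip f (Q 0 g)

lemma D_nonneg {f : W → ℝ} (hf : FS f) : 0 ≤ D f f := by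
  unfold D
  rw [ip_Q hf]
  simp only [Fin.sum_univ_four]
  have h : ∀ y, ip f (T y f) ≤ ip f f := ip_T_le hf
  have a0 := h (ee 0)
  have b0 := h (-ee 0)
  have a1 := h (ee 1)
  have b1 := h (-ee 1)
  have a2 := h (ee 2)
  have b2 := h (-ee 2)
  have a3 := h (ee 3)
  have b3 := h (-ee 3)
  linarith

lemma D_symm {f g : W → ℝ} (hf : FS f) (hg : FS g) : D f g = D g f := by
  unfold D
  rw [ip_Q0_symm hf hg, ip_comm f g, ip_comm (Q 0 f) g]

lemma D_expand {u h : W → ℝ} (hu : FS u) (hh : FS h) (t : ℝ) :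
    D (h - t • u) (h - t • u) = D h h - 2 * t * D u h + t ^ 2 * D u u := by
  have ht := fs_smul t hu
  have hs := fs_sub hh ht
  have h1 : ∀ g, ip (h - t • u) g = ip h g - t * ip u g := by
    intro g
    unfold ip
    rw [← tsum_mul_left, ← (fs_summable hh g).tsum_sub ((fs_summable hu g).mul_left t)]
    congr 1
    funext x
    simp only [Pi.sub_apply, Pi.smul_apply, smul_eq_mul]
    ring
  unfold D
  rw [map_sub, map_smul, h1, h1, ip_sub hh, ip_sub hu, ip_sub hh, ip_sub hu, ip_smul, ip_smul,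
    ip_smul, ip_smul, ip_comm h u, ip_Q0_symm hh hu, ip_comm (Q 0 h) u]
  ring

/-! ### Energy bound -/

/-- normalized counting measure of `p_0, ..., p_(k-1)` -/
noncomputable def nu (k : ℕ) (p : ℕ → W) : W → ℝ :=
  (1 / (k : ℝ)) • ∑ i ∈ Finset.range k, fun x => dl (x - p i)

lemma fs_dl (p : W) : FS (fun x => dl (x - p)) := by
  apply (Set.finite_singleton p).subset
  intro x hx
  by_contra hne
  apply hx
  show dl (x - p) = 0
  unfold dl
  rw [if_neg]
  intro h
  exact hne (sub_eq_zero.mp h)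

lemma ip_dl (p : W) (g : W → ℝ) : ip (fun x => dl (x - p)) g = g p := by
  unfold ip
  rw [tsum_eq_single p]
  · simp [dl]
  · intro x hx
    have : x - p ≠ 0 := fun h => hx (sub_eq_zero.mp h)
    simp [dl, this]

lemma fs_nu (k : ℕ) (p : ℕ → W) : FS (nu k p) :=
  fs_smul _ (fs_sum _ _ fun i _ => fs_dl (p i))

lemma ip_nu (k : ℕ) (p : ℕ → W) {g : W → ℝ} (hg : FS g) :
    ip (nu k p) g = (1 / (k : ℝ)) * ∑ i ∈ Finset.range k, g (p i) := by
  rw [ip_comm]
  unfold nu
  rw [ip_smul, ip_sum hg]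
  congr 1
  apply Finset.sum_congr rfl
  intro i _
  rw [ip_comm, ip_dl]

lemma Qp_nu (k : ℕ) (p : ℕ → W) (m : ℕ) (x : W) :
    (Q 0 ^ m) (nu k p) x = (1 / (k : ℝ)) * ∑ i ∈ Finset.range k, q m (x - p i) := by
  unfold nu
  rw [map_smul, map_sum, Pi.smul_apply, Finset.sum_apply, smul_eq_mul]
  congr 1
  apply Finset.sum_congr rfl
  intro i _
  rw [Qp_trans]
  rfl

lemma Qp_nu_nonneg (k : ℕ) (p : ℕ → W) (m : ℕ) (x : W) : 0 ≤ (Q 0 ^ m) (nu k p) x := by
  rw [Qp_nu]
  exact mul_nonneg (by positivity) (Finset.sum_nonneg fun i _ => q_nonneg _ _)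

/-- truncated potential -/
noncomputable def uM (k : ℕ) (p : ℕ → W) (M : ℕ) : W → ℝ :=
  ∑ m ∈ Finset.range M, (Q 0 ^ m) (nu k p)

lemma fs_uM (k : ℕ) (p : ℕ → W) (M : ℕ) : FS (uM k p M) :=
  fs_sum _ _ fun m _ => fs_Qp (fs_nu k p) 0 m

lemma uM_sub (k : ℕ) (p : ℕ → W) (M : ℕ) :
    uM k p M - Q 0 (uM k p M) = nu k p - (Q 0 ^ M) (nu k p) := by
  unfold uM
  induction M with
  | zero => simp
  | succ M ih =>
    rw [Finset.sum_range_succ, map_add]
    have h : Q 0 ((Q 0 ^ M) (nu k p)) = (Q 0 ^ (M + 1)) (nu k p) := by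
      rw [pow_succ', Module.End.mul_apply]
    rw [h]
    have : ∑ m ∈ Finset.range M, (Q 0 ^ m) (nu k p) + (Q 0 ^ M) (nu k p) -
        (Q 0 (∑ m ∈ Finset.range M, (Q 0 ^ m) (nu k p)) + (Q 0 ^ (M + 1)) (nu k p)) =
        (∑ m ∈ Finset.range M, (Q 0 ^ m) (nu k p) -
          Q 0 (∑ m ∈ Finset.range M, (Q 0 ^ m) (nu k p))) +
        ((Q 0 ^ M) (nu k p) - (Q 0 ^ (M + 1)) (nu k p)) := by abel
    rw [this, ih]
    abel

lemma D_uM (k : ℕ) (p : ℕ → W) (M : ℕ) {g : W → ℝ} (hg : FS g) :
    D (uM k p M) g = ip (nu k p) g - ip ((Q 0 ^ M) (nu k p)) g := by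
  have hu := fs_uM k p M
  unfold D
  rw [ip_Q0_symm hu hg, ip_comm _ g, ip_comm _ g, ← ip_sub hg, uM_sub, ip_sub hg, ip_comm g,
    ip_comm g]

lemma fs_hit (ε : ℝ) (A : Finset W) (n : ℕ) : FS (hit ε A n) := by
  induction n with
  | zero =>
    apply A.finite_toSet.subset
    intro x hx
    by_contra h
    exact hx (by simp [hit, ind, show x ∉ A from h])
  | succ n ih =>
    apply (A.finite_toSet.union (fs_Q ih ε)).subset
    intro x hx
    by_cases h : x ∈ A
    · exact Or.inl h
    · right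
      intro h2
      exact hx (by rw [hit_not_mem A n x h, h2])

lemma D_hit (hμ : IsW μ ε) (h0 : 0 ≤ ε) (h1 : ε ≤ 1) (A : Finset W) (N : ℕ) :
    D (hit ε A N) (hit ε A N) ≤ ∑ x ∈ A, av μ A (N + 1) x := by
  have hf := fs_hit ε A N
  unfold D
  rw [← ip_Q_self hf ε, ← ip_sub hf]
  have h2 : ip (hit ε A N) (hit ε A N - Q ε (hit ε A N)) ≤ ip (ind A) (fun x => av μ A (N + 1) x) := by
    have hA : FS (ind A) := fs_hit ε A 0
    unfold ip
    apply (fs_summable hf _).tsum_le_tsum _ (fs_summable hA _)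
    intro x
    by_cases hx : x ∈ A
    · rw [hit_mem A N x hx, Pi.sub_apply, hit_mem A N x hx, av_eq hμ]
      simp [ind, hx]
    · have h3 : hit ε A N x ≤ Q ε (hit ε A N) x := by
        rw [← hit_not_mem A N x hx]
        exact hit_mono h0 h1 A N x
      have h4 := (hit_bounds h0 h1 A N x).1
      have : ind A x = 0 := by simp [ind, hx]
      rw [this, zero_mul, Pi.sub_apply]
      nlinarith
  refine h2.trans (le_of_eq ?_)
  unfold ip
  rw [tsum_eq_sum (s := A)]
  · apply Finset.sum_congr rfl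
    intro x hx
    simp [ind, hx]
  · intro x hx
    simp [ind, hx]

/-- energy lower bound for the capacity -/
theorem cap_lower (hμ : IsW μ ε) (h0 : 0 ≤ ε) (h1 : ε ≤ 1) (A : Finset W) (k : ℕ) (hk : 0 < k)
    (p : ℕ → W) (hp : ∀ i < k, p i ∈ A) (t : ℝ) :
    2 * t - t ^ 2 * ((1 / (k : ℝ)) ^ 2 * ∑ i ∈ Finset.range k, ∑ j ∈ Finset.range k,
      72 * ff (p i - p j)) ≤ cap μ A := by
  set E : ℝ := (1 / (k : ℝ)) ^ 2 * ∑ i ∈ Finset.range k, ∑ j ∈ Finset.range k,
      72 * ff (p i - p j) with hE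
  have hk' : (0 : ℝ) < k := by exact_mod_cast hk
  -- the inequality with truncations
  have key : ∀ N M : ℕ, 0 ≤ ∑ x ∈ A, av μ A (N + 1) x -
      2 * t * (1 - ip ((Q 0 ^ M) (nu k p)) (hit ε A N)) + t ^ 2 * E := by
    intro N M
    have hu := fs_uM k p M
    have hh := fs_hit ε A N
    have e1 := D_nonneg (fs_sub hh (fs_smul t hu))
    rw [D_expand hu hh] at e1
    have e2 := D_hit hμ h0 h1 A N
    have e3 : D (uM k p M) (hit ε A N) = 1 - ip ((Q 0 ^ M) (nu k p)) (hit ε A N) := by
      rw [D_uM k p M hh, ip_nu k p hh]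
      congr 1
      have : ∀ i ∈ Finset.range k, hit ε A N (p i) = 1 := fun i hi =>
        hit_mem A N _ (hp i (Finset.mem_range.mp hi))
      rw [Finset.sum_congr rfl this]
      simp [hk'.ne']
    have e4 : D (uM k p M) (uM k p M) ≤ E := by
      rw [D_uM k p M hu]
      have hnn : 0 ≤ ip ((Q 0 ^ M) (nu k p)) (uM k p M) := by
        apply tsum_nonneg
        intro x
        apply mul_nonneg (Qp_nu_nonneg k p M x)
        unfold uM
        rw [Finset.sum_apply]
        exact Finset.sum_nonneg fun m _ => Qp_nu_nonneg k p m x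
      have h5 : ip (nu k p) (uM k p M) ≤ E := by
        rw [ip_nu k p hu, hE, sq, mul_assoc]
        apply mul_le_mul_of_nonneg_left _ (by positivity)
        rw [Finset.mul_sum]
        apply Finset.sum_le_sum
        intro i _
        unfold uM
        rw [Finset.sum_apply]
        simp only [Qp_nu]
        rw [← Finset.mul_sum, Finset.sum_comm]
        apply mul_le_mul_of_nonneg_left _ (by positivity)
        exact Finset.sum_le_sum fun j _ => sum_q_le M _
      linarith
    rw [e3] at e1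
    have e5 := mul_le_mul_of_nonneg_left e4 (sq_nonneg t)
    linarith
  -- let M tend to infinity
  have lim1 : ∀ N : ℕ, Tendsto (fun M => ip ((Q 0 ^ M) (nu k p)) (hit ε A N)) atTop (𝓝 0) := by
    intro N
    have hh := fs_hit ε A N
    have e1 : ∀ M, ip ((Q 0 ^ M) (nu k p)) (hit ε A N) =
        ∑ x ∈ hh.toFinset, (Q 0 ^ M) (nu k p) x * hit ε A N x := by
      intro M
      unfold ip
      rw [tsum_eq_sum]
      intro x hx
      have hx' : hit ε A N x = 0 := by
        by_contra h
        exact hx ((Set.Finite.mem_toFinset hh).mpr h)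
      rw [hx', mul_zero]
    simp only [e1]
    have e2 : Tendsto (fun M => ∑ x ∈ hh.toFinset, (Q 0 ^ M) (nu k p) x * hit ε A N x) atTop
        (𝓝 (∑ x ∈ hh.toFinset, 0 * hit ε A N x)) := by
      apply tendsto_finsetSum
      intro x _
      apply Tendsto.mul_const
      simp only [Qp_nu]
      have e3 : Tendsto (fun M => (1 / (k : ℝ)) * ∑ i ∈ Finset.range k, q M (x - p i)) atTop
          (𝓝 ((1 / (k : ℝ)) * ∑ i ∈ Finset.range k, 0)) :=
        (tendsto_finsetSum _ fun i _ => q_tendsto (x - p i)).const_mul _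
      simpa using e3
    simpa using e2
  have key2 : ∀ N : ℕ, 0 ≤ ∑ x ∈ A, av μ A (N + 1) x - 2 * t * (1 - 0) + t ^ 2 * E := by
    intro N
    have e1 : Tendsto (fun M => ∑ x ∈ A, av μ A (N + 1) x -
      2 * t * (1 - ip ((Q 0 ^ M) (nu k p)) (hit ε A N)) + t ^ 2 * E) atTop
      (𝓝 (∑ x ∈ A, av μ A (N + 1) x - 2 * t * (1 - 0) + t ^ 2 * E)) :=
      (tendsto_const_nhds.sub ((tendsto_const_nhds.sub (lim1 N)).const_mul _)).add_const _
    exact ge_of_tendsto' e1 (key N)
  -- let N tend to infinity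
  have lim2 : Tendsto (fun N => ∑ x ∈ A, av μ A (N + 1) x - 2 * t * (1 - 0) + t ^ 2 * E) atTop
      (𝓝 (cap μ A - 2 * t * (1 - 0) + t ^ 2 * E)) := by
    apply Tendsto.add_const
    apply Tendsto.sub_const
    unfold cap
    exact tendsto_finsetSum _ fun x _ => (tendsto_add_atTop_iff_nat 1).mpr (av_tendsto A x)
  have := ge_of_tendsto' lim2 key2
  linarith

end Pool.Agent.R986.AC
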