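import Mathlib
import Pool.Agent.R986.AC3

/-!
The asymptotic capacity vanishes at the simple random walk on `ℤ^4`, and is at least linear in the
drift for the walks with drift.
-/

namespace Pool.Agent.R986.AC

open MeasureTheory Filter Topology

variable {μ : PMF W} {ε : ℝ}

/-! ### Visits of the first coordinate -/

/-- indicator of the hyperplane `x_0 = a` -/
def chi (a : ℤ) (x : W) : ℝ := if x 0 = a then 1 else 0

/-- potential for the visits to the hyperplane -/
noncomputable def phi (ε : ℝ) (a : ℤ) (x : W) : ℝ :=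
  4 / ε * ((1 - ε) / (1 + ε)) ^ (x 0 - a).toNat

lemma coord_add (x : W) (i : Fin 4) : (x + ee i) 0 = if i = 0 then x 0 + 1 else x 0 := by
  unfold ee
  fin_cases i <;> simp

lemma coord_sub (x : W) (i : Fin 4) : (x - ee i) 0 = if i = 0 then x 0 - 1 else x 0 := by
  unfold ee
  fin_cases i <;> simp

lemma phi_eq (h0 : 0 < ε) (_h1 : ε ≤ 1) (a : ℤ) (x : W) :
    phi ε a x - Q ε (phi ε a) x = chi a x := by
  rw [Q_apply]
  unfold phi chi
  simp only [coord_add, coord_sub, Fin.sum_univ_four]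
  have h2 : ((1 : Fin 4) = 0) = False := by simp
  have h3 : ((2 : Fin 4) = 0) = False := by simp
  have h4 : ((3 : Fin 4) = 0) = False := by simp
  simp only [h2, h3, h4, if_true, if_false]
  have hne : ε ≠ 0 := h0.ne'
  have hne1 : 1 + ε ≠ 0 := by linarith
  rcases lt_trichotomy (x 0) a with h | h | h
  · have e1 : (x 0 - a).toNat = 0 := by omega
    have e2 : (x 0 + 1 - a).toNat = 0 := by omega
    have e3 : (x 0 - 1 - a).toNat = 0 := by omega
    rw [e1, e2, e3, if_neg (by omega)]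
    ring
  · have e1 : (x 0 - a).toNat = 0 := by omega
    have e2 : (x 0 + 1 - a).toNat = 1 := by omega
    have e3 : (x 0 - 1 - a).toNat = 0 := by omega
    rw [e1, e2, e3, if_pos h]
    simp only [pow_zero, pow_one]
    field_simp
    ring
  · obtain ⟨m, hm⟩ : ∃ m : ℕ, (x 0 - a).toNat = m + 1 := ⟨(x 0 - a).toNat - 1, by omega⟩
    have e2 : (x 0 + 1 - a).toNat = m + 2 := by omega
    have e3 : (x 0 - 1 - a).toNat = m := by omega
    rw [hm, e2, e3, if_neg (by omega)]
    set r : ℝ := (1 - ε) / (1 + ε) with hr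
    have hr2 : (1 + ε) * r = 1 - ε := by rw [hr]; field_simp
    rw [pow_succ r (m + 1), pow_succ r m]
    have key : (1 + ε) * (r * r) + (1 - ε) = 2 * r := by
      have : (1 + ε) * (r * r) = (1 - ε) * r := by rw [← mul_assoc, hr2]
      rw [this]
      have h5 : (1 - ε) * r + (1 - ε) = (1 + ε) * r * r + (1 + ε) * r := by rw [hr2]
      nlinarith [hr2]
    have : 4 / ε * (r ^ m * r) - ((4 / ε * (r ^ m * r * r) + 4 / ε * r ^ m +
        (4 / ε * (r ^ m * r) + 4 / ε * (r ^ m * r)) + (4 / ε * (r ^ m * r) + 4 / ε * (r ^ m * r)) +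
        (4 / ε * (r ^ m * r) + 4 / ε * (r ^ m * r))) / 8 +
        ε / 8 * (4 / ε * (r ^ m * r * r) - 4 / ε * r ^ m)) =
        (4 / ε * r ^ m) / 8 * (2 * r - ((1 + ε) * (r * r) + (1 - ε))) := by ring
    rw [this, key]
    ring

lemma phi_nonneg (h0 : 0 < ε) (h1 : ε ≤ 1) (a : ℤ) (x : W) : 0 ≤ phi ε a x := by
  unfold phi
  have : 0 ≤ (1 - ε) / (1 + ε) := div_nonneg (by linarith) (by linarith)
  positivity

lemma phi_le (h0 : 0 < ε) (h1 : ε ≤ 1) (a : ℤ) (x : W) : phi ε a x ≤ 4 / ε := by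
  unfold phi
  have h2 : 0 ≤ (1 - ε) / (1 + ε) := div_nonneg (by linarith) (by linarith)
  have h3 : (1 - ε) / (1 + ε) ≤ 1 := by rw [div_le_one (by linarith)]; linarith
  have h4 := pow_le_one₀ (n := (x 0 - a).toNat) h2 h3
  have h5 : (0 : ℝ) < 4 / ε := by positivity
  nlinarith

lemma visits (h0 : 0 < ε) (h1 : ε ≤ 1) (a : ℤ) (n : ℕ) (x : W) :
    ∑ k ∈ Finset.range n, (Q ε ^ k) (chi a) x ≤ 4 / ε := by
  have h2 : ∑ k ∈ Finset.range n, (Q ε ^ k) (chi a) x = phi ε a x - (Q ε ^ n) (phi ε a) x := by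
    induction n with
    | zero => simp
    | succ n ih =>
      rw [Finset.sum_range_succ, ih]
      have h3 : chi a = phi ε a - Q ε (phi ε a) := by
        funext z
        rw [Pi.sub_apply, phi_eq h0 h1]
      conv_lhs => rw [h3]
      rw [map_sub, Pi.sub_apply, pow_succ, Module.End.mul_apply]
      ring
  rw [h2]
  have h3 := Qp_mono h0.le h1 n (f := fun _ => 0) (g := phi ε a) (phi_nonneg h0 h1 a) x
  rw [Qp_const] at h3
  have := phi_le h0 h1 a x
  linarith

/-- the weight of the first coordinate -/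
noncomputable def ww (x : W) : ℝ := 1 / (8 + (x 0 : ℝ) ^ 2)

lemma ww_nonneg (x : W) : 0 ≤ ww x := by unfold ww; positivity

lemma ww_le (x : W) : ww x ≤ 1 := by
  unfold ww
  rw [div_le_one (by positivity)]
  nlinarith [sq_nonneg (x 0 : ℝ)]

lemma ww_neg (x : W) : ww (-x) = ww x := by
  unfold ww
  simp

lemma ff_le_ww (x : W) : ff x ≤ ww x := by
  unfold ff ww
  apply one_div_le_one_div_of_le (by positivity)
  have := sq_le_nsq x 0
  linarith

lemma ww_bound (L : ℕ) (x : W) : ww x ≤ (∑ a ∈ Finset.range (L + 1),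
    (1 / (8 + (a : ℝ) ^ 2)) * (chi a x + chi (-a) x)) + 1 / (8 + (L : ℝ) ^ 2) := by
  have hnn : ∀ a ∈ Finset.range (L + 1), 0 ≤ (1 / (8 + (a : ℝ) ^ 2)) * (chi a x + chi (-a) x) := by
    intro a _
    apply mul_nonneg (by positivity)
    unfold chi
    split_ifs <;> norm_num
  by_cases h : (x 0).natAbs ≤ L
  · have h1 := Finset.single_le_sum hnn (Finset.mem_range.mpr (Nat.lt_succ_of_le h))
    have h2 : ww x ≤ (1 / (8 + (((x 0).natAbs : ℕ) : ℝ) ^ 2)) *
        (chi (((x 0).natAbs : ℕ) : ℤ) x + chi (-(((x 0).natAbs : ℕ) : ℤ)) x) := by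
      have h3 : ((((x 0).natAbs : ℕ) : ℝ)) ^ 2 = (x 0 : ℝ) ^ 2 := by
        rw [Nat.cast_natAbs, Int.cast_abs, sq_abs]
      rw [h3]
      unfold ww
      have h4 : 1 ≤ chi (((x 0).natAbs : ℕ) : ℤ) x + chi (-(((x 0).natAbs : ℕ) : ℤ)) x := by
        unfold chi
        rcases Int.natAbs_eq (x 0) with h5 | h5
        · rw [if_pos h5]
          split_ifs <;> norm_num
        · rw [if_pos h5]
          split_ifs <;> norm_num
      have h5 : 0 < 1 / (8 + (x 0 : ℝ) ^ 2) := by positivity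
      nlinarith
    have h6 : 0 ≤ 1 / (8 + (L : ℝ) ^ 2) := by positivity
    linarith
  · have h1 : 0 ≤ ∑ a ∈ Finset.range (L + 1), (1 / (8 + (a : ℝ) ^ 2)) * (chi a x + chi (-a) x) :=
      Finset.sum_nonneg hnn
    have h2 : ww x ≤ 1 / (8 + (L : ℝ) ^ 2) := by
      unfold ww
      apply one_div_le_one_div_of_le (by positivity)
      have h3 : (L : ℝ) ^ 2 ≤ (x 0 : ℝ) ^ 2 := by
        have h5 : (L : ℝ) ≤ (((x 0).natAbs : ℕ) : ℝ) := by
          exact_mod_cast (by omega : L ≤ (x 0).natAbs)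
        have h6 : ((((x 0).natAbs : ℕ) : ℝ)) ^ 2 = (x 0 : ℝ) ^ 2 := by
          rw [Nat.cast_natAbs, Int.cast_abs, sq_abs]
        rw [← h6]
        have : (0 : ℝ) ≤ L := Nat.cast_nonneg L
        nlinarith
      linarith
    linarith

lemma sum_inv_le (L : ℕ) : ∑ a ∈ Finset.range (L + 1), 1 / (8 + (a : ℝ) ^ 2) ≤ 2 := by
  have h : ∑ a ∈ Finset.range (L + 1), 1 / (8 + (a : ℝ) ^ 2) ≤ 2 - 2 / ((L : ℝ) + 2) := by
    induction L with
    | zero => norm_num
    | succ L ih =>
      rw [Finset.sum_range_succ]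
      push_cast
      have h1 : (0 : ℝ) ≤ L := Nat.cast_nonneg L
      have h2 : 1 / (8 + ((L : ℝ) + 1) ^ 2) ≤ 2 / ((L : ℝ) + 2) - 2 / ((L : ℝ) + 1 + 2) := by
        have h3 : 2 / ((L : ℝ) + 2) - 2 / ((L : ℝ) + 1 + 2) = 2 / (((L : ℝ) + 2) * (L + 3)) := by
          field_simp
          ring
        rw [h3, div_le_div_iff₀ (by positivity) (by positivity)]
        nlinarith
      linarith
  have h2 : 0 ≤ 2 / ((L : ℝ) + 2) := by positivity
  linarith

lemma ww_sum (h0 : 0 < ε) (h1 : ε ≤ 1) (n : ℕ) (x : W) :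
    ∑ k ∈ Finset.range n, (Q ε ^ k) ww x ≤ 17 / ε := by
  have h2 : ∀ k, (Q ε ^ k) ww x ≤ (∑ a ∈ Finset.range (n + 1),
      (1 / (8 + (a : ℝ) ^ 2)) * ((Q ε ^ k) (chi a) x + (Q ε ^ k) (chi (-a)) x)) +
      1 / (8 + (n : ℝ) ^ 2) := by
    intro k
    have h3 := Qp_mono h0.le h1 k (f := ww) (g := (∑ a ∈ Finset.range (n + 1),
      (1 / (8 + (a : ℝ) ^ 2)) • (chi a + chi (-a))) + fun _ => 1 / (8 + (n : ℝ) ^ 2))
      (fun z => by
        have := ww_bound n z
        simp only [Pi.add_apply, Finset.sum_apply, Pi.smul_apply, smul_eq_mul]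
        exact this) x
    rw [map_add, Pi.add_apply, Qp_const, map_sum, Finset.sum_apply] at h3
    refine h3.trans (le_of_eq ?_)
    congr 1
    apply Finset.sum_congr rfl
    intro a _
    rw [map_smul, map_add, Pi.smul_apply, Pi.add_apply, smul_eq_mul]
  refine (Finset.sum_le_sum fun k _ => h2 k).trans ?_
  rw [Finset.sum_add_distrib, Finset.sum_comm]
  have h3 : ∀ a ∈ Finset.range (n + 1), ∑ k ∈ Finset.range n,
      (1 / (8 + (a : ℝ) ^ 2)) * ((Q ε ^ k) (chi a) x + (Q ε ^ k) (chi (-a)) x) ≤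
      (1 / (8 + (a : ℝ) ^ 2)) * (8 / ε) := by
    intro a _
    rw [← Finset.mul_sum, Finset.sum_add_distrib]
    apply mul_le_mul_of_nonneg_left _ (by positivity)
    have e1 := visits h0 h1 a n x
    have e2 := visits h0 h1 (-a) n x
    have e3 : 8 / ε = 4 / ε + 4 / ε := by ring
    linarith
  have h4 := Finset.sum_le_sum h3
  rw [← Finset.sum_mul] at h4
  have h5 := sum_inv_le n
  have h6 : (∑ a ∈ Finset.range (n + 1), 1 / (8 + (a : ℝ) ^ 2)) * (8 / ε) ≤ 2 * (8 / ε) :=
    mul_le_mul_of_nonneg_right h5 (by positivity)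
  have h7 : ∑ _k ∈ Finset.range n, 1 / (8 + (n : ℝ) ^ 2) ≤ 1 := by
    rw [Finset.sum_const, Finset.card_range, nsmul_eq_mul, mul_one_div, div_le_one (by positivity)]
    nlinarith [sq_nonneg ((n : ℝ) - 1)]
  have h8 : 1 ≤ 1 / ε := by rw [le_div_iff₀ h0]; linarith
  have h9 : 17 / ε = 2 * (8 / ε) + 1 / ε := by ring
  linarith

/-! ### Increments -/

lemma inc_int (hμ : IsW μ ε) (f : W → ℝ) (i m : ℕ) :
    Integrable (fun ω => f (pos ω (i + m) - pos ω i)) (law μ) ∧
    ∫ ω, f (pos ω (i + m) - pos ω i) ∂(law μ) = (Q ε ^ m) f 0 := by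
  have hmp := law_shift μ i
  have h1 : ∀ ω : ℕ → W, pos ω (i + m) - pos ω i = pos (fun k => ω (i + k)) m := by
    intro ω
    rw [pos_add]
    abel
  simp only [h1]
  have h2 := walk_int hμ f m 0
  simp only [zero_add] at h2
  refine ⟨hmp.integrable_comp_of_integrable h2.1, ?_⟩
  rw [← h2.2]
  have h3 := integral_map (μ := law μ) (φ := fun (ω : ℕ → W) (k : ℕ) => ω (i + k))
      hmp.measurable.aemeasurable (f := fun ω => f (pos ω m))
      (meas_pos m f).aestronglyMeasurable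
  rw [hmp.map_eq] at h3
  exact h3.symm

lemma ww_inc (hμ : IsW μ ε) (i j : ℕ) :
    Integrable (fun ω => ww (pos ω i - pos ω j)) (law μ) ∧
    ∫ ω, ww (pos ω i - pos ω j) ∂(law μ) =
      if j ≤ i then (Q ε ^ (i - j)) ww 0 else (Q ε ^ (j - i)) ww 0 := by
  by_cases h : j ≤ i
  · rw [if_pos h]
    have := inc_int hμ ww j (i - j)
    rwa [Nat.add_sub_cancel' h] at this
  · rw [if_neg h]
    have h2 := inc_int hμ ww i (j - i)
    rw [Nat.add_sub_cancel' (by omega)] at h2
    have h3 : ∀ ω : ℕ → W, ww (pos ω i - pos ω j) = ww (pos ω j - pos ω i) := by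
      intro ω
      rw [← ww_neg, neg_sub]
    simp only [h3]
    exact h2

lemma Qww_nonneg (h0 : 0 ≤ ε) (h1 : ε ≤ 1) (m : ℕ) (x : W) : 0 ≤ (Q ε ^ m) ww x := by
  have h := Qp_mono h0 h1 m (f := fun _ => 0) (g := ww) ww_nonneg x
  rw [Qp_const] at h
  exact h

lemma double_sum (g : ℕ → ℝ) (hg : ∀ m, 0 ≤ g m) (k i : ℕ) (hi : i < k) :
    ∑ j ∈ Finset.range k, (if j ≤ i then g (i - j) else g (j - i)) ≤
      2 * ∑ m ∈ Finset.range k, g m := by
  rw [← Finset.sum_filter_add_sum_filter_not (Finset.range k) (fun j => j ≤ i)]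
  have h1 : ∑ j ∈ (Finset.range k).filter (fun j => j ≤ i),
      (if j ≤ i then g (i - j) else g (j - i)) ≤ ∑ m ∈ Finset.range k, g m := by
    have e1 : ∑ j ∈ (Finset.range k).filter (fun j => j ≤ i),
      (if j ≤ i then g (i - j) else g (j - i)) =
      ∑ m ∈ ((Finset.range k).filter (fun j => j ≤ i)).image (fun j => i - j), g m := by
      rw [Finset.sum_image]
      · apply Finset.sum_congr rfl
        intro j hj
        rw [if_pos (Finset.mem_filter.mp hj).2]
      · intro a ha b hb hab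
        have ha' := (Finset.mem_filter.mp ha).2
        have hb' := (Finset.mem_filter.mp hb).2
        simp only at hab
        omega
    rw [e1]
    apply Finset.sum_le_sum_of_subset_of_nonneg
    · intro m hm
      rw [Finset.mem_image] at hm
      obtain ⟨j, hj, rfl⟩ := hm
      have := Finset.mem_filter.mp hj
      rw [Finset.mem_range] at this ⊢
      omega
    · intro m _ _
      exact hg m
  have h2 : ∑ j ∈ (Finset.range k).filter (fun j => ¬ j ≤ i),
      (if j ≤ i then g (i - j) else g (j - i)) ≤ ∑ m ∈ Finset.range k, g m := by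
    have e1 : ∑ j ∈ (Finset.range k).filter (fun j => ¬ j ≤ i),
      (if j ≤ i then g (i - j) else g (j - i)) =
      ∑ m ∈ ((Finset.range k).filter (fun j => ¬ j ≤ i)).image (fun j => j - i), g m := by
      rw [Finset.sum_image]
      · apply Finset.sum_congr rfl
        intro j hj
        rw [if_neg (Finset.mem_filter.mp hj).2]
      · intro a ha b hb hab
        have ha' := (Finset.mem_filter.mp ha).2
        have hb' := (Finset.mem_filter.mp hb).2
        simp only at hab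
        omega
    rw [e1]
    apply Finset.sum_le_sum_of_subset_of_nonneg
    · intro m hm
      rw [Finset.mem_image] at hm
      obtain ⟨j, hj, rfl⟩ := hm
      have := Finset.mem_filter.mp hj
      rw [Finset.mem_range] at this ⊢
      omega
    · intro m _ _
      exact hg m
  linarith

/-- the capacity of the range grows at least linearly, with slope proportional to the drift -/
theorem mean_lower (hμ : IsW μ ε) (h0 : 0 < ε) (h1 : ε ≤ 1) (n : ℕ) :
    (n + 1) * (ε / 2448) ≤ ∫ ω, cap μ (ran ω n) ∂(law μ) := by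
  set k : ℕ := n + 1 with hk
  have hk0 : (0 : ℝ) < k := by rw [hk]; positivity
  obtain ⟨t, ht⟩ : ∃ t : ℝ, t = k * (ε / 2448) := ⟨_, rfl⟩
  have h2 : ∀ ω : ℕ → W, 2 * t - t ^ 2 * ((1 / (k : ℝ)) ^ 2 * ∑ i ∈ Finset.range k,
      ∑ j ∈ Finset.range k, 72 * ww (pos ω i - pos ω j)) ≤ cap μ (ran ω n) := by
    intro ω
    refine le_trans ?_ (cap_lower hμ h0.le h1 (ran ω n) k (by omega) (pos ω)
      (fun i hi => mem_ran ω n i (by omega)) t)
    apply sub_le_sub_left
    apply mul_le_mul_of_nonneg_left _ (sq_nonneg t)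
    apply mul_le_mul_of_nonneg_left _ (by positivity)
    apply Finset.sum_le_sum
    intro i _
    apply Finset.sum_le_sum
    intro j _
    have := ff_le_ww (pos ω i - pos ω j)
    linarith
  have hint : ∀ i ∈ Finset.range k, Integrable
      (fun ω => ∑ j ∈ Finset.range k, 72 * ww (pos ω i - pos ω j)) (law μ) := by
    intro i _
    exact integrable_finsetSum _ fun j _ => (ww_inc hμ i j).1.const_mul 72
  have hint2 : Integrable (fun ω => ∑ i ∈ Finset.range k,
      ∑ j ∈ Finset.range k, 72 * ww (pos ω i - pos ω j)) (law μ) :=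
    integrable_finsetSum _ hint
  have h3 : ∫ ω, (2 * t - t ^ 2 * ((1 / (k : ℝ)) ^ 2 * ∑ i ∈ Finset.range k,
      ∑ j ∈ Finset.range k, 72 * ww (pos ω i - pos ω j))) ∂(law μ) ≤
      ∫ ω, cap μ (ran ω n) ∂(law μ) :=
    integral_mono ((integrable_const _).sub ((hint2.const_mul _).const_mul _))
      (integrable_cap μ n) h2
  refine le_trans ?_ h3
  rw [integral_sub (integrable_const _) ((hint2.const_mul _).const_mul _),
    integral_const_mul (t ^ 2), integral_const_mul ((1 / (k : ℝ)) ^ 2),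
    integral_finsetSum _ hint]
  have h4 : ∑ i ∈ Finset.range k, ∫ ω, ∑ j ∈ Finset.range k, 72 * ww (pos ω i - pos ω j) ∂(law μ) ≤
      k * (2448 / ε) := by
    have h5 : ∀ i ∈ Finset.range k,
        ∫ ω, ∑ j ∈ Finset.range k, 72 * ww (pos ω i - pos ω j) ∂(law μ) ≤ 2448 / ε := by
      intro i hi
      rw [integral_finsetSum _ fun j _ => (ww_inc hμ i j).1.const_mul 72]
      simp only [integral_const_mul, (ww_inc hμ _ _).2]
      rw [← Finset.mul_sum]
      have h6 := double_sum (fun m => (Q ε ^ m) ww 0) (fun m => Qww_nonneg h0.le h1 m 0) k i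
        (Finset.mem_range.mp hi)
      have h7 := ww_sum h0 h1 k 0
      have h8 : 2448 / ε = 72 * (2 * (17 / ε)) := by ring
      rw [h8]
      linarith
    refine (Finset.sum_le_sum h5).trans (le_of_eq ?_)
    rw [Finset.sum_const, Finset.card_range, nsmul_eq_mul]
  have h5 : ∫ _ : ℕ → W, 2 * t ∂(law μ) = 2 * t := by simp
  rw [h5]
  have h6 : t ^ 2 * ((1 / (k : ℝ)) ^ 2 * ∑ i ∈ Finset.range k,
      ∫ ω, ∑ j ∈ Finset.range k, 72 * ww (pos ω i - pos ω j) ∂(law μ)) ≤
      t ^ 2 * ((1 / (k : ℝ)) ^ 2 * (k * (2448 / ε))) := by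
    apply mul_le_mul_of_nonneg_left _ (sq_nonneg t)
    exact mul_le_mul_of_nonneg_left h4 (by positivity)
  have h7 : t ^ 2 * ((1 / (k : ℝ)) ^ 2 * (k * (2448 / ε))) = t := by
    rw [ht]
    field_simp
  have h8 : ((n : ℝ) + 1) * (ε / 2448) = t := by
    rw [ht, hk]; push_cast; ring
  rw [h8]
  linarith

theorem acap_lower (hμ : IsW μ ε) (h0 : 0 < ε) (h1 : ε ≤ 1) : ε / 2448 ≤ acap μ := by
  apply ge_of_tendsto (acap_mean μ)
  filter_upwards [eventually_ge_atTop 1] with n hn
  have hn' : (0 : ℝ) < n := by exact_mod_cast hn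
  rw [le_div_iff₀ hn']
  refine le_trans ?_ (mean_lower hμ h0 h1 n)
  have : (0 : ℝ) < ε / 2448 := by positivity
  nlinarith

lemma acap_nonneg {d : ℕ} (μ : PMF (V d)) : 0 ≤ acap μ := by
  apply ge_of_tendsto' (acap_mean μ)
  intro n
  exact div_nonneg (integral_nonneg fun ω => cap_nonneg μ _) (Nat.cast_nonneg n)

end Pool.Agent.R986.AC
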