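import Mathlib
import Pool.Agent.R986.AC4

/-!
The asymptotic capacity of the range of the simple random walk on `ℤ^4` is zero.
-/

namespace Pool.Agent.R986.AC

open MeasureTheory Filter Topology

variable {μ : PMF W}

/-- last exit decomposition, as an inequality -/
lemma exit_le (hμ : IsW μ 0) (A : Finset W) (x : W) :
    ∑ y ∈ A, esc μ A y * G (x - y) ≤ 1 := by
  set H : W → ℝ := fun z => 1 - (if z ∈ A then 0 else esc μ A z) with hH
  have hH1 : ∀ z, H z ≤ 1 := by
    intro z
    rw [hH]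
    simp only
    split_ifs
    · norm_num
    · have := esc_nonneg μ A z
      linarith
  have hH0 : ∀ z, 0 ≤ H z := by
    intro z
    rw [hH]
    simp only
    split_ifs
    · norm_num
    · have := esc_le_one μ A z
      linarith
  have hQ : ∀ z, Q 0 H z = 1 - esc μ A z := by
    intro z
    have h1 : H = (fun _ => (1 : ℝ)) - fun z => (if z ∈ A then 0 else esc μ A z) := rfl
    rw [h1, map_sub, Pi.sub_apply, Q_const, ← esc_step hμ]
  have hpsi : H - Q 0 H = ∑ y ∈ A, esc μ A y • fun x => dl (x - y) := by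
    funext z
    rw [Pi.sub_apply, hQ, Finset.sum_apply]
    have h2 : ∀ y ∈ A, (esc μ A y • fun x => dl (x - y)) z = if y = z then esc μ A z else 0 := by
      intro y _
      simp only [Pi.smul_apply, smul_eq_mul, dl]
      by_cases h : y = z
      · subst h; simp
      · have : z - y ≠ 0 := fun h3 => h (sub_eq_zero.mp h3).symm
        simp [h, this]
    rw [Finset.sum_congr rfl h2, Finset.sum_ite_eq']
    rw [hH]
    simp only
    split_ifs <;> ring
  have hM : ∀ M : ℕ, ∑ m ∈ Finset.range M, ∑ y ∈ A, esc μ A y * q m (x - y) ≤ 1 := by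
    intro M
    have h1 : ∑ m ∈ Finset.range M, ∑ y ∈ A, esc μ A y * q m (x - y) =
        H x - (Q 0 ^ M) H x := by
      induction M with
      | zero => simp
      | succ M ih =>
        rw [Finset.sum_range_succ, ih]
        have h2 : (Q 0 ^ M) (H - Q 0 H) x = ∑ y ∈ A, esc μ A y * q M (x - y) := by
          rw [hpsi, map_sum, Finset.sum_apply]
          apply Finset.sum_congr rfl
          intro y _
          rw [map_smul, Pi.smul_apply, Qp_trans, smul_eq_mul]
          rfl
        rw [← h2, map_sub, Pi.sub_apply, pow_succ, Module.End.mul_apply]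
        ring
    rw [h1]
    have h2 := Qp_mono (ε := 0) le_rfl zero_le_one M (f := fun _ => 0) (g := H) hH0 x
    rw [Qp_const] at h2
    have := hH1 x
    linarith
  have hlim : Tendsto (fun M : ℕ => ∑ y ∈ A, esc μ A y * ∑ m ∈ Finset.range M, q m (x - y)) atTop
      (𝓝 (∑ y ∈ A, esc μ A y * G (x - y))) := by
    apply tendsto_finsetSum
    intro y _
    apply Tendsto.const_mul
    exact (q_summable (x - y)).hasSum.tendsto_sum_nat
  apply le_of_tendsto' hlim
  intro M
  refine le_trans (le_of_eq ?_) (hM M)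
  rw [Finset.sum_comm]
  apply Finset.sum_congr rfl
  intro y _
  rw [Finset.mul_sum]

/-- potential of the path at the point `y` -/
noncomputable def Gam (ω : ℕ → W) (n : ℕ) (y : W) : ℝ :=
  ∑ i ∈ Finset.range (n + 1), G (pos ω i - y)

lemma G_pos (x : W) : 0 < G x := by
  obtain ⟨c, hc, h⟩ := G_lower
  have := nsq_nonneg x
  have h2 : 0 < c / (8 + nsq x) := by positivity
  exact lt_of_lt_of_le h2 (h x)

lemma Gam_pos (ω : ℕ → W) (n : ℕ) (y : W) : 0 < Gam ω n y :=
  Finset.sum_pos (fun i _ => G_pos _) ⟨0, by simp⟩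

lemma esc_Gam (hμ : IsW μ 0) (ω : ℕ → W) (n : ℕ) :
    ∑ y ∈ ran ω n, esc μ (ran ω n) y * Gam ω n y ≤ n + 1 := by
  unfold Gam
  simp only [Finset.mul_sum]
  rw [Finset.sum_comm]
  calc ∑ i ∈ Finset.range (n + 1), ∑ y ∈ ran ω n, esc μ (ran ω n) y * G (pos ω i - y)
      ≤ ∑ _i ∈ Finset.range (n + 1), (1 : ℝ) :=
        Finset.sum_le_sum fun i _ => exit_le hμ _ _
    _ = _ := by simp

lemma cap_upper (hμ : IsW μ 0) (ω : ℕ → W) (n : ℕ) (t : ℝ) (ht : 0 < t) :
    cap μ (ran ω n) ≤ (t * (n + 1) +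
      (1 / t) * ∑ j ∈ Finset.range (n + 1), 1 / Gam ω n (pos ω j)) / 2 := by
  have h1 : ∀ y ∈ ran ω n, esc μ (ran ω n) y ≤
      (t * (esc μ (ran ω n) y * Gam ω n y) + (1 / t) * (1 / Gam ω n y)) / 2 := by
    intro y _
    have hg := Gam_pos ω n y
    have e0 := esc_nonneg μ (ran ω n) y
    have e1 := esc_le_one μ (ran ω n) y
    set g := Gam ω n y
    set e := esc μ (ran ω n) y
    have h2 : 2 ≤ t * g + 1 / (t * g) := by
      have htg : 0 < t * g := by positivity
      have : t * g + 1 / (t * g) - 2 = (t * g - 1) ^ 2 / (t * g) := by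
        field_simp
        ring
      have h3 : 0 ≤ (t * g - 1) ^ 2 / (t * g) := by positivity
      linarith
    have h3 : 1 / (t * g) = (1 / t) * (1 / g) := by
      field_simp
    rw [h3] at h2
    have h4 : 0 ≤ (1 / t) * (1 / g) := by positivity
    nlinarith
  unfold cap
  refine (Finset.sum_le_sum h1).trans ?_
  rw [← Finset.sum_div, Finset.sum_add_distrib, ← Finset.mul_sum, ← Finset.mul_sum]
  have h2 := esc_Gam hμ ω n
  have h3 : ∑ y ∈ ran ω n, 1 / Gam ω n y ≤ ∑ j ∈ Finset.range (n + 1), 1 / Gam ω n (pos ω j) := by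
    unfold ran
    apply Finset.sum_image_le_of_nonneg
    intro u _
    exact (one_div_pos.mpr (Gam_pos ω n u)).le
  have h4 : t * ∑ y ∈ ran ω n, esc μ (ran ω n) y * Gam ω n y ≤ t * (n + 1) :=
    mul_le_mul_of_nonneg_left h2 ht.le
  have h5 : (1 / t) * ∑ y ∈ ran ω n, 1 / Gam ω n y ≤
      (1 / t) * ∑ j ∈ Finset.range (n + 1), 1 / Gam ω n (pos ω j) :=
    mul_le_mul_of_nonneg_left h3 (by positivity)
  linarith

/-- harmonic sums -/
noncomputable def SK (K : ℕ) : ℝ := ∑ m ∈ Finset.range (K + 1), 1 / ((m : ℝ) + 1)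

lemma SK_pos (K : ℕ) : 0 < SK K :=
  Finset.sum_pos (fun m _ => by positivity) ⟨0, by simp⟩

lemma inv_Gam_le {c : ℝ} (hc : 0 < c) (hG : ∀ x, c / (8 + nsq x) ≤ G x) (ω : ℕ → W) (n j : ℕ)
    (hj : j ≤ n) : 1 / Gam ω n (pos ω j) ≤ (1 / c) * ((1 / SK (n - j) ^ 2) *
      ∑ m ∈ Finset.range (n - j + 1), (1 / ((m : ℝ) + 1) ^ 2) *
        (8 + nsq (pos ω (j + m) - pos ω j))) := by
  set K := n - j with hK
  set a : ℝ := ∑ m ∈ Finset.range (K + 1), (1 / ((m : ℝ) + 1) ^ 2) *
        (8 + nsq (pos ω (j + m) - pos ω j)) with ha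
  have h1 : ∑ m ∈ Finset.range (K + 1), G (pos ω (j + m) - pos ω j) ≤ Gam ω n (pos ω j) := by
    unfold Gam
    have e1 : ∑ m ∈ Finset.range (K + 1), G (pos ω (j + m) - pos ω j) =
        ∑ i ∈ (Finset.range (K + 1)).image (fun m => j + m), G (pos ω i - pos ω j) := by
      rw [Finset.sum_image (fun x _ y _ h => by simpa using h)]
    rw [e1]
    apply Finset.sum_le_sum_of_subset_of_nonneg
    · intro i hi
      rw [Finset.mem_image] at hi
      obtain ⟨m, hm, rfl⟩ := hi
      rw [Finset.mem_range] at hm ⊢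
      omega
    · intro i _ _
      exact G_nonneg _
  set b : ℝ := ∑ m ∈ Finset.range (K + 1), 1 / (8 + nsq (pos ω (j + m) - pos ω j)) with hb
  have h2 : c * b ≤ Gam ω n (pos ω j) := by
    refine le_trans ?_ h1
    rw [hb, Finset.mul_sum]
    apply Finset.sum_le_sum
    intro m _
    have := hG (pos ω (j + m) - pos ω j)
    rwa [mul_one_div]
  have hcs : SK K ^ 2 ≤ a * b := by
    unfold SK
    rw [ha, hb]
    apply Finset.sum_sq_le_sum_mul_sum_of_sq_le_mul
    · intro m _
      have := nsq_nonneg (pos ω (j + m) - pos ω j)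
      positivity
    · intro m _
      have := nsq_nonneg (pos ω (j + m) - pos ω j)
      positivity
    · intro m _
      have := nsq_nonneg (pos ω (j + m) - pos ω j)
      have h3 : 8 + nsq (pos ω (j + m) - pos ω j) ≠ 0 := by linarith
      apply le_of_eq
      field_simp
  have hb0 : 0 < b := by
    rw [hb]
    apply Finset.sum_pos _ ⟨0, by simp⟩
    intro m _
    have := nsq_nonneg (pos ω (j + m) - pos ω j)
    positivity
  have hS := SK_pos K
  have hg := Gam_pos ω n (pos ω j)
  have h3 : 1 / Gam ω n (pos ω j) ≤ 1 / (c * b) := one_div_le_one_div_of_le (by positivity) h2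
  refine h3.trans ?_
  have h4 : 1 / b ≤ (1 / SK K ^ 2) * a := by
    rw [one_div_mul_eq_div, div_le_div_iff₀ hb0 (by positivity)]
    linarith
  have h5 : 1 / (c * b) = (1 / c) * (1 / b) := by field_simp
  rw [h5]
  exact mul_le_mul_of_nonneg_left h4 (by positivity)

lemma Q_nsq (x : W) : Q 0 nsq x = nsq x + 1 := by
  rw [Q0_apply]
  simp only [nsq_add, nsq_sub, Fin.sum_univ_four]
  ring

lemma Qp_nsq (m : ℕ) (x : W) : (Q 0 ^ m) nsq x = nsq x + m := by
  induction m with
  | zero => simp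
  | succ m ih =>
    rw [pow_succ, Module.End.mul_apply]
    have h : Q 0 nsq = nsq + fun _ => (1 : ℝ) := by
      funext z
      rw [Pi.add_apply, Q_nsq]
    rw [h, map_add, Pi.add_apply, ih, Qp_const]
    push_cast
    ring

lemma nsq_zero : nsq 0 = 0 := by simp [nsq]

lemma G_le_nine (x : W) : G x ≤ 9 := by
  have h := G_le x
  have h2 : ff x ≤ 1 / 8 := by
    unfold ff
    apply one_div_le_one_div_of_le (by norm_num)
    have := nsq_nonneg x
    linarith
  linarith

lemma meas_Gam (n j : ℕ) : Measurable fun ω : ℕ → W => 1 / Gam ω n (pos ω j) := by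
  apply meas_dep (n + j)
  intro ω ω' h
  unfold Gam
  have h1 : pos ω j = pos ω' j := pos_congr j fun i hi => h i (by omega)
  rw [h1]
  congr 1
  apply Finset.sum_congr rfl
  intro i hi
  rw [Finset.mem_range] at hi
  rw [pos_congr i fun k hk => h k (by omega)]

lemma int_inv_Gam (hμ : IsW μ 0) {c : ℝ} (hc : 0 < c) (hG : ∀ x, c / (8 + nsq x) ≤ G x)
    (n j : ℕ) (hj : j ≤ n) :
    Integrable (fun ω : ℕ → W => 1 / Gam ω n (pos ω j)) (law μ) ∧
    ∫ ω, 1 / Gam ω n (pos ω j) ∂(law μ) ≤ (8 / c) * (1 / SK (n - j)) := by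
  have hint : ∀ m, Integrable (fun ω : ℕ → W => 8 + nsq (pos ω (j + m) - pos ω j)) (law μ) ∧
      ∫ ω, (8 + nsq (pos ω (j + m) - pos ω j)) ∂(law μ) = 8 + m := by
    intro m
    have h := inc_int hμ (fun x => 8 + nsq x) j m
    refine ⟨h.1, ?_⟩
    rw [h.2]
    have h2 : (fun x => 8 + nsq x) = (fun _ => (8 : ℝ)) + nsq := rfl
    rw [h2, map_add, Pi.add_apply, Qp_const, Qp_nsq, nsq_zero]
    ring
  have hint2 : Integrable (fun ω : ℕ → W => (1 / c) * ((1 / SK (n - j) ^ 2) *
      ∑ m ∈ Finset.range (n - j + 1), (1 / ((m : ℝ) + 1) ^ 2) *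
        (8 + nsq (pos ω (j + m) - pos ω j)))) (law μ) :=
    ((integrable_finsetSum _ fun m _ => (hint m).1.const_mul _).const_mul _).const_mul _
  have hle : ∀ ω : ℕ → W, 1 / Gam ω n (pos ω j) ≤ (1 / c) * ((1 / SK (n - j) ^ 2) *
      ∑ m ∈ Finset.range (n - j + 1), (1 / ((m : ℝ) + 1) ^ 2) *
        (8 + nsq (pos ω (j + m) - pos ω j))) := fun ω => inv_Gam_le hc hG ω n j hj
  have hint3 : Integrable (fun ω : ℕ → W => 1 / Gam ω n (pos ω j)) (law μ) := by
    apply hint2.mono (meas_Gam n j).aestronglyMeasurable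
    filter_upwards with ω
    have h1 : 0 < 1 / Gam ω n (pos ω j) := one_div_pos.mpr (Gam_pos ω n _)
    rw [Real.norm_of_nonneg h1.le, Real.norm_of_nonneg (h1.le.trans (hle ω))]
    exact hle ω
  refine ⟨hint3, ?_⟩
  refine (integral_mono hint3 hint2 hle).trans ?_
  rw [integral_const_mul, integral_const_mul,
    integral_finsetSum _ fun m _ => (hint m).1.const_mul _]
  simp only [integral_const_mul, (hint _).2]
  have hS := SK_pos (n - j)
  have h1 : ∑ m ∈ Finset.range (n - j + 1), (1 / ((m : ℝ) + 1) ^ 2) * (8 + m) ≤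
      8 * SK (n - j) := by
    unfold SK
    rw [Finset.mul_sum]
    apply Finset.sum_le_sum
    intro m _
    have hm : (0 : ℝ) ≤ m := Nat.cast_nonneg m
    rw [one_div_mul_eq_div, mul_one_div, div_le_div_iff₀ (by positivity) (by positivity)]
    nlinarith [mul_nonneg hm hm]
  have h2 : (1 / SK (n - j) ^ 2) * ∑ m ∈ Finset.range (n - j + 1),
      (1 / ((m : ℝ) + 1) ^ 2) * (8 + m) ≤ (1 / SK (n - j) ^ 2) * (8 * SK (n - j)) :=
    mul_le_mul_of_nonneg_left h1 (by positivity)
  have h3 : (1 / SK (n - j) ^ 2) * (8 * SK (n - j)) = 8 * (1 / SK (n - j)) := by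
    field_simp
  have h4 : (8 / c) * (1 / SK (n - j)) = (1 / c) * (8 * (1 / SK (n - j))) := by ring
  rw [h4]
  apply mul_le_mul_of_nonneg_left _ (by positivity)
  linarith

lemma SK_tendsto : Tendsto (fun K => 1 / SK K) atTop (𝓝 0) := by
  have h1 : Tendsto SK atTop atTop := by
    have h2 := Real.tendsto_sum_range_one_div_nat_succ_atTop
    exact h2.comp (tendsto_add_atTop_nat 1)
  simp only [one_div]
  exact tendsto_inv_atTop_zero.comp h1

/-- the asymptotic capacity of the range of the simple random walk on `ℤ^4` vanishes -/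
theorem acap_zero (hμ : IsW μ 0) : acap μ = 0 := by
  obtain ⟨c, hc, hG⟩ := G_lower
  have hmean : ∀ (t : ℝ), 0 < t → ∀ n : ℕ, ∫ ω, cap μ (ran ω n) ∂(law μ) ≤
      (t * (n + 1) + (1 / t) * ((8 / c) * ∑ K ∈ Finset.range (n + 1), 1 / SK K)) / 2 := by
    intro t ht n
    have hI : ∀ j ∈ Finset.range (n + 1),
        Integrable (fun ω : ℕ → W => 1 / Gam ω n (pos ω j)) (law μ) := fun j hj =>
      (int_inv_Gam hμ hc hG n j (by have := Finset.mem_range.mp hj; omega)).1
    have h1 : ∫ ω, cap μ (ran ω n) ∂(law μ) ≤ ∫ ω, (t * (n + 1) +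
      (1 / t) * ∑ j ∈ Finset.range (n + 1), 1 / Gam ω n (pos ω j)) / 2 ∂(law μ) := by
      apply integral_mono (integrable_cap μ n)
      · exact ((integrable_const _).add ((integrable_finsetSum _ hI).const_mul _)).div_const _
      · intro ω
        exact cap_upper hμ ω n t ht
    refine h1.trans ?_
    rw [integral_div, integral_add (integrable_const _)
      ((integrable_finsetSum _ hI).const_mul _), integral_const_mul (1 / t),
      integral_finsetSum _ hI]
    have h2 : ∫ _ : ℕ → W, t * ((n : ℝ) + 1) ∂(law μ) = t * (n + 1) := by simp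
    rw [h2]
    have h3 : ∑ j ∈ Finset.range (n + 1), ∫ ω, 1 / Gam ω n (pos ω j) ∂(law μ) ≤
        (8 / c) * ∑ K ∈ Finset.range (n + 1), 1 / SK K := by
      rw [← Finset.sum_range_reflect (fun K => 1 / SK K) (n + 1), Finset.mul_sum]
      apply Finset.sum_le_sum
      intro j hj
      have hj' : j ≤ n := by have := Finset.mem_range.mp hj; omega
      have h4 := (int_inv_Gam hμ hc hG n j hj').2
      have h5 : n + 1 - 1 - j = n - j := by omega
      rw [h5]
      exact h4
    have h4 := mul_le_mul_of_nonneg_left h3 (by positivity : 0 ≤ 1 / t)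
    linarith
  have hces := SK_tendsto.cesaro
  have hle : ∀ t : ℝ, 0 < t → acap μ ≤ t := by
    intro t ht
    have h1 : Tendsto (fun n : ℕ => ((t * ((n : ℝ) + 1) + (1 / t) * ((8 / c) *
        ∑ K ∈ Finset.range (n + 1), 1 / SK K)) / 2) / (n + 1)) atTop (𝓝 ((t + 0) / 2)) := by
      have h2 : Tendsto (fun n : ℕ => (1 / t) * ((8 / c) * ((((n + 1 : ℕ) : ℝ)⁻¹) *
          ∑ K ∈ Finset.range (n + 1), 1 / SK K))) atTop (𝓝 ((1 / t) * ((8 / c) * 0))) :=
        ((hces.comp (tendsto_add_atTop_nat 1)).const_mul _).const_mul _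
      have h3 : Tendsto (fun n : ℕ => (t + (1 / t) * ((8 / c) * ((((n + 1 : ℕ) : ℝ)⁻¹) *
          ∑ K ∈ Finset.range (n + 1), 1 / SK K))) / 2) atTop (𝓝 ((t + 0) / 2)) := by
        apply Tendsto.div_const
        apply Tendsto.const_add
        simpa using h2
      refine h3.congr fun n => ?_
      have hn : (n : ℝ) + 1 ≠ 0 := by positivity
      push_cast
      field_simp
    have h4 : Tendsto (fun n : ℕ => (((t * ((n : ℝ) + 1) + (1 / t) * ((8 / c) *
        ∑ K ∈ Finset.range (n + 1), 1 / SK K)) / 2) / (n + 1)) * (((n : ℝ) + 1) / n)) atTop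
        (𝓝 ((t + 0) / 2 * 1)) := by
      apply h1.mul
      have h5 : Tendsto (fun n : ℕ => 1 + 1 / (n : ℝ)) atTop (𝓝 (1 + 0)) :=
        tendsto_const_nhds.add tendsto_one_div_atTop_nhds_zero_nat
      rw [add_zero] at h5
      refine h5.congr' ?_
      filter_upwards [eventually_ge_atTop 1] with n hn
      have hn' : (n : ℝ) ≠ 0 := by positivity
      field_simp
    have h6 : acap μ ≤ (t + 0) / 2 * 1 := by
      apply le_of_tendsto_of_tendsto (acap_mean μ) h4
      filter_upwards [eventually_ge_atTop 1] with n hn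
      have hn' : (0 : ℝ) < n := by exact_mod_cast hn
      have hn2 : (n : ℝ) + 1 ≠ 0 := by positivity
      have h7 := hmean t ht n
      rw [div_le_iff₀ hn']
      refine h7.trans (le_of_eq ?_)
      field_simp
    linarith
  apply le_antisymm _ (acap_nonneg μ)
  by_contra h
  push Not at h
  have := hle (acap μ / 2) (by linarith)
  linarith

end Pool.Agent.R986.AC
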