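import Mathlib
import Pool.Agent.R986.AC5

/-!
Coordinates on the simplex `Delta_S` and non-differentiability of the asymptotic capacity.
-/

namespace Pool.Agent.R986.AC

open MeasureTheory Filter Topology

/-- the weight function with the affine coordinates `y` on `Delta_S`: all weights but that of
`s0` are the coordinates, the weight of `s0` is determined by the total mass being `1` -/
noncomputable def wt {d : ℕ} (S : Finset (V d)) (s0 : V d) (y : {s // s ∈ S.erase s0} → ℝ)
    (s : V d) : ℝ :=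
  if h : s ∈ S.erase s0 then y ⟨s, h⟩ else if s = s0 then 1 - ∑ t, y t else 0

/-- the coordinates of the points of `Delta_S` -/
def chart {d : ℕ} (S : Finset (V d)) (s0 : V d) : Set ({s // s ∈ S.erase s0} → ℝ) :=
  {y | (∀ t, 0 < y t) ∧ ∑ t, y t < 1}

/-- a probability mass function from a function with total mass one -/
noncomputable def toP {d : ℕ} (f : V d → ENNReal) (h : HasSum f 1) : PMF (V d) := ⟨f, h⟩

lemma toP_apply {d : ℕ} (f : V d → ENNReal) (h : HasSum f 1) (s : V d) : toP f h s = f s := rfl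

open Classical in
/-- the probability measure with coordinates `y` (and a junk value if `y` does not define a
probability measure) -/
noncomputable def meas {d : ℕ} (S : Finset (V d)) (s0 : V d) (y : {s // s ∈ S.erase s0} → ℝ) :
    PMF (V d) :=
  if h : HasSum (fun s => ENNReal.ofReal (wt S s0 y s)) 1 then toP _ h else PMF.pure 0

lemma sum_wt {d : ℕ} (S : Finset (V d)) (s0 : V d) (hs0 : s0 ∈ S)
    (y : {s // s ∈ S.erase s0} → ℝ) : ∑ s ∈ S, wt S s0 y s = 1 := by
  rw [← Finset.add_sum_erase S _ hs0]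
  have h1 : wt S s0 y s0 = 1 - ∑ t, y t := by simp [wt]
  have h2 : ∑ s ∈ S.erase s0, wt S s0 y s = ∑ t, y t := by
    rw [← Finset.sum_coe_sort]
    apply Finset.sum_congr rfl
    intro t _
    unfold wt
    rw [dif_pos t.2]
  rw [h1, h2]
  ring

lemma wt_pos {d : ℕ} (S : Finset (V d)) (s0 : V d) (y : {s // s ∈ S.erase s0} → ℝ)
    (hy : y ∈ chart S s0) (s : V d) (hs : s ∈ S) : 0 < wt S s0 y s := by
  unfold wt
  by_cases h : s ∈ S.erase s0
  · rw [dif_pos h]
    exact hy.1 _
  · have : s = s0 := by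
      by_contra hne
      exact h (Finset.mem_erase.mpr ⟨hne, hs⟩)
    rw [dif_neg h, if_pos this]
    have := hy.2
    linarith

lemma wt_zero {d : ℕ} (S : Finset (V d)) (s0 : V d) (hs0 : s0 ∈ S)
    (y : {s // s ∈ S.erase s0} → ℝ) (s : V d) (hs : s ∉ S) : wt S s0 y s = 0 := by
  have hne : s ≠ s0 := fun h => hs (h ▸ hs0)
  unfold wt
  rw [dif_neg (fun h => hs (Finset.mem_of_mem_erase h)), if_neg hne]

/-- on the chart, `meas` is the probability measure with the given weights -/
theorem meas_apply {d : ℕ} (S : Finset (V d)) (s0 : V d) (hs0 : s0 ∈ S)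
    (y : {s // s ∈ S.erase s0} → ℝ) (hy : y ∈ chart S s0) (s : V d) :
    meas S s0 y s = ENNReal.ofReal (wt S s0 y s) := by
  have h : HasSum (fun s => ENNReal.ofReal (wt S s0 y s)) 1 := by
    have h1 : HasSum (fun s => ENNReal.ofReal (wt S s0 y s))
        (∑ s ∈ S, ENNReal.ofReal (wt S s0 y s)) :=
      hasSum_sum_of_ne_finset_zero (fun s hs => by rw [wt_zero S s0 hs0 y s hs]; simp)
    rw [← ENNReal.ofReal_sum_of_nonneg (fun s hs => (wt_pos S s0 y hy s hs).le),
      sum_wt S s0 hs0 y, ENNReal.ofReal_one] at h1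
    exact h1
  unfold meas
  rw [dif_pos h, toP_apply]

/-- the weights of the walk with drift -/
noncomputable def wr (r : ℝ) (s : W) : ℝ :=
  if s = ee 0 then (1 + r) / 8 else if s = -ee 0 then (1 - r) / 8 else 1 / 8

lemma wr_sum (r : ℝ) : ∑ s ∈ dirs, wr r s = 1 := by
  rw [sum_dirs]
  have h1 : ∀ i : Fin 4, wr r (ee i) = if i = 0 then (1 + r) / 8 else 1 / 8 := by
    intro i
    unfold wr
    have : (ee i = ee 0) ↔ i = 0 := ⟨fun h => ee_inj h, fun h => by rw [h]⟩
    simp only [this, ee_ne_neg, if_false]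
  have h2 : ∀ i : Fin 4, wr r (-ee i) = if i = 0 then (1 - r) / 8 else 1 / 8 := by
    intro i
    unfold wr
    have : (-ee i = -ee 0) ↔ i = 0 := ⟨fun h => ee_inj (neg_injective h), fun h => by rw [h]⟩
    have h3 : (-ee i = ee 0) = False := by
      simp only [eq_iff_iff, iff_false]
      exact fun h => ee_ne_neg 0 i h.symm
    simp only [this, h3, if_false]
  simp only [h1, h2, Fin.sum_univ_four]
  have h2 : ((1 : Fin 4) = 0) = False := by simp
  have h3 : ((2 : Fin 4) = 0) = False := by simp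
  have h4 : ((3 : Fin 4) = 0) = False := by simp
  simp only [h2, h3, h4, if_true, if_false]
  ring

/-- coordinates of the walk with drift -/
noncomputable def yr (s0 : W) (r : ℝ) : {s // s ∈ dirs.erase s0} → ℝ := fun t => wr r t.1

lemma wt_yr (s0 : W) (hs0 : s0 ∈ dirs) (r : ℝ) (s : W) (hs : s ∈ dirs) :
    wt dirs s0 (yr s0 r) s = wr r s := by
  by_cases h : s ∈ dirs.erase s0
  · unfold wt
    rw [dif_pos h]
    rfl
  · have h1 : s = s0 := by
      by_contra hne
      exact h (Finset.mem_erase.mpr ⟨hne, hs⟩)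
    subst h1
    have h2 := wr_sum r
    rw [← Finset.add_sum_erase dirs _ hs] at h2
    have h3 : ∑ t, yr s r t = ∑ s' ∈ dirs.erase s, wr r s' :=
      Finset.sum_coe_sort (dirs.erase s) (fun s' => wr r s')
    unfold wt
    rw [dif_neg h, if_pos rfl, h3]
    linarith

lemma wr_pos {r : ℝ} (h0 : -1 < r) (h1 : r < 1) (s : W) : 0 < wr r s := by
  unfold wr
  split_ifs <;> linarith

lemma yr_chart (s0 : W) (hs0 : s0 ∈ dirs) {r : ℝ} (h0 : -1 < r) (h1 : r < 1) :
    yr s0 r ∈ chart dirs s0 := by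
  refine ⟨fun t => wr_pos h0 h1 _, ?_⟩
  have h2 := wr_sum r
  rw [← Finset.add_sum_erase dirs _ hs0] at h2
  have h3 : ∑ t, yr s0 r t = ∑ s' ∈ dirs.erase s0, wr r s' :=
    Finset.sum_coe_sort (dirs.erase s0) (fun s' => wr r s')
  rw [h3]
  have := wr_pos h0 h1 s0
  linarith

lemma ee_mem (i : Fin 4) : ee i ∈ dirs := by
  unfold dirs
  exact Finset.mem_union_left _ (Finset.mem_image_of_mem _ (Finset.mem_univ i))

lemma neg_ee_mem (i : Fin 4) : -ee i ∈ dirs := by
  unfold dirs
  exact Finset.mem_union_right _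
    (Finset.mem_image_of_mem (fun i => -ee i) (Finset.mem_univ i))

lemma isW_yr (s0 : W) (hs0 : s0 ∈ dirs) {r : ℝ} (h0 : -1 < r) (h1 : r < 1) :
    IsW (meas dirs s0 (yr s0 r)) r := by
  have hm := meas_apply dirs s0 hs0 (yr s0 r) (yr_chart s0 hs0 h0 h1)
  refine ⟨?_, ?_, ?_⟩
  · intro s hs
    rw [hm, wt_zero dirs s0 hs0 _ s hs]
    simp
  · intro i
    rw [hm, wt_yr s0 hs0 r _ (ee_mem i), ENNReal.toReal_ofReal (wr_pos h0 h1 _).le]
    unfold wr
    have : (ee i = ee 0) ↔ i = 0 := ⟨fun h => ee_inj h, fun h => by rw [h]⟩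
    simp only [this, ee_ne_neg, if_false]
  · intro i
    rw [hm, wt_yr s0 hs0 r _ (neg_ee_mem i), ENNReal.toReal_ofReal (wr_pos h0 h1 _).le]
    unfold wr
    have : (-ee i = -ee 0) ↔ i = 0 := ⟨fun h => ee_inj (neg_injective h), fun h => by rw [h]⟩
    have h3 : (-ee i = ee 0) = False := by
      simp only [eq_iff_iff, iff_false]
      exact fun h => ee_ne_neg 0 i h.symm
    simp only [this, h3, if_false]

lemma yr_zero (s0 : W) : yr s0 0 = fun _ => 1 / 8 := by
  funext t
  unfold yr wr
  split_ifs <;> norm_num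

/-- direction of the drift in coordinates -/
noncomputable def vr (s0 : W) : {s // s ∈ dirs.erase s0} → ℝ := fun t =>
  if t.1 = ee 0 then 1 / 8 else if t.1 = -ee 0 then -1 / 8 else 0

lemma yr_eq (s0 : W) (r : ℝ) : yr s0 r = (fun _ => 1 / 8) + r • vr s0 := by
  funext t
  simp only [Pi.add_apply, Pi.smul_apply, smul_eq_mul]
  unfold yr wr vr
  split_ifs <;> ring

/-- **non-differentiability** of the asymptotic capacity at the simple random walk -/
theorem not_diff (s0 : W) (hs0 : s0 ∈ dirs) :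
    ¬ DifferentiableAt ℝ (fun y => acap (meas dirs s0 y)) (fun _ => 1 / 8) := by
  intro hd
  set g : ℝ → ℝ := fun r => acap (meas dirs s0 (yr s0 r)) with hg
  have h1 : DifferentiableAt ℝ g 0 := by
    have h2 : g = (fun y => acap (meas dirs s0 y)) ∘ fun r : ℝ =>
        ((fun _ => 1 / 8) + r • vr s0 : {s // s ∈ dirs.erase s0} → ℝ) := by
      funext r
      simp only [hg, Function.comp_apply, yr_eq]
    rw [h2]
    apply DifferentiableAt.comp
    · have h3 : ((fun _ => 1 / 8) + (0 : ℝ) • vr s0 : {s // s ∈ dirs.erase s0} → ℝ) =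
          fun _ => 1 / 8 := by simp
      rw [h3]
      exact hd
    · exact (differentiableAt_const _).add (differentiableAt_id.smul_const _)
  have h0 : g 0 = 0 := acap_zero (isW_yr s0 hs0 (by norm_num) (by norm_num))
  have hmin : IsLocalMin g 0 := by
    apply Filter.Eventually.of_forall
    intro r
    rw [h0]
    exact acap_nonneg _
  have hder : HasDerivAt g 0 0 := by
    have := h1.hasDerivAt
    rwa [hmin.deriv_eq_zero] at this
  have hw : HasDerivWithinAt g 0 (Set.Ioi 0) 0 := hder.hasDerivWithinAt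
  rw [hasDerivWithinAt_iff_tendsto_slope' (by simp)] at hw
  have hlow : ∀ᶠ r in 𝓝[>] (0 : ℝ), 1 / 2448 ≤ slope g 0 r := by
    have h4 : Set.Ioo (0 : ℝ) 1 ∈ 𝓝[>] (0 : ℝ) := Ioo_mem_nhdsGT one_pos
    filter_upwards [h4] with r hr
    have h5 := acap_lower (isW_yr s0 hs0 (by linarith [hr.1]) hr.2) hr.1 hr.2.le
    rw [slope_def_field, h0, sub_zero, sub_zero, le_div_iff₀ hr.1]
    have h6 : g r = acap (meas dirs s0 (yr s0 r)) := rfl
    rw [h6]
    linarith
  have := ge_of_tendsto hw hlow
  norm_num at this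

lemma center_mem (s0 : W) (hs0 : s0 ∈ dirs) : (fun _ => 1 / 8) ∈ chart dirs s0 := by
  rw [← yr_zero]
  exact yr_chart s0 hs0 (by norm_num) (by norm_num)

end Pool.Agent.R986.AC
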