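import Mathlib

/-!
# Algebraic recurrence of random walks on groups: definitions and basic facts
-/

set_option autoImplicit false

open MeasureTheory Filter Topology

namespace Pool.Agent.R986.AlgRec

/-- The step law `μ` is admissible: symmetric, and its support generates the group. -/
def Admissible {G : Type} [Group G] (μ : PMF G) : Prop :=
  (∀ g : G, μ g⁻¹ = μ g) ∧ Subgroup.closure μ.support = ⊤

/-- The law of an i.i.d. sequence of steps `ω 0, ω 1, ω 2, ...` with law `μ`. -/
noncomputable def steps {G : Type} [MeasurableSpace G] (μ : PMF G) : Measure (ℕ → G) :=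
  Measure.infinitePi (fun _ : ℕ => μ.toMeasure)

/-- The walk `X_m = ω 0 * ω 1 * ... * ω (m - 1)` with steps `ω 0, ω 1, ...`. -/
def walk {G : Type} [Group G] (ω : ℕ → G) (m : ℕ) : G := ((List.range m).map ω).prod

/-- The semigroup `S_n` of all finite products (of length at least one) of elements of
`{X_n, X_(n+1), ...}`. -/
def tail {G : Type} [Group G] (ω : ℕ → G) (n : ℕ) : Subsemigroup G :=
  Subsemigroup.closure {g | ∃ m, n ≤ m ∧ g = walk ω m}

/-- `(G, μ)` is algebraically recurrent: for every `n ≥ 1`, almost surely `S_n = G`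
(the group carries the discrete sigma-algebra). -/
def AR {G : Type} [Group G] (μ : PMF G) : Prop :=
  ∀ n : ℕ, 1 ≤ n → ∀ᵐ ω ∂(@steps G ⊤ μ), tail ω n = ⊤

/-- The group `G` is algebraically recurrent: `(G, μ)` is algebraically recurrent for every
symmetric probability measure `μ` whose support generates `G`. -/
def IsAR (G : Type) [Group G] : Prop := ∀ μ : PMF G, Admissible μ → AR μ

theorem walk_zero {G : Type} [Group G] (ω : ℕ → G) : walk ω 0 = 1 := rfl

theorem walk_succ {G : Type} [Group G] (ω : ℕ → G) (k : ℕ) : walk ω (k + 1) = walk ω k * ω k := by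
  unfold walk
  rw [List.range_succ, List.map_append, List.prod_append]
  simp

theorem walk_map {G Q : Type} [Group G] [Group Q] (φ : G →* Q) (ω : ℕ → G) (k : ℕ) :
    walk (fun n => φ (ω n)) k = φ (walk ω k) := by
  induction k with
  | zero => simp [walk_zero]
  | succ k ih => rw [walk_succ, walk_succ, ih, map_mul]

theorem tail_map {G Q : Type} [Group G] [Group Q] (φ : G →* Q) (ω : ℕ → G) (n : ℕ) :
    tail (fun n => φ (ω n)) n = (tail ω n).map φ.toMulHom := by
  unfold tail
  rw [MulHom.map_mclosure]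
  congr 1
  ext g
  simp only [Set.mem_image, Set.mem_ofPred_eq]
  constructor
  · rintro ⟨m, hm, rfl⟩
    exact ⟨walk ω m, ⟨m, hm, rfl⟩, (walk_map φ ω m).symm⟩
  · rintro ⟨_, ⟨m, hm, rfl⟩, rfl⟩
    exact ⟨m, hm, (walk_map φ ω m).symm⟩

section
variable {G : Type} [Group G] [MeasurableSpace G] [DiscreteMeasurableSpace G]

/-- measurable space on a discrete measurable space is top -/
theorem eq_top_of_discrete : (‹MeasurableSpace G› : MeasurableSpace G) = ⊤ := by
  apply MeasurableSpace.ext
  intro s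
  constructor
  · intro _; trivial
  · intro _; exact MeasurableSet.of_discrete

theorem ar_iff (μ : PMF G) : AR μ ↔ ∀ n : ℕ, 1 ≤ n → ∀ᵐ ω ∂(steps μ), tail ω n = ⊤ := by
  have h : ∀ (m1 m2 : MeasurableSpace G), m1 = m2 →
      ((∀ n : ℕ, 1 ≤ n → ∀ᵐ ω ∂(@steps G m1 μ), tail ω n = ⊤) ↔
      (∀ n : ℕ, 1 ≤ n → ∀ᵐ ω ∂(@steps G m2 μ), tail ω n = ⊤)) := by
    rintro m1 _ rfl
    exact Iff.rfl
  exact h _ _ eq_top_of_discrete.symm

theorem not_ar_iff (μ : PMF G) : ¬ AR μ ↔ ∃ n : ℕ, 1 ≤ n ∧ 0 < steps μ {ω | tail ω n ≠ ⊤} := by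
  rw [ar_iff]
  push Not
  constructor
  · rintro ⟨n, hn, h⟩
    refine ⟨n, hn, ?_⟩
    rw [pos_iff_ne_zero]
    intro h0
    refine h ?_
    rw [ae_iff]
    simpa using h0
  · rintro ⟨n, hn, h⟩
    refine ⟨n, hn, fun h0 => h.ne' ?_⟩
    rw [ae_iff] at h0
    simpa using h0

/-- If almost surely the identity is missing from some tail semigroup, then `(G, μ)` is not AR. -/
theorem not_ar_of_one_notMem (μ : PMF G)
    (h : ∀ᵐ ω ∂(steps μ), ∃ n : ℕ, 1 ≤ n ∧ (1 : G) ∉ tail ω n) :
    ∃ n : ℕ, 1 ≤ n ∧ 0 < steps μ {ω | tail ω n ≠ ⊤} := by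
  by_contra hcon
  push Not at hcon
  have h1 : ∀ᵐ ω ∂(steps μ), ∀ n : ℕ, 1 ≤ n → tail ω n = ⊤ := by
    rw [ae_all_iff]
    intro n
    by_cases hn : 1 ≤ n
    · have := hcon n hn
      have h0 : steps μ {ω | tail ω n ≠ ⊤} = 0 := nonpos_iff_eq_zero.1 this
      have h2 : ∀ᵐ ω ∂(steps μ), tail ω n = ⊤ := by
        rw [ae_iff]; exact h0
      filter_upwards [h2] with ω hω _
      exact hω
    · exact Eventually.of_forall fun ω hn' => absurd hn' hn
  have hprob : IsProbabilityMeasure (steps μ) := by unfold steps; infer_instance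
  have h2 : ∀ᵐ _ω ∂(steps μ), False := by
    filter_upwards [h, h1] with ω ⟨n, hn, hω⟩ h1
    rw [h1 n hn] at hω
    exact hω trivial
  rw [ae_iff] at h2
  simp at h2

end

/-- The law of the image of the steps. -/
theorem steps_map {G Q : Type} [MeasurableSpace G] [DiscreteMeasurableSpace G]
    [MeasurableSpace Q] [DiscreteMeasurableSpace Q] (f : G → Q) (μ : PMF G) :
    (steps μ).map (fun ω n => f (ω n)) = steps (μ.map f) := by
  unfold steps
  rw [Measure.infinitePi_map_pi (μ := fun _ : ℕ => μ.toMeasure) (f := fun _ => f)]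
  · congr 1
    funext _
    exact PMF.toMeasure_map f μ Measurable.of_discrete
  · intro _
    exact Measurable.of_discrete

end Pool.Agent.R986.AlgRec
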