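import Pool.Agent.R986.ARQuot
import Pool.Agent.H582AR.Prob

/-!
# Free groups are not algebraically recurrent
-/

set_option autoImplicit false

open MeasureTheory Filter Topology
open scoped ENNReal

namespace Pool.Agent.R986.AlgRec

open Pool.Agent.H582AR (W)

/-- The wreath product of two infinite cyclic groups is not algebraically recurrent. -/
theorem wreath_not_isAR : ¬ IsAR W := by
  intro h
  let _ : MeasurableSpace W := ⊤
  have hadm : Admissible Pool.Agent.H582AR.nu :=
    ⟨Pool.Agent.H582AR.nu_symm, Pool.Agent.H582AR.nu_closure⟩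
  have hae : ∀ᵐ ω ∂(steps Pool.Agent.H582AR.nu), ∃ n : ℕ, 1 ≤ n ∧ (1 : W) ∉ tail ω n := by
    unfold steps
    filter_upwards [Pool.Agent.H582AR.nu_strong] with ω hω
    obtain ⟨n, hn, z, hz, hz0, h⟩ := hω
    refine ⟨n, hn, fun h1 => ?_⟩
    have hle : tail ω n ≤ Pool.Agent.H582AR.Pz z hz hz0 := by
      unfold tail
      rw [Subsemigroup.closure_le]
      rintro _ ⟨m, hm, rfl⟩
      exact h m hm
    exact Pool.Agent.H582AR.one_notMem_Pz z hz hz0 (hle h1)
  exact (not_ar_iff _).2 (not_ar_of_one_notMem _ hae) (h _ hadm)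

/-- A countable group which maps onto the wreath product is not algebraically recurrent. -/
theorem not_isAR_of_surj {G : Type} [Group G] [Countable G] (φ : G →* W)
    (hφ : Function.Surjective φ) : ¬ IsAR G :=
  fun h => wreath_not_isAR (h.quotient φ hφ)

theorem countable_freeGroup (d : ℕ) : Countable (FreeGroup (Fin d)) :=
  FreeGroup.toWord_injective.countable

/-- a surjection from the free group of rank `d ≥ 2` -/
theorem exists_surj (d : ℕ) (hd : 2 ≤ d) :
    ∃ φ : FreeGroup (Fin d) →* W, Function.Surjective φ := by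
  refine ⟨FreeGroup.lift (fun i => if (i : ℕ) = 0 then W.t else W.a), ?_⟩
  rw [← MonoidHom.range_eq_top]
  apply Pool.Agent.H582AR.closure_ta
  · exact ⟨FreeGroup.of ⟨0, by omega⟩, by simp⟩
  · exact ⟨FreeGroup.of ⟨1, by omega⟩, by simp⟩

theorem freeGroup_not_isAR (d : ℕ) (hd : 2 ≤ d) : ¬ IsAR (FreeGroup (Fin d)) := by
  obtain ⟨φ, hφ⟩ := exists_surj d hd
  have := countable_freeGroup d
  exact not_isAR_of_surj φ hφ

end Pool.Agent.R986.AlgRec
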