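import Pool.Agent.R986.ARDefs
import Pool.Agent.H582AR.Gen

/-!
# Heavy-tailed symmetric step laws and the direct sum of countably many copies of `ℤ`
-/

set_option autoImplicit false

open MeasureTheory Filter Topology

namespace Pool.Agent.R986.AlgRec

open Pool.Agent.H582AR.Gen

section Levels

variable {G : Type} (F : ℕ → Finset G) (hne : ∀ i, (F i).Nonempty)

/-- elements of level less than `d` -/
def HH (d : ℕ) : Set G := {g | ∃ i < d, g ∈ F i}

/-- level `i` is used at least twice before any higher level is used -/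
def Bad (i : ℕ) : Set (ℕ → G) := {ω | ∃ j m, (∀ l < j, ω l ∈ HH F i) ∧ ω j ∈ (F i : Set G) ∧
        (∀ l < m, ω (j + 1 + l) ∈ HH F i) ∧ ω (j + 1 + m) ∈ (F i : Set G)}

/-- The heavy-tailed law: choose a level with polynomial tails, then an element of the level. -/
noncomputable def nu : PMF G :=
  (tailPMF W2 W2_zero W2_anti W2_lim).bind fun i => PMF.uniformOfFinset (F i) (hne i)

theorem nu_support : (nu F hne).support = ⋃ i, (F i : Set G) := by
  unfold nu
  rw [PMF.support_bind]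
  have : (tailPMF W2 W2_zero W2_anti W2_lim).support = Set.univ := by
    ext k
    rw [PMF.mem_support_iff, tailPMF_apply]
    simp only [Set.mem_univ, iff_true]
    exact (ENNReal.ofReal_pos.2 (sub_pos.2 (W2_strict k))).ne'
  rw [this]
  simp

theorem nu_symm [Group G] (hs : ∀ i (g : G), g⁻¹ ∈ F i ↔ g ∈ F i) (g : G) :
    nu F hne g⁻¹ = nu F hne g := by
  classical
  unfold nu
  rw [PMF.bind_apply, PMF.bind_apply]
  apply tsum_congr
  intro i
  congr 1
  rw [PMF.uniformOfFinset_apply, PMF.uniformOfFinset_apply]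
  by_cases h : g ∈ F i
  · rw [if_pos h, if_pos ((hs i g).2 h)]
  · rw [if_neg h, if_neg fun hh => h ((hs i g).1 hh)]

variable [MeasurableSpace G] [DiscreteMeasurableSpace G]

theorem unif_of_subset (i : ℕ) (A : Set G) (h : ∀ g ∈ F i, g ∈ A) :
    (PMF.uniformOfFinset (F i) (hne i)).toMeasure A = 1 := by
  rw [PMF.toMeasure_apply_eq_one_iff _ MeasurableSet.of_discrete]
  intro g hg
  rw [PMF.support_uniformOfFinset] at hg
  exact h g hg

theorem unif_of_disj (i : ℕ) (A : Set G) (h : ∀ g ∈ F i, g ∉ A) :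
    (PMF.uniformOfFinset (F i) (hne i)).toMeasure A = 0 := by
  rw [PMF.toMeasure_apply_eq_zero_iff _ MeasurableSet.of_discrete]
  rw [Set.disjoint_left]
  intro g hg
  rw [PMF.support_uniformOfFinset] at hg
  exact h g hg

variable (hd : ∀ i j g, g ∈ F i → g ∈ F j → i = j)

include hd

theorem nu_HH (d : ℕ) : (nu F hne).toMeasure (HH F d) = ENNReal.ofReal (1 - W2 d) := by
  unfold nu
  rw [PMF.toMeasure_bind_apply _ _ _ MeasurableSet.of_discrete,
    ← tailPMF_lt W2 W2_zero W2_anti W2_lim d, PMF.toMeasure_apply _ MeasurableSet.of_discrete]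
  apply tsum_congr
  intro i
  by_cases h : i < d
  · rw [unif_of_subset F hne i (HH F d) fun g hg => ⟨i, h, hg⟩, mul_one,
      Set.indicator_of_mem (show i ∈ {k | k < d} from h)]
  · have hdis : ∀ g ∈ F i, g ∉ HH F d := by
      rintro g hg ⟨j, hj, hgj⟩
      exact h (hd i j g hg hgj ▸ hj)
    rw [unif_of_disj F hne i _ hdis, mul_zero,
      Set.indicator_of_notMem (show i ∉ {k | k < d} from h)]

theorem nu_FF (d : ℕ) : (nu F hne).toMeasure (F d : Set G) = ENNReal.ofReal (W2 d - W2 (d + 1)) := by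
  unfold nu
  rw [PMF.toMeasure_bind_apply _ _ _ MeasurableSet.of_discrete]
  rw [tsum_eq_single d]
  · rw [unif_of_subset F hne d _ fun g hg => hg, mul_one, tailPMF_apply]
  · intro i hi
    rw [unif_of_disj F hne i _ fun g hg hL => hi (hd i d g hg hL), mul_zero]

theorem prob_Bad (i : ℕ) :
    Measure.infinitePi (fun _ : ℕ => (nu F hne).toMeasure) (Bad F i) ≤
      ENNReal.ofReal ((1 / ((i : ℝ) + 2)) ^ 2) := by
  have hW := W2_pos i
  have hW1 : W2 i ≤ 1 := W2_zero ▸ W2_anti (Nat.zero_le _)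
  have hcompl : 1 - (nu F hne).toMeasure (HH F i) = ENNReal.ofReal (W2 i) := by
    rw [nu_HH F hne hd, ← ENNReal.ofReal_one, ← ENNReal.ofReal_sub _ (by linarith)]
    congr 1; ring
  refine (two_hits _ _ _).trans ?_
  rw [hcompl, nu_FF F hne hd, ENNReal.ofReal_pow (by positivity), ← W2_ratio,
    ENNReal.ofReal_div_of_pos hW, ENNReal.div_eq_inv_mul, mul_comm]

/-- Almost surely: all steps belong to some level, all levels from some point on are good, and
arbitrarily high levels are used. -/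
theorem nu_ae : ∀ᵐ ω ∂(Measure.infinitePi (fun _ : ℕ => (nu F hne).toMeasure)),
    (∀ j, ∃ i, ω j ∈ F i) ∧ (∀ᶠ i in atTop, ω ∉ Bad F i) ∧ ∀ i0, ∃ j, ω j ∉ HH F i0 := by
  have hT : (nu F hne).toMeasure {g | ∃ i, g ∈ F i} = 1 := by
    rw [PMF.toMeasure_apply_eq_one_iff _ MeasurableSet.of_discrete, nu_support]
    intro g hg
    obtain ⟨i, hi⟩ := Set.mem_iUnion.1 hg
    exact ⟨i, hi⟩
  have h1 : ∀ᵐ ω ∂(Measure.infinitePi (fun _ : ℕ => (nu F hne).toMeasure)),
      ∀ j, ∃ i, ω j ∈ F i := by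
    rw [ae_all_iff]
    intro j
    have h2 : {ω : ℕ → G | ¬ ∃ i, ω j ∈ F i}
        = (fun ω : ℕ → G => ω j) ⁻¹' {g | ∃ i, g ∈ F i}ᶜ := rfl
    rw [ae_iff, h2, ← Measure.map_apply (measurable_pi_apply j) MeasurableSet.of_discrete,
      Measure.infinitePi_map_eval, prob_compl_eq_one_sub MeasurableSet.of_discrete, hT,
      tsub_self]
  have h2 : ∀ᵐ ω ∂(Measure.infinitePi (fun _ : ℕ => (nu F hne).toMeasure)),
      ∀ᶠ i in atTop, ω ∉ Bad F i := by
    apply ae_eventually_notMem
    have hs : Summable fun i : ℕ => (1 / ((i : ℝ) + 2)) ^ 2 := by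
      have h3 : Summable fun i : ℕ => (1 : ℝ) / ((i : ℝ)) ^ 2 :=
        Real.summable_one_div_nat_pow.2 one_lt_two
      have h4 := (summable_nat_add_iff 2).2 h3
      refine h4.congr fun i => ?_
      push_cast
      rw [div_pow, one_pow]
    refine ne_top_of_le_ne_top ?_ (ENNReal.tsum_le_tsum (prob_Bad F hne hd))
    rw [← ENNReal.ofReal_tsum_of_nonneg (fun i => by positivity) hs]
    exact ENNReal.ofReal_ne_top
  have h3 : ∀ᵐ ω ∂(Measure.infinitePi (fun _ : ℕ => (nu F hne).toMeasure)),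
      ∀ i0, ∃ j, ω j ∉ HH F i0 := by
    rw [ae_all_iff]
    intro i0
    rw [ae_iff]
    have hlt : (nu F hne).toMeasure (HH F i0) < 1 := by
      rw [nu_HH F hne hd, ENNReal.ofReal_lt_one]
      linarith [W2_pos i0]
    have := never (nu F hne).toMeasure _ hlt 0
    convert this using 2
    ext ω
    simp
  filter_upwards [h1, h2, h3] with ω hω1 hω2 hω3
  exact ⟨hω1, hω2, hω3⟩

omit hd [MeasurableSpace G] [DiscreteMeasurableSpace G] in
/-- For an eventually good sequence: after some time the top level `i` is used exactly once. -/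
theorem top_once (ω : ℕ → G) (hT : ∀ j, ∃ i, ω j ∈ F i) (i0 : ℕ)
    (hbad : ∀ i, i0 ≤ i → ω ∉ Bad F i) (j0 : ℕ) (hj0 : ω j0 ∉ HH F i0) (k : ℕ) (hk : j0 < k) :
    ∃ i j, i0 ≤ i ∧ j < k ∧ (∀ l < j, ω l ∈ HH F i) ∧ ω j ∈ F i ∧
      ∀ l < k, l ≠ j → ω l ∈ HH F i := by
  classical
  have hmono : ∀ {d e : ℕ} (_ : d ≤ e) {g : G} (_ : g ∈ HH F d), g ∈ HH F e := by
    rintro d e h g ⟨i, hi, hg⟩
    exact ⟨i, by omega, hg⟩
  have hlev : ∀ i j, ω j ∉ HH F i → ω j ∈ HH F (i + 1) → ω j ∈ F i := by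
    intro i j h1 h2
    obtain ⟨i', hi', hg⟩ := h2
    by_cases h : i' < i
    · exact absurd ⟨i', h, hg⟩ h1
    · rwa [show i = i' by omega]
  have hex : ∃ d, ∀ j < k, ω j ∈ HH F (d + 1) := by
    clear hk
    induction k with
    | zero => exact ⟨0, fun j hj => by omega⟩
    | succ k ih =>
      obtain ⟨d, hd'⟩ := ih
      obtain ⟨e, he⟩ := hT k
      refine ⟨max d e, fun j hj => ?_⟩
      rcases Nat.lt_succ_iff_lt_or_eq.1 hj with h | h
      · exact hmono (by omega) (hd' j h)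
      · subst h; exact ⟨e, by omega, he⟩
  set i := Nat.find hex with hi
  have hi1 : ∀ j < k, ω j ∈ HH F (i + 1) := Nat.find_spec hex
  have hii0 : i0 ≤ i := by
    by_contra hlt
    exact hj0 (hmono (by omega) (hi1 j0 hk))
  have hex3 : ∃ j < k, ω j ∉ HH F i := by
    rcases Nat.eq_zero_or_pos i with h0 | h0
    · refine ⟨j0, hk, ?_⟩
      rw [h0]
      rintro ⟨i', hi', _⟩
      omega
    · have := Nat.find_min hex (m := i - 1) (by omega)
      push Not at this
      obtain ⟨j, hj, hjH⟩ := this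
      rw [show i - 1 + 1 = i by omega] at hjH
      exact ⟨j, hj, hjH⟩
  have hex2 : ∃ j, ω j ∉ HH F i := by
    obtain ⟨j, _, hj⟩ := hex3
    exact ⟨j, hj⟩
  set j := Nat.find hex2 with hj
  have hjH : ω j ∉ HH F i := Nat.find_spec hex2
  have hjk : j < k := by
    obtain ⟨j', hj', hj'H⟩ := hex3
    exact lt_of_le_of_lt (Nat.find_min' hex2 hj'H) hj'
  have hjl : ∀ l < j, ω l ∈ HH F i := fun l hl => by
    by_contra h
    exact Nat.find_min hex2 hl h
  have hjL : ω j ∈ F i := hlev i j hjH (hi1 j hjk)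
  have hafter : ∀ m, j + 1 + m < k → ω (j + 1 + m) ∈ HH F i := by
    by_contra hcon
    push Not at hcon
    let m := Nat.find hcon
    have hm : j + 1 + m < k ∧ ω (j + 1 + m) ∉ HH F i := Nat.find_spec hcon
    have hml : ∀ l < m, ω (j + 1 + l) ∈ HH F i := fun l hl => by
      have := Nat.find_min hcon hl
      push Not at this
      exact this (by omega)
    exact hbad i hii0 ⟨j, m, hjl, hjL, hml, hlev i _ hm.2 (hi1 _ hm.1)⟩
  refine ⟨i, j, hii0, hjk, hjl, hjL, ?_⟩
  intro l hl hne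
  rcases lt_or_gt_of_ne hne with h | h
  · exact hjl l h
  · have := hafter (l - (j + 1)) (by omega)
    rwa [show j + 1 + (l - (j + 1)) = l by omega] at this

end Levels

/-! ### The direct sum -/

section DirectSum

/-- `⨁_{i ∈ I} ℤ`, written multiplicatively. -/
abbrev GS (I : Type) : Type := Multiplicative (I →₀ ℤ)

variable (e : ℕ → ℤ)

/-- the two elements `± e_i` -/
noncomputable def FS (i : ℕ) : Finset (GS ℤ) :=
  {Multiplicative.ofAdd (Finsupp.single (e i) (1 : ℤ)),
    Multiplicative.ofAdd (Finsupp.single (e i) (-1 : ℤ))}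

theorem mem_FS (i : ℕ) (g : GS ℤ) : g ∈ FS e i ↔
    g = Multiplicative.ofAdd (Finsupp.single (e i) (1 : ℤ)) ∨
    g = Multiplicative.ofAdd (Finsupp.single (e i) (-1 : ℤ)) := by
  simp [FS]

theorem FS_ne (i : ℕ) : (FS e i).Nonempty := ⟨_, (mem_FS e i _).2 (Or.inl rfl)⟩

theorem FS_symm (i : ℕ) (g : GS ℤ) : g⁻¹ ∈ FS e i ↔ g ∈ FS e i := by
  have h1 : (Multiplicative.ofAdd (Finsupp.single (e i) (1 : ℤ)))⁻¹ =
      Multiplicative.ofAdd (Finsupp.single (e i) (-1 : ℤ)) := by
    rw [← ofAdd_neg, ← Finsupp.single_neg]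
  rw [mem_FS, mem_FS, inv_eq_iff_eq_inv, inv_eq_iff_eq_inv, h1, ← h1, inv_inv]
  exact or_comm

theorem FS_apply {i : ℕ} {g : GS ℤ} (h : g ∈ FS e i) (x : ℤ) :
    (x ≠ e i → Multiplicative.toAdd g x = 0) ∧ (Multiplicative.toAdd g (e i) = 1 ∨
      Multiplicative.toAdd g (e i) = -1) := by
  rcases (mem_FS e i g).1 h with h | h
  · subst h
    refine ⟨fun hx => ?_, Or.inl ?_⟩
    · rw [toAdd_ofAdd, Finsupp.single_eq_of_ne hx]
    · rw [toAdd_ofAdd, Finsupp.single_eq_same]
  · subst h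
    refine ⟨fun hx => ?_, Or.inr ?_⟩
    · rw [toAdd_ofAdd, Finsupp.single_eq_of_ne hx]
    · rw [toAdd_ofAdd, Finsupp.single_eq_same]

theorem FS_disj (he : Function.Injective e) (i j : ℕ) (g : GS ℤ) (h1 : g ∈ FS e i)
    (h2 : g ∈ FS e j) : i = j := by
  by_contra hne
  have h3 := (FS_apply e h1 (e j)).1 (fun h => hne (he h).symm)
  rcases (FS_apply e h2 0).2 with h | h <;> omega

theorem FS_closure (he : Function.Surjective e) :
    Subgroup.closure (⋃ i, (FS e i : Set (GS ℤ))) = ⊤ := by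
  rw [eq_top_iff]
  rintro g -
  have key : ∀ f : ℤ →₀ ℤ, Multiplicative.ofAdd f ∈
      Subgroup.closure (⋃ i, (FS e i : Set (GS ℤ))) := by
    intro f
    induction f using Finsupp.induction_linear with
    | zero => exact Subgroup.one_mem _
    | add f g hf hg => rw [ofAdd_add]; exact Subgroup.mul_mem _ hf hg
    | single a b =>
      obtain ⟨i, rfl⟩ := he a
      have h1 : Multiplicative.ofAdd (Finsupp.single (e i) (1 : ℤ)) ∈
          Subgroup.closure (⋃ i, (FS e i : Set (GS ℤ))) :=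
        Subgroup.subset_closure (Set.mem_iUnion.2 ⟨i, (mem_FS e i _).2 (Or.inl rfl)⟩)
      have h2 : Finsupp.single (e i) b = b • Finsupp.single (e i) (1 : ℤ) := by
        rw [Finsupp.smul_single]; simp
      rw [h2, ofAdd_zsmul]
      exact Subgroup.zpow_mem _ h1 b
  exact key (Multiplicative.toAdd g)

theorem toAdd_walk (ω : ℕ → GS ℤ) (k : ℕ) (x : ℤ) :
    Multiplicative.toAdd (walk ω k) x = ∑ l ∈ Finset.range k, Multiplicative.toAdd (ω l) x := by
  induction k with
  | zero => simp [walk_zero]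
  | succ k ih => rw [walk_succ, toAdd_mul, Finsupp.add_apply, ih, Finset.sum_range_succ]

/-- The positive cone attached to a sequence of signs: the top coordinate (of index at least `i0`)
has the prescribed sign. -/
def cone (s : ℕ → ℤ) (i0 : ℕ) : Subsemigroup (GS ℤ) where
  carrier := {g | ∃ i, i0 ≤ i ∧ 0 < s i * Multiplicative.toAdd g (e i) ∧
    ∀ j, i < j → Multiplicative.toAdd g (e j) = 0}
  mul_mem' := by
    rintro a b ⟨i, hi, hi1, hi2⟩ ⟨j, hj, hj1, hj2⟩
    rcases lt_trichotomy i j with h | h | h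
    · refine ⟨j, hj, ?_, ?_⟩
      · rw [toAdd_mul, Finsupp.add_apply, hi2 j h, zero_add]; exact hj1
      · intro l hl
        rw [toAdd_mul, Finsupp.add_apply, hi2 l (h.trans hl), hj2 l hl, add_zero]
    · subst h
      refine ⟨i, hi, ?_, ?_⟩
      · rw [toAdd_mul, Finsupp.add_apply, mul_add]; exact add_pos hi1 hj1
      · intro l hl
        rw [toAdd_mul, Finsupp.add_apply, hi2 l hl, hj2 l hl, add_zero]
    · refine ⟨i, hi, ?_, ?_⟩
      · rw [toAdd_mul, Finsupp.add_apply, hj2 i h, add_zero]; exact hi1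
      · intro l hl
        rw [toAdd_mul, Finsupp.add_apply, hi2 l hl, hj2 l (h.trans hl), add_zero]

theorem one_notMem_cone (s : ℕ → ℤ) (i0 : ℕ) :
    (1 : GS ℤ) ∉ cone e s i0 := by
  rintro ⟨i, _, hi1, _⟩
  simp at hi1

/-- The walk with heavy-tailed steps eventually stays in a cone. -/
theorem direct_sum_ae [MeasurableSpace (GS ℤ)] [DiscreteMeasurableSpace (GS ℤ)]
    (he : Function.Injective e) :
    ∀ᵐ ω ∂(steps (nu (FS e) (FS_ne e))), ∃ n : ℕ, 1 ≤ n ∧ (1 : GS ℤ) ∉ tail ω n := by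
  classical
  unfold steps
  filter_upwards [nu_ae (FS e) (FS_ne e) (FS_disj e he)] with ω ⟨hT, hB, hH⟩
  obtain ⟨i0, hi0⟩ := eventually_atTop.1 hB
  obtain ⟨j0, hj0⟩ := hH i0
  let s : ℕ → ℤ := fun i => if h : ∃ j, ω j ∉ HH (FS e) i then
    Multiplicative.toAdd (ω (Nat.find h)) (e i) else 1
  refine ⟨j0 + 1, by omega, ?_⟩
  have hle : tail ω (j0 + 1) ≤ cone e s i0 := by
    unfold tail
    rw [Subsemigroup.closure_le]
    rintro _ ⟨k, hk, rfl⟩
    obtain ⟨i, j, hi, hjk, hjl, hjF, hoth⟩ :=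
      top_once (FS e) ω hT i0 hi0 j0 hj0 k (by omega)
    have hjH : ω j ∉ HH (FS e) i := by
      rintro ⟨i', hi', hg⟩
      have := FS_disj e he i i' _ hjF hg
      omega
    have hex : ∃ j, ω j ∉ HH (FS e) i := ⟨j, hjH⟩
    have hfind : Nat.find hex = j := by
      rw [Nat.find_eq_iff]
      exact ⟨hjH, fun l hl => by push Not; exact hjl l hl⟩
    have hs : s i = Multiplicative.toAdd (ω j) (e i) := by
      simp only [s]
      rw [dif_pos hex, hfind]
    have hzero : ∀ l < k, l ≠ j → ∀ i', i ≤ i' → Multiplicative.toAdd (ω l) (e i') = 0 := by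
      intro l hl hlj i' hi'
      obtain ⟨i'', hi'', hF⟩ := hoth l hl hlj
      refine (FS_apply e hF (e i')).1 (fun h => ?_)
      have := he h
      omega
    refine ⟨i, hi, ?_, ?_⟩
    · rw [toAdd_walk, Finset.sum_eq_single j]
      · rw [hs]
        rcases (FS_apply e hjF 0).2 with h | h <;> rw [h] <;> norm_num
      · intro l hl hlj
        exact hzero l (Finset.mem_range.1 hl) hlj i le_rfl
      · intro h
        exact absurd (Finset.mem_range.2 hjk) h
    · intro i' hi'
      rw [toAdd_walk]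
      apply Finset.sum_eq_zero
      intro l hl
      by_cases hlj : l = j
      · subst hlj
        exact (FS_apply e hjF (e i')).1 (fun h => by have := he h; omega)
      · exact hzero l (Finset.mem_range.1 hl) hlj i' hi'.le
  exact fun h => one_notMem_cone e s i0 (hle h)

end DirectSum

/-- The heavy-tailed law on `⨁_ℤ ℤ`. -/
noncomputable def nuS : PMF (GS ℤ) :=
  nu (FS (Equiv.intEquivNat.symm)) (FS_ne _)

theorem nuS_admissible : Admissible nuS := by
  constructor
  · exact nu_symm _ _ (FS_symm _)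
  · unfold nuS
    rw [nu_support]
    exact FS_closure _ (Equiv.surjective _)

theorem nuS_ae [MeasurableSpace (GS ℤ)] [DiscreteMeasurableSpace (GS ℤ)] :
    ∀ᵐ ω ∂(steps nuS), ∃ n : ℕ, 1 ≤ n ∧ (1 : GS ℤ) ∉ tail ω n :=
  direct_sum_ae _ (Equiv.injective _)

end Pool.Agent.R986.AlgRec
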