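import Pool.Agent.R986.ARDefs

/-!
# Bounded harmonic functions on abelian groups (Choquet-Deny, Blackwell)
-/

set_option autoImplicit false

open MeasureTheory Filter Topology
open scoped ENNReal

namespace Pool.Agent.R986.AlgRec

/-- `(G, μ)` is Liouville: every bounded `μ`-harmonic function on `G` is constant. -/
def Liouville {G : Type} [Group G] (μ : PMF G) : Prop :=
  ∀ f : G → ℝ, (∀ g : G, f g = ∑' h : G, (μ h).toReal * f (g * h)) →
    (∃ C : ℝ, ∀ g, |f g| ≤ C) → ∃ c : ℝ, ∀ g, f g = c

section
variable {G : Type}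

theorem hasSum_pmf (μ : PMF G) : HasSum (fun h => (μ h).toReal) 1 := by
  have h1 := μ.tsum_coe
  have h2 : Summable (fun h => (μ h).toReal) := ENNReal.summable_toReal (by rw [h1]; exact ENNReal.one_ne_top)
  have h3 : ∑' h, (μ h).toReal = 1 := by
    rw [← ENNReal.tsum_toReal_eq (fun a => PMF.apply_ne_top μ a), h1, ENNReal.toReal_one]
  rw [← h3]
  exact h2.hasSum

theorem summable_mul (μ : PMF G) (f : G → ℝ) (C : ℝ) (hf : ∀ g, |f g| ≤ C) :
    Summable (fun h => (μ h).toReal * f h) := by
  refine Summable.of_norm_bounded ((hasSum_pmf μ).summable.mul_right C) fun g => ?_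
  rw [norm_mul, Real.norm_eq_abs, Real.norm_eq_abs, abs_of_nonneg ENNReal.toReal_nonneg]
  exact mul_le_mul_of_nonneg_left (hf g) ENNReal.toReal_nonneg

/-- If a weighted average of numbers at most `M` is close to `M`, so is every charged number. -/
theorem avg_bound (μ : PMF G) (f : G → ℝ) (C M : ℝ) (hf : ∀ g, |f g| ≤ C) (hM : ∀ g, f g ≤ M)
    (s : G) (hs : 0 < (μ s).toReal) :
    M - (M - ∑' h, (μ h).toReal * f h) / (μ s).toReal ≤ f s := by
  classical
  have h1 := summable_mul μ f C hf
  have h2 : HasSum (fun h => (μ h).toReal * (M - f h)) (M - ∑' h, (μ h).toReal * f h) := by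
    have := ((hasSum_pmf μ).mul_right M).sub h1.hasSum
    rw [one_mul] at this
    refine this.congr_fun ?_ |> fun h => h
    intro x
    ring
  have h3 : (μ s).toReal * (M - f s) ≤ M - ∑' h, (μ h).toReal * f h :=
    le_hasSum h2 s fun j _ => mul_nonneg ENNReal.toReal_nonneg (sub_nonneg.2 (hM j))
  have h4 : M - f s ≤ (M - ∑' h, (μ h).toReal * f h) / (μ s).toReal := by
    rw [le_div_iff₀ hs, mul_comm]; exact h3
  linarith

end

section
variable {G : Type} [CommGroup G]

theorem diff_le (μ : PMF G) (f : G → ℝ) (C : ℝ) (hb : ∀ g, |f g| ≤ C)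
    (hf : ∀ g : G, f g = ∑' h : G, (μ h).toReal * f (g * h)) (s : G) (hs : 0 < (μ s).toReal)
    (g : G) : f (g * s) ≤ f g := by
  by_contra hcon
  push Not at hcon
  set d : G → ℝ := fun g => f (g * s) - f g with hd
  have hdb : ∀ g, |d g| ≤ 2 * C := by
    intro g
    have h1 := abs_sub (f (g * s)) (f g)
    have := abs_le.1 (hb (g * s))
    have := abs_le.1 (hb g)
    rw [abs_le]
    constructor <;> simp only [hd] <;> linarith
  have hbdd : BddAbove (Set.range d) := ⟨2 * C, by rintro _ ⟨g, rfl⟩; exact (abs_le.1 (hdb g)).2⟩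
  set M := sSup (Set.range d) with hM
  have hdM : ∀ g, d g ≤ M := fun g => le_csSup hbdd ⟨g, rfl⟩
  have hMpos : 0 < M := lt_of_lt_of_le (sub_pos.2 hcon) (hdM g)
  have hdh : ∀ g, d g = ∑' h, (μ h).toReal * d (g * h) := by
    intro g
    have hs1 : Summable (fun h => (μ h).toReal * f (g * s * h)) :=
      summable_mul μ (fun h => f (g * s * h)) C fun h => hb _
    have hs2 : Summable (fun h => (μ h).toReal * f (g * h)) :=
      summable_mul μ (fun h => f (g * h)) C fun h => hb _
    simp only [hd]
    rw [hf (g * s), hf g, ← hs1.tsum_sub hs2]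
    apply tsum_congr
    intro h
    rw [mul_right_comm g h s]
    ring
  set p := (μ s).toReal with hp
  have hp1 : p ≤ 1 := by
    rw [hp, ← ENNReal.toReal_one]
    exact ENNReal.toReal_mono ENNReal.one_ne_top (PMF.coe_le_one μ s)
  obtain ⟨N, hN⟩ := exists_nat_gt (4 * C / M)
  have hδ : 0 < (M / 2) * p ^ N := by positivity
  obtain ⟨_, ⟨g0, rfl⟩, hg0⟩ := exists_lt_of_lt_csSup (Set.range_nonempty d)
    (show M - (M / 2) * p ^ N < sSup (Set.range d) by linarith)
  have hstep : ∀ k ≤ N, M - (M / 2) * p ^ (N - k) < d (g0 * s ^ k) := by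
    intro k
    induction k with
    | zero => intro _; simpa using hg0
    | succ k ih =>
      intro hk
      have h1 := ih (by omega)
      have h2 := avg_bound μ (fun h => d (g0 * s ^ k * h)) (2 * C) M (fun _ => hdb _)
        (fun _ => hdM _) s hs
      rw [← hdh] at h2
      rw [pow_succ, ← mul_assoc]
      refine lt_of_lt_of_le ?_ h2
      have h3 : (M - d (g0 * s ^ k)) / p < (M / 2) * p ^ (N - (k + 1)) := by
        rw [div_lt_iff₀ hs, mul_assoc, ← pow_succ, show N - (k + 1) + 1 = N - k by omega]
        linarith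
      linarith
  have hsum : ∀ k ≤ N, k * (M / 2) ≤ f (g0 * s ^ k) - f g0 := by
    intro k
    induction k with
    | zero => intro _; simp
    | succ k ih =>
      intro hk
      have h1 := ih (by omega)
      have h2 := hstep k (by omega)
      have h3 : p ^ (N - k) ≤ 1 := pow_le_one₀ hs.le hp1
      have h4 : (M / 2) * p ^ (N - k) ≤ M / 2 := by
        calc (M / 2) * p ^ (N - k) ≤ (M / 2) * 1 := mul_le_mul_of_nonneg_left h3 (by positivity)
          _ = M / 2 := mul_one _
      simp only [hd] at h2
      rw [mul_assoc, ← pow_succ] at h2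
      push_cast
      linarith
  have h1 := hsum N le_rfl
  have h2 := (abs_le.1 (hb (g0 * s ^ N))).2
  have h3 := (abs_le.1 (hb g0)).1
  have h4 : 2 * C < N * (M / 2) := by
    rw [div_lt_iff₀ hMpos] at hN
    linarith
  linarith

/-- **Choquet-Deny / Blackwell**: on an abelian group every bounded harmonic function is
constant, as soon as the support of the step law generates the group. -/
theorem liouville_of_comm (μ : PMF G) (hμ : Subgroup.closure μ.support = ⊤) : Liouville μ := by
  intro f hf ⟨C, hb⟩
  have hinv : ∀ s ∈ μ.support, ∀ g, f (g * s) = f g := by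
    intro s hs g
    have hs' : 0 < (μ s).toReal := ENNReal.toReal_pos hs (PMF.apply_ne_top μ s)
    apply le_antisymm (diff_le μ f C hb hf s hs' g)
    have h1 := diff_le μ (fun g => -f g) C (fun g => by rw [abs_neg]; exact hb g)
      (fun g => by
        rw [hf g]
        simp only [mul_neg]
        rw [tsum_neg]) s hs' g
    linarith
  refine ⟨f 1, fun g => ?_⟩
  have hmem : g ∈ Subgroup.closure μ.support := by rw [hμ]; trivial
  have hall : ∀ x ∈ Subgroup.closure μ.support, ∀ g, f (g * x) = f g := by
    intro x hx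
    induction hx using Subgroup.closure_induction with
    | mem x hx => exact hinv x hx
    | one => intro g; rw [mul_one]
    | mul x y _ _ hx hy => intro g; rw [← mul_assoc, hy, hx]
    | inv x _ hx =>
      intro g
      have := hx (g * x⁻¹)
      rw [inv_mul_cancel_right] at this
      exact this.symm
  have := hall g hmem 1
  rwa [one_mul] at this

end

end Pool.Agent.R986.AlgRec
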