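import Pool.Agent.R986.ARQuot

/-!
# Patterns occur infinitely often, and generalized dihedral groups
-/

set_option autoImplicit false

open MeasureTheory Filter Topology ProbabilityTheory
open scoped ENNReal

namespace Pool.Agent.R986.AlgRec

section Pattern

variable {G : Type} [Countable G] [MeasurableSpace G] [DiscreteMeasurableSpace G]

omit [Countable G] [DiscreteMeasurableSpace G] in
theorem iIndepFun_steps (μ : PMF G) :
    iIndepFun (fun (i : ℕ) (ω : ℕ → G) => ω i) (steps μ) := by
  have h := iIndepFun_infinitePi (Ω := fun _ : ℕ => G) (P := fun _ : ℕ => μ.toMeasure)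
    (X := fun _ => id) (fun _ => measurable_id)
  exact h

omit [Countable G] in
theorem measurableSet_coord {ι : Type} (i : ι) (a : G) : MeasurableSet {v : ι → G | v i = a} := by
  have h : Measurable (fun v : ι → G => v i) := measurable_pi_apply i
  have h2 : MeasurableSet ({a} : Set G) := MeasurableSet.of_discrete
  exact h h2

/-- the pattern `l` is read at position `i` -/
def Reads (l : List G) (i : ℕ) (ω : ℕ → G) : Prop := ∀ j (h : j < l.length), ω (i + j) = l[j]

theorem prob_reads (μ : PMF G) (l : List G) (i : ℕ) :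
    steps μ {ω | Reads l i ω} = (l.map μ).prod := by
  induction l generalizing i with
  | nil =>
    have : {ω : ℕ → G | Reads [] i ω} = Set.univ := by
      ext ω; simp [Reads]
    rw [this]
    have : IsProbabilityMeasure (steps μ) := by unfold steps; infer_instance
    simp
  | cons a l ih =>
    have hset : {ω : ℕ → G | Reads (a :: l) i ω} = {ω | ω i = a} ∩ {ω | Reads l (i + 1) ω} := by
      ext ω
      simp only [Reads, Set.mem_inter_iff]
      constructor
      · intro h
        have h0 := h 0 (by simp)
        rw [add_zero] at h0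
        refine ⟨h0, fun j hj => ?_⟩
        have := h (j + 1) (by simpa using hj)
        rw [show i + (j + 1) = i + 1 + j by ring] at this
        simpa using this
      · rintro ⟨h1, h2⟩ j hj
        rcases j with _ | j
        · simpa using h1
        · have := h2 j (by simpa using hj)
          rw [show i + (j + 1) = i + 1 + j by ring]
          simpa using this
    have hind := (iIndepFun_steps μ).indepFun_finset {i} (Finset.Ioo i (i + 1 + l.length + 1))
      (by simp) (fun _ => measurable_pi_apply _)
    have hA : {ω : ℕ → G | ω i = a} = (fun ω (j : ({i} : Finset ℕ)) => ω j) ⁻¹'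
        {v | v ⟨i, by simp⟩ = a} := by ext ω; rfl
    have hB : {ω : ℕ → G | Reads l (i + 1) ω} =
        (fun ω (j : (Finset.Ioo i (i + 1 + l.length + 1))) => ω j) ⁻¹'
        {v | ∀ j (h : j < l.length), v ⟨i + 1 + j, by simp; omega⟩ = l[j]} := by ext ω; rfl
    rw [hset, hA, hB, hind.measure_inter_preimage_eq_mul, ← hA, ← hB, ih, List.map_cons,
      List.prod_cons]
    · congr 1
      have h1 : {ω : ℕ → G | ω i = a} = (fun ω : ℕ → G => ω i) ⁻¹' {a} := by ext ω; simp
      rw [h1, ← Measure.map_apply (measurable_pi_apply i) MeasurableSet.of_discrete]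
      unfold steps
      rw [Measure.infinitePi_map_eval, PMF.toMeasure_apply_singleton _ _ MeasurableSet.of_discrete]
    · exact measurableSet_coord _ _
    · have : {v : (Finset.Ioo i (i + 1 + l.length + 1)) → G |
          ∀ j (h : j < l.length), v ⟨i + 1 + j, by simp; omega⟩ = l[j]} =
          ⋂ (j : ℕ) (h : j < l.length), {v | v ⟨i + 1 + j, by simp; omega⟩ = l[j]} := by
        ext v; simp
      rw [this]
      refine MeasurableSet.iInter fun j => MeasurableSet.iInter fun h => ?_
      exact measurableSet_coord _ _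

theorem measurableSet_reads (l : List G) (i : ℕ) : MeasurableSet {ω : ℕ → G | Reads l i ω} := by
  have : {ω : ℕ → G | Reads l i ω} = ⋂ (j : ℕ) (h : j < l.length), {ω | ω (i + j) = l[j]} := by
    ext v; simp [Reads]
  rw [this]
  refine MeasurableSet.iInter fun j => MeasurableSet.iInter fun h => ?_
  exact measurableSet_coord _ _

/-- the pattern is not read in any of the first `K` blocks -/
theorem prob_never_reads (μ : PMF G) (l : List G) (N K : ℕ) :
    steps μ {ω | ∀ k < K, ¬ Reads l (N + k * l.length) ω} = (1 - (l.map μ).prod) ^ K := by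
  have hprob : IsProbabilityMeasure (steps μ) := by unfold steps; infer_instance
  induction K with
  | zero =>
    have : {ω : ℕ → G | ∀ k < 0, ¬ Reads l (N + k * l.length) ω} = Set.univ := by
      ext ω; simp
    rw [this]; simp
  | succ K ih =>
    have hset : {ω : ℕ → G | ∀ k < K + 1, ¬ Reads l (N + k * l.length) ω} =
        {ω | ∀ k < K, ¬ Reads l (N + k * l.length) ω} ∩ {ω | ¬ Reads l (N + K * l.length) ω} := by
      ext ω
      simp only [Set.mem_inter_iff]
      constructor
      · intro h
        exact ⟨fun k hk => h k (by omega), h K (by omega)⟩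
      · rintro ⟨h1, h2⟩ k hk
        rcases Nat.lt_succ_iff_lt_or_eq.1 hk with h | h
        · exact h1 k h
        · subst h; exact h2
    have hind := (iIndepFun_steps μ).indepFun_finset (Finset.range (N + K * l.length))
      (Finset.Ico (N + K * l.length) (N + K * l.length + l.length))
      (by
        rw [Finset.disjoint_left]
        intro a ha
        rw [Finset.mem_range] at ha
        simp only [Finset.mem_Ico, not_and]
        omega) (fun _ => measurable_pi_apply _)
    have hlt : ∀ k < K, ∀ j < l.length, N + k * l.length + j ∈ Finset.range (N + K * l.length) := by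
      intro k hk j hj
      rw [Finset.mem_range]
      have : (k + 1) * l.length ≤ K * l.length := Nat.mul_le_mul_right _ hk
      rw [add_mul, one_mul] at this
      omega
    have hA : {ω : ℕ → G | ∀ k < K, ¬ Reads l (N + k * l.length) ω} =
        (fun ω (j : (Finset.range (N + K * l.length))) => ω j) ⁻¹'
        {v | ∀ k (hk : k < K), ¬ ∀ j (h : j < l.length), v ⟨N + k * l.length + j, hlt k hk j h⟩ = l[j]} := by
      ext ω; rfl
    have hB : {ω : ℕ → G | ¬ Reads l (N + K * l.length) ω} =
        (fun ω (j : (Finset.Ico (N + K * l.length) (N + K * l.length + l.length))) => ω j) ⁻¹'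
        {v | ¬ ∀ j (h : j < l.length), v ⟨N + K * l.length + j, by simp; omega⟩ = l[j]} := by
      ext ω; rfl
    rw [hset, hA, hB, hind.measure_inter_preimage_eq_mul, ← hA, ← hB, ih, pow_succ]
    · congr 1
      rw [← prob_reads μ l (N + K * l.length)]
      rw [← prob_compl_eq_one_sub (measurableSet_reads l _)]
      rfl
    · have : {v : (Finset.range (N + K * l.length)) → G | ∀ k (hk : k < K),
          ¬ ∀ j (h : j < l.length), v ⟨N + k * l.length + j, hlt k hk j h⟩ = l[j]} =
          ⋂ (k : ℕ) (hk : k < K), (⋂ (j : ℕ) (h : j < l.length),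
            {v | v ⟨N + k * l.length + j, hlt k hk j h⟩ = l[j]})ᶜ := by
        ext v
        simp only [Set.mem_iInter, Set.mem_compl_iff]
        rfl
      rw [this]
      refine MeasurableSet.iInter fun k => MeasurableSet.iInter fun hk => MeasurableSet.compl ?_
      refine MeasurableSet.iInter fun j => MeasurableSet.iInter fun h => ?_
      exact measurableSet_coord _ _
    · have : {v : (Finset.Ico (N + K * l.length) (N + K * l.length + l.length)) → G |
          ¬ ∀ j (h : j < l.length), v ⟨N + K * l.length + j, by simp; omega⟩ = l[j]} =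
          (⋂ (j : ℕ) (h : j < l.length),
            {v | v ⟨N + K * l.length + j, by simp; omega⟩ = l[j]})ᶜ := by
        ext v
        simp only [Set.mem_iInter, Set.mem_compl_iff]
        rfl
      rw [this]
      refine MeasurableSet.compl ?_
      refine MeasurableSet.iInter fun j => MeasurableSet.iInter fun h => ?_
      exact measurableSet_coord _ _

/-- Almost surely every pattern of possible steps is read at arbitrarily late times. -/
theorem ae_reads (μ : PMF G) : ∀ᵐ ω ∂(steps μ), ∀ l : List G, (∀ x ∈ l, x ∈ μ.support) →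
    ∀ N, ∃ i, N ≤ i ∧ Reads l i ω := by
  rw [ae_all_iff]
  intro l
  by_cases hl : ∀ x ∈ l, x ∈ μ.support
  swap
  · exact Eventually.of_forall fun ω h => absurd h hl
  have : ∀ᵐ ω ∂(steps μ), ∀ N, ∃ i, N ≤ i ∧ Reads l i ω := by
    rw [ae_all_iff]
    intro N
    rw [ae_iff]
    have hp : (l.map μ).prod ≠ 0 := by
      rw [Ne, List.prod_eq_zero_iff]
      intro h
      obtain ⟨x, hx, hx0⟩ := List.mem_map.1 h
      exact hl x hx hx0
    have hlt : 1 - (l.map μ).prod < 1 :=
      ENNReal.sub_lt_self ENNReal.one_ne_top one_ne_zero hp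
    have hle : ∀ K : ℕ, steps μ {ω | ¬ ∃ i, N ≤ i ∧ Reads l i ω} ≤ (1 - (l.map μ).prod) ^ K := by
      intro K
      rw [← prob_never_reads μ l N K]
      apply measure_mono
      intro ω hω k hk hR
      exact hω ⟨_, by omega, hR⟩
    exact nonpos_iff_eq_zero.1
      (ge_of_tendsto' (ENNReal.tendsto_pow_atTop_nhds_zero_of_lt_one hlt) hle)
  filter_upwards [this] with ω hω _
  exact hω

end Pattern

theorem walk_reads {G : Type} [Group G] (l : List G) (i : ℕ) (ω : ℕ → G) (h : Reads l i ω)
    (k : ℕ) (hk : k ≤ l.length) : walk ω (i + k) = walk ω i * (l.take k).prod := by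
  induction k with
  | zero => simp
  | succ k ih =>
    rw [← add_assoc, walk_succ, ih (by omega), mul_assoc, h k (by omega)]
    congr 1
    rw [List.take_succ_eq_append_getElem (by omega), List.prod_append, List.prod_singleton]

/-! ### Groups with a subgroup of index two all of whose outside elements are involutions -/

section Dihedral

variable {G : Type} [Group G] [Countable G] (A : Subgroup G) (hA : A.index = 2)
  (hinv : ∀ g, g ∉ A → g * g = 1)

include hA hinv in
/-- A generalized dihedral group is algebraically recurrent. -/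
theorem isAR_of_involutions : IsAR G := by
  intro μ hμ
  let _ : MeasurableSpace G := ⊤
  rw [ar_iff]
  intro n _
  have hmul : ∀ {a b : G}, a * b ∈ A ↔ (a ∈ A ↔ b ∈ A) := fun {a b} =>
    Subgroup.mul_mem_iff_of_index_two hA
  have hsymm : ∀ {g}, g ∈ μ.support → g⁻¹ ∈ μ.support := by
    intro g hg
    rw [PMF.mem_support_iff, hμ.1]
    exact hg
  obtain ⟨t, ht, htA⟩ : ∃ t ∈ μ.support, t ∉ A := by
    by_contra hcon
    push Not at hcon
    have : A = ⊤ := by
      rw [eq_top_iff, ← hμ.2, Subgroup.closure_le]
      exact hcon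
    rw [this, Subgroup.index_top] at hA
    omega
  filter_upwards [ae_reads μ] with ω hω
  have hmem : ∀ i, n ≤ i → walk ω i ∈ tail ω n := fun i hi => Subsemigroup.subset_closure ⟨i, hi, rfl⟩
  -- the basic observation
  have hbasic : ∀ i j g, n ≤ i → n ≤ j → walk ω i ∉ A → walk ω j = walk ω i * g →
      g ∈ tail ω n := by
    intro i j g hi hj hiA hij
    have := (tail ω n).mul_mem (hmem i hi) (hmem j hj)
    rwa [hij, ← mul_assoc, hinv _ hiA, one_mul] at this
  have h1 : ∀ g ∈ μ.support, g ∈ A → g ∈ tail ω n := by
    intro g hg hgA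
    obtain ⟨i, hi, hR⟩ := hω [g, t, g] (by
      intro x hx
      simp only [List.mem_cons, List.not_mem_nil, or_false] at hx
      rcases hx with rfl | rfl | rfl <;> assumption) n
    have w1 := walk_reads _ _ _ hR 1 (by simp)
    have w2 := walk_reads _ _ _ hR 2 (by simp)
    have w3 := walk_reads _ _ _ hR 3 (by simp)
    simp only [List.take_succ_cons, List.take_zero, List.prod_cons, List.prod_nil, mul_one] at w1 w2 w3
    by_cases hiA : walk ω i ∈ A
    · refine hbasic (i + 2) (i + 3) g (by omega) (by omega) ?_ ?_
      · rw [w2]; simp only [hmul]; tauto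
      · rw [w3, w2]; group
    · exact hbasic i (i + 1) g hi (by omega) hiA w1
  have h2 : ∀ g ∈ μ.support, ∀ h ∈ μ.support, g ∉ A → h ∉ A → g * h ∈ tail ω n := by
    intro g hg h hh hgA hhA
    obtain ⟨i, hi, hR⟩ := hω [g, h, g, g, h] (by
      intro x hx
      simp only [List.mem_cons, List.not_mem_nil, or_false] at hx
      rcases hx with rfl | rfl | rfl | rfl | rfl <;> assumption) n
    have w2 := walk_reads _ _ _ hR 2 (by simp)
    have w3 := walk_reads _ _ _ hR 3 (by simp)
    have w5 := walk_reads _ _ _ hR 5 (by simp)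
    simp only [List.take_succ_cons, List.take_zero, List.prod_cons, List.prod_nil, mul_one] at w2 w3 w5
    by_cases hiA : walk ω i ∈ A
    · refine hbasic (i + 3) (i + 5) (g * h) (by omega) (by omega) ?_ ?_
      · rw [w3]; simp only [hmul]; tauto
      · rw [w5, w3]; group
    · exact hbasic i (i + 2) (g * h) hi (by omega) hiA w2
  -- the subgroup generated by these elements
  have hone : (1 : G) ∈ tail ω n := by
    have := h2 t ht t ht htA htA
    rwa [hinv t htA] at this
  set gen : Set G := {x | x ∈ μ.support ∧ x ∈ A} ∪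
    {x | ∃ g ∈ μ.support, ∃ h ∈ μ.support, g ∉ A ∧ h ∉ A ∧ x = g * h} with hgen
  have hinv' : ∀ g, g ∉ A → g⁻¹ = g := fun g hg => inv_eq_of_mul_eq_one_left (hinv g hg)
  have hT : ∀ x ∈ Subgroup.closure gen, x ∈ tail ω n := by
    intro x hx
    have hgeninv : ∀ x ∈ gen, x ∈ tail ω n ∧ x⁻¹ ∈ tail ω n := by
      rintro x (⟨hx1, hx2⟩ | ⟨g, hg, h, hh, hgA, hhA, rfl⟩)
      · exact ⟨h1 x hx1 hx2, h1 _ (hsymm hx1) (A.inv_mem hx2)⟩
      · refine ⟨h2 g hg h hh hgA hhA, ?_⟩
        rw [mul_inv_rev, hinv' g hgA, hinv' h hhA]
        exact h2 h hh g hg hhA hgA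
    have : x ∈ tail ω n ∧ x⁻¹ ∈ tail ω n := by
      induction hx using Subgroup.closure_induction with
      | mem x hx => exact hgeninv x hx
      | one => exact ⟨hone, by simpa using hone⟩
      | mul x y _ _ hx hy =>
        exact ⟨(tail ω n).mul_mem hx.1 hy.1, by rw [mul_inv_rev]; exact (tail ω n).mul_mem hy.2 hx.2⟩
      | inv x _ hx => exact ⟨hx.2, by rw [inv_inv]; exact hx.1⟩
    exact this.1
  have hAT : ∀ x : G, (x ∈ A → x ∈ Subgroup.closure gen) ∧ (x ∉ A → x * t ∈ Subgroup.closure gen) := by
    intro x
    have hx : x ∈ Subgroup.closure μ.support := by rw [hμ.2]; trivial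
    have hstep : ∀ y s : G, s ∈ μ.support → ((y ∈ A → y ∈ Subgroup.closure gen) ∧
        (y ∉ A → y * t ∈ Subgroup.closure gen)) → ((y * s ∈ A → y * s ∈ Subgroup.closure gen) ∧
        (y * s ∉ A → y * s * t ∈ Subgroup.closure gen)) := by
      rintro y s hs ⟨hy1, hy2⟩
      by_cases hyA : y ∈ A <;> by_cases hsA : s ∈ A
      · refine ⟨fun _ => Subgroup.mul_mem _ (hy1 hyA) (Subgroup.subset_closure (Or.inl ⟨hs, hsA⟩)),
          fun h => absurd (A.mul_mem hyA hsA) h⟩
      · refine ⟨fun h => absurd h (by rw [hmul]; tauto), fun _ => ?_⟩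
        rw [mul_assoc]
        exact Subgroup.mul_mem _ (hy1 hyA) (Subgroup.subset_closure
          (Or.inr ⟨s, hs, t, ht, hsA, htA, rfl⟩))
      · refine ⟨fun h => absurd h (by rw [hmul]; tauto), fun _ => ?_⟩
        have h3 : t * s ∉ A := by rw [hmul]; tauto
        have h4 : t * s * t = s⁻¹ := by
          have h5 := hinv _ h3
          rw [← mul_assoc] at h5
          exact eq_inv_of_mul_eq_one_left h5
        have h6 : y * s * t = (y * t) * (t * s * t) := by
          have h7 := hinv t htA
          calc y * s * t = y * 1 * s * t := by group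
            _ = y * (t * t) * s * t := by rw [h7]
            _ = _ := by group
        rw [h6, h4]
        exact Subgroup.mul_mem _ (hy2 hyA) (Subgroup.subset_closure
          (Or.inl ⟨hsymm hs, A.inv_mem hsA⟩))
      · refine ⟨fun _ => ?_, fun h => absurd (hmul.2 (by tauto)) h⟩
        have h6 : y * s = (y * t) * (t * s) := by
          have h7 := hinv t htA
          calc y * s = y * 1 * s := by group
            _ = y * (t * t) * s := by rw [h7]
            _ = _ := by group
        rw [h6]
        exact Subgroup.mul_mem _ (hy2 hyA) (Subgroup.subset_closure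
          (Or.inr ⟨t, ht, s, hs, htA, hsA, rfl⟩))
    induction hx using Subgroup.closure_induction_right with
    | one => exact ⟨fun _ => Subgroup.one_mem _, fun h => absurd A.one_mem h⟩
    | mul_right y _ s hs ih => exact hstep _ _ hs ih
    | mul_inv_cancel y _ s hs ih => exact hstep _ _ (hsymm hs) ih
  have hAS : ∀ x ∈ A, x ∈ tail ω n := fun x hx => hT x ((hAT x).1 hx)
  obtain ⟨i, hi, hiA⟩ : ∃ i, n ≤ i ∧ walk ω i ∉ A := by
    obtain ⟨i, hi, hR⟩ := hω [t] (by simpa using ht) n
    by_cases hiA : walk ω i ∈ A
    · refine ⟨i + 1, by omega, ?_⟩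
      have w1 := walk_reads _ _ _ hR 1 (by simp)
      simp only [List.take_succ_cons, List.take_zero, List.prod_cons, List.prod_nil, mul_one] at w1
      rw [w1, hmul]; tauto
    · exact ⟨i, hi, hiA⟩
  rw [eq_top_iff]
  intro g _
  by_cases hg : g ∈ A
  · exact hAS g hg
  · have h3 : g * walk ω i ∈ A := by rw [hmul]; tauto
    have h4 := (tail ω n).mul_mem (hAS _ h3) (hmem i hi)
    rwa [mul_assoc, hinv _ hiA, mul_one] at h4

end Dihedral

end Pool.Agent.R986.AlgRec
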