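import Pool.Agent.R986.ARDefs

/-!
# Algebraic recurrence passes to quotients
-/

set_option autoImplicit false

open MeasureTheory Filter Topology
open scoped ENNReal

namespace Pool.Agent.R986.AlgRec

section Meas

variable {G : Type} [Group G] [Countable G] [MeasurableSpace G] [DiscreteMeasurableSpace G]

theorem measurable_walk (m : ℕ) : Measurable (fun ω : ℕ → G => walk ω m) := by
  induction m with
  | zero => exact measurable_const
  | succ m ih =>
    simp_rw [walk_succ]
    have h : Measurable (fun p : G × G => p.1 * p.2) := Measurable.of_discrete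
    exact h.comp (ih.prodMk (measurable_pi_apply m))

omit [Countable G] [MeasurableSpace G] [DiscreteMeasurableSpace G] in
theorem mem_tail_iff (ω : ℕ → G) (n : ℕ) (g : G) :
    g ∈ tail ω n ↔ ∃ l : List ℕ, l ≠ [] ∧ (∀ m ∈ l, n ≤ m) ∧ (l.map (walk ω)).prod = g := by
  constructor
  · intro h
    unfold tail at h
    induction h using Subsemigroup.closure_induction with
    | mem x hx =>
      obtain ⟨m, hm, rfl⟩ := hx
      exact ⟨[m], by simp, by simpa using hm, by simp⟩
    | mul x y _ _ hx hy =>
      obtain ⟨l1, h1, h2, h3⟩ := hx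
      obtain ⟨l2, h4, h5, h6⟩ := hy
      refine ⟨l1 ++ l2, by simp [h1], ?_, ?_⟩
      · intro m hm
        rcases List.mem_append.1 hm with h | h
        · exact h2 m h
        · exact h5 m h
      · rw [List.map_append, List.prod_append, h3, h6]
  · rintro ⟨l, hne, hl, rfl⟩
    induction l with
    | nil => exact absurd rfl hne
    | cons a l ih =>
      have ha : walk ω a ∈ tail ω n := Subsemigroup.subset_closure ⟨a, hl a (by simp), rfl⟩
      by_cases h : l = []
      · subst h; simpa using ha
      · rw [List.map_cons, List.prod_cons]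
        exact (tail ω n).mul_mem ha (ih h fun m hm => hl m (by simp [hm]))

theorem measurableSet_tail (n : ℕ) : MeasurableSet {ω : ℕ → G | tail ω n = ⊤} := by
  have h : {ω : ℕ → G | tail ω n = ⊤} = ⋂ g : G, ⋃ l : List ℕ,
      {ω : ℕ → G | l ≠ [] ∧ (∀ m ∈ l, n ≤ m) ∧ (l.map (walk ω)).prod = g} := by
    ext ω
    simp only [Set.mem_iInter, Set.mem_iUnion]
    constructor
    · intro h g
      have : g ∈ tail ω n := by rw [show tail ω n = ⊤ from h]; trivial
      exact (mem_tail_iff ω n g).1 this
    · intro h
      show tail ω n = ⊤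
      rw [eq_top_iff]
      intro g _
      exact (mem_tail_iff ω n g).2 (h g)
  rw [h]
  refine MeasurableSet.iInter fun g => MeasurableSet.iUnion fun l => ?_
  refine MeasurableSet.inter (MeasurableSet.const _) (MeasurableSet.inter (MeasurableSet.const _) ?_)
  have hm : Measurable (fun ω : ℕ → G => (l.map (walk ω)).prod) := by
    induction l with
    | nil => simpa using measurable_const
    | cons a l ih =>
      simp only [List.map_cons, List.prod_cons]
      have h : Measurable (fun p : G × G => p.1 * p.2) := Measurable.of_discrete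
      exact h.comp ((measurable_walk a).prodMk ih)
  exact hm (MeasurableSet.of_discrete (s := {g}))

end Meas

section Quot

variable {G Q : Type} [Group G] [Group Q] [Countable G] (φ : G →* Q)
  (hφ : Function.Surjective φ)

/-- A symmetric positive summable weight on a countable group. -/
theorem exists_weight (G : Type) [Group G] [Countable G] :
    ∃ w : G → ℝ≥0∞, (∀ g, w g ≠ 0) ∧ (∀ g, w g⁻¹ = w g) ∧ ∑' g, w g ≠ ∞ := by
  obtain ⟨a, ha, hs⟩ := ENNReal.exists_pos_sum_of_countable' (one_ne_zero) G
  refine ⟨fun g => a g + a g⁻¹, fun g => ?_, fun g => ?_, ?_⟩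
  · exact (add_pos_of_pos_of_nonneg (ha g) bot_le).ne'
  · simp only [inv_inv, add_comm]
  · rw [ENNReal.tsum_add]
    have h1 : ∑' g : G, a g⁻¹ = ∑' g, a g := (Equiv.inv G).tsum_eq a
    rw [h1]
    exact ENNReal.add_ne_top.2 ⟨(hs.trans ENNReal.one_lt_top).ne, (hs.trans ENNReal.one_lt_top).ne⟩

open Classical in
include hφ in
/-- Every admissible law on a quotient lifts to an admissible law. -/
theorem exists_lift (μ : PMF Q) (hμ : Admissible μ) :
    ∃ ν : PMF G, Admissible ν ∧ ν.map φ = μ := by
  obtain ⟨w, hw0, hws, hwt⟩ := exists_weight G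
  have h0 : ∀ q : Q, ∑' g, (if φ g = q then w g else 0) ≠ 0 := by
    intro q
    obtain ⟨g, hg⟩ := hφ q
    intro h
    have := ENNReal.tsum_eq_zero.1 h g
    rw [if_pos hg] at this
    exact hw0 g this
  have ht : ∀ q : Q, ∑' g, (if φ g = q then w g else 0) ≠ ∞ := by
    intro q
    refine ne_top_of_le_ne_top hwt (ENNReal.tsum_le_tsum fun g => ?_)
    split_ifs
    · exact le_rfl
    · exact bot_le
  let fib : Q → PMF G := fun q => PMF.normalize (fun g => if φ g = q then w g else 0) (h0 q) (ht q)
  have hfib : ∀ q g, fib q g = (if φ g = q then w g else 0) *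
      (∑' g, (if φ g = q then w g else 0))⁻¹ := fun q g => PMF.normalize_apply _ _ _
  have hsupp : ∀ q g, g ∈ (fib q).support ↔ φ g = q := by
    intro q g
    rw [PMF.mem_support_normalize_iff]
    by_cases h : φ g = q
    · simp [h, hw0]
    · simp [h]
  refine ⟨μ.bind fib, ⟨fun g => ?_, ?_⟩, ?_⟩
  · have hval : ∀ g, (μ.bind fib) g = μ (φ g) * (w g * (∑' g', (if φ g' = φ g then w g' else 0))⁻¹) := by
      intro g
      rw [PMF.bind_apply, tsum_eq_single (φ g)]
      · rw [hfib, if_pos rfl]
      · intro q hq
        rw [hfib, if_neg (fun h => hq h.symm), zero_mul, mul_zero]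
    rw [hval, hval, map_inv, hμ.1, hws]
    congr 3
    rw [← (Equiv.inv G).tsum_eq]
    apply tsum_congr
    intro g'
    simp only [Equiv.inv_apply, map_inv, inv_inj, hws]
  · have hs : (μ.bind fib).support = φ ⁻¹' μ.support := by
      ext g
      rw [PMF.mem_support_bind_iff]
      constructor
      · rintro ⟨q, hq, hg⟩
        rw [hsupp] at hg
        subst hg
        exact hq
      · intro h
        exact ⟨φ g, h, (hsupp _ _).2 rfl⟩
    rw [hs]
    set C := Subgroup.closure (φ ⁻¹' μ.support) with hC
    obtain ⟨q0, hq0⟩ := μ.support_nonempty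
    obtain ⟨g0, hg0⟩ := hφ q0
    have hg0C : g0 ∈ C := Subgroup.subset_closure (show φ g0 ∈ μ.support by rwa [hg0])
    have hker : ∀ k, φ k = 1 → k ∈ C := by
      intro k hk
      have h1 : g0 * k ∈ C := Subgroup.subset_closure
        (show φ (g0 * k) ∈ μ.support by rwa [map_mul, hk, mul_one, hg0])
      have := C.mul_mem (C.inv_mem hg0C) h1
      rwa [inv_mul_cancel_left] at this
    have hmap : C.map φ = ⊤ := by
      rw [hC, MonoidHom.map_closure, Set.image_preimage_eq _ hφ, hμ.2]
    rw [eq_top_iff]
    intro g _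
    have h1 : φ g ∈ C.map φ := by rw [hmap]; trivial
    obtain ⟨c, hc, hcg⟩ := h1
    have h2 : c⁻¹ * g ∈ C := hker _ (by rw [map_mul, map_inv, hcg, inv_mul_cancel])
    have := C.mul_mem hc h2
    rwa [mul_inv_cancel_left] at this
  · rw [PMF.map_bind]
    have : ∀ q, (fib q).map φ = PMF.pure q := by
      intro q
      have h1 : ((fib q).map φ).support = {q} := by
        rw [PMF.support_map]
        ext x
        simp only [Set.mem_image, Set.mem_singleton_iff]
        constructor
        · rintro ⟨g, hg, rfl⟩
          exact (hsupp q g).1 hg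
        · rintro rfl
          obtain ⟨g, hg⟩ := hφ x
          exact ⟨g, (hsupp x g).2 hg, hg⟩
      ext x
      by_cases hx : x = q
      · subst hx
        rw [PMF.pure_apply, if_pos rfl]
        exact (PMF.apply_eq_one_iff _ _).2 h1
      · rw [PMF.pure_apply, if_neg hx]
        rw [PMF.apply_eq_zero_iff, h1]
        exact hx
    simp_rw [this]
    exact PMF.bind_pure _

include hφ in
/-- Quotients of algebraically recurrent groups are algebraically recurrent. -/
theorem IsAR.quotient (hG : IsAR G) : IsAR Q := by
  intro μ hμ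
  obtain ⟨ν, hν, hmap⟩ := exists_lift φ hφ μ hμ
  let _ : MeasurableSpace G := ⊤
  let _ : MeasurableSpace Q := ⊤
  have : Countable Q := hφ.countable
  have h1 := (ar_iff ν).1 (hG ν hν)
  rw [ar_iff]
  intro n hn
  have h2 : steps μ = (steps ν).map (fun ω n => φ (ω n)) := by
    rw [steps_map (fun g => φ g) ν]
    congr 1
    exact hmap.symm
  rw [h2, ae_map_iff]
  · filter_upwards [h1 n hn] with ω hω
    rw [tail_map, hω]
    rw [eq_top_iff]
    intro q _
    obtain ⟨g, hg⟩ := hφ q
    exact ⟨g, trivial, hg⟩
  · apply Measurable.aemeasurable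
    rw [measurable_pi_iff]
    intro m
    exact (Measurable.of_discrete (f := fun g : G => φ g)).comp (measurable_pi_apply m)
  · exact measurableSet_tail n

end Quot

end Pool.Agent.R986.AlgRec
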