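import Mathlib

/-!
# Branching random walks on groups: definitions and the first moment
-/

set_option autoImplicit false

open MeasureTheory Filter Topology ProbabilityTheory
open scoped ENNReal

namespace Pool.Agent.R986.BRW

/-- The `n`-fold convolution power `μ^{*n}` of a probability measure on a group: the law of
`s_1 s_2 ... s_n` for independent `s_i` with law `μ`. -/
noncomputable def convPow {G : Type} [Group G] (μ : PMF G) : ℕ → PMF G
  | 0 => PMF.pure 1
  | n + 1 => (convPow μ n).bind fun x => μ.map fun s => x * s

/-- The Rényi entropy of order `α ≠ 1` of a finitely supported probability vector `ν`: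
`1 / (1 - α)` times the logarithm of the sum of `ν g ^ α` over all `g` with `ν g ≠ 0`. -/
noncomputable def renyi {G : Type} (α : ℝ) (ν : G → ℝ) : ℝ :=
  1 / (1 - α) * Real.log (∑' g, if ν g = 0 then 0 else ν g ^ α)

/-- Sample points of the branching random walk. The potential individuals are the finite words
over `ℕ`; the word `i :: u` is the child number `i` of the individual `u`, the empty word is the
root. `ω.1 u` is the number of children of `u` and `ω.2 u` is its label (step). -/
abbrev Sample (G : Type) : Type := (List ℕ → ℕ) × (List ℕ → G)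

/-- Generation `n` of the Galton-Watson tree. -/
def gen {G : Type} (ω : Sample G) : ℕ → Finset (List ℕ)
  | 0 => {[]}
  | n + 1 => (gen ω n).biUnion fun u => (Finset.range (ω.1 u)).image fun i => i :: u

/-- The position of the individual `u`: the product of the labels along the path from the root
(the root sits at the identity). -/
def pos {G : Type} [Group G] (ω : Sample G) : List ℕ → G
  | [] => 1
  | i :: u => pos ω u * ω.2 (i :: u)

open Classical in
/-- The empirical distribution of generation `n`. -/
noncomputable def emp {G : Type} [Group G] (ω : Sample G) (n : ℕ) (x : G) : ℝ :=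
  (((gen ω n).filter fun u => pos ω u = x).card : ℝ) / ((gen ω n).card : ℝ)

/-- The law of the branching random walk with step law `μ` and offspring law `π`: all offspring
numbers and all labels are independent. -/
noncomputable def law {G : Type} [MeasurableSpace G] (μ : PMF G) (π : PMF ℕ) :
    Measure (Sample G) :=
  (Measure.infinitePi fun _ : List ℕ => π.toMeasure).prod
    (Measure.infinitePi fun _ : List ℕ => μ.toMeasure)

/-! ### Independence in infinite products -/

section Indep

variable {ι E F : Type} [MeasurableSpace E] [DiscreteMeasurableSpace E] [Countable E]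
  [MeasurableSpace F] [DiscreteMeasurableSpace F] [Countable F]
  (ν : Measure E) [IsProbabilityMeasure ν]

omit [DiscreteMeasurableSpace E] [Countable E] in
theorem iIndepFun_coord :
    iIndepFun (fun (i : ι) (ω : ι → E) => ω i) (Measure.infinitePi fun _ : ι => ν) :=
  iIndepFun_infinitePi (Ω := fun _ : ι => E) (P := fun _ : ι => ν) (X := fun _ => id)
    (fun _ => measurable_id)

open Classical in
omit [DiscreteMeasurableSpace E] [Countable E] [MeasurableSpace F] [DiscreteMeasurableSpace F]
  [Countable F] in
/-- A function of finitely many coordinates is independent of another coordinate. -/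
theorem indep_prod (f : (ι → E) → F) (S : Finset ι)
    (hf : ∀ ω ω' : ι → E, (∀ i ∈ S, ω i = ω' i) → f ω = f ω')
    (hm : ∀ x, MeasurableSet {ω | f ω = x}) (j : ι) (hj : j ∉ S) (x : F) (B : Set E)
    (hB : MeasurableSet B) :
    (Measure.infinitePi fun _ : ι => ν) {ω | f ω = x ∧ ω j ∈ B} =
      (Measure.infinitePi fun _ : ι => ν) {ω | f ω = x} * ν B := by
  rcases isEmpty_or_nonempty E with hE | ⟨⟨e0⟩⟩
  · have : ν Set.univ = 0 := by rw [Set.univ_eq_empty_iff.2 hE, measure_empty]
    rw [measure_univ] at this
    exact absurd this one_ne_zero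
  have hind := (iIndepFun_coord (ι := ι) ν).indepFun_finset S {j}
      (by simpa using hj) (fun _ => measurable_pi_apply _)
  let ext : (S → E) → ι → E := fun v i => if h : i ∈ S then v ⟨i, h⟩ else e0
  have hext : Measurable ext := by
    rw [measurable_pi_iff]
    intro i
    by_cases h : i ∈ S
    · simp only [ext, h, dif_pos]
      exact measurable_pi_apply _
    · simp only [ext, h, dif_neg, not_false_eq_true]
      exact measurable_const
  have hA : {ω : ι → E | f ω = x} = (fun ω (i : S) => ω i) ⁻¹' {v | f (ext v) = x} := by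
    ext ω
    simp only [Set.mem_preimage]
    show f ω = x ↔ f (ext fun i : S => ω i) = x
    rw [hf ω (ext fun i : S => ω i)]
    intro i hi
    simp only [ext, hi, dif_pos]
  have hB' : {ω : ι → E | ω j ∈ B} = (fun ω (i : ({j} : Finset ι)) => ω i) ⁻¹'
      {v | v ⟨j, by simp⟩ ∈ B} := by ext ω; rfl
  have hset : {ω : ι → E | f ω = x ∧ ω j ∈ B} = {ω | f ω = x} ∩ {ω | ω j ∈ B} := rfl
  rw [hset, hA, hB', hind.measure_inter_preimage_eq_mul, ← hA, ← hB']
  · congr 1
    have : {ω : ι → E | ω j ∈ B} = (fun ω : ι → E => ω j) ⁻¹' B := rfl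
    rw [this, ← Measure.map_apply (measurable_pi_apply j) hB, Measure.infinitePi_map_eval]
  · exact hext (hm x)
  · exact (measurable_pi_apply (⟨j, by simp⟩ : ({j} : Finset ι))) hB

end Indep

/-! ### The tree -/

/-- the individual `u` is born -/
def Alive (t : List ℕ → ℕ) : List ℕ → Prop
  | [] => True
  | i :: u => Alive t u ∧ i < t u

theorem mem_gen {G : Type} (ω : Sample G) (n : ℕ) (u : List ℕ) :
    u ∈ gen ω n ↔ u.length = n ∧ Alive ω.1 u := by
  induction n generalizing u with
  | zero =>
    simp only [gen, Finset.mem_singleton, List.length_eq_zero_iff]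
    constructor
    · rintro rfl; exact ⟨rfl, trivial⟩
    · exact fun h => h.1
  | succ n ih =>
    simp only [gen, Finset.mem_biUnion, Finset.mem_image, Finset.mem_range]
    constructor
    · rintro ⟨v, hv, i, hi, rfl⟩
      rw [ih] at hv
      exact ⟨by simp [hv.1], hv.2, hi⟩
    · rintro ⟨h1, h2⟩
      cases u with
      | nil => simp at h1
      | cons i u =>
        exact ⟨u, (ih u).2 ⟨by simpa using h1, h2.1⟩, i, h2.2, rfl⟩

theorem alive_congr (t t' : List ℕ → ℕ) (u : List ℕ) (h : ∀ v, v <:+ u → v ≠ u → t v = t' v) :
    Alive t u ↔ Alive t' u := by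
  induction u with
  | nil => exact Iff.rfl
  | cons i u ih =>
    have hne : u ≠ i :: u := fun h => by have := congrArg List.length h; simp at this
    have h1 : t u = t' u := h u (List.suffix_cons i u) hne
    have h2 := ih (fun v hv hvu => h v (hv.trans (List.suffix_cons i u)) (by
      rintro rfl
      have := hv.length_le
      simp at this))
    simp only [Alive, h1, h2]

theorem measurableSet_alive (u : List ℕ) : MeasurableSet {t : List ℕ → ℕ | Alive t u} := by
  induction u with
  | nil => simp [Alive]
  | cons i u ih =>
    have : {t : List ℕ → ℕ | Alive t (i :: u)} = {t | Alive t u} ∩ (fun t => t u) ⁻¹' {k | i < k} := by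
      ext t; rfl
    rw [this]
    exact ih.inter ((measurable_pi_apply u) MeasurableSet.of_discrete)

/-- all proper suffixes of `u` -/
def suff (u : List ℕ) : Finset (List ℕ) := u.tails.toFinset.erase u

theorem mem_suff (u v : List ℕ) : v ∈ suff u ↔ v <:+ u ∧ v ≠ u := by
  simp [suff, and_comm]

open Classical in
theorem prob_alive_cons (π : PMF ℕ) (i : ℕ) (u : List ℕ) :
    (Measure.infinitePi fun _ : List ℕ => π.toMeasure) {t | Alive t (i :: u)} =
      (Measure.infinitePi fun _ : List ℕ => π.toMeasure) {t | Alive t u} *
        π.toMeasure {k | i < k} := by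
  have h := indep_prod π.toMeasure (fun t : List ℕ → ℕ => Alive t u) (suff u)
    (fun t t' h => propext (alive_congr t t' u fun v hv hvu => h v ((mem_suff u v).2 ⟨hv, hvu⟩)))
    (fun x => by
      by_cases hx : x
      · have : {t : List ℕ → ℕ | Alive t u = x} = {t | Alive t u} := by
          ext t; simp [hx]
        rw [this]; exact measurableSet_alive u
      · have : {t : List ℕ → ℕ | Alive t u = x} = {t | Alive t u}ᶜ := by
          ext t; simp [hx]
        rw [this]; exact (measurableSet_alive u).compl)
    u (by rw [mem_suff]; tauto) True {k | i < k} MeasurableSet.of_discrete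
  simp only [eq_iff_iff, iff_true] at h
  exact h

/-- mean of an offspring law -/
noncomputable def mean (π : PMF ℕ) : ℝ≥0∞ := ∑' k : ℕ, ((k : ℕ) : ℝ≥0∞) * π k

open Classical in
theorem tsum_tail (π : PMF ℕ) : ∑' i : ℕ, π.toMeasure {k | i < k} = mean π := by
  have h1 : ∀ i : ℕ, π.toMeasure {k | i < k} = ∑' k, (if i < k then π k else 0) := by
    intro i
    rw [PMF.toMeasure_apply _ MeasurableSet.of_discrete]
    apply tsum_congr
    intro k
    rw [Set.indicator_apply]
    rfl
  simp_rw [h1]
  rw [ENNReal.tsum_comm]
  unfold mean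
  apply tsum_congr
  intro k
  rw [tsum_eq_sum (s := Finset.range k)]
  · rw [Finset.sum_congr rfl (g := fun _ => π k)]
    · simp
    · intro i hi
      rw [if_pos (Finset.mem_range.1 hi)]
  · intro i hi
    rw [if_neg (fun h => hi (Finset.mem_range.2 h))]

/-- expected size of generation `n` -/
theorem tsum_alive (π : PMF ℕ) (n : ℕ) :
    ∑' u : List ℕ, (if u.length = n then
      (Measure.infinitePi fun _ : List ℕ => π.toMeasure) {t | Alive t u} else 0) = mean π ^ n := by
  induction n with
  | zero =>
    rw [tsum_eq_single []]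
    · simp [Alive]
    · intro u hu
      rw [if_neg]
      rwa [List.length_eq_zero_iff]
  | succ n ih =>
    have hinj : Function.Injective (fun p : ℕ × List ℕ => p.1 :: p.2) := by
      rintro ⟨i, u⟩ ⟨j, v⟩ h
      simpa using h
    rw [← hinj.tsum_eq]
    · rw [ENNReal.tsum_prod']
      have h1 : ∀ (i : ℕ) (u : List ℕ), (if (i :: u).length = n + 1 then
          (Measure.infinitePi fun _ : List ℕ => π.toMeasure) {t | Alive t (i :: u)} else 0) =
          (if u.length = n then
          (Measure.infinitePi fun _ : List ℕ => π.toMeasure) {t | Alive t u} else 0) *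
            π.toMeasure {k | i < k} := by
        intro i u
        rw [prob_alive_cons]
        simp only [List.length_cons, add_left_inj]
        split_ifs
        · rfl
        · rw [zero_mul]
      simp_rw [h1, ENNReal.tsum_mul_right, ih, ENNReal.tsum_mul_left]
      rw [tsum_tail, pow_succ]
    · intro u hu
      cases u with
      | nil => simp at hu
      | cons i u => exact ⟨(i, u), rfl⟩

/-! ### Positions -/

section Pos

variable {G : Type} [Group G] [Countable G] [MeasurableSpace G] [DiscreteMeasurableSpace G]

/-- the position as a function of the labels only -/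
def posL (s : List ℕ → G) : List ℕ → G
  | [] => 1
  | i :: u => posL s u * s (i :: u)

omit [Countable G] [MeasurableSpace G] [DiscreteMeasurableSpace G] in
theorem pos_eq (ω : Sample G) (u : List ℕ) : pos ω u = posL ω.2 u := by
  induction u with
  | nil => rfl
  | cons i u ih => simp only [pos, posL, ih]

omit [Countable G] [MeasurableSpace G] [DiscreteMeasurableSpace G] in
theorem posL_congr (s s' : List ℕ → G) (u : List ℕ) (h : ∀ v, v <:+ u → s v = s' v) :
    posL s u = posL s' u := by
  induction u with
  | nil => rfl
  | cons i u ih =>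
    have h2 := ih (fun v hv => h v (hv.trans (List.suffix_cons i u)))
    simp only [posL, h2, h _ (List.suffix_refl (i :: u))]

theorem measurable_posL (u : List ℕ) : Measurable (fun s : List ℕ → G => posL s u) := by
  induction u with
  | nil => exact measurable_const
  | cons i u ih =>
    simp only [posL]
    have h : Measurable (fun p : G × G => p.1 * p.2) := Measurable.of_discrete
    exact h.comp (ih.prodMk (measurable_pi_apply _))

open Classical in
theorem prob_posL (μ : PMF G) (u : List ℕ) (x : G) :
    (Measure.infinitePi fun _ : List ℕ => μ.toMeasure) {s | posL s u = x} =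
      convPow μ u.length x := by
  induction u generalizing x with
  | nil =>
    simp only [posL, List.length_nil, convPow, PMF.pure_apply]
    by_cases h : x = 1
    · subst h; simp
    · have : {s : List ℕ → G | (1 : G) = x} = ∅ := by
        ext s; simp [Ne.symm h]
      rw [this, if_neg h, measure_empty]
  | cons i u ih =>
    have hset : {s : List ℕ → G | posL s (i :: u) = x} =
        ⋃ y : G, {s | posL s u = y ∧ s (i :: u) ∈ ({y⁻¹ * x} : Set G)} := by
      ext s
      simp only [Set.mem_iUnion]
      constructor
      · intro h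
        refine ⟨posL s u, rfl, ?_⟩
        rw [Set.mem_singleton_iff, eq_inv_mul_iff_mul_eq]
        exact h
      · rintro ⟨y, hy, h⟩
        rw [Set.mem_singleton_iff, eq_inv_mul_iff_mul_eq] at h
        show posL s u * s (i :: u) = x
        rw [hy, h]
    rw [hset, measure_iUnion]
    · have h1 : ∀ y : G, (Measure.infinitePi fun _ : List ℕ => μ.toMeasure)
          {s | posL s u = y ∧ s (i :: u) ∈ ({y⁻¹ * x} : Set G)} =
          convPow μ u.length y * μ (y⁻¹ * x) := by
        intro y
        rw [indep_prod μ.toMeasure (fun s : List ℕ → G => posL s u) (insert u (suff u))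
          (fun t t' h => posL_congr t t' u fun v hv => h v ?_)
          (fun y => (measurable_posL u) (MeasurableSet.of_discrete (s := {y}))) (i :: u) ?_ y _
          MeasurableSet.of_discrete, ih, PMF.toMeasure_apply_singleton _ _ MeasurableSet.of_discrete]
        · rw [Finset.mem_insert, mem_suff]
          rintro (h | h)
          · have := congrArg List.length h; simp at this
          · have := h.1.length_le; simp at this
        · rw [Finset.mem_insert, mem_suff]
          tauto
      simp_rw [h1]
      simp only [List.length_cons, convPow, PMF.bind_apply, PMF.map_apply]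
      apply tsum_congr
      intro y
      congr 1
      rw [tsum_eq_single (y⁻¹ * x)]
      · rw [if_pos (by group)]
      · intro s hs
        rw [if_neg]
        rintro rfl
        exact hs (by group)
    · intro y z hyz
      rw [Function.onFun, Set.disjoint_left]
      rintro s ⟨h1, _⟩ ⟨h2, _⟩
      exact hyz (h1.symm.trans h2)
    · intro y
      refine MeasurableSet.inter ((measurable_posL u) (MeasurableSet.of_discrete (s := {y}))) ?_
      exact (measurable_pi_apply (i :: u)) MeasurableSet.of_discrete

/-- some individual of generation `n` is at `x` -/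
def Occ (ω : Sample G) (n : ℕ) (x : G) : Prop := ∃ u ∈ gen ω n, pos ω u = x

omit [Countable G] [MeasurableSpace G] [DiscreteMeasurableSpace G] in
theorem occ_eq (n : ℕ) (x : G) : {ω : Sample G | Occ ω n x} =
    ⋃ u : List ℕ, (if u.length = n then {t : List ℕ → ℕ | Alive t u} else ∅) ×ˢ
      {s : List ℕ → G | posL s u = x} := by
  ext ω
  simp only [Set.mem_iUnion, Set.mem_prod]
  constructor
  · rintro ⟨u, hu, hx⟩
    rw [mem_gen] at hu
    refine ⟨u, ?_, ?_⟩
    · rw [if_pos hu.1]; exact hu.2
    · rw [pos_eq] at hx; exact hx
  · rintro ⟨u, h1, h2⟩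
    by_cases hu : u.length = n
    · rw [if_pos hu] at h1
      exact ⟨u, (mem_gen ω n u).2 ⟨hu, h1⟩, by rw [pos_eq]; exact h2⟩
    · rw [if_neg hu] at h1
      exact absurd h1 (Set.notMem_empty _)

theorem measurableSet_occ (n : ℕ) (x : G) : MeasurableSet {ω : Sample G | Occ ω n x} := by
  rw [occ_eq]
  refine MeasurableSet.iUnion fun u => MeasurableSet.prod ?_ ?_
  · split_ifs
    · exact measurableSet_alive u
    · exact MeasurableSet.empty
  · exact (measurable_posL u) (MeasurableSet.of_discrete (s := {x}))

instance isProb_law (μ : PMF G) (π : PMF ℕ) : IsProbabilityMeasure (law μ π) := by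
  unfold law; infer_instance

/-- First moment bound for the probability that a site is occupied. -/
theorem prob_occ_le (μ : PMF G) (π : PMF ℕ) (n : ℕ) (x : G) :
    law μ π {ω | Occ ω n x} ≤ mean π ^ n * convPow μ n x := by
  rw [occ_eq]
  refine (measure_iUnion_le _).trans ?_
  rw [← tsum_alive, ← ENNReal.tsum_mul_right]
  apply ENNReal.tsum_le_tsum
  intro u
  unfold law
  rw [Measure.prod_prod, prob_posL]
  split_ifs with h
  · rw [h]
  · simp

theorem min_le_rpow (x : ℝ≥0∞) (β : ℝ) (h0 : 0 ≤ β) (h1 : β ≤ 1) : min 1 x ≤ x ^ β := by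
  rcases le_total 1 x with h | h
  · rw [min_eq_left h]
    calc (1 : ℝ≥0∞) = 1 ^ β := (ENNReal.one_rpow β).symm
      _ ≤ x ^ β := ENNReal.rpow_le_rpow h h0
  · rw [min_eq_right h]
    calc x = x ^ (1 : ℝ) := (ENNReal.rpow_one x).symm
      _ ≤ x ^ β := ENNReal.rpow_le_rpow_of_exponent_ge h h1

/-- The expected number of occupied sites. -/
theorem lintegral_occ_le (μ : PMF G) (π : PMF ℕ) (n : ℕ) (β : ℝ) (h0 : 0 ≤ β) (h1 : β ≤ 1) :
    ∑' x : G, law μ π {ω | Occ ω n x} ≤ (mean π ^ n) ^ β * ∑' x : G, convPow μ n x ^ β := by
  rw [← ENNReal.tsum_mul_left]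
  apply ENNReal.tsum_le_tsum
  intro x
  rw [← ENNReal.mul_rpow_of_nonneg _ _ h0]
  refine le_trans (le_min prob_le_one (prob_occ_le μ π n x)) (min_le_rpow _ β h0 h1)

omit [Group G] [Countable G] [MeasurableSpace G] [DiscreteMeasurableSpace G] in
theorem rpow_tsum_le (f : G → ℝ≥0∞) (β : ℝ) (h0 : 0 < β) (h1 : β ≤ 1) :
    (∑' x, f x) ^ β ≤ ∑' x, f x ^ β := by
  classical
  have hfin : ∀ s : Finset G, (∑ x ∈ s, f x) ^ β ≤ ∑ x ∈ s, f x ^ β := by
    intro s
    induction s using Finset.induction_on with
    | empty => simp [ENNReal.zero_rpow_of_pos h0]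
    | insert a s ha ih =>
      rw [Finset.sum_insert ha, Finset.sum_insert ha]
      refine (ENNReal.rpow_add_le_add_rpow _ _ h0.le h1).trans ?_
      gcongr
  rw [ENNReal.tsum_eq_iSup_sum]
  have h2 := (ENNReal.orderIsoRpow β h0).map_iSup (fun s : Finset G => ∑ x ∈ s, f x)
  simp only [ENNReal.orderIsoRpow_apply] at h2
  rw [h2]
  exact iSup_le fun s => (hfin s).trans (ENNReal.sum_le_tsum s)

/-- Subadditivity: the power sums of the convolution powers. -/
theorem tsum_convPow_rpow_le (μ : PMF G) (n : ℕ) (β : ℝ) (h0 : 0 < β) (h1 : β ≤ 1) :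
    ∑' x : G, convPow μ n x ^ β ≤ (∑' x : G, μ x ^ β) ^ n := by
  classical
  induction n with
  | zero =>
    simp only [convPow, pow_zero, PMF.pure_apply]
    rw [tsum_eq_single 1]
    · simp
    · intro x hx
      rw [if_neg hx, ENNReal.zero_rpow_of_pos h0]
  | succ n ih =>
    have h2 : ∀ x : G, convPow μ (n + 1) x ^ β ≤ ∑' y : G, convPow μ n y ^ β * μ (y⁻¹ * x) ^ β := by
      intro x
      have h3 : convPow μ (n + 1) x = ∑' y : G, convPow μ n y * μ (y⁻¹ * x) := by
        simp only [convPow, PMF.bind_apply, PMF.map_apply]
        apply tsum_congr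
        intro y
        congr 1
        rw [tsum_eq_single (y⁻¹ * x)]
        · rw [if_pos (by group)]
        · intro s hs
          rw [if_neg]
          rintro rfl
          exact hs (by group)
      rw [h3]
      refine (rpow_tsum_le _ β h0 h1).trans ?_
      apply ENNReal.tsum_le_tsum
      intro y
      rw [ENNReal.mul_rpow_of_nonneg _ _ h0.le]
    calc ∑' x : G, convPow μ (n + 1) x ^ β
        ≤ ∑' x : G, ∑' y : G, convPow μ n y ^ β * μ (y⁻¹ * x) ^ β := ENNReal.tsum_le_tsum h2
      _ = ∑' y : G, ∑' x : G, convPow μ n y ^ β * μ (y⁻¹ * x) ^ β := ENNReal.tsum_comm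
      _ = ∑' y : G, convPow μ n y ^ β * ∑' x : G, μ x ^ β := by
          apply tsum_congr
          intro y
          rw [ENNReal.tsum_mul_left]
          congr 1
          exact (Equiv.mulLeft y⁻¹).tsum_eq (fun x => μ x ^ β)
      _ = (∑' y : G, convPow μ n y ^ β) * ∑' x : G, μ x ^ β := ENNReal.tsum_mul_right
      _ ≤ (∑' x : G, μ x ^ β) ^ n * ∑' x : G, μ x ^ β := by gcongr
      _ = _ := (pow_succ _ _).symm

end Pos

end Pool.Agent.R986.BRW
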