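import Pool.Agent.R986.BRW

/-!
# The branching random walk in the free semigroup of rank two
-/

set_option autoImplicit false

open MeasureTheory Filter Topology ProbabilityTheory
open scoped ENNReal

namespace Pool.Agent.R986.BRW

/-! ### Analysis of `S β = (1/4)^β + (3/4)^β` -/

/-- the weight of a letter -/
noncomputable def wt (c : Bool) : ℝ := if c then 1 / 4 else 3 / 4

theorem wt_pos (c : Bool) : 0 < wt c := by unfold wt; split_ifs <;> norm_num

theorem wt_sum : ∑ c : Bool, wt c = 1 := by
  rw [Fintype.sum_bool]; norm_num [wt]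

noncomputable def SS (β : ℝ) : ℝ := ∑ c : Bool, wt c ^ β

theorem SS_pos (β : ℝ) : 0 < SS β := by
  unfold SS
  rw [Fintype.sum_bool]
  have := Real.rpow_pos_of_pos (wt_pos true) β
  have := Real.rpow_pos_of_pos (wt_pos false) β
  linarith

/-- `R β = log (S β) / (1 - β)` -/
noncomputable def RR (β : ℝ) : ℝ := 1 / (1 - β) * Real.log (SS β)

/-- Power sums of a probability vector with `m` atoms. -/
theorem power_sum_le {ι : Type} (s : Finset ι) (ν : ι → ℝ) (h0 : ∀ i ∈ s, 0 ≤ ν i)
    (h1 : ∑ i ∈ s, ν i = 1) (hs : s.Nonempty) (α : ℝ) (ha0 : 0 ≤ α) (ha1 : α ≤ 1) :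
    ∑ i ∈ s, ν i ^ α ≤ (s.card : ℝ) ^ (1 - α) := by
  have hm : (0 : ℝ) < s.card := by exact_mod_cast hs.card_pos
  have h := (Real.concaveOn_rpow ha0 ha1).le_map_sum (t := s) (w := fun _ => 1 / (s.card : ℝ))
    (p := ν) (fun i _ => by positivity) (by
      rw [Finset.sum_const, nsmul_eq_mul, mul_one_div_cancel hm.ne']) (fun i hi => h0 i hi)
  simp only [smul_eq_mul, ← Finset.mul_sum] at h
  rw [h1, mul_one] at h
  rw [div_mul_eq_mul_div, one_mul, div_le_iff₀ hm] at h
  refine h.trans (le_of_eq ?_)
  rw [one_div, Real.inv_rpow hm.le, Real.rpow_sub hm, Real.rpow_one]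
  field_simp

theorem SS_le (β : ℝ) (h0 : 0 ≤ β) (h1 : β ≤ 1) : SS β ≤ 2 ^ (1 - β) := by
  have h := power_sum_le (Finset.univ : Finset Bool) wt (fun c _ => (wt_pos c).le) wt_sum
    Finset.univ_nonempty β h0 h1
  rw [Finset.card_univ, Fintype.card_bool] at h
  exact_mod_cast h

theorem SS_gt_one (β : ℝ) (h1 : β < 1) : 1 < SS β := by
  rw [← wt_sum]
  unfold SS
  apply Finset.sum_lt_sum_of_nonempty Finset.univ_nonempty
  intro c _
  have h2 : wt c < 1 := by unfold wt; split_ifs <;> norm_num
  calc wt c = wt c ^ (1 : ℝ) := (Real.rpow_one _).symm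
    _ < wt c ^ β := Real.rpow_lt_rpow_of_exponent_gt (wt_pos c) h2 h1

theorem RR_pos (β : ℝ) (h1 : β < 1) : 0 < RR β :=
  mul_pos (one_div_pos.2 (by linarith)) (Real.log_pos (SS_gt_one β h1))

theorem RR_le (β : ℝ) (h0 : 0 ≤ β) (h1 : β < 1) : RR β ≤ Real.log 2 := by
  unfold RR
  have h2 : 0 < 1 - β := by linarith
  rw [one_div, inv_mul_le_iff₀ h2, ← Real.log_rpow (by norm_num)]
  exact Real.log_le_log (SS_pos β) (SS_le β h0 h1.le)

/-- strict monotonicity of the Rényi entropies -/
theorem RR_strict (α β : ℝ) (hab : α < β) (hb : β < 1) : RR β < RR α := by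
  have h1 : 0 < 1 - β := by linarith
  have h2 : 0 < 1 - α := by linarith
  have hr : 1 < (1 - α) / (1 - β) := by rw [one_lt_div h1]; linarith
  have h := (strictConvexOn_rpow hr).map_sum_lt (t := (Finset.univ : Finset Bool))
    (w := wt) (p := fun c => wt c ^ (β - 1)) (fun c _ => wt_pos c) wt_sum
    (fun c _ => (Real.rpow_pos_of_pos (wt_pos c) _).le)
    ⟨true, Finset.mem_univ _, false, Finset.mem_univ _, by
      apply ne_of_gt
      apply Real.rpow_lt_rpow_of_neg (wt_pos true) _ (by linarith)
      norm_num [wt]⟩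
  have e1 : ∑ c : Bool, wt c • wt c ^ (β - 1) = SS β := by
    unfold SS
    apply Finset.sum_congr rfl
    intro c _
    rw [smul_eq_mul]
    nth_rewrite 1 [← Real.rpow_one (wt c)]
    rw [← Real.rpow_add (wt_pos c)]
    congr 1; ring
  have e2 : ∑ c : Bool, wt c • (wt c ^ (β - 1)) ^ ((1 - α) / (1 - β)) = SS α := by
    unfold SS
    apply Finset.sum_congr rfl
    intro c _
    rw [smul_eq_mul, ← Real.rpow_mul (wt_pos c).le]
    nth_rewrite 1 [← Real.rpow_one (wt c)]
    rw [← Real.rpow_add (wt_pos c)]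
    congr 1
    field_simp
    ring
  rw [e1, e2] at h
  have h3 := Real.log_lt_log (Real.rpow_pos_of_pos (SS_pos β) _) h
  rw [Real.log_rpow (SS_pos β)] at h3
  unfold RR
  rw [one_div, one_div, inv_mul_lt_iff₀ h1, ← mul_assoc, ← div_eq_mul_inv, div_mul_eq_mul_div,
    lt_div_iff₀ h2]
  rw [div_mul_eq_mul_div, div_lt_iff₀ h1] at h3
  linarith

/-! ### Rényi entropy and the number of atoms -/

open Classical in
/-- the number of occupied sites -/
noncomputable def occN {G : Type} [Group G] (ω : Sample G) (n : ℕ) : ℕ :=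
  ((gen ω n).image fun u => pos ω u).card

theorem renyi_emp_le {G : Type} [Group G] (ω : Sample G) (n : ℕ) (α : ℝ) (h0 : 0 ≤ α)
    (h1 : α < 1) : renyi α (emp ω n) ≤ Real.log (occN ω n) := by
  classical
  have h2 : 0 < 1 - α := by linarith
  by_cases hg : (gen ω n).Nonempty
  swap
  · rw [Finset.not_nonempty_iff_eq_empty] at hg
    have h3 : ∀ x, emp ω n x = 0 := by
      intro x
      unfold emp
      rw [hg]
      simp
    unfold renyi occN
    simp [h3, hg]
  set s := (gen ω n).image fun u => pos ω u with hs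
  have hcard : (0 : ℝ) < (gen ω n).card := by exact_mod_cast hg.card_pos
  have hpos : ∀ x ∈ s, 0 < emp ω n x := by
    intro x hx
    rw [hs, Finset.mem_image] at hx
    obtain ⟨u, hu, hux⟩ := hx
    unfold emp
    apply div_pos _ hcard
    have : ((gen ω n).filter fun u => pos ω u = x).Nonempty := ⟨u, by
      rw [Finset.mem_filter]; exact ⟨hu, hux⟩⟩
    exact_mod_cast this.card_pos
  have hzero : ∀ x, x ∉ s → emp ω n x = 0 := by
    intro x hx
    unfold emp
    rw [Finset.filter_false_of_mem]
    · simp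
    · intro u hu hux
      exact hx (Finset.mem_image.2 ⟨u, hu, hux⟩)
  have hsum : ∑ x ∈ s, emp ω n x = 1 := by
    unfold emp
    rw [← Finset.sum_div, div_eq_one_iff_eq hcard.ne', ← Nat.cast_sum]
    congr 1
    exact (Finset.card_eq_sum_card_image (fun u => pos ω u) (gen ω n)).symm
  have hne : s.Nonempty := hg.image _
  have htsum : ∑' g, (if emp ω n g = 0 then 0 else emp ω n g ^ α) = ∑ x ∈ s, emp ω n x ^ α := by
    rw [tsum_eq_sum (s := s)]
    · apply Finset.sum_congr rfl
      intro x hx
      rw [if_neg (hpos x hx).ne']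
    · intro x hx
      rw [if_pos (hzero x hx)]
  have hle := power_sum_le s (emp ω n) (fun x hx => (hpos x hx).le) hsum hne α h0 h1.le
  have hS : 0 < ∑ x ∈ s, emp ω n x ^ α :=
    Finset.sum_pos (fun x hx => Real.rpow_pos_of_pos (hpos x hx) α) hne
  have hm : (0 : ℝ) < s.card := by exact_mod_cast hne.card_pos
  unfold renyi occN
  rw [htsum, one_div, inv_mul_le_iff₀ h2, ← Real.log_rpow (by exact_mod_cast hne.card_pos)]
  exact Real.log_le_log hS hle

/-! ### The step law on the free group -/

/-- a biased coin -/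
noncomputable def coin (q : ℝ) (h0 : 0 ≤ q) (h1 : q ≤ 1) : PMF Bool :=
  PMF.ofFintype (fun b => ENNReal.ofReal (if b then q else 1 - q)) (by
    rw [Fintype.sum_bool]
    simp only [if_true, Bool.false_eq_true, if_false]
    rw [← ENNReal.ofReal_add h0 (by linarith)]
    simp)

/-- The step law: the first generator with probability `1/4`, the second with probability
`3/4`. -/
noncomputable def stepLaw : PMF (FreeGroup Bool) :=
  (coin (1 / 4) (by norm_num) (by norm_num)).map FreeGroup.of

theorem coin_wt (c : Bool) : coin (1 / 4) (by norm_num) (by norm_num) c = ENNReal.ofReal (wt c) := by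
  unfold coin wt
  rw [PMF.ofFintype_apply]
  cases c <;> norm_num

theorem stepLaw_of (c : Bool) : stepLaw (FreeGroup.of c) = ENNReal.ofReal (wt c) := by
  classical
  unfold stepLaw
  rw [PMF.map_apply, tsum_eq_single c]
  · rw [if_pos rfl, coin_wt]
  · intro b hb
    rw [if_neg]
    exact fun h => hb (FreeGroup.of_injective h).symm

theorem stepLaw_ne {g : FreeGroup Bool} (h : stepLaw g ≠ 0) : ∃ c, g = FreeGroup.of c := by
  have : g ∈ stepLaw.support := h
  unfold stepLaw at this
  rw [PMF.support_map] at this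
  obtain ⟨c, _, hc⟩ := this
  exact ⟨c, hc.symm⟩

/-- the element of the free group attached to a reversed word -/
def val : List Bool → FreeGroup Bool
  | [] => 1
  | c :: l => val l * FreeGroup.of c

theorem val_eq (l : List Bool) : val l = FreeGroup.mk (l.reverse.map fun c => (c, true)) := by
  induction l with
  | nil => rfl
  | cons c l ih =>
    rw [val, ih, List.reverse_cons, List.map_append, ← FreeGroup.mul_mk]
    rfl

theorem val_injective : Function.Injective val := by
  intro l l' h
  rw [val_eq, val_eq] at h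
  have h1 := congrArg FreeGroup.toWord h
  rw [FreeGroup.toWord_mk, FreeGroup.toWord_mk] at h1
  have hred : ∀ L : List Bool, FreeGroup.IsReduced (L.map fun c => (c, true)) := by
    intro L
    apply List.Pairwise.isChain
    rw [List.pairwise_map]
    exact List.pairwise_of_forall fun _ _ _ => rfl
  rw [(hred _).reduce_eq, (hred _).reduce_eq] at h1
  have hinj : Function.Injective (fun c : Bool => (c, true)) := fun a b h => by simpa using h
  have h2 := List.map_injective_iff.2 hinj h1
  exact List.reverse_injective h2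

theorem convPow_succ {G : Type} [Group G] (μ : PMF G) (n : ℕ) (x : G) :
    convPow μ (n + 1) x = ∑' y : G, convPow μ n y * μ (y⁻¹ * x) := by
  classical
  simp only [convPow, PMF.bind_apply, PMF.map_apply]
  apply tsum_congr
  intro y
  congr 1
  rw [tsum_eq_single (y⁻¹ * x)]
  · rw [if_pos (by group)]
  · intro s hs
    rw [if_neg]
    rintro rfl
    exact hs (by group)

theorem convPow_range (n : ℕ) (g : FreeGroup Bool) (h : convPow stepLaw n g ≠ 0) :
    ∃ l : List Bool, l.length = n ∧ g = val l := by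
  induction n generalizing g with
  | zero =>
    rw [convPow] at h
    have : g = 1 := by
      by_contra hg
      exact h (by rw [PMF.pure_apply, if_neg hg])
    exact ⟨[], rfl, this⟩
  | succ n ih =>
    rw [convPow_succ] at h
    obtain ⟨y, hy⟩ : ∃ y, convPow stepLaw n y * stepLaw (y⁻¹ * g) ≠ 0 := by
      by_contra hcon
      push Not at hcon
      exact h (ENNReal.tsum_eq_zero.2 hcon)
    obtain ⟨l, hl, rfl⟩ := ih y (left_ne_zero_of_mul hy)
    obtain ⟨c, hc⟩ := stepLaw_ne (right_ne_zero_of_mul hy)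
    refine ⟨c :: l, by simp [hl], ?_⟩
    rw [val, ← hc]
    group

theorem convPow_val (l : List Bool) :
    convPow stepLaw l.length (val l) = ENNReal.ofReal (l.map wt).prod := by
  induction l with
  | nil => simp [convPow, val]
  | cons c l ih =>
    rw [List.length_cons, convPow_succ, tsum_eq_single (val l)]
    · rw [ih, val, inv_mul_cancel_left, stepLaw_of, List.map_cons, List.prod_cons,
        ENNReal.ofReal_mul (wt_pos c).le, mul_comm]
    · intro y hy
      by_contra hcon
      obtain ⟨l', hl', rfl⟩ := convPow_range _ y (left_ne_zero_of_mul hcon)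
      obtain ⟨c', hc'⟩ := stepLaw_ne (right_ne_zero_of_mul hcon)
      have : val (c' :: l') = val (c :: l) := by
        rw [val, ← hc']; group
      have := val_injective this
      rw [List.cons.injEq] at this
      exact hy (by rw [this.2])

theorem wt_prod_pos (l : List Bool) : 0 < (l.map wt).prod := by
  apply List.prod_pos
  intro a ha
  obtain ⟨c, _, rfl⟩ := List.mem_map.1 ha
  exact wt_pos c

/-- the power sums of the convolution powers -/
theorem power_sum (α : ℝ) (n : ℕ) :
    ∑' g : FreeGroup Bool, (if (convPow stepLaw n g).toReal = 0 then 0 else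
      (convPow stepLaw n g).toReal ^ α) = SS α ^ n := by
  classical
  have hinj : Function.Injective (fun v : Fin n → Bool => val (List.ofFn v)) :=
    fun v w h => List.ofFn_injective (val_injective h)
  rw [← hinj.tsum_eq]
  · rw [tsum_fintype]
    unfold SS
    rw [Fintype.sum_pow]
    apply Finset.sum_congr rfl
    intro v _
    have h1 := convPow_val (List.ofFn v)
    rw [List.length_ofFn] at h1
    rw [h1, ENNReal.toReal_ofReal (wt_prod_pos _).le, if_neg (wt_prod_pos _).ne', List.map_ofFn,
      List.prod_ofFn, ← Real.finsetProd_rpow]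
    · rfl
    · intro i _
      exact (wt_pos _).le
  · intro g hg
    simp only [Function.mem_support] at hg
    have h1 : convPow stepLaw n g ≠ 0 := by
      intro h
      rw [h] at hg
      simp at hg
    obtain ⟨l, hl, rfl⟩ := convPow_range n g h1
    subst hl
    exact ⟨l.get, by simp [List.ofFn_get]⟩

theorem renyi_convPow (α : ℝ) (n : ℕ) :
    renyi α (fun g => (convPow stepLaw n g).toReal) = n * RR α := by
  unfold renyi RR
  rw [power_sum, Real.log_pow]
  ring

theorem tsum_step_rpow (β : ℝ) (h0 : 0 < β) :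
    ∑' x : FreeGroup Bool, stepLaw x ^ β = ENNReal.ofReal (SS β) := by
  classical
  rw [← (FreeGroup.of_injective (α := Bool)).tsum_eq]
  · rw [tsum_fintype]
    unfold SS
    rw [ENNReal.ofReal_sum_of_nonneg]
    · apply Finset.sum_congr rfl
      intro c _
      rw [stepLaw_of, ENNReal.ofReal_rpow_of_pos (wt_pos c)]
    · intro c _
      exact (Real.rpow_pos_of_pos (wt_pos c) β).le
  · intro g hg
    have h1 : stepLaw g ≠ 0 := by
      intro h
      rw [Function.mem_support, h, ENNReal.zero_rpow_of_pos h0] at hg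
      exact hg rfl
    obtain ⟨c, hc⟩ := stepLaw_ne h1
    exact ⟨c, hc.symm⟩

/-! ### The offspring law -/

/-- Two children with probability `q`, one child with probability `1 - q`. -/
noncomputable def offLaw (q : ℝ) (h0 : 0 ≤ q) (h1 : q ≤ 1) : PMF ℕ :=
  (coin q h0 h1).map fun b => if b then 2 else 1

theorem offLaw_support (q : ℝ) (h0 : 0 ≤ q) (h1 : q ≤ 1) :
    (offLaw q h0 h1).support ⊆ {1, 2} := by
  unfold offLaw
  rw [PMF.support_map]
  rintro _ ⟨b, _, rfl⟩
  cases b <;> simp

theorem offLaw_zero (q : ℝ) (h0 : 0 ≤ q) (h1 : q ≤ 1) : offLaw q h0 h1 0 = 0 := by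
  by_contra h
  have := offLaw_support q h0 h1 (show 0 ∈ (offLaw q h0 h1).support from h)
  simp at this

theorem offLaw_two (q : ℝ) (h0 : 0 ≤ q) (h1 : q ≤ 1) : offLaw q h0 h1 2 = ENNReal.ofReal q := by
  unfold offLaw
  rw [PMF.map_apply, tsum_bool]
  simp [coin, PMF.ofFintype_apply]

theorem offLaw_one (q : ℝ) (h0 : 0 ≤ q) (h1 : q ≤ 1) :
    offLaw q h0 h1 1 = ENNReal.ofReal (1 - q) := by
  unfold offLaw
  rw [PMF.map_apply, tsum_bool]
  simp [coin, PMF.ofFintype_apply]

theorem mean_offLaw (q : ℝ) (h0 : 0 ≤ q) (h1 : q ≤ 1) :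
    mean (offLaw q h0 h1) = ENNReal.ofReal (1 + q) := by
  unfold mean
  rw [tsum_eq_sum (s := {1, 2})]
  · rw [Finset.sum_pair (by norm_num), offLaw_one, offLaw_two]
    have h2 : ((2 : ℕ) : ℝ≥0∞) = ENNReal.ofReal 2 := by simp
    have h3 : ((1 : ℕ) : ℝ≥0∞) = ENNReal.ofReal 1 := by simp
    rw [h2, h3, ← ENNReal.ofReal_mul (by norm_num), ← ENNReal.ofReal_mul (by norm_num),
      ← ENNReal.ofReal_add (by linarith) (by linarith)]
    congr 1; ring
  · intro k hk
    have : offLaw q h0 h1 k = 0 := by
      by_contra h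
      have := offLaw_support q h0 h1 (show k ∈ (offLaw q h0 h1).support from h)
      simp only [Finset.mem_insert, Finset.mem_singleton] at hk
      exact hk this
    rw [this, mul_zero]

open Classical in
theorem occN_eq {G : Type} [Group G] (ω : Sample G) (n : ℕ) :
    (occN ω n : ℝ≥0∞) = ∑' x, Set.indicator {ω | Occ ω n x} (fun _ => (1 : ℝ≥0∞)) ω := by
  unfold occN
  rw [tsum_eq_sum (s := (gen ω n).image (fun u => pos ω u))]
  · rw [Finset.sum_congr rfl (g := fun _ => (1 : ℝ≥0∞))]
    · rw [Finset.sum_const, nsmul_eq_mul, mul_one]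
    · intro x hx
      rw [Finset.mem_image] at hx
      obtain ⟨u, hu, hux⟩ := hx
      exact Set.indicator_of_mem (show ω ∈ {ω | Occ ω n x} from ⟨u, hu, hux⟩) _
  · intro x hx
    apply Set.indicator_of_notMem
    rintro ⟨u, hu, hux⟩
    exact hx (Finset.mem_image.2 ⟨u, hu, hux⟩)

/-! ### The almost sure bound -/

section AS

variable [MeasurableSpace (FreeGroup Bool)] [DiscreteMeasurableSpace (FreeGroup Bool)]

omit [MeasurableSpace (FreeGroup Bool)] [DiscreteMeasurableSpace (FreeGroup Bool)] in
theorem countable_free : Countable (FreeGroup Bool) := FreeGroup.toWord_injective.countable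

theorem prob_occN (π : PMF ℕ) (ρ : ℝ) (hρ : mean π = ENNReal.ofReal ρ) (hρ0 : 0 < ρ)
    (β : ℝ) (h0 : 0 < β) (h1 : β < 1) (c : ℝ) (n : ℕ) :
    law stepLaw π {ω | Real.exp (c * n) ≤ occN ω n} ≤
      ENNReal.ofReal (Real.exp ((β * Real.log ρ + (1 - β) * RR β - c) * n)) := by
  have := countable_free
  have hmeas : Measurable fun ω : Sample (FreeGroup Bool) => (occN ω n : ℝ≥0∞) := by
    simp_rw [occN_eq]
    refine Measurable.tsum fun x => ?_
    exact measurable_const.indicator (measurableSet_occ n x)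
  have hint : ∫⁻ ω, (occN ω n : ℝ≥0∞) ∂(law stepLaw π) ≤
      ENNReal.ofReal (Real.exp ((β * Real.log ρ + (1 - β) * RR β) * n)) := by
    simp_rw [occN_eq]
    rw [lintegral_tsum]
    · simp_rw [lintegral_indicator (measurableSet_occ n _)]
      simp only [lintegral_const, MeasurableSet.univ, Measure.restrict_apply, Set.univ_inter,
        one_mul]
      refine (lintegral_occ_le stepLaw π n β h0.le h1.le).trans ?_
      have h2 := tsum_convPow_rpow_le stepLaw n β h0 h1.le
      rw [tsum_step_rpow β h0] at h2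
      rw [hρ]
      calc (ENNReal.ofReal ρ ^ n) ^ β * ∑' x, convPow stepLaw n x ^ β
          ≤ (ENNReal.ofReal ρ ^ n) ^ β * ENNReal.ofReal (SS β) ^ n := by gcongr
        _ = ENNReal.ofReal (Real.exp ((β * Real.log ρ + (1 - β) * RR β) * n)) := by
          rw [← ENNReal.ofReal_pow hρ0.le, ENNReal.ofReal_rpow_of_pos (pow_pos hρ0 n),
            ← ENNReal.ofReal_pow (SS_pos β).le, ← ENNReal.ofReal_mul (by positivity)]
          congr 1
          have e1 : (1 - β) * RR β = Real.log (SS β) := by
            unfold RR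
            rw [← mul_assoc, mul_one_div_cancel (by linarith), one_mul]
          rw [e1, add_mul, Real.exp_add]
          congr 1
          · rw [← Real.exp_log hρ0, ← Real.exp_nat_mul, ← Real.exp_mul, Real.exp_log hρ0]
            congr 1; ring
          · rw [mul_comm, Real.exp_nat_mul, Real.exp_log (SS_pos β)]
    · intro x
      exact (measurable_const.indicator (measurableSet_occ n x)).aemeasurable
  have hmk := mul_meas_ge_le_lintegral (μ := law stepLaw π) hmeas (ENNReal.ofReal (Real.exp (c * n)))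
  have hsub : {ω : Sample (FreeGroup Bool) | Real.exp (c * n) ≤ occN ω n} ⊆
      {ω | ENNReal.ofReal (Real.exp (c * n)) ≤ (occN ω n : ℝ≥0∞)} := by
    intro ω hω
    show ENNReal.ofReal (Real.exp (c * n)) ≤ (occN ω n : ℝ≥0∞)
    rw [← ENNReal.ofReal_natCast]
    exact ENNReal.ofReal_le_ofReal hω
  have h3 : ENNReal.ofReal (Real.exp (c * n)) ≠ 0 := by
    rw [Ne, ENNReal.ofReal_eq_zero, not_le]; exact Real.exp_pos _
  calc law stepLaw π {ω | Real.exp (c * n) ≤ occN ω n}
      ≤ law stepLaw π {ω | ENNReal.ofReal (Real.exp (c * n)) ≤ (occN ω n : ℝ≥0∞)} :=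
        measure_mono hsub
    _ ≤ (ENNReal.ofReal (Real.exp (c * n)))⁻¹ *
        ENNReal.ofReal (Real.exp ((β * Real.log ρ + (1 - β) * RR β) * n)) := by
        rw [← ENNReal.mul_le_iff_le_inv h3 ENNReal.ofReal_ne_top]
        exact hmk.trans hint
    _ = _ := by
        rw [← ENNReal.ofReal_inv_of_pos (Real.exp_pos _), ← Real.exp_neg,
          ← ENNReal.ofReal_mul (Real.exp_pos _).le, ← Real.exp_add]
        congr 2; ring

/-- Almost surely the number of occupied sites grows with a rate smaller than `ρ`. -/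
theorem ae_occN (π : PMF ℕ) (ρ : ℝ) (hρ : mean π = ENNReal.ofReal ρ) (hρ0 : 0 < ρ)
    (β : ℝ) (h0 : 0 < β) (h1 : β < 1) (c : ℝ) (hc : β * Real.log ρ + (1 - β) * RR β < c)
    (hc0 : 0 ≤ c) :
    ∀ᵐ ω ∂(law stepLaw π), ∀ᶠ n : ℕ in atTop, Real.log (occN ω n) ≤ c * n := by
  set δ := c - (β * Real.log ρ + (1 - β) * RR β) with hδ
  have hδ0 : 0 < δ := by linarith
  have h : ∀ᵐ ω ∂(law stepLaw π), ∀ᶠ n : ℕ in atTop,
      ω ∉ {ω : Sample (FreeGroup Bool) | Real.exp (c * n) ≤ occN ω n} := by
    apply ae_eventually_notMem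
    have hs : Summable fun n : ℕ => Real.exp (-δ) ^ n :=
      summable_geometric_of_lt_one (Real.exp_pos _).le (Real.exp_lt_one_iff.2 (by linarith : -δ < 0))
    have hs2 : Summable fun n : ℕ => Real.exp ((β * Real.log ρ + (1 - β) * RR β - c) * n) := by
      refine hs.congr fun n => ?_
      rw [← Real.exp_nat_mul]
      congr 1
      rw [hδ]; ring
    refine ne_top_of_le_ne_top ?_ (ENNReal.tsum_le_tsum fun n =>
      prob_occN π ρ hρ hρ0 β h0 h1 c n)
    rw [← ENNReal.ofReal_tsum_of_nonneg (fun n => (Real.exp_pos _).le) hs2]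
    exact ENNReal.ofReal_ne_top
  filter_upwards [h] with ω hω
  filter_upwards [hω] with n hn
  have hn' : ¬ Real.exp (c * n) ≤ occN ω n := hn
  push Not at hn'
  rcases Nat.eq_zero_or_pos (occN ω n) with h2 | h2
  · rw [h2]
    simp only [Nat.cast_zero, Real.log_zero]
    positivity
  · rw [Real.log_le_iff_le_exp (by exact_mod_cast h2)]
    exact hn'.le

end AS

end Pool.Agent.R986.BRW
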