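import Mathlib

/-!
# Biased random walks: definitions and one-step computations
-/

set_option autoImplicit false
set_option linter.unusedSectionVars false

open Finset

namespace R986.BW

variable {V : Type} [Fintype V] [DecidableEq V] (G : SimpleGraph V) [DecidableRel G.Adj]

/-- A strategy of the controller: given the history (a list of the visited vertices, the most
recent one first) it picks a neighbour of the current vertex. -/
structure Strategy where
  next : List V → V
  adj : ∀ x l, G.Adj x (next (x :: l))

/-- One step of the `ε`-biased walk, acting on functions of the history. -/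
noncomputable def stepV (ε : ℝ) (π : Strategy G) (f : List V → ℝ) : List V → ℝ
  | [] => f []
  | x :: l => (1 - ε) * ((∑ y ∈ G.neighborFinset x, f (y :: x :: l)) / G.degree x)
      + ε * f (π.next (x :: l) :: x :: l)

/-- Indicator that the history does not contain all vertices. -/
def notCov (l : List V) : ℝ := if ∀ u, u ∈ l then 0 else 1

/-- `P_v(τ_cov > n)` for the strategy `π`. -/
noncomputable def tailProb (ε : ℝ) (π : Strategy G) (v : V) (n : ℕ) : ℝ :=
  (stepV G ε π)^[n] notCov [v]

/-- `E_v[τ_cov]` for the strategy `π`. -/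
noncomputable def expCov (ε : ℝ) (π : Strategy G) (v : V) : ENNReal :=
  ∑' n : ℕ, ENNReal.ofReal (tailProb G ε π v n)

/-- The `ε`-biased cover time. -/
noncomputable def tcov (ε : ℝ) : ENNReal := ⨆ v : V, ⨅ π : Strategy G, expCov G ε π v

/-- One step of the walk, with the history recording which steps were random (`true`). -/
noncomputable def stepE (ε : ℝ) (π : Strategy G) (f : List (V × Bool) → ℝ) :
    List (V × Bool) → ℝ
  | [] => f []
  | e :: l => (1 - ε) * ((∑ y ∈ G.neighborFinset e.1, f ((y, true) :: e :: l)) / G.degree e.1)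
      + ε * f ((π.next ((e :: l).map Prod.fst), false) :: e :: l)

variable {G}

lemma stepE_cons (ε : ℝ) (π : Strategy G) (f : List (V × Bool) → ℝ) (e : V × Bool)
    (l : List (V × Bool)) : stepE G ε π f (e :: l) =
      (1 - ε) * ((∑ y ∈ G.neighborFinset e.1, f ((y, true) :: e :: l)) / G.degree e.1)
      + ε * f ((π.next ((e :: l).map Prod.fst), false) :: e :: l) := rfl

lemma stepE_map (ε : ℝ) (π : Strategy G) (g : List V → ℝ) (h : List (V × Bool)) :
    stepE G ε π (fun h => g (h.map Prod.fst)) h = stepV G ε π g (h.map Prod.fst) := by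
  rcases h with _ | ⟨e, l⟩
  · rfl
  · simp [stepE, stepV]

lemma iterE_map (ε : ℝ) (π : Strategy G) (g : List V → ℝ) (n : ℕ) (h : List (V × Bool)) :
    (stepE G ε π)^[n] (fun h => g (h.map Prod.fst)) h = (stepV G ε π)^[n] g (h.map Prod.fst) := by
  induction n generalizing h with
  | zero => rfl
  | succ n ih =>
    rw [Function.iterate_succ_apply', Function.iterate_succ_apply', ← stepE_map]
    congr 1
    funext h
    exact ih h

section mono

variable {ε : ℝ} (h0 : 0 ≤ ε) (h1 : ε ≤ 1) (π : Strategy G)

include h0 h1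

lemma stepE_mono {f g : List (V × Bool) → ℝ} (h : ∀ l, f l ≤ g l) (l : List (V × Bool)) :
    stepE G ε π f l ≤ stepE G ε π g l := by
  rcases l with _ | ⟨e, l⟩
  · exact h []
  · rw [stepE_cons, stepE_cons]
    apply add_le_add
    · apply mul_le_mul_of_nonneg_left _ (by linarith)
      apply div_le_div_of_nonneg_right _ (Nat.cast_nonneg _)
      exact Finset.sum_le_sum fun y _ => h _
    · exact mul_le_mul_of_nonneg_left (h _) h0

lemma iterE_mono {f g : List (V × Bool) → ℝ} (h : ∀ l, f l ≤ g l) (n : ℕ)
    (l : List (V × Bool)) : (stepE G ε π)^[n] f l ≤ (stepE G ε π)^[n] g l := by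
  induction n generalizing l with
  | zero => exact h l
  | succ n ih =>
    rw [Function.iterate_succ_apply', Function.iterate_succ_apply']
    exact stepE_mono h0 h1 π ih l

omit h0 h1 in
lemma stepE_add (f g : List (V × Bool) → ℝ) (l : List (V × Bool)) :
    stepE G ε π (fun l => f l + g l) l = stepE G ε π f l + stepE G ε π g l := by
  rcases l with _ | ⟨e, l⟩
  · rfl
  · rw [stepE_cons, stepE_cons, stepE_cons, Finset.sum_add_distrib, add_div]
    ring

omit h0 h1 in
lemma stepE_smul (c : ℝ) (f : List (V × Bool) → ℝ) (l : List (V × Bool)) :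
    stepE G ε π (fun l => c * f l) l = c * stepE G ε π f l := by
  rcases l with _ | ⟨e, l⟩
  · rfl
  · rw [stepE_cons, stepE_cons, ← Finset.mul_sum]
    ring

omit h0 h1 in
lemma iterE_add (f g : List (V × Bool) → ℝ) (n : ℕ) (l : List (V × Bool)) :
    (stepE G ε π)^[n] (fun l => f l + g l) l =
      (stepE G ε π)^[n] f l + (stepE G ε π)^[n] g l := by
  induction n generalizing l with
  | zero => rfl
  | succ n ih =>
    rw [Function.iterate_succ_apply', Function.iterate_succ_apply',
      Function.iterate_succ_apply']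
    have : (stepE G ε π)^[n] (fun l => f l + g l) =
      fun l => (stepE G ε π)^[n] f l + (stepE G ε π)^[n] g l := funext ih
    rw [this]
    exact stepE_add π _ _ l

omit h0 h1 in
lemma iterE_smul (c : ℝ) (f : List (V × Bool) → ℝ) (n : ℕ) (l : List (V × Bool)) :
    (stepE G ε π)^[n] (fun l => c * f l) l = c * (stepE G ε π)^[n] f l := by
  induction n generalizing l with
  | zero => rfl
  | succ n ih =>
    rw [Function.iterate_succ_apply', Function.iterate_succ_apply']
    have : (stepE G ε π)^[n] (fun l => c * f l) =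
      fun l => c * (stepE G ε π)^[n] f l := funext ih
    rw [this]
    exact stepE_smul π _ _ l

omit h0 h1 in
lemma iterE_sum {ι : Type} (s : Finset ι) (f : ι → List (V × Bool) → ℝ) (n : ℕ)
    (l : List (V × Bool)) : (stepE G ε π)^[n] (fun l => ∑ i ∈ s, f i l) l =
      ∑ i ∈ s, (stepE G ε π)^[n] (f i) l := by
  classical
  induction s using Finset.induction_on with
  | empty =>
    simp only [Finset.sum_empty]
    have := iterE_smul (G := G) (ε := ε) π 0 (fun _ => 0) n l
    simpa using this
  | insert a s ha ih =>
    simp only [Finset.sum_insert ha]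
    rw [iterE_add, ih]

end mono

variable {d : ℕ} (hd : G.IsRegularOfDegree d) (hd2 : 2 ≤ d)

include hd hd2

/-- the basic one-step criterion -/
lemma stepE_le {ε : ℝ} (h0 : 0 ≤ ε) (h1 : ε ≤ 1) (π : Strategy G) {f : List (V × Bool) → ℝ}
    {u : ℝ} (hu : 0 ≤ u)
    (ha : ∀ e l, ∑ y ∈ G.neighborFinset e.1, f ((y, true) :: e :: l) ≤ d * (f (e :: l) + u))
    (hb : ∀ e l z, f ((z, false) :: e :: l) ≤ f (e :: l) + u) (l : List (V × Bool)) :
    stepE G ε π f l ≤ f l + u := by
  rcases l with _ | ⟨e, l⟩
  · simp only [stepE]; linarith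
  · rw [stepE_cons]
    have hdeg : (G.degree e.1 : ℝ) = d := by rw [hd e.1]
    have hdpos : (0 : ℝ) < d := by
      have : 0 < d := by omega
      exact_mod_cast this
    rw [hdeg]
    have e1 : (∑ y ∈ G.neighborFinset e.1, f ((y, true) :: e :: l)) / (d : ℝ) ≤ f (e :: l) + u := by
      rw [div_le_iff₀ hdpos]
      have := ha e l
      linarith
    have e2 := hb e l (π.next ((e :: l).map Prod.fst))
    have e3 := mul_le_mul_of_nonneg_left e1 (by linarith : (0 : ℝ) ≤ 1 - ε)
    have e4 := mul_le_mul_of_nonneg_left e2 h0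
    linarith

lemma stepE_const {ε : ℝ} (π : Strategy G) (c : ℝ) (l : List (V × Bool)) :
    stepE G ε π (fun _ => c) l = c := by
  rcases l with _ | ⟨e, l⟩
  · rfl
  · rw [stepE_cons]
    have hdeg : (G.degree e.1 : ℝ) = d := by rw [hd e.1]
    have hdpos : (0 : ℝ) < d := by
      have : 0 < d := by omega
      exact_mod_cast this
    rw [Finset.sum_const, SimpleGraph.card_neighborFinset_eq_degree, nsmul_eq_mul, hdeg]
    field_simp
    ring

lemma iterE_const {ε : ℝ} (π : Strategy G) (c : ℝ) (n : ℕ) (l : List (V × Bool)) :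
    (stepE G ε π)^[n] (fun _ => c) l = c := by
  induction n generalizing l with
  | zero => rfl
  | succ n ih =>
    rw [Function.iterate_succ_apply']
    have : (stepE G ε π)^[n] (fun _ => c) = fun _ => c := funext ih
    rw [this]
    exact stepE_const hd hd2 π c l

lemma iterE_le {ε : ℝ} (h0 : 0 ≤ ε) (h1 : ε ≤ 1) (π : Strategy G) {f : List (V × Bool) → ℝ}
    {u : ℝ} (hf : ∀ l, stepE G ε π f l ≤ f l + u) (n : ℕ) (l : List (V × Bool)) :
    (stepE G ε π)^[n] f l ≤ f l + n * u := by
  induction n with
  | zero => simp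
  | succ n ih =>
    rw [Function.iterate_succ_apply]
    have h2 := iterE_mono h0 h1 π hf n l
    rw [iterE_add, iterE_const hd hd2] at h2
    push_cast
    linarith

end R986.BW
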