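import Pool.Agent.R986.BW1

/-!
# Biased random walks: the martingales
-/

set_option autoImplicit false
set_option linter.unusedSectionVars false

open Finset

namespace R986.BW

variable {V : Type} [Fintype V] [DecidableEq V] (G : SimpleGraph V) [DecidableRel G.Adj]

/-- State of the vertex `v`: the number of random steps made from neighbours of `v` while `v` was
active, and whether `v` has not been hit by a random step while active. A vertex is active as long
as it has not been hit and its counter is less than `M`. -/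
def st (M : ℕ) (v : V) : List (V × Bool) → ℕ × Bool
  | [] => (0, true)
  | [_] => (0, true)
  | e :: e' :: l =>
    if e.2 = true ∧ G.Adj e'.1 v ∧ (st M v (e' :: l)).2 = true ∧ (st M v (e' :: l)).1 < M then
      ((st M v (e' :: l)).1 + 1, decide (e.1 ≠ v))
    else st M v (e' :: l)

def act (M : ℕ) (v : V) (h : List (V × Bool)) : Prop :=
  (st G M v h).2 = true ∧ (st G M v h).1 < M

instance (M : ℕ) (v : V) (h : List (V × Bool)) : Decidable (act G M v h) := by
  unfold act; infer_instance

/-- the active neighbours of the current vertex -/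
def AA (M : ℕ) (h : List (V × Bool)) : Finset V :=
  match h with
  | [] => ∅
  | e :: l => univ.filter (fun v => G.Adj e.1 v ∧ act G M v (e :: l))

variable {G}

lemma mem_AA {M : ℕ} {e : V × Bool} {l : List (V × Bool)} {v : V} :
    v ∈ AA G M (e :: l) ↔ G.Adj e.1 v ∧ act G M v (e :: l) := by
  simp [AA]

lemma AA_subset (M : ℕ) (e : V × Bool) (l : List (V × Bool)) :
    AA G M (e :: l) ⊆ G.neighborFinset e.1 := by
  intro v hv
  rw [SimpleGraph.mem_neighborFinset]
  exact (mem_AA.1 hv).1

lemma st_false (M : ℕ) (v z : V) (e : V × Bool) (l : List (V × Bool)) :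
    st G M v ((z, false) :: e :: l) = st G M v (e :: l) := by
  simp [st]

lemma st_mem {M : ℕ} {v y : V} {e : V × Bool} {l : List (V × Bool)} (hv : v ∈ AA G M (e :: l)) :
    st G M v ((y, true) :: e :: l) = ((st G M v (e :: l)).1 + 1, decide (y ≠ v)) := by
  rw [mem_AA] at hv
  unfold act at hv
  rw [st, if_pos ⟨rfl, hv.1, hv.2.1, hv.2.2⟩]

lemma st_not_mem {M : ℕ} {v y : V} {e : V × Bool} {l : List (V × Bool)}
    (hv : v ∉ AA G M (e :: l)) : st G M v ((y, true) :: e :: l) = st G M v (e :: l) := by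
  rw [mem_AA] at hv
  unfold act at hv
  rw [st, if_neg]
  rintro ⟨-, h1, h2, h3⟩
  exact hv ⟨h1, h2, h3⟩

lemma cnt_le (M : ℕ) (v : V) (h : List (V × Bool)) : (st G M v h).1 ≤ M := by
  induction h with
  | nil => simp [st]
  | cons e l ih =>
    rcases l with _ | ⟨e', l⟩
    · simp [st]
    · rw [st]
      split_ifs with h
      · exact h.2.2.2
      · exact ih

/-- the weight of the vertex `v` -/
noncomputable def YY (G : SimpleGraph V) [DecidableRel G.Adj] (M : ℕ) (q : ℝ) (v : V)
    (h : List (V × Bool)) : ℝ :=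
  if (st G M v h).2 = true then q ^ (st G M v h).1 else 0

section Y

variable {M : ℕ} {q : ℝ} (hq : 1 ≤ q)

lemma YY_false (v z : V) (e : V × Bool) (l : List (V × Bool)) :
    YY G M q v ((z, false) :: e :: l) = YY G M q v (e :: l) := by
  unfold YY; rw [st_false]

lemma YY_not_mem {v y : V} {e : V × Bool} {l : List (V × Bool)}
    (hv : v ∉ AA G M (e :: l)) : YY G M q v ((y, true) :: e :: l) = YY G M q v (e :: l) := by
  unfold YY; rw [st_not_mem hv]

lemma YY_mem {v y : V} {e : V × Bool} {l : List (V × Bool)}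
    (hv : v ∈ AA G M (e :: l)) : YY G M q v ((y, true) :: e :: l) =
      q * YY G M q v (e :: l) - (if y = v then q * YY G M q v (e :: l) else 0) := by
  have h2 : (st G M v (e :: l)).2 = true := (mem_AA.1 hv).2.1
  unfold YY
  rw [st_mem hv, if_pos h2]
  by_cases h : y = v
  · simp [h]
  · simp [h, pow_succ']

include hq

lemma YY_nonneg (v : V) (h : List (V × Bool)) : 0 ≤ YY G M q v h := by
  unfold YY
  split_ifs
  · positivity
  · exact le_rfl

lemma YY_le (v : V) (h : List (V × Bool)) : YY G M q v h ≤ q ^ M := by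
  unfold YY
  split_ifs
  · exact pow_le_pow_right₀ hq (cnt_le M v h)
  · positivity

lemma YY_act {v : V} {h : List (V × Bool)} (hv : act G M v h) : q * YY G M q v h ≤ q ^ M := by
  unfold act at hv
  unfold YY
  rw [if_pos hv.1, ← pow_succ']
  exact pow_le_pow_right₀ hq hv.2

end Y

/-- total weight of a set -/
noncomputable def ZZ (G : SimpleGraph V) [DecidableRel G.Adj] (M : ℕ) (q : ℝ) (U : Finset V)
    (h : List (V × Bool)) : ℝ := ∑ v ∈ U, YY G M q v h

/-- increment of the total weight -/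
noncomputable def DD (G : SimpleGraph V) [DecidableRel G.Adj] (M : ℕ) (q : ℝ) (U : Finset V)
    (h : List (V × Bool)) (y : V) : ℝ :=
  (q - 1) * ∑ v ∈ U ∩ AA G M h, YY G M q v h -
    (if y ∈ U ∩ AA G M h then q * YY G M q y h else 0)

lemma ZZ_false (M : ℕ) (q : ℝ) (U : Finset V) (z : V) (e : V × Bool) (l : List (V × Bool)) :
    ZZ G M q U ((z, false) :: e :: l) = ZZ G M q U (e :: l) := by
  unfold ZZ
  exact Finset.sum_congr rfl fun v _ => YY_false v z e l

lemma ZZ_true (M : ℕ) (q : ℝ) (U : Finset V) (y : V) (e : V × Bool) (l : List (V × Bool)) :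
    ZZ G M q U ((y, true) :: e :: l) = ZZ G M q U (e :: l) + DD G M q U (e :: l) y := by
  unfold ZZ DD
  have h1 : ∀ v ∈ U, YY G M q v ((y, true) :: e :: l) = YY G M q v (e :: l) +
      (if v ∈ AA G M (e :: l) then (q - 1) * YY G M q v (e :: l) else 0) -
      (if v ∈ AA G M (e :: l) then (if y = v then q * YY G M q v (e :: l) else 0) else 0) := by
    intro v _
    by_cases hv : v ∈ AA G M (e :: l)
    · rw [YY_mem hv, if_pos hv, if_pos hv]; ring
    · rw [YY_not_mem hv, if_neg hv, if_neg hv]; ring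
  rw [Finset.sum_congr rfl h1, Finset.sum_sub_distrib, Finset.sum_add_distrib,
    Finset.sum_ite_mem, Finset.sum_ite_mem, ← Finset.mul_sum, Finset.sum_ite_eq]
  ring

variable {d : ℕ} (hd : G.IsRegularOfDegree d) (hd2 : 2 ≤ d)

/-- the multiplier -/
noncomputable def qq (d : ℕ) : ℝ := d / (d - 1)

include hd2 in
lemma one_le_qq : 1 ≤ qq d := by
  unfold qq
  have : (2 : ℝ) ≤ d := by exact_mod_cast hd2
  rw [le_div_iff₀ (by linarith)]
  linarith

include hd2 in
lemma qq_sub : qq d - 1 = qq d / d := by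
  unfold qq
  have : (2 : ℝ) ≤ d := by exact_mod_cast hd2
  have h1 : (d : ℝ) - 1 ≠ 0 := by linarith
  have h2 : (d : ℝ) ≠ 0 := by linarith
  field_simp
  ring

lemma sum_indicator (e : V × Bool) (T : Finset V) (hT : T ⊆ G.neighborFinset e.1)
    (g : V → ℝ) : ∑ y ∈ G.neighborFinset e.1, (if y ∈ T then g y else 0) = ∑ y ∈ T, g y := by
  rw [Finset.sum_ite_mem, Finset.inter_eq_right.2 hT]

include hd hd2

lemma sum_DD (M : ℕ) (U : Finset V) (e : V × Bool) (l : List (V × Bool)) :
    ∑ y ∈ G.neighborFinset e.1, DD G M (qq d) U (e :: l) y = 0 := by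
  unfold DD
  rw [Finset.sum_sub_distrib, Finset.sum_const, SimpleGraph.card_neighborFinset_eq_degree, hd e.1,
    sum_indicator e _ (Finset.inter_subset_right.trans (AA_subset M e l))
      (fun y => qq d * YY G M (qq d) y (e :: l)), ← Finset.mul_sum, nsmul_eq_mul, qq_sub hd2]
  have : (d : ℝ) ≠ 0 := by
    have : 0 < d := by omega
    exact_mod_cast this.ne'
  field_simp
  ring

lemma DD_abs (M : ℕ) (U : Finset V) (e : V × Bool) (l : List (V × Bool)) (y : V) :
    |DD G M (qq d) U (e :: l) y| ≤ qq d ^ M := by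
  have hq := one_le_qq hd2
  have hdpos : (0 : ℝ) < d := by
    have : 0 < d := by omega
    exact_mod_cast this
  have h1 : 0 ≤ (qq d - 1) * ∑ v ∈ U ∩ AA G M (e :: l), YY G M (qq d) v (e :: l) :=
    mul_nonneg (by linarith) (Finset.sum_nonneg fun v _ => YY_nonneg hq v _)
  have h2 : (qq d - 1) * ∑ v ∈ U ∩ AA G M (e :: l), YY G M (qq d) v (e :: l) ≤ qq d ^ M := by
    rw [qq_sub hd2, div_mul_eq_mul_div, div_le_iff₀ hdpos, Finset.mul_sum]
    calc ∑ v ∈ U ∩ AA G M (e :: l), qq d * YY G M (qq d) v (e :: l)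
        ≤ ∑ _v ∈ U ∩ AA G M (e :: l), qq d ^ M := by
          apply Finset.sum_le_sum
          intro v hv
          exact YY_act hq (mem_AA.1 (Finset.mem_inter.1 hv).2).2
      _ = ((U ∩ AA G M (e :: l)).card : ℝ) * qq d ^ M := by
          rw [Finset.sum_const, nsmul_eq_mul]
      _ ≤ d * qq d ^ M := by
          apply mul_le_mul_of_nonneg_right _ (by positivity)
          have : (U ∩ AA G M (e :: l)).card ≤ (G.neighborFinset e.1).card :=
            Finset.card_le_card (Finset.inter_subset_right.trans (AA_subset M e l))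
          rw [SimpleGraph.card_neighborFinset_eq_degree, hd e.1] at this
          exact_mod_cast this
      _ = _ := by ring
  have h3 : 0 ≤ (if y ∈ U ∩ AA G M (e :: l) then qq d * YY G M (qq d) y (e :: l) else 0) := by
    split_ifs
    · exact mul_nonneg (by linarith) (YY_nonneg hq _ _)
    · exact le_rfl
  have h4 : (if y ∈ U ∩ AA G M (e :: l) then qq d * YY G M (qq d) y (e :: l) else 0)
      ≤ qq d ^ M := by
    split_ifs with h
    · exact YY_act hq (mem_AA.1 (Finset.mem_inter.1 h).2).2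
    · positivity
  unfold DD
  rw [abs_le]
  constructor <;> linarith

lemma sum_DD_sq (M : ℕ) (U : Finset V) (e : V × Bool) (l : List (V × Bool)) :
    ∑ y ∈ G.neighborFinset e.1, DD G M (qq d) U (e :: l) y ^ 2 ≤
      ((U ∩ AA G M (e :: l)).card : ℝ) * (qq d ^ M) ^ 2 := by
  have hq := one_le_qq hd2
  set T := U ∩ AA G M (e :: l) with hT
  set a := (qq d - 1) * ∑ v ∈ T, YY G M (qq d) v (e :: l) with ha
  set g : V → ℝ := fun y => if y ∈ T then qq d * YY G M (qq d) y (e :: l) else 0 with hg
  have hsub : T ⊆ G.neighborFinset e.1 := Finset.inter_subset_right.trans (AA_subset M e l)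
  have e1 : ∀ y, DD G M (qq d) U (e :: l) y = a - g y := fun y => rfl
  have h0 : ∑ y ∈ G.neighborFinset e.1, (a - g y) = 0 := by
    have := sum_DD hd hd2 M U e l
    simp_rw [e1] at this
    exact this
  have h1 : ∑ y ∈ G.neighborFinset e.1, (a - g y) ^ 2 =
      a * ∑ y ∈ G.neighborFinset e.1, (a - g y) - ∑ y ∈ G.neighborFinset e.1, a * g y
        + ∑ y ∈ G.neighborFinset e.1, g y ^ 2 := by
    rw [Finset.mul_sum, ← Finset.sum_sub_distrib, ← Finset.sum_add_distrib]
    apply Finset.sum_congr rfl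
    intro y _
    ring
  have hg0 : ∀ y, 0 ≤ g y := by
    intro y
    simp only [hg]
    split_ifs
    · exact mul_nonneg (by linarith) (YY_nonneg hq _ _)
    · exact le_rfl
  have ha0 : 0 ≤ a := mul_nonneg (by linarith) (Finset.sum_nonneg fun v _ => YY_nonneg hq v _)
  have h2 : 0 ≤ ∑ y ∈ G.neighborFinset e.1, a * g y :=
    Finset.sum_nonneg fun y _ => mul_nonneg ha0 (hg0 y)
  have h3 : ∑ y ∈ G.neighborFinset e.1, g y ^ 2 ≤ (T.card : ℝ) * (qq d ^ M) ^ 2 := by
    have e2 : ∀ y, g y ^ 2 = if y ∈ T then (qq d * YY G M (qq d) y (e :: l)) ^ 2 else 0 := by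
      intro y
      simp only [hg]
      split_ifs <;> simp
    simp_rw [e2]
    rw [sum_indicator e T hsub (fun y => (qq d * YY G M (qq d) y (e :: l)) ^ 2)]
    calc _ ≤ ∑ _y ∈ T, (qq d ^ M) ^ 2 := by
          apply Finset.sum_le_sum
          intro y hy
          apply pow_le_pow_left₀ (mul_nonneg (by linarith) (YY_nonneg hq _ _))
          exact YY_act hq (mem_AA.1 (Finset.mem_inter.1 hy).2).2
      _ = _ := by rw [Finset.sum_const, nsmul_eq_mul]
  simp_rw [e1]
  rw [h1, h0, mul_zero]
  linarith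

/-- exponential one-step bound -/
lemma sum_exp_DD (M : ℕ) (U : Finset V) (e : V × Bool) (l : List (V × Bool)) (t : ℝ)
    (ht0 : 0 ≤ t) (ht : t * qq d ^ M ≤ 1) :
    ∑ y ∈ G.neighborFinset e.1, Real.exp (t * DD G M (qq d) U (e :: l) y) ≤
      d * Real.exp (t ^ 2 * (qq d ^ M) ^ 2 * (((U ∩ AA G M (e :: l)).card : ℝ) / d)) := by
  have hdpos : (0 : ℝ) < d := by
    have : 0 < d := by omega
    exact_mod_cast this
  have h1 : ∀ y, Real.exp (t * DD G M (qq d) U (e :: l) y) ≤
      1 + t * DD G M (qq d) U (e :: l) y + (t * DD G M (qq d) U (e :: l) y) ^ 2 := by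
    intro y
    have h2 : |t * DD G M (qq d) U (e :: l) y| ≤ 1 := by
      rw [abs_mul, abs_of_nonneg ht0]
      exact (mul_le_mul_of_nonneg_left (DD_abs hd hd2 M U e l y) ht0).trans ht
    have h3 := Real.abs_exp_sub_one_sub_id_le h2
    have h4 := (abs_le.1 h3).2
    linarith
  calc ∑ y ∈ G.neighborFinset e.1, Real.exp (t * DD G M (qq d) U (e :: l) y)
      ≤ ∑ y ∈ G.neighborFinset e.1, (1 + t * DD G M (qq d) U (e :: l) y +
          t ^ 2 * DD G M (qq d) U (e :: l) y ^ 2) :=
        Finset.sum_le_sum fun y _ => (h1 y).trans (le_of_eq (by ring))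
    _ = d + t * 0 + t ^ 2 * ∑ y ∈ G.neighborFinset e.1, DD G M (qq d) U (e :: l) y ^ 2 := by
        rw [Finset.sum_add_distrib, Finset.sum_add_distrib, ← Finset.mul_sum, ← Finset.mul_sum,
          sum_DD hd hd2, Finset.sum_const, SimpleGraph.card_neighborFinset_eq_degree, hd e.1,
          nsmul_eq_mul, mul_one]
    _ ≤ d + t ^ 2 * (((U ∩ AA G M (e :: l)).card : ℝ) * (qq d ^ M) ^ 2) := by
        have := mul_le_mul_of_nonneg_left (sum_DD_sq hd hd2 M U e l) (sq_nonneg t)
        linarith
    _ = d * (t ^ 2 * (qq d ^ M) ^ 2 * (((U ∩ AA G M (e :: l)).card : ℝ) / d) + 1) := by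
        field_simp
        ring
    _ ≤ _ := mul_le_mul_of_nonneg_left (Real.add_one_le_exp _) hdpos.le

end R986.BW
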