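import Pool.Agent.R986.BW2

/-!
# Biased random walks: the potentials
-/

set_option autoImplicit false
set_option linter.unusedSectionVars false

open Finset

namespace R986.BW

variable {V : Type} [Fintype V] [DecidableEq V] {G : SimpleGraph V} [DecidableRel G.Adj]
variable {d : ℕ} (hd : G.IsRegularOfDegree d) (hd2 : 2 ≤ d)

/-! ### The total weight -/

section F

variable (M : ℕ)

/-- total weight of all vertices -/
noncomputable def FF (G : SimpleGraph V) [DecidableRel G.Adj] (d M : ℕ) (h : List (V × Bool)) : ℝ :=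
  ZZ G M (qq d) univ h

include hd hd2

lemma step_F {ε : ℝ} (h0 : 0 ≤ ε) (h1 : ε ≤ 1) (π : Strategy G) (c : ℝ) (n : ℕ)
    (l : List (V × Bool)) :
    (stepE G ε π)^[n] (fun h => c * FF G d M h) l ≤ c * FF G d M l := by
  have h := iterE_le hd hd2 h0 h1 π (f := fun h => c * FF G d M h) (u := 0)
    (stepE_le hd hd2 h0 h1 π le_rfl (by
      intro e l
      unfold FF
      simp_rw [ZZ_true, mul_add]
      rw [Finset.sum_add_distrib, ← Finset.mul_sum, ← Finset.mul_sum, sum_DD hd hd2,
        Finset.sum_const, SimpleGraph.card_neighborFinset_eq_degree, hd e.1, nsmul_eq_mul]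
      apply le_of_eq
      ring) (by
      intro e l z
      unfold FF
      simp only [ZZ_false]
      linarith)) n l
  linarith

lemma step_F2 {ε : ℝ} (h0 : 0 ≤ ε) (h1 : ε ≤ 1) (π : Strategy G) (c : ℝ) (n : ℕ)
    (l : List (V × Bool)) :
    (stepE G ε π)^[n] (fun h => (FF G d M h - c) ^ 2) l ≤
      (FF G d M l - c) ^ 2 + n * (qq d ^ M) ^ 2 := by
  refine iterE_le hd hd2 h0 h1 π (f := fun h => (FF G d M h - c) ^ 2) (u := (qq d ^ M) ^ 2)
    (stepE_le hd hd2 h0 h1 π (by positivity) (by
      intro e l
      unfold FF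
      simp_rw [ZZ_true]
      have e1 : ∀ y, (ZZ G M (qq d) univ (e :: l) + DD G M (qq d) univ (e :: l) y - c) ^ 2 =
          (ZZ G M (qq d) univ (e :: l) - c) ^ 2 +
          2 * (ZZ G M (qq d) univ (e :: l) - c) * DD G M (qq d) univ (e :: l) y +
          DD G M (qq d) univ (e :: l) y ^ 2 := by intro y; ring
      simp_rw [e1]
      rw [Finset.sum_add_distrib, Finset.sum_add_distrib, ← Finset.mul_sum, sum_DD hd hd2,
        Finset.sum_const, SimpleGraph.card_neighborFinset_eq_degree, hd e.1, nsmul_eq_mul]
      have h2 := sum_DD_sq hd hd2 M univ e l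
      have h3 : ((univ ∩ AA G M (e :: l)).card : ℝ) ≤ d := by
        have : (univ ∩ AA G M (e :: l)).card ≤ (G.neighborFinset e.1).card :=
          Finset.card_le_card (Finset.inter_subset_right.trans (AA_subset M e l))
        rw [SimpleGraph.card_neighborFinset_eq_degree, hd e.1] at this
        exact_mod_cast this
      have h4 := mul_le_mul_of_nonneg_right h3 (sq_nonneg (qq d ^ M))
      linarith) (by
      intro e l z
      unfold FF
      simp only [ZZ_false]
      have := sq_nonneg (qq d ^ M)
      linarith)) n l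

end F

/-! ### Flags -/

/-- the total weight around `x` has exceeded `2d` at some time -/
def flag (G : SimpleGraph V) [DecidableRel G.Adj] (d M : ℕ) (x : V) : List (V × Bool) → Prop
  | [] => False
  | e :: l => flag G d M x l ∨ 2 * (d : ℝ) < ZZ G M (qq d) (G.neighborFinset x) (e :: l)

lemma flag_mono {M : ℕ} {x : V} {e : V × Bool} {l : List (V × Bool)} (h : flag G d M x l) :
    flag G d M x (e :: l) := Or.inl h

lemma not_flag {M : ℕ} {x : V} {e : V × Bool} {l : List (V × Bool)}
    (h : ¬ flag G d M x (e :: l)) : ZZ G M (qq d) (G.neighborFinset x) (e :: l) ≤ 2 * d := by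
  by_contra h1
  exact h (Or.inr (not_le.1 h1))

lemma flag_false {M : ℕ} {x z : V} {e : V × Bool} {l : List (V × Bool)} :
    flag G d M x ((z, false) :: e :: l) ↔ flag G d M x (e :: l) := by
  constructor
  · rintro (h | h)
    · exact h
    · rw [ZZ_false] at h
      exact Or.inr h
  · exact Or.inl

/-- sum of the counters -/
noncomputable def LL (G : SimpleGraph V) [DecidableRel G.Adj] (M : ℕ) (U : Finset V)
    (h : List (V × Bool)) : ℝ := ∑ v ∈ U, ((st G M v h).1 : ℝ)

lemma LL_false (M : ℕ) (U : Finset V) (z : V) (e : V × Bool) (l : List (V × Bool)) :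
    LL G M U ((z, false) :: e :: l) = LL G M U (e :: l) := by
  unfold LL
  exact Finset.sum_congr rfl fun v _ => by rw [st_false]

lemma LL_true (M : ℕ) (U : Finset V) (y : V) (e : V × Bool) (l : List (V × Bool)) :
    LL G M U ((y, true) :: e :: l) = LL G M U (e :: l) + ((U ∩ AA G M (e :: l)).card : ℝ) := by
  unfold LL
  have h1 : ∀ v ∈ U, ((st G M v ((y, true) :: e :: l)).1 : ℝ) = (st G M v (e :: l)).1 +
      (if v ∈ AA G M (e :: l) then 1 else 0) := by
    intro v _
    by_cases hv : v ∈ AA G M (e :: l)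
    · rw [st_mem hv, if_pos hv]; push_cast; ring
    · rw [st_not_mem hv, if_neg hv]; ring
  rw [Finset.sum_congr rfl h1, Finset.sum_add_distrib, Finset.sum_ite_mem]
  simp

lemma LL_le (M : ℕ) (U : Finset V) (h : List (V × Bool)) : LL G M U h ≤ U.card * M := by
  unfold LL
  calc _ ≤ ∑ _v ∈ U, (M : ℝ) := Finset.sum_le_sum fun v _ => by exact_mod_cast cnt_le M v h
    _ = _ := by rw [Finset.sum_const, nsmul_eq_mul]

open Classical in
/-- exponential potential -/
noncomputable def Phi (G : SimpleGraph V) [DecidableRel G.Adj] (d M : ℕ) (t : ℝ) (x : V)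
    (h : List (V × Bool)) : ℝ :=
  if flag G d M x h then Real.exp (2 * t * d - t ^ 2 * (qq d ^ M) ^ 2 * M) else
    Real.exp (t * ZZ G M (qq d) (G.neighborFinset x) h -
      t ^ 2 * (qq d ^ M) ^ 2 * (LL G M (G.neighborFinset x) h / d))

include hd hd2 in
lemma Phi_le {M : ℕ} {t : ℝ} (ht0 : 0 ≤ t) (x : V) (e : V × Bool) (l : List (V × Bool)) :
    Phi G d M t x (e :: l) ≤
      Real.exp (t * ZZ G M (qq d) (G.neighborFinset x) (e :: l) -
      t ^ 2 * (qq d ^ M) ^ 2 * (LL G M (G.neighborFinset x) (e :: l) / d)) ∨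
      flag G d M x l := by
  have hdpos : (0 : ℝ) < d := by
    have : 0 < d := by omega
    exact_mod_cast this
  by_cases hl : flag G d M x l
  · exact Or.inr hl
  left
  unfold Phi
  split_ifs with h
  · apply Real.exp_le_exp.2
    rcases h with h | h
    · exact absurd h hl
    · have h1 := LL_le (G := G) M (G.neighborFinset x) (e :: l)
      rw [SimpleGraph.card_neighborFinset_eq_degree, hd x] at h1
      have h2 : LL G M (G.neighborFinset x) (e :: l) / d ≤ M := by
        rw [div_le_iff₀ hdpos]; linarith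
      have h3 := mul_le_mul_of_nonneg_left h2
        (by positivity : 0 ≤ t ^ 2 * (qq d ^ M) ^ 2)
      have h4 := mul_le_mul_of_nonneg_left h.le ht0
      linarith
  · exact le_rfl

include hd hd2 in
lemma step_Phi {M : ℕ} {t : ℝ} (ht0 : 0 ≤ t) (ht : t * qq d ^ M ≤ 1) (x : V) {ε : ℝ}
    (h0 : 0 ≤ ε) (h1 : ε ≤ 1) (π : Strategy G) (n : ℕ) (l : List (V × Bool)) :
    (stepE G ε π)^[n] (Phi G d M t x) l ≤ Phi G d M t x l := by
  have hdpos : (0 : ℝ) < d := by
    have : 0 < d := by omega
    exact_mod_cast this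
  have h := iterE_le hd hd2 h0 h1 π (f := Phi G d M t x) (u := 0)
    (stepE_le hd hd2 h0 h1 π le_rfl (by
      intro e l
      rw [add_zero]
      by_cases hf : flag G d M x (e :: l)
      · have e1 : ∀ y, Phi G d M t x ((y, true) :: e :: l) = Phi G d M t x (e :: l) := by
          intro y
          unfold Phi
          rw [if_pos hf, if_pos (flag_mono hf)]
        simp_rw [e1]
        rw [Finset.sum_const, SimpleGraph.card_neighborFinset_eq_degree, hd e.1, nsmul_eq_mul]
      · have e1 : ∀ y, Phi G d M t x ((y, true) :: e :: l) ≤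
            Real.exp (t * ZZ G M (qq d) (G.neighborFinset x) (e :: l) -
            t ^ 2 * (qq d ^ M) ^ 2 * (LL G M (G.neighborFinset x) (e :: l) / d)) *
            (Real.exp (-(t ^ 2 * (qq d ^ M) ^ 2 *
              (((G.neighborFinset x ∩ AA G M (e :: l)).card : ℝ) / d))) *
            Real.exp (t * DD G M (qq d) (G.neighborFinset x) (e :: l) y)) := by
          intro y
          rcases Phi_le hd hd2 ht0 x (y, true) (e :: l) (M := M) with h | h
          · refine h.trans (le_of_eq ?_)
            rw [ZZ_true, LL_true, ← Real.exp_add, ← Real.exp_add]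
            congr 1
            ring
          · exact absurd h hf
        refine (Finset.sum_le_sum fun y _ => e1 y).trans ?_
        rw [← Finset.mul_sum, ← Finset.mul_sum]
        have h3 := sum_exp_DD hd hd2 M (G.neighborFinset x) e l t ht0 ht
        have h4 : Phi G d M t x (e :: l) =
          Real.exp (t * ZZ G M (qq d) (G.neighborFinset x) (e :: l) -
            t ^ 2 * (qq d ^ M) ^ 2 * (LL G M (G.neighborFinset x) (e :: l) / d)) := by
          unfold Phi; rw [if_neg hf]
        rw [h4]
        have h5 : Real.exp (-(t ^ 2 * (qq d ^ M) ^ 2 *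
              (((G.neighborFinset x ∩ AA G M (e :: l)).card : ℝ) / d))) *
            ∑ y ∈ G.neighborFinset e.1,
              Real.exp (t * DD G M (qq d) (G.neighborFinset x) (e :: l) y) ≤ d := by
          calc _ ≤ Real.exp (-(t ^ 2 * (qq d ^ M) ^ 2 *
              (((G.neighborFinset x ∩ AA G M (e :: l)).card : ℝ) / d))) *
              (d * Real.exp (t ^ 2 * (qq d ^ M) ^ 2 *
                (((G.neighborFinset x ∩ AA G M (e :: l)).card : ℝ) / d))) :=
                mul_le_mul_of_nonneg_left h3 (Real.exp_pos _).le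
            _ = d * (Real.exp (-(t ^ 2 * (qq d ^ M) ^ 2 *
              (((G.neighborFinset x ∩ AA G M (e :: l)).card : ℝ) / d))) *
              Real.exp (t ^ 2 * (qq d ^ M) ^ 2 *
                (((G.neighborFinset x ∩ AA G M (e :: l)).card : ℝ) / d))) := by ring
            _ = d := by rw [← Real.exp_add, neg_add_cancel, Real.exp_zero, mul_one]
        have h6 := mul_le_mul_of_nonneg_left h5 (Real.exp_pos (t * ZZ G M (qq d)
            (G.neighborFinset x) (e :: l) -
            t ^ 2 * (qq d ^ M) ^ 2 * (LL G M (G.neighborFinset x) (e :: l) / d))).le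
        linarith) (by
      intro e l z
      rw [add_zero]
      unfold Phi
      rw [ZZ_false, LL_false]
      by_cases hf : flag G d M x (e :: l)
      · rw [if_pos hf, if_pos (flag_false.2 hf)]
      · rw [if_neg hf, if_neg (fun h => hf (flag_false.1 h))])) n l
  linarith

open Classical in
/-- indicator of the flag -/
noncomputable def fl (G : SimpleGraph V) [DecidableRel G.Adj] (d M : ℕ) (x : V)
    (h : List (V × Bool)) : ℝ := if flag G d M x h then 1 else 0

lemma fl_nonneg (M : ℕ) (x : V) (h : List (V × Bool)) : 0 ≤ fl G d M x h := by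
  unfold fl; split_ifs <;> norm_num

include hd hd2 in
/-- probability of a flag -/
lemma prob_flag {M : ℕ} {t : ℝ} (ht0 : 0 ≤ t) (ht : t * qq d ^ M ≤ 1) (x v0 : V) {ε : ℝ}
    (h0 : 0 ≤ ε) (h1 : ε ≤ 1) (π : Strategy G) (n : ℕ) :
    (stepE G ε π)^[n] (fl G d M x) [(v0, false)] ≤
      Real.exp (-(t * d) + t ^ 2 * (qq d ^ M) ^ 2 * M) := by
  have e1 : ∀ h, fl G d M x h ≤ Real.exp (-(2 * t * d - t ^ 2 * (qq d ^ M) ^ 2 * M)) *
      Phi G d M t x h := by
    intro h
    unfold fl Phi
    split_ifs with hf
    · rw [← Real.exp_add, neg_add_cancel, Real.exp_zero]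
    · positivity
  have h2 := iterE_mono h0 h1 π e1 n [(v0, false)]
  rw [iterE_smul] at h2
  have h3 := step_Phi hd hd2 ht0 ht x h0 h1 π n [(v0, false)]
  have e2 : ZZ G M (qq d) (G.neighborFinset x) [(v0, false)] = d := by
    unfold ZZ YY
    simp only [st, if_true, pow_zero, Finset.sum_const,
      SimpleGraph.card_neighborFinset_eq_degree, hd x]
    simp
  have e3 : LL G M (G.neighborFinset x) [(v0, false)] = 0 := by
    unfold LL
    simp [st]
  have hdpos : (0 : ℝ) < d := by
    have : 0 < d := by omega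
    exact_mod_cast this
  have e4 : ¬ flag G d M x [(v0, false)] := by
    rintro (h | h)
    · exact h
    · rw [e2] at h; linarith
  have e5 : Phi G d M t x [(v0, false)] = Real.exp (t * d) := by
    unfold Phi
    rw [if_neg e4, e2, e3]
    congr 1
    ring
  rw [e5] at h3
  refine h2.trans ?_
  refine (mul_le_mul_of_nonneg_left h3 (Real.exp_pos _).le).trans (le_of_eq ?_)
  rw [← Real.exp_add]
  congr 1
  ring

end R986.BW
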