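import Pool.Agent.R986.BW3

/-!
# Biased random walks: the main inequality
-/

set_option autoImplicit false
set_option linter.unusedSectionVars false

open Finset

namespace R986.BW

variable {V : Type} [Fintype V] [DecidableEq V] {G : SimpleGraph V} [DecidableRel G.Adj]
variable {d : ℕ} (hd : G.IsRegularOfDegree d) (hd2 : 2 ≤ d)

/-- weighted sum of the counters -/
noncomputable def GG (G : SimpleGraph V) [DecidableRel G.Adj] (d M : ℕ) (h : List (V × Bool)) : ℝ :=
  ∑ v, YY G M (qq d) v h * ((st G M v h).1 : ℝ)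

lemma GG_false (M : ℕ) (z : V) (e : V × Bool) (l : List (V × Bool)) :
    GG G d M ((z, false) :: e :: l) = GG G d M (e :: l) := by
  unfold GG
  exact Finset.sum_congr rfl fun v _ => by rw [st_false, YY_false]

include hd2 in
lemma mul_qq : ((d : ℝ) - 1) * qq d = d := by
  unfold qq
  have : (2 : ℝ) ≤ d := by exact_mod_cast hd2
  have h1 : (d : ℝ) - 1 ≠ 0 := by linarith
  field_simp

include hd hd2 in
lemma sum_GG (M : ℕ) (e : V × Bool) (l : List (V × Bool)) :
    ∑ y ∈ G.neighborFinset e.1, GG G d M ((y, true) :: e :: l) =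
      d * (GG G d M (e :: l) + ∑ v ∈ AA G M (e :: l), YY G M (qq d) v (e :: l)) := by
  have h1 : ∀ y, GG G d M ((y, true) :: e :: l) = GG G d M (e :: l) +
      ∑ v ∈ AA G M (e :: l), (qq d * YY G M (qq d) v (e :: l) * ((st G M v (e :: l)).1 + 1) -
        YY G M (qq d) v (e :: l) * (st G M v (e :: l)).1) -
      (if y ∈ AA G M (e :: l) then
        qq d * YY G M (qq d) y (e :: l) * ((st G M y (e :: l)).1 + 1) else 0) := by
    intro y
    unfold GG
    have h2 : ∀ v, YY G M (qq d) v ((y, true) :: e :: l) *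
        ((st G M v ((y, true) :: e :: l)).1 : ℝ) =
        YY G M (qq d) v (e :: l) * ((st G M v (e :: l)).1 : ℝ) +
        (if v ∈ AA G M (e :: l) then
          (qq d * YY G M (qq d) v (e :: l) * ((st G M v (e :: l)).1 + 1) -
          YY G M (qq d) v (e :: l) * (st G M v (e :: l)).1) else 0) -
        (if v ∈ AA G M (e :: l) then (if y = v then
          qq d * YY G M (qq d) v (e :: l) * ((st G M v (e :: l)).1 + 1) else 0) else 0) := by
      intro v
      by_cases hv : v ∈ AA G M (e :: l)
      · rw [YY_mem hv, st_mem hv, if_pos hv, if_pos hv]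
        push_cast
        split_ifs <;> ring
      · rw [YY_not_mem hv, st_not_mem hv, if_neg hv, if_neg hv]; ring
    simp_rw [h2]
    rw [Finset.sum_sub_distrib, Finset.sum_add_distrib, Finset.sum_ite_mem, Finset.sum_ite_mem,
      Finset.univ_inter, Finset.sum_ite_eq]
  simp_rw [h1]
  rw [Finset.sum_sub_distrib, Finset.sum_const, SimpleGraph.card_neighborFinset_eq_degree, hd e.1,
    sum_indicator e _ (AA_subset M e l)
      (fun y => qq d * YY G M (qq d) y (e :: l) * (((st G M y (e :: l)).1 : ℝ) + 1)),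
    nsmul_eq_mul, mul_add, mul_add, Finset.mul_sum, Finset.mul_sum, add_sub_assoc,
    ← Finset.sum_sub_distrib]
  congr 1
  apply Finset.sum_congr rfl
  intro v _
  have := mul_qq hd2
  linear_combination (YY G M (qq d) v (e :: l) * (((st G M v (e :: l)).1 : ℝ) + 1)) * this

/-- potential bounding the contribution of flagged vertices -/
noncomputable def TH (G : SimpleGraph V) [DecidableRel G.Adj] (d M : ℕ) (h : List (V × Bool)) : ℝ :=
  GG G d M h + qq d ^ M * ∑ u, fl G d M u h *
    (d * ZZ G M 1 (G.neighborFinset u) h - (d : ℝ) ^ 2)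

lemma YY_one_le (M : ℕ) (v : V) (h : List (V × Bool)) : YY G M 1 v h ≤ 1 := by
  unfold YY; split_ifs <;> simp

include hd in
lemma ZZ_one_le (M : ℕ) (u : V) (h : List (V × Bool)) :
    ZZ G M 1 (G.neighborFinset u) h ≤ d := by
  unfold ZZ
  calc _ ≤ ∑ _v ∈ G.neighborFinset u, (1 : ℝ) := Finset.sum_le_sum fun v _ => YY_one_le M v h
    _ = _ := by
      rw [Finset.sum_const, SimpleGraph.card_neighborFinset_eq_degree, hd u, nsmul_eq_mul, mul_one]

lemma fl_false {M : ℕ} {x z : V} {e : V × Bool} {l : List (V × Bool)} :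
    fl G d M x ((z, false) :: e :: l) = fl G d M x (e :: l) := by
  unfold fl
  by_cases hf : flag G d M x (e :: l)
  · rw [if_pos hf, if_pos (flag_false.2 hf)]
  · rw [if_neg hf, if_neg (fun h => hf (flag_false.1 h))]

lemma fl_le {M : ℕ} {x : V} {e : V × Bool} {l : List (V × Bool)} :
    fl G d M x l ≤ fl G d M x (e :: l) := by
  unfold fl
  by_cases hf : flag G d M x l
  · rw [if_pos hf, if_pos (flag_mono hf)]
  · rw [if_neg hf]; split_ifs <;> norm_num

lemma YY_one_act {M : ℕ} {v : V} {h : List (V × Bool)} (hv : act G M v h) :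
    YY G M 1 v h = 1 := by
  unfold act at hv
  unfold YY
  rw [if_pos hv.1, one_pow]

lemma ZZ_one_true (M : ℕ) (u y : V) (e : V × Bool) (l : List (V × Bool)) :
    ZZ G M 1 (G.neighborFinset u) ((y, true) :: e :: l) =
      ZZ G M 1 (G.neighborFinset u) (e :: l) -
        (if y ∈ G.neighborFinset u ∩ AA G M (e :: l) then 1 else 0) := by
  rw [ZZ_true]
  unfold DD
  rw [sub_self, zero_mul]
  by_cases hy : y ∈ G.neighborFinset u ∩ AA G M (e :: l)
  · rw [if_pos hy, if_pos hy, YY_one_act (mem_AA.1 (Finset.mem_inter.1 hy).2).2]; ring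
  · rw [if_neg hy, if_neg hy]; ring

include hd hd2 in
lemma sum_TH (M : ℕ) (e : V × Bool) (l : List (V × Bool)) :
    ∑ y ∈ G.neighborFinset e.1, TH G d M ((y, true) :: e :: l) ≤
      d * (TH G d M (e :: l) + 2 * d) := by
  have hq := one_le_qq hd2
  have hb : 0 < qq d ^ M := by positivity
  have hdpos : (0 : ℝ) < d := by
    have : 0 < d := by omega
    exact_mod_cast this
  -- bound of the flag part for fixed y
  have h1 : ∀ y, ∑ u, fl G d M u ((y, true) :: e :: l) *
      (d * ZZ G M 1 (G.neighborFinset u) ((y, true) :: e :: l) - (d : ℝ) ^ 2) ≤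
      ∑ u, fl G d M u (e :: l) * (d * ZZ G M 1 (G.neighborFinset u) (e :: l) - (d : ℝ) ^ 2) -
        (if y ∈ AA G M (e :: l) then fl G d M e.1 (e :: l) * d else 0) := by
    intro y
    have h2 : ∀ u, fl G d M u ((y, true) :: e :: l) *
        (d * ZZ G M 1 (G.neighborFinset u) ((y, true) :: e :: l) - (d : ℝ) ^ 2) ≤
        fl G d M u (e :: l) * (d * ZZ G M 1 (G.neighborFinset u) (e :: l) - (d : ℝ) ^ 2) -
        (if u = e.1 then (if y ∈ AA G M (e :: l) then fl G d M e.1 (e :: l) * d else 0) else 0) := by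
      intro u
      have a1 : d * ZZ G M 1 (G.neighborFinset u) ((y, true) :: e :: l) - (d : ℝ) ^ 2 ≤ 0 := by
        have := mul_le_mul_of_nonneg_left (ZZ_one_le hd M u ((y, true) :: e :: l)) hdpos.le
        nlinarith
      have a2 : fl G d M u (e :: l) ≤ fl G d M u ((y, true) :: e :: l) := fl_le
      have a3 : fl G d M u ((y, true) :: e :: l) *
        (d * ZZ G M 1 (G.neighborFinset u) ((y, true) :: e :: l) - (d : ℝ) ^ 2) ≤
        fl G d M u (e :: l) *
        (d * ZZ G M 1 (G.neighborFinset u) ((y, true) :: e :: l) - (d : ℝ) ^ 2) :=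
        mul_le_mul_of_nonpos_right a2 a1
      refine a3.trans ?_
      have a4 := fl_nonneg (G := G) (d := d) M u (e :: l)
      rw [ZZ_one_true]
      by_cases hu : u = e.1
      · rw [if_pos hu, hu]
        by_cases hy : y ∈ AA G M (e :: l)
        · rw [if_pos hy, if_pos (Finset.mem_inter.2 ⟨AA_subset M e l hy, hy⟩)]
          apply le_of_eq
          ring
        · rw [if_neg hy, if_neg (fun h => hy (Finset.mem_inter.1 h).2)]
          apply le_of_eq
          ring
      · rw [if_neg hu, sub_zero]
        apply mul_le_mul_of_nonneg_left _ a4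
        split_ifs <;> nlinarith
    refine (Finset.sum_le_sum fun u _ => h2 u).trans (le_of_eq ?_)
    rw [Finset.sum_sub_distrib, Finset.sum_ite_eq' , if_pos (Finset.mem_univ _)]
  have h3 : ∑ y ∈ G.neighborFinset e.1, (if y ∈ AA G M (e :: l) then
      fl G d M e.1 (e :: l) * (d : ℝ) else 0) =
      ((AA G M (e :: l)).card : ℝ) * (fl G d M e.1 (e :: l) * d) := by
    rw [sum_indicator e _ (AA_subset M e l) (fun _ => fl G d M e.1 (e :: l) * (d : ℝ)),
      Finset.sum_const, nsmul_eq_mul]
  have h4 : ∑ y ∈ G.neighborFinset e.1, TH G d M ((y, true) :: e :: l) ≤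
      ∑ y ∈ G.neighborFinset e.1, GG G d M ((y, true) :: e :: l) +
      qq d ^ M * (d * (∑ u, fl G d M u (e :: l) *
        (d * ZZ G M 1 (G.neighborFinset u) (e :: l) - (d : ℝ) ^ 2)) -
        ((AA G M (e :: l)).card : ℝ) * (fl G d M e.1 (e :: l) * d)) := by
    unfold TH
    rw [Finset.sum_add_distrib, ← Finset.mul_sum]
    have h5 := Finset.sum_le_sum fun y (_ : y ∈ G.neighborFinset e.1) => h1 y
    rw [Finset.sum_sub_distrib, h3, Finset.sum_const, SimpleGraph.card_neighborFinset_eq_degree,
      hd e.1, nsmul_eq_mul] at h5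
    have := mul_le_mul_of_nonneg_left h5 hb.le
    linarith
  refine h4.trans ?_
  rw [sum_GG hd hd2]
  unfold TH
  -- active weight bound
  have h6 : ∑ v ∈ AA G M (e :: l), YY G M (qq d) v (e :: l) ≤
      2 * d + qq d ^ M * ((AA G M (e :: l)).card : ℝ) * fl G d M e.1 (e :: l) := by
    by_cases hf : flag G d M e.1 (e :: l)
    · have : fl G d M e.1 (e :: l) = 1 := by unfold fl; rw [if_pos hf]
      rw [this, mul_one]
      have h7 : ∑ v ∈ AA G M (e :: l), YY G M (qq d) v (e :: l) ≤
          ((AA G M (e :: l)).card : ℝ) * qq d ^ M := by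
        rw [← nsmul_eq_mul, ← Finset.sum_const]
        exact Finset.sum_le_sum fun v _ => YY_le hq v _
      linarith
    · have : fl G d M e.1 (e :: l) = 0 := by unfold fl; rw [if_neg hf]
      rw [this, mul_zero, add_zero]
      refine le_trans ?_ (not_flag hf)
      unfold ZZ
      exact Finset.sum_le_sum_of_subset_of_nonneg (AA_subset M e l)
        (fun v _ _ => YY_nonneg hq v _)
  have h8 := mul_le_mul_of_nonneg_left h6 hdpos.le
  linarith

include hd hd2 in
lemma step_TH (M : ℕ) {ε : ℝ} (h0 : 0 ≤ ε) (h1 : ε ≤ 1) (π : Strategy G) (n : ℕ)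
    (l : List (V × Bool)) : (stepE G ε π)^[n] (TH G d M) l ≤ TH G d M l + n * (2 * d) := by
  refine iterE_le hd hd2 h0 h1 π (stepE_le hd hd2 h0 h1 π (by positivity)
    (sum_TH hd hd2 M) ?_) n l
  intro e l z
  unfold TH
  rw [GG_false]
  simp_rw [fl_false, ZZ_false]
  have : (0 : ℝ) ≤ 2 * d := by positivity
  linarith

include hd hd2 in
lemma exp_GG (M : ℕ) {ε : ℝ} (h0 : 0 ≤ ε) (h1 : ε ≤ 1) (π : Strategy G) (v0 : V) (n : ℕ) {t : ℝ}
    (ht0 : 0 ≤ t) (ht : t * qq d ^ M ≤ 1) :
    (stepE G ε π)^[n] (GG G d M) [(v0, false)] ≤ n * (2 * d) +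
      qq d ^ M * (d : ℝ) ^ 2 * (Fintype.card V *
        Real.exp (-(t * d) + t ^ 2 * (qq d ^ M) ^ 2 * M)) := by
  have hq := one_le_qq hd2
  have hb : 0 < qq d ^ M := by positivity
  have hdpos : (0 : ℝ) < d := by
    have : 0 < d := by omega
    exact_mod_cast this
  have e1 : ∀ h, GG G d M h ≤ TH G d M h +
      (qq d ^ M * (d : ℝ) ^ 2) * ∑ u, fl G d M u h := by
    intro h
    unfold TH
    have h2 : ∑ u, fl G d M u h * (d * ZZ G M 1 (G.neighborFinset u) h - (d : ℝ) ^ 2) ≥
        ∑ u, fl G d M u h * (-(d : ℝ) ^ 2) := by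
      apply Finset.sum_le_sum
      intro u _
      apply mul_le_mul_of_nonneg_left _ (fl_nonneg M u h)
      have : 0 ≤ ZZ G M 1 (G.neighborFinset u) h :=
        Finset.sum_nonneg fun v _ => YY_nonneg le_rfl v h
      nlinarith
    rw [← Finset.sum_mul] at h2
    have h3 := mul_le_mul_of_nonneg_left h2 hb.le
    nlinarith
  have h2 := iterE_mono h0 h1 π e1 n [(v0, false)]
  rw [iterE_add, iterE_smul, iterE_sum] at h2
  have h3 := step_TH hd hd2 M h0 h1 π n [(v0, false)]
  have e2 : TH G d M [(v0, false)] ≤ 0 := by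
    unfold TH
    have a1 : GG G d M [(v0, false)] = 0 := by unfold GG; simp [st]
    rw [a1, zero_add]
    apply mul_nonpos_of_nonneg_of_nonpos hb.le
    apply Finset.sum_nonpos
    intro u _
    apply mul_nonpos_of_nonneg_of_nonpos (fl_nonneg M u _)
    have := mul_le_mul_of_nonneg_left (ZZ_one_le hd M u [(v0, false)]) hdpos.le
    nlinarith
  have h4 : ∑ u, (stepE G ε π)^[n] (fl G d M u) [(v0, false)] ≤
      Fintype.card V * Real.exp (-(t * d) + t ^ 2 * (qq d ^ M) ^ 2 * M) := by
    calc _ ≤ ∑ _u : V, Real.exp (-(t * d) + t ^ 2 * (qq d ^ M) ^ 2 * M) :=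
          Finset.sum_le_sum fun u _ => prob_flag hd hd2 ht0 ht u v0 h0 h1 π n
      _ = _ := by rw [Finset.sum_const, Finset.card_univ, nsmul_eq_mul]
  have h5 := mul_le_mul_of_nonneg_left h4
    (by positivity : 0 ≤ qq d ^ M * (d : ℝ) ^ 2)
  linarith

/-- number of controlled steps, plus one -/
def RR (h : List (V × Bool)) : ℝ := ((h.filter (fun e => e.2 = false)).length : ℝ)

include hd hd2 in
lemma step_RR {ε : ℝ} (h0 : 0 ≤ ε) (h1 : ε ≤ 1) (π : Strategy G) (n : ℕ)
    (l : List (V × Bool)) : (stepE G ε π)^[n] RR l ≤ RR l + n * ε := by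
  apply iterE_le hd hd2 h0 h1 π
  intro l
  rcases l with _ | ⟨e, l⟩
  · simp only [stepE]; linarith
  · rw [stepE_cons]
    have hdeg : (G.degree e.1 : ℝ) = d := by rw [hd e.1]
    have hdpos : (0 : ℝ) < d := by
      have : 0 < d := by omega
      exact_mod_cast this
    have a1 : ∀ y, RR ((y, true) :: e :: l) = RR (e :: l) := by
      intro y; unfold RR; simp
    have a2 : ∀ z, RR ((z, false) :: e :: l) = RR (e :: l) + 1 := by
      intro z; unfold RR; simp
    simp_rw [a1, a2]
    rw [Finset.sum_const, SimpleGraph.card_neighborFinset_eq_degree, nsmul_eq_mul, hdeg]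
    field_simp
    linarith

lemma RR_nonneg (h : List (V × Bool)) : 0 ≤ RR h := Nat.cast_nonneg _

/-- valid histories -/
def Vld (G : SimpleGraph V) (h : List (V × Bool)) : Prop :=
  h.IsChain (fun a b => G.Adj b.1 a.1) ∧ ∃ (v0 : V) (l' : List (V × Bool)), h = l' ++ [(v0, false)]

lemma Vld_cons {e a : V × Bool} {l : List (V × Bool)} (h : Vld G (e :: l)) (ha : G.Adj e.1 a.1) :
    Vld G (a :: e :: l) := by
  obtain ⟨h1, v0, l', h2⟩ := h
  refine ⟨List.isChain_cons_cons.2 ⟨ha, h1⟩, v0, a :: l', ?_⟩
  rw [h2]; rfl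

lemma stepE_mono_valid {ε : ℝ} (h0 : 0 ≤ ε) (h1 : ε ≤ 1) (π : Strategy G)
    {f g : List (V × Bool) → ℝ} (h : ∀ l, Vld G l → f l ≤ g l) (l : List (V × Bool))
    (hl : Vld G l) : stepE G ε π f l ≤ stepE G ε π g l := by
  rcases l with _ | ⟨e, l⟩
  · exact h [] hl
  · rw [stepE_cons, stepE_cons]
    apply add_le_add
    · apply mul_le_mul_of_nonneg_left _ (by linarith)
      apply div_le_div_of_nonneg_right _ (Nat.cast_nonneg _)
      apply Finset.sum_le_sum
      intro y hy
      rw [SimpleGraph.mem_neighborFinset] at hy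
      exact h _ (Vld_cons hl hy)
    · apply mul_le_mul_of_nonneg_left _ h0
      apply h
      exact Vld_cons hl (π.adj _ _)

lemma iterE_mono_valid {ε : ℝ} (h0 : 0 ≤ ε) (h1 : ε ≤ 1) (π : Strategy G)
    {f g : List (V × Bool) → ℝ} (h : ∀ l, Vld G l → f l ≤ g l) (n : ℕ) (l : List (V × Bool))
    (hl : Vld G l) : (stepE G ε π)^[n] f l ≤ (stepE G ε π)^[n] g l := by
  induction n generalizing l with
  | zero => exact h l hl
  | succ n ih =>
    rw [Function.iterate_succ_apply', Function.iterate_succ_apply']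
    exact stepE_mono_valid h0 h1 π ih l hl

/-- an active visited vertex was visited by a controlled step (or is the start) -/
lemma act_visited {M : ℕ} {v : V} (v0 : V) (l' : List (V × Bool)) : ∀ (h : List (V × Bool)),
    h = l' ++ [(v0, false)] → h.IsChain (fun a b => G.Adj b.1 a.1) → v ∈ h.map Prod.fst →
    act G M v h → v ∈ (h.filter (fun e => e.2 = false)).map Prod.fst := by
  induction l' with
  | nil =>
    intro h hh _ hv _
    subst hh
    simpa using hv
  | cons a l' ih =>
    intro h hh hc hv ha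
    rcases hl : l' ++ [(v0, false)] with _ | ⟨e', l⟩
    · simp at hl
    · rw [List.cons_append, hl] at hh
      subst hh
      have hc' := List.isChain_cons_cons.1 hc
      have ih' := ih (e' :: l) hl.symm hc'.2
      rcases a with ⟨y, b⟩
      rw [List.map_cons, List.mem_cons] at hv
      cases b
      · -- controlled step
        have ha' : act G M v (e' :: l) := by
          unfold act at ha ⊢
          rwa [st_false] at ha
        rw [List.filter_cons_of_pos (by simp), List.map_cons, List.mem_cons]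
        rcases hv with hv | hv
        · exact Or.inl hv
        · exact Or.inr (ih' hv ha')
      · -- random step
        have hnot : v ∈ AA G M (e' :: l) → y ≠ v := by
          intro hA hyv
          unfold act at ha
          rw [st_mem hA] at ha
          simp [hyv] at ha
        have ha' : act G M v (e' :: l) := by
          by_cases hA : v ∈ AA G M (e' :: l)
          · exact (mem_AA.1 hA).2
          · unfold act at ha ⊢
            rwa [st_not_mem hA] at ha
        rw [List.filter_cons_of_neg (by simp)]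
        rcases hv with hv | hv
        · exfalso
          have hv' : v = y := hv
          exact hnot (mem_AA.2 ⟨by rw [hv']; exact hc'.1, ha'⟩) hv'.symm
        · exact ih' hv ha'

include hd2 in
/-- the key deterministic inequality on valid histories -/
lemma key_ineq (M : ℕ) (h : List (V × Bool)) (hv : Vld G h) :
    (M : ℝ) * FF G d M h ≤ GG G d M h + (M * qq d ^ M) * RR h +
      (M : ℝ) * (Fintype.card V * notCov (h.map Prod.fst) +
        ((1 / Fintype.card V : ℝ) * (FF G d M h - Fintype.card V) ^ 2 +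
        Fintype.card V / 4)) := by
  have hq := one_le_qq hd2
  obtain ⟨hc, v0, l', hh⟩ := hv
  have hn : (0 : ℝ) < Fintype.card V := by
    have : 0 < Fintype.card V := Fintype.card_pos_iff.2 ⟨v0⟩
    exact_mod_cast this
  have hM : (0 : ℝ) ≤ M := Nat.cast_nonneg _
  have hG : 0 ≤ GG G d M h :=
    Finset.sum_nonneg fun v _ => mul_nonneg (YY_nonneg hq v h) (Nat.cast_nonneg _)
  have hR := RR_nonneg h
  have ham : FF G d M h - Fintype.card V ≤ (1 / Fintype.card V : ℝ) *
      (FF G d M h - Fintype.card V) ^ 2 + Fintype.card V / 4 := by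
    have : 0 ≤ (1 / Fintype.card V : ℝ) *
        (FF G d M h - Fintype.card V - Fintype.card V / 2) ^ 2 := by positivity
    have e : (1 / Fintype.card V : ℝ) *
        (FF G d M h - Fintype.card V - Fintype.card V / 2) ^ 2 =
        (1 / Fintype.card V : ℝ) * (FF G d M h - Fintype.card V) ^ 2 -
        (FF G d M h - Fintype.card V) + Fintype.card V / 4 := by
      field_simp
      ring
    linarith
  by_cases hcov : ∀ u, u ∈ h.map Prod.fst
  · have e1 : notCov (h.map Prod.fst) = 0 := by unfold notCov; rw [if_pos hcov]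
    rw [e1, mul_zero, zero_add]
    have h2 : (0 : ℝ) ≤ (M : ℝ) * ((1 / Fintype.card V : ℝ) * (FF G d M h - Fintype.card V) ^ 2 +
        Fintype.card V / 4) := by positivity
    have h3 : (M : ℝ) * FF G d M h ≤ GG G d M h + (M * qq d ^ M) * RR h := by
      -- the active vertices
      have h4 : ∀ v, (M : ℝ) * YY G M (qq d) v h ≤ YY G M (qq d) v h * ((st G M v h).1 : ℝ) +
          (if act G M v h then M * qq d ^ M else 0) := by
        intro v
        by_cases ha : act G M v h
        · rw [if_pos ha]
          have a1 := mul_le_mul_of_nonneg_left (YY_le (G := G) (M := M) hq v h) hM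
          have a2 := mul_nonneg (YY_nonneg (G := G) (M := M) hq v h)
            (Nat.cast_nonneg (α := ℝ) (st G M v h).1)
          linarith
        · rw [if_neg ha, add_zero]
          by_cases h5 : (st G M v h).2 = true
          · have h6 : (st G M v h).1 = M := by
              have := cnt_le (G := G) M v h
              unfold act at ha
              push Not at ha
              have := ha h5
              omega
            rw [h6]
            apply le_of_eq; ring
          · unfold YY
            rw [if_neg h5]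
            simp
      have h5 := Finset.sum_le_sum fun v (_ : v ∈ (univ : Finset V)) => h4 v
      rw [← Finset.mul_sum, Finset.sum_add_distrib, ← Finset.sum_filter, Finset.sum_const,
        nsmul_eq_mul] at h5
      have h6 : ((univ.filter (fun v => act G M v h)).card : ℝ) ≤ RR h := by
        unfold RR
        have h7 : univ.filter (fun v => act G M v h) ⊆
            ((h.filter (fun e => e.2 = false)).map Prod.fst).toFinset := by
          intro v hv
          rw [List.mem_toFinset]
          exact act_visited v0 l' h hh hc (hcov v) (Finset.mem_filter.1 hv).2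
        have h8 := (Finset.card_le_card h7).trans (List.toFinset_card_le _)
        rw [List.length_map] at h8
        exact_mod_cast h8
      have h7 := mul_le_mul_of_nonneg_right h6 (by positivity : 0 ≤ (M : ℝ) * qq d ^ M)
      unfold FF ZZ GG
      linarith
    linarith
  · have e1 : notCov (h.map Prod.fst) = 1 := by unfold notCov; rw [if_neg hcov]
    rw [e1, mul_one]
    have h2 := mul_le_mul_of_nonneg_left ham hM
    have h3 : 0 ≤ (M * qq d ^ M) * RR h := by positivity
    nlinarith

include hd hd2 in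
/-- the main inequality -/
lemma main_ineq (M : ℕ) {ε : ℝ} (h0 : 0 ≤ ε) (h1 : ε ≤ 1) (π : Strategy G) (v0 : V) (n : ℕ)
    {t : ℝ} (ht0 : 0 ≤ t) (ht : t * qq d ^ M ≤ 1) :
    (M : ℝ) * Fintype.card V ≤ n * (2 * d) +
      qq d ^ M * (d : ℝ) ^ 2 * (Fintype.card V *
        Real.exp (-(t * d) + t ^ 2 * (qq d ^ M) ^ 2 * M)) +
      (M * qq d ^ M) * (1 + n * ε) +
      (M : ℝ) * (Fintype.card V * tailProb G ε π v0 n +
        ((1 / Fintype.card V : ℝ) * (n * (qq d ^ M) ^ 2) + Fintype.card V / 4)) := by
  have hq := one_le_qq hd2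
  have hn : (0 : ℝ) < Fintype.card V := by
    have : 0 < Fintype.card V := Fintype.card_pos_iff.2 ⟨v0⟩
    exact_mod_cast this
  have hM : (0 : ℝ) ≤ M := Nat.cast_nonneg _
  have hv : Vld G [(v0, false)] := ⟨by simp, v0, [], rfl⟩
  have k1 := iterE_mono_valid h0 h1 π (key_ineq hd2 M) n [(v0, false)] hv
  -- expand the right hand side
  have e1 : (stepE G ε π)^[n] (fun h => GG G d M h + (M * qq d ^ M) * RR h +
      (M : ℝ) * (Fintype.card V * notCov (h.map Prod.fst) +
        ((1 / Fintype.card V : ℝ) * (FF G d M h - Fintype.card V) ^ 2 +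
        Fintype.card V / 4))) [(v0, false)] =
      (stepE G ε π)^[n] (GG G d M) [(v0, false)] +
      (M * qq d ^ M) * (stepE G ε π)^[n] RR [(v0, false)] +
      (M : ℝ) * (Fintype.card V * tailProb G ε π v0 n +
        ((1 / Fintype.card V : ℝ) * (stepE G ε π)^[n]
          (fun h => (FF G d M h - Fintype.card V) ^ 2) [(v0, false)] + Fintype.card V / 4)) := by
    rw [iterE_add, iterE_add, iterE_smul, iterE_smul, iterE_add, iterE_smul, iterE_add,
      iterE_smul, iterE_const hd hd2, iterE_map]
    rfl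
  rw [e1] at k1
  -- left hand side
  have k2 : (M : ℝ) * Fintype.card V ≤
      (stepE G ε π)^[n] (fun h => (M : ℝ) * FF G d M h) [(v0, false)] := by
    have h2 := step_F hd hd2 M h0 h1 π (-1) n [(v0, false)]
    have h3 : FF G d M [(v0, false)] = Fintype.card V := by
      unfold FF ZZ YY
      simp [st]
    rw [iterE_smul, h3] at h2
    rw [iterE_smul]
    apply mul_le_mul_of_nonneg_left _ hM
    linarith
  have k3 := exp_GG hd hd2 M h0 h1 π v0 n ht0 ht
  have k4 := step_RR hd hd2 h0 h1 π n [(v0, false)]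
  have k5 : RR [(v0, false)] = 1 := by unfold RR; simp
  rw [k5] at k4
  have k6 := step_F2 hd hd2 M h0 h1 π (Fintype.card V) n [(v0, false)]
  have k7 : FF G d M [(v0, false)] = Fintype.card V := by
    unfold FF ZZ YY
    simp [st]
  rw [k7, sub_self, zero_pow (by norm_num), zero_add] at k6
  have k8 := mul_le_mul_of_nonneg_left k4 (by positivity : 0 ≤ (M : ℝ) * qq d ^ M)
  have k9 := mul_le_mul_of_nonneg_left k6 (by positivity : (0 : ℝ) ≤ 1 / Fintype.card V)
  have k10 := mul_le_mul_of_nonneg_left k9 hM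
  linarith

end R986.BW
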