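import Mathlib

/-!
# Support-preserving multiplicative maps on nonnegative Laurent polynomials

`Γ` is an abelian group with a positive cone `pos`, `A` its group algebra over the reals, and
`Ψ` a map on `A` which on nonnegative nonzero elements is multiplicative and preserves supports.
-/

set_option autoImplicit false

namespace Pool.Agent.R986.Boltz

open AddMonoidAlgebra

variable {Γ : Type*} [AddCommGroup Γ]

/-- nonnegative and nonzero -/
def NN (P : AddMonoidAlgebra ℝ Γ) : Prop := (∀ x, 0 ≤ P.coeff x) ∧ P ≠ 0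

/-- `X` is supported in the set `S` -/
def SIn (X : AddMonoidAlgebra ℝ Γ) (S : Γ → Prop) : Prop := ∀ a, X.coeff a ≠ 0 → S a

theorem SIn.mono {X : AddMonoidAlgebra ℝ Γ} {S T : Γ → Prop} (h : SIn X S) (hST : ∀ a, S a → T a) :
    SIn X T := fun a ha => hST a (h a ha)

theorem SIn.add {X Y : AddMonoidAlgebra ℝ Γ} {S : Γ → Prop} (hX : SIn X S) (hY : SIn Y S) :
    SIn (X + Y) S := by
  intro a ha
  by_contra hS
  have h1 : X.coeff a = 0 := by
    by_contra h; exact hS (hX a h)
  have h2 : Y.coeff a = 0 := by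
    by_contra h; exact hS (hY a h)
  apply ha
  rw [coeff_add, Finsupp.add_apply, h1, h2, add_zero]

theorem SIn.mul {X Y : AddMonoidAlgebra ℝ Γ} {S T : Γ → Prop} (hX : SIn X S) (hY : SIn Y T) :
    SIn (X * Y) (fun a => ∃ x y, S x ∧ T y ∧ x + y = a) := by
  intro a ha
  rw [coeff_mul_apply_left, Finsupp.sum] at ha
  obtain ⟨x, hx, hxy⟩ := Finset.exists_ne_zero_of_sum_ne_zero ha
  exact ⟨x, -x + a, hX x (left_ne_zero_of_mul hxy), hY _ (right_ne_zero_of_mul hxy), by abel⟩

theorem sg_self (v : Γ) (c : ℝ) : (single v c).coeff v = c := by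
  rw [coeff_single, Finsupp.single_eq_same]

theorem sg_ne (v x : Γ) (c : ℝ) (h : x ≠ v) : (single v c).coeff x = 0 := by
  rw [coeff_single, Finsupp.single_eq_of_ne h]

theorem SIn.single (v : Γ) (c : ℝ) : SIn (single v c) (fun a => a = v) := by
  intro a ha
  by_contra h
  exact ha (sg_ne v a c h)

theorem coeff_mul_eq (X Y : AddMonoidAlgebra ℝ Γ) (x y : Γ)
    (h : ∀ a b, X.coeff a ≠ 0 → Y.coeff b ≠ 0 → a + b = x + y → a = x) :
    (X * Y).coeff (x + y) = X.coeff x * Y.coeff y := by
  rw [coeff_mul_apply_left, Finsupp.sum_eq_single x]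
  · congr 2; abel
  · intro a ha hax
    by_contra hne
    exact hax (h a (-a + (x + y)) ha (right_ne_zero_of_mul hne) (by abel))
  · intro h0
    rw [zero_mul]

variable (pos : Γ → Prop)

/-- the axioms of a positive cone -/
structure Cone : Prop where
  zero : ¬ pos 0
  add : ∀ a b, pos a → pos b → pos (a + b)
  total : ∀ a, a ≠ 0 → pos a ∨ pos (-a)

variable {pos}

theorem Cone.neg (hc : Cone pos) {a : Γ} (ha : pos a) : ¬ pos (-a) := by
  intro h
  apply hc.zero
  have := hc.add a (-a) ha h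
  rwa [add_neg_cancel] at this

theorem Cone.ne (hc : Cone pos) {a : Γ} (ha : pos a) : a ≠ 0 := by
  rintro rfl
  exact hc.zero ha

/-- zero or positive -/
def P0 (pos : Γ → Prop) (a : Γ) : Prop := a = 0 ∨ pos a

theorem Cone.coeff_zero_mul (hc : Cone pos) (X Y : AddMonoidAlgebra ℝ Γ) (hX : SIn X (P0 pos))
    (hY : SIn Y (P0 pos)) : (X * Y).coeff 0 = X.coeff 0 * Y.coeff 0 := by
  have := coeff_mul_eq X Y 0 0 (by
    intro a b ha hb hab
    rw [add_zero] at hab
    rcases hX a ha with h | h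
    · exact h
    · exfalso
      have hb' : b = -a := by rw [eq_neg_iff_add_eq_zero, add_comm]; exact hab
      rcases hY b hb with h2 | h2
      · rw [h2] at hab
        rw [add_zero] at hab
        exact hc.ne h hab
      · rw [hb'] at h2
        exact hc.neg h h2)
  rwa [add_zero] at this

/-- If `Y` is `1` up to terms larger than `v`, then the coefficient of a product at `v` is
simple. -/
theorem Cone.coeff_mul_left (hc : Cone pos) (X Y : AddMonoidAlgebra ℝ Γ) (v : Γ)
    (hX : SIn X (P0 pos)) (hY : SIn Y (fun a => a = 0 ∨ pos (a - v))) :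
    (X * Y).coeff v = X.coeff v * Y.coeff 0 := by
  have := coeff_mul_eq X Y v 0 (by
    intro a b ha hb hab
    rw [add_zero] at hab
    rcases hY b hb with h | h
    · rw [h, add_zero] at hab
      exact hab
    · exfalso
      have ha' : a = -(b - v) := by rw [← hab]; abel
      rcases hX a ha with h2 | h2
      · rw [h2, eq_comm, neg_eq_zero] at ha'
        exact hc.ne h ha'
      · rw [ha'] at h2
        exact hc.neg h h2)
  rwa [add_zero] at this

/-- multiplication by `q₀ + q_v z^v` -/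
theorem coeff_mul_q (X : AddMonoidAlgebra ℝ Γ) (Y : AddMonoidAlgebra ℝ Γ) (v : Γ) (hv : v ≠ 0)
    (hY : SIn Y (fun a => a = 0 ∨ a = v)) :
    (X * Y).coeff v = X.coeff v * Y.coeff 0 + X.coeff 0 * Y.coeff v := by
  have hYe : Y = single 0 (Y.coeff 0) + single v (Y.coeff v) := by
    ext a
    rw [coeff_add, Finsupp.add_apply]
    by_cases h0 : a = 0
    · rw [h0, sg_self, sg_ne _ _ _ hv.symm, add_zero]
    · by_cases h1 : a = v
      · rw [h1, sg_self, sg_ne _ _ _ hv, zero_add]
      · rw [sg_ne _ _ _ h0, sg_ne _ _ _ h1, add_zero]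
        by_contra hne
        rcases hY a hne with h | h
        · exact h0 h
        · exact h1 h
  conv_lhs => rw [hYe]
  rw [mul_add, coeff_add, Finsupp.add_apply, coeff_mul_single_apply, coeff_mul_single_apply]
  simp

/-! ### The key lemma -/

/-- the assumptions on the map -/
structure Good (Ψ : AddMonoidAlgebra ℝ Γ → AddMonoidAlgebra ℝ Γ) : Prop where
  mul : ∀ P Q, NN P → NN Q → Ψ (P * Q) = Ψ P * Ψ Q
  pos_iff : ∀ P, NN P → ∀ x, P.coeff x ≠ 0 → 0 < (Ψ P).coeff x
  zero : ∀ P, NN P → ∀ x, P.coeff x = 0 → (Ψ P).coeff x = 0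

theorem Good.sin {Ψ : AddMonoidAlgebra ℝ Γ → AddMonoidAlgebra ℝ Γ} (hΨ : Good Ψ)
    {P : AddMonoidAlgebra ℝ Γ} (hP : NN P) {S : Γ → Prop} (h : SIn P S) : SIn (Ψ P) S := by
  intro a ha
  apply h a
  intro h0
  exact ha (hΨ.zero P hP a h0)

/-- the binomial `1 + c z^v` -/
noncomputable def bin (v : Γ) (c : ℝ) : AddMonoidAlgebra ℝ Γ := single 0 1 + single v c

theorem bin_eq (v : Γ) (c : ℝ) : bin v c = 1 + single v c := rfl

theorem bin_coeff_zero (v : Γ) (hv : v ≠ 0) (c : ℝ) : (bin v c).coeff 0 = 1 := by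
  unfold bin
  rw [coeff_add, Finsupp.add_apply, sg_self, sg_ne _ _ _ hv.symm, add_zero]

theorem bin_coeff_self (v : Γ) (hv : v ≠ 0) (c : ℝ) : (bin v c).coeff v = c := by
  unfold bin
  rw [coeff_add, Finsupp.add_apply, sg_self, sg_ne _ _ _ hv, zero_add]

theorem bin_coeff_ne (v : Γ) (c : ℝ) (x : Γ) (h0 : x ≠ 0) (hv : x ≠ v) :
    (bin v c).coeff x = 0 := by
  unfold bin
  rw [coeff_add, Finsupp.add_apply, sg_ne _ _ _ h0, sg_ne _ _ _ hv, add_zero]

theorem bin_sin (v : Γ) (c : ℝ) : SIn (bin v c) (fun a => a = 0 ∨ a = v) := by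
  intro a ha
  by_contra h
  push Not at h
  exact ha (bin_coeff_ne v c a h.1 h.2)

theorem nn_of_coeff {P : AddMonoidAlgebra ℝ Γ} (h : ∀ x, 0 ≤ P.coeff x) (x : Γ)
    (hx : P.coeff x ≠ 0) : NN P := ⟨h, by rintro rfl; simp at hx⟩

theorem bin_nn (v : Γ) (hv : v ≠ 0) (c : ℝ) (hc : 0 < c) : NN (bin v c) := by
  apply nn_of_coeff _ v (by rw [bin_coeff_self v hv]; exact hc.ne')
  intro x
  by_cases h0 : x = 0
  · rw [h0, bin_coeff_zero v hv]; exact zero_le_one
  · by_cases h1 : x = v
    · rw [h1, bin_coeff_self v hv]; exact hc.le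
    · rw [bin_coeff_ne v c x h0 h1]

theorem nn_mul {P Q : AddMonoidAlgebra ℝ Γ} (hP : NN P) (hQ : ∀ x, 0 ≤ Q.coeff x) :
    ∀ x, 0 ≤ (P * Q).coeff x := by
  intro x
  rw [coeff_mul_apply_left]
  exact Finset.sum_nonneg fun a _ => mul_nonneg (hP.1 a) (hQ _)

/-- The key lemma: the ratio of the coefficients of `Ψ P` at `v` and at the lowest point `0` only
depends on the ratio of the coefficients of `P`. -/
theorem Cone.key (hc : Cone pos) {Ψ : AddMonoidAlgebra ℝ Γ → AddMonoidAlgebra ℝ Γ} (hΨ : Good Ψ)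
    {P : AddMonoidAlgebra ℝ Γ} (hP : NN P) (hS : SIn P (P0 pos)) (h0 : P.coeff 0 ≠ 0) (v : Γ)
    (hv : pos v) (hPv : P.coeff v ≠ 0) :
    (Ψ P).coeff v * (Ψ (bin v (P.coeff v / P.coeff 0))).coeff 0 =
      (Ψ P).coeff 0 * (Ψ (bin v (P.coeff v / P.coeff 0))).coeff v := by
  have hv0 : v ≠ 0 := hc.ne hv
  have hp0 : 0 < P.coeff 0 := lt_of_le_of_ne (hP.1 0) (Ne.symm h0)
  have hpv : 0 < P.coeff v := lt_of_le_of_ne (hP.1 v) (Ne.symm hPv)
  set p := P.coeff 0 with hp
  set w := P.coeff v with hw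
  set c := w / p with hcdef
  have hc0 : 0 < c := div_pos hpv hp0
  -- the remaining part of `P`
  set R : AddMonoidAlgebra ℝ Γ := P - single 0 p with hR
  have hRc : ∀ x, x ≠ 0 → R.coeff x = P.coeff x := by
    intro x hx
    rw [hR, coeff_sub, Finsupp.sub_apply, sg_ne _ _ _ hx, sub_zero]
  have hR0 : R.coeff 0 = 0 := by
    rw [hR, coeff_sub, Finsupp.sub_apply, sg_self, ← hp, sub_self]
  have hRnn : ∀ x, 0 ≤ R.coeff x := by
    intro x
    by_cases hx : x = 0
    · rw [hx, hR0]
    · rw [hRc x hx]; exact hP.1 x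
  have hRS : SIn R pos := by
    intro a ha
    have ha0 : a ≠ 0 := by rintro rfl; exact ha hR0
    rw [hRc a ha0] at ha
    exact (hS a ha).resolve_left ha0
  have hRv : R.coeff v = w := hRc v hv0
  have hRNN : NN R := nn_of_coeff hRnn v (by rw [hRv]; exact hPv)
  set i : ℝ := p⁻¹ with hi
  -- the two products
  set T : AddMonoidAlgebra ℝ Γ := single (v + v) (c ^ 2) * P + single v (c * i) * (R * R) with hT
  set F : AddMonoidAlgebra ℝ Γ := (P - single v w) + T with hF
  set U : AddMonoidAlgebra ℝ Γ := single (v + v + v) (c ^ 3) +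
    (single v (c * i) + single (v + v) (c ^ 2 * i)) * R with hU
  set F' : AddMonoidAlgebra ℝ Γ := single 0 1 + U with hF'
  have hnn_single : ∀ (a : Γ) (t : ℝ), 0 ≤ t → ∀ x, 0 ≤ (single a t : AddMonoidAlgebra ℝ Γ).coeff x := by
    intro a t ht x
    by_cases hx : x = a
    · rw [hx, sg_self]; exact ht
    · rw [sg_ne _ _ _ hx]
  have hNNs : ∀ (a : Γ) (t : ℝ), 0 < t → NN (single a t : AddMonoidAlgebra ℝ Γ) := fun a t ht =>
    nn_of_coeff (hnn_single a t ht.le) a (by rw [sg_self]; exact ht.ne')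
  have hci : 0 < c * i := mul_pos hc0 (inv_pos.2 hp0)
  have hTnn : ∀ x, 0 ≤ T.coeff x := by
    intro x
    rw [hT, coeff_add, Finsupp.add_apply]
    exact add_nonneg (nn_mul (hNNs _ _ (by positivity)) hP.1 x)
      (nn_mul (hNNs _ _ hci) (nn_mul hRNN hRnn) x)
  have hUnn : ∀ x, 0 ≤ U.coeff x := by
    intro x
    rw [hU, coeff_add, Finsupp.add_apply]
    refine add_nonneg (hnn_single _ _ (by positivity) x) ?_
    have h2 : NN (single v (c * i) + single (v + v) (c ^ 2 * i) : AddMonoidAlgebra ℝ Γ) := by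
      refine nn_of_coeff ?_ v ?_
      · intro x
        rw [coeff_add, Finsupp.add_apply]
        exact add_nonneg (hnn_single _ _ hci.le x) (hnn_single _ _ (by positivity) x)
      · rw [coeff_add, Finsupp.add_apply, sg_self, sg_ne _ _ _ (by
          intro h
          apply hv0
          have : v + v = v + 0 := by rw [add_zero]; exact h.symm
          exact add_left_cancel this), add_zero]
        exact hci.ne'
    exact nn_mul h2 hRnn x
  have hTS : SIn T (fun a => pos (a - v)) := by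
    apply SIn.add
    · refine (SIn.mul (SIn.single _ _) hS).mono ?_
      rintro a ⟨x, y, rfl, hy, rfl⟩
      have : v + v + y - v = v + y := by abel
      rw [this]
      rcases hy with rfl | hy
      · rwa [add_zero]
      · exact hc.add _ _ hv hy
    · refine (SIn.mul (SIn.single _ _) (SIn.mul hRS hRS)).mono ?_
      rintro a ⟨x, y, rfl, ⟨y1, y2, h1, h2, rfl⟩, rfl⟩
      have : x + (y1 + y2) - x = y1 + y2 := by abel
      rw [this]
      exact hc.add _ _ h1 h2
  have hUS : SIn U (fun a => pos (a - v)) := by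
    apply SIn.add
    · refine (SIn.single _ _).mono ?_
      rintro a rfl
      have : v + v + v - v = v + v := by abel
      rw [this]
      exact hc.add _ _ hv hv
    · have h1 : SIn (single v (c * i) + single (v + v) (c ^ 2 * i) : AddMonoidAlgebra ℝ Γ)
          (fun a => a = v ∨ a = v + v) :=
        SIn.add ((SIn.single _ _).mono fun a ha => Or.inl ha)
          ((SIn.single _ _).mono fun a ha => Or.inr ha)
      refine (SIn.mul h1 hRS).mono ?_
      rintro a ⟨x, y, hx, hy, rfl⟩
      rcases hx with rfl | rfl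
      · have : x + y - x = y := by abel
        rw [this]; exact hy
      · have : v + v + y - v = v + y := by abel
        rw [this]; exact hc.add _ _ hv hy
  have hcone_v : ∀ a, pos (a - v) → P0 pos a := by
    intro a ha
    right
    have := hc.add _ _ ha hv
    rwa [sub_add_cancel] at this
  have hnv : ¬ pos (v - v) := by rw [sub_self]; exact hc.zero
  have hn0 : ¬ pos (0 - v) := by rw [zero_sub]; exact hc.neg hv
  have hTv : T.coeff v = 0 := by
    by_contra h; exact hnv (hTS v h)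
  have hT0 : T.coeff 0 = 0 := by
    by_contra h; exact hn0 (hTS 0 h)
  have hU0 : U.coeff 0 = 0 := by
    by_contra h; exact hn0 (hUS 0 h)
  have hFnn : ∀ x, 0 ≤ F.coeff x := by
    intro x
    rw [hF, coeff_add, Finsupp.add_apply, coeff_sub, Finsupp.sub_apply]
    refine add_nonneg ?_ (hTnn x)
    by_cases hx : x = v
    · rw [hx, sg_self, ← hw, sub_self]
    · rw [sg_ne _ _ _ hx, sub_zero]; exact hP.1 x
  have hF0 : F.coeff 0 = p := by
    rw [hF, coeff_add, Finsupp.add_apply, coeff_sub, Finsupp.sub_apply, hT0,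
      sg_ne _ _ _ hv0.symm, sub_zero, add_zero]
  have hFv : F.coeff v = 0 := by
    rw [hF, coeff_add, Finsupp.add_apply, coeff_sub, Finsupp.sub_apply, hTv, sg_self, ← hw,
      sub_self, add_zero]
  have hFNN : NN F := nn_of_coeff hFnn 0 (by rw [hF0]; exact h0)
  have hF'0 : F'.coeff 0 = 1 := by
    rw [hF', coeff_add, Finsupp.add_apply, sg_self, hU0, add_zero]
  have hF'NN : NN F' := by
    refine nn_of_coeff ?_ 0 ?_
    · intro x
      rw [hF', coeff_add, Finsupp.add_apply]
      exact add_nonneg (hnn_single _ _ zero_le_one x) (hUnn x)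
    · rw [hF'0]; exact one_ne_zero
  have hFS : SIn F (P0 pos) := by
    apply SIn.add
    · intro a ha
      rw [coeff_sub, Finsupp.sub_apply] at ha
      by_cases hav : a = v
      · right; rw [hav]; exact hv
      · rw [sg_ne _ _ _ hav, sub_zero] at ha
        exact hS a ha
    · exact hTS.mono hcone_v
  have hF'S : SIn F' (fun a => a = 0 ∨ pos (a - v)) :=
    SIn.add ((SIn.single _ _).mono fun a ha => Or.inl ha) (hUS.mono fun a ha => Or.inr ha)
  have hF'S' : SIn F' (P0 pos) := hF'S.mono fun a ha => ha.elim Or.inl (hcone_v a)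
  have hqNN := bin_nn v hv0 c hc0
  have hqS : SIn (bin v c) (P0 pos) := (bin_sin v c).mono fun a ha =>
    ha.elim Or.inl (fun h => Or.inr (by rw [h]; exact hv))
  -- the identity
  have hid : F * bin v c = P * F' := by
    have e1 : P = single 0 p + R := by rw [hR]; abel
    have e2 : single (v + v) (c ^ 2) = (single v c : AddMonoidAlgebra ℝ Γ) * single v c := by
      rw [single_mul_single]; congr 1; ring
    have e3 : single (v + v + v) (c ^ 3) =
        (single v c : AddMonoidAlgebra ℝ Γ) * single v c * single v c := by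
      rw [single_mul_single, single_mul_single]; congr 1; ring
    have e4 : single v (c * i) = (single v c : AddMonoidAlgebra ℝ Γ) * single 0 i := by
      rw [single_mul_single, add_zero]
    have e5 : single (v + v) (c ^ 2 * i) =
        (single v c : AddMonoidAlgebra ℝ Γ) * single v c * single 0 i := by
      rw [single_mul_single, single_mul_single, add_zero]; congr 1; ring
    have e6 : single v w = (single v c : AddMonoidAlgebra ℝ Γ) * single 0 p := by
      rw [single_mul_single, add_zero, hcdef, div_mul_cancel₀ _ h0]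
    have e7 : (single 0 p : AddMonoidAlgebra ℝ Γ) * single 0 i = 1 := by
      rw [single_mul_single, add_zero, hi, mul_inv_cancel₀ h0]; rfl
    have e8 : (single 0 1 : AddMonoidAlgebra ℝ Γ) = 1 := rfl
    rw [hF, hT, hF', hU, bin_eq, e2, e3, e4, e5, e6, e8]
    generalize (single v c : AddMonoidAlgebra ℝ Γ) = z at *
    rw [e1]
    generalize R = r at *
    generalize (single 0 p : AddMonoidAlgebra ℝ Γ) = q at *
    generalize (single 0 i : AddMonoidAlgebra ℝ Γ) = j at *
    linear_combination (-(z * r * (1 + z))) * e7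
  have hmul : Ψ F * Ψ (bin v c) = Ψ P * Ψ F' := by
    rw [← hΨ.mul F _ hFNN hqNN, ← hΨ.mul P _ hP hF'NN, hid]
  have E0 := congrArg (fun X : AddMonoidAlgebra ℝ Γ => X.coeff 0) hmul
  have Ev := congrArg (fun X : AddMonoidAlgebra ℝ Γ => X.coeff v) hmul
  beta_reduce at E0 Ev
  rw [hc.coeff_zero_mul _ _ (hΨ.sin hFNN hFS) (hΨ.sin hqNN hqS),
    hc.coeff_zero_mul _ _ (hΨ.sin hP hS) (hΨ.sin hF'NN hF'S')] at E0
  rw [coeff_mul_q _ _ v hv0 (hΨ.sin hqNN (bin_sin v c)),
    hc.coeff_mul_left _ _ v (hΨ.sin hP hS) (hΨ.sin hF'NN hF'S), hΨ.zero F hFNN v hFv,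
    zero_mul, zero_add] at Ev
  have hF'p : 0 < (Ψ F').coeff 0 := hΨ.pos_iff F' hF'NN 0 (by rw [hF'0]; exact one_ne_zero)
  apply mul_right_cancel₀ hF'p.ne'
  calc (Ψ P).coeff v * (Ψ (bin v c)).coeff 0 * (Ψ F').coeff 0
      = ((Ψ P).coeff v * (Ψ F').coeff 0) * (Ψ (bin v c)).coeff 0 := by ring
    _ = ((Ψ F).coeff 0 * (Ψ (bin v c)).coeff v) * (Ψ (bin v c)).coeff 0 := by rw [Ev]
    _ = ((Ψ F).coeff 0 * (Ψ (bin v c)).coeff 0) * (Ψ (bin v c)).coeff v := by ring
    _ = ((Ψ P).coeff 0 * (Ψ F').coeff 0) * (Ψ (bin v c)).coeff v := by rw [E0]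
    _ = (Ψ P).coeff 0 * (Ψ (bin v c)).coeff v * (Ψ F').coeff 0 := by ring

end Pool.Agent.R986.Boltz
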