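import Pool.Agent.R986.Boltz

/-!
# Support-preserving multiplicative maps: the ratios are given by a character
-/

set_option autoImplicit false

namespace Pool.Agent.R986.Boltz

open AddMonoidAlgebra

/-- A positive additive function on the positive reals is linear. -/
theorem additive_linear (f : ℝ → ℝ) (hpos : ∀ c, 0 < c → 0 < f c)
    (hadd : ∀ a b, 0 < a → 0 < b → f (a + b) = f a + f b) (c : ℝ) (hc : 0 < c) :
    f c = c * f 1 := by
  have hmono : ∀ a b, 0 < a → a < b → f a < f b := by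
    intro a b ha hab
    have := hadd a (b - a) ha (by linarith)
    rw [add_sub_cancel] at this
    rw [this]
    linarith [hpos (b - a) (by linarith)]
  have hnat : ∀ (n : ℕ) (x : ℝ), 0 < x → f ((n + 1 : ℕ) * x) = (n + 1 : ℕ) * f x := by
    intro n x hx
    induction n with
    | zero => simp
    | succ n ih =>
      have h1 : ((n + 1 + 1 : ℕ) : ℝ) * x = (n + 1 : ℕ) * x + x := by push_cast; ring
      rw [h1, hadd _ _ (by positivity) hx, ih]
      push_cast; ring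
  have hrat : ∀ q : ℚ, 0 < q → f q = q * f 1 := by
    intro q hq
    obtain ⟨a, ha⟩ : ∃ a : ℕ, q.num = (a + 1 : ℕ) := by
      have : 0 < q.num := Rat.num_pos.2 hq
      exact ⟨(q.num - 1).toNat, by omega⟩
    obtain ⟨b, hb⟩ : ∃ b : ℕ, q.den = b + 1 := ⟨q.den - 1, by have := q.den_pos; omega⟩
    have hqr : (0 : ℝ) < q := by exact_mod_cast hq
    have h1 := hnat b q hqr
    have h2 := hnat a 1 one_pos
    have h3 : ((b + 1 : ℕ) : ℝ) * (q : ℝ) = (a + 1 : ℕ) := by
      have h4 : (q : ℝ) = (q.num : ℝ) / (q.den : ℝ) := Rat.cast_def q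
      rw [h4, ha, hb]
      have : ((b + 1 : ℕ) : ℝ) ≠ 0 := by positivity
      push_cast at this ⊢
      field_simp
    rw [mul_one] at h2
    rw [h3, h2] at h1
    have hb0 : ((b + 1 : ℕ) : ℝ) ≠ 0 := by positivity
    have h5 : ((b + 1 : ℕ) : ℝ) * f q = ((b + 1 : ℕ) : ℝ) * (q * f 1) := by
      rw [← h1, ← mul_assoc, h3]
    exact mul_left_cancel₀ hb0 h5
  have hf1 := hpos 1 one_pos
  rcases lt_trichotomy (f c) (c * f 1) with h | h | h
  · exfalso
    have h1 : f c / f 1 < c := by rwa [div_lt_iff₀ hf1]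
    obtain ⟨q, hq1, hq2⟩ := exists_rat_btwn h1
    have hq0 : (0 : ℝ) < q := lt_of_le_of_lt (div_nonneg (hpos c hc).le hf1.le) hq1
    have h2 := hmono q c hq0 hq2
    rw [hrat q (by exact_mod_cast hq0)] at h2
    rw [div_lt_iff₀ hf1] at hq1
    linarith
  · exact h
  · exfalso
    have h1 : c < f c / f 1 := by rwa [lt_div_iff₀ hf1]
    obtain ⟨q, hq1, hq2⟩ := exists_rat_btwn h1
    have hq0 : (0 : ℝ) < q := hc.trans hq1
    have h2 := hmono c q hc hq1
    rw [hrat q (by exact_mod_cast hq0)] at h2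
    rw [lt_div_iff₀ hf1] at hq2
    linarith

variable {Γ : Type*} [AddCommGroup Γ] {pos : Γ → Prop}

/-- the ratio of the two coefficients of the image of `1 + c z^v` -/
noncomputable def rat (Ψ : AddMonoidAlgebra ℝ Γ → AddMonoidAlgebra ℝ Γ) (v : Γ) (c : ℝ) : ℝ :=
  (Ψ (bin v c)).coeff v / (Ψ (bin v c)).coeff 0

theorem bin0_pos {Ψ : AddMonoidAlgebra ℝ Γ → AddMonoidAlgebra ℝ Γ} (hΨ : Good Ψ) (v : Γ)
    (hv : v ≠ 0) (c : ℝ) (hc : 0 < c) : 0 < (Ψ (bin v c)).coeff 0 :=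
  hΨ.pos_iff _ (bin_nn v hv c hc) 0 (by rw [bin_coeff_zero v hv]; exact one_ne_zero)

theorem binv_pos {Ψ : AddMonoidAlgebra ℝ Γ → AddMonoidAlgebra ℝ Γ} (hΨ : Good Ψ) (v : Γ)
    (hv : v ≠ 0) (c : ℝ) (hc : 0 < c) : 0 < (Ψ (bin v c)).coeff v :=
  hΨ.pos_iff _ (bin_nn v hv c hc) v (by rw [bin_coeff_self v hv]; exact hc.ne')

theorem rat_pos {Ψ : AddMonoidAlgebra ℝ Γ → AddMonoidAlgebra ℝ Γ} (hΨ : Good Ψ) (v : Γ)
    (hv : v ≠ 0) (c : ℝ) (hc : 0 < c) : 0 < rat Ψ v c :=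
  div_pos (binv_pos hΨ v hv c hc) (bin0_pos hΨ v hv c hc)

theorem Cone.key' (hc : Cone pos) {Ψ : AddMonoidAlgebra ℝ Γ → AddMonoidAlgebra ℝ Γ} (hΨ : Good Ψ)
    {P : AddMonoidAlgebra ℝ Γ} (hP : NN P) (hS : SIn P (P0 pos)) (h0 : P.coeff 0 ≠ 0) (v : Γ)
    (hv : pos v) (hPv : P.coeff v ≠ 0) :
    (Ψ P).coeff v = (Ψ P).coeff 0 * rat Ψ v (P.coeff v / P.coeff 0) := by
  have h := hc.key hΨ hP hS h0 v hv hPv
  have hp0 : 0 < P.coeff 0 := lt_of_le_of_ne (hP.1 0) (Ne.symm h0)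
  have hpv : 0 < P.coeff v := lt_of_le_of_ne (hP.1 v) (Ne.symm hPv)
  have hb := bin0_pos hΨ v (hc.ne hv) _ (div_pos hpv hp0)
  unfold rat
  rw [← mul_div_assoc, eq_div_iff hb.ne']
  exact h

theorem bin_S {v : Γ} (hv : pos v) (c : ℝ) : SIn (bin v c) (P0 pos) :=
  (bin_sin v c).mono fun a ha => ha.elim Or.inl (fun h => Or.inr (by rw [h]; exact hv))

theorem SIn.mulP0 (hc : Cone pos) {X Y : AddMonoidAlgebra ℝ Γ} (hX : SIn X (P0 pos))
    (hY : SIn Y (P0 pos)) : SIn (X * Y) (P0 pos) := by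
  refine (SIn.mul hX hY).mono ?_
  rintro a ⟨x, y, hx, hy, rfl⟩
  rcases hx with rfl | hx
  · rwa [zero_add]
  · rcases hy with rfl | hy
    · rw [add_zero]; exact Or.inr hx
    · exact Or.inr (hc.add _ _ hx hy)

theorem Cone.rat_add (hc : Cone pos) {Ψ : AddMonoidAlgebra ℝ Γ → AddMonoidAlgebra ℝ Γ}
    (hΨ : Good Ψ) (v : Γ) (hv : pos v) (a b : ℝ) (ha : 0 < a) (hb : 0 < b) :
    rat Ψ v (a + b) = rat Ψ v a + rat Ψ v b := by
  have hv0 := hc.ne hv
  have hA := bin_nn v hv0 a ha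
  have hB := bin_nn v hv0 b hb
  have hAS := bin_S hv a
  have hBS := bin_S hv b
  have hP0 : (bin v a * bin v b).coeff 0 = 1 := by
    rw [hc.coeff_zero_mul _ _ hAS hBS, bin_coeff_zero v hv0, bin_coeff_zero v hv0, one_mul]
  have hPv : (bin v a * bin v b).coeff v = a + b := by
    rw [coeff_mul_q _ _ v hv0 (bin_sin v b), bin_coeff_zero v hv0, bin_coeff_zero v hv0,
      bin_coeff_self v hv0, bin_coeff_self v hv0]
    ring
  have hP : NN (bin v a * bin v b) :=
    nn_of_coeff (nn_mul hA hB.1) 0 (by rw [hP0]; exact one_ne_zero)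
  have h1 := hc.key' hΨ hP (SIn.mulP0 hc hAS hBS) (by rw [hP0]; exact one_ne_zero) v hv
    (by rw [hPv]; positivity)
  rw [hP0, hPv, div_one, hΨ.mul _ _ hA hB,
    hc.coeff_zero_mul _ _ (hΨ.sin hA hAS) (hΨ.sin hB hBS),
    coeff_mul_q _ _ v hv0 (hΨ.sin hB (bin_sin v b))] at h1
  have ha0 := bin0_pos hΨ v hv0 a ha
  have hb0 := bin0_pos hΨ v hv0 b hb
  have h2 : rat Ψ v (a + b) = ((Ψ (bin v a)).coeff v * (Ψ (bin v b)).coeff 0 +
      (Ψ (bin v a)).coeff 0 * (Ψ (bin v b)).coeff v) /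
      ((Ψ (bin v a)).coeff 0 * (Ψ (bin v b)).coeff 0) := by
    rw [eq_div_iff (mul_pos ha0 hb0).ne']
    linarith
  rw [h2]
  unfold rat
  field_simp

theorem Cone.rat_lin (hc : Cone pos) {Ψ : AddMonoidAlgebra ℝ Γ → AddMonoidAlgebra ℝ Γ}
    (hΨ : Good Ψ) (v : Γ) (hv : pos v) (c : ℝ) (h0 : 0 < c) :
    rat Ψ v c = c * rat Ψ v 1 :=
  additive_linear (rat Ψ v) (fun c h => rat_pos hΨ v (hc.ne hv) c h)
    (fun a b ha hb => hc.rat_add hΨ v hv a b ha hb) c h0

theorem Cone.rat_mul (hc : Cone pos) {Ψ : AddMonoidAlgebra ℝ Γ → AddMonoidAlgebra ℝ Γ}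
    (hΨ : Good Ψ) (u v : Γ) (hu : pos u) (hv : pos v) :
    rat Ψ (u + v) 1 = rat Ψ u 1 * rat Ψ v 1 := by
  have hu0 := hc.ne hu
  have hv0 := hc.ne hv
  have huv := hc.add _ _ hu hv
  have huv0 := hc.ne huv
  have hA := bin_nn u hu0 1 one_pos
  have hB := bin_nn v hv0 1 one_pos
  have hAS := bin_S hu 1
  have hBS := bin_S hv 1
  have hside : ∀ X Y : AddMonoidAlgebra ℝ Γ, SIn X (fun a => a = 0 ∨ a = u) →
      SIn Y (fun a => a = 0 ∨ a = v) → (X * Y).coeff (u + v) = X.coeff u * Y.coeff v := by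
    intro X Y hX hY
    apply coeff_mul_eq
    intro a b ha hb hab
    rcases hX a ha with h | h
    · exfalso
      rw [h, zero_add] at hab
      rcases hY b hb with h2 | h2
      · rw [h2] at hab; exact huv0 hab.symm
      · rw [h2] at hab
        exact hu0 (by simpa using hab.symm)
    · exact h
  have hP0 : (bin u 1 * bin v 1).coeff 0 = 1 := by
    rw [hc.coeff_zero_mul _ _ hAS hBS, bin_coeff_zero v hv0, bin_coeff_zero u hu0, one_mul]
  have hPuv : (bin u 1 * bin v 1).coeff (u + v) = 1 := by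
    rw [hside _ _ (bin_sin u 1) (bin_sin v 1), bin_coeff_self u hu0, bin_coeff_self v hv0, one_mul]
  have hP : NN (bin u 1 * bin v 1) :=
    nn_of_coeff (nn_mul hA hB.1) 0 (by rw [hP0]; exact one_ne_zero)
  have h1 := hc.key' hΨ hP (SIn.mulP0 hc hAS hBS) (by rw [hP0]; exact one_ne_zero) (u + v) huv
    (by rw [hPuv]; exact one_ne_zero)
  rw [hP0, hPuv, div_one, hΨ.mul _ _ hA hB,
    hc.coeff_zero_mul _ _ (hΨ.sin hA hAS) (hΨ.sin hB hBS),
    hside _ _ (hΨ.sin hA (bin_sin u 1)) (hΨ.sin hB (bin_sin v 1))] at h1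
  have ha0 := bin0_pos hΨ u hu0 1 one_pos
  have hb0 := bin0_pos hΨ v hv0 1 one_pos
  have h2 : rat Ψ (u + v) 1 = ((Ψ (bin u 1)).coeff u * (Ψ (bin v 1)).coeff v) /
      ((Ψ (bin u 1)).coeff 0 * (Ψ (bin v 1)).coeff 0) := by
    rw [eq_div_iff (mul_pos ha0 hb0).ne']
    linarith
  rw [h2]
  unfold rat
  field_simp

/-- a finite nonempty set has a least element -/
theorem Cone.exists_min (hc : Cone pos) (s : Finset Γ) (hs : s.Nonempty) :
    ∃ m ∈ s, ∀ x ∈ s, x = m ∨ pos (x - m) := by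
  classical
  induction hs using Finset.Nonempty.cons_induction with
  | singleton a => exact ⟨a, by simp, fun x hx => Or.inl (by simpa using hx)⟩
  | cons a s ha hs ih =>
    obtain ⟨m, hm, h⟩ := ih
    by_cases ham : a = m
    · exact absurd (ham ▸ hm) ha
    · rcases hc.total (a - m) (sub_ne_zero.2 ham) with h1 | h1
      · refine ⟨m, by simp [hm], fun x hx => ?_⟩
        rcases Finset.mem_cons.1 hx with rfl | hx
        · exact Or.inr h1
        · exact h x hx
      · rw [neg_sub] at h1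
        refine ⟨a, by simp, fun x hx => ?_⟩
        rcases Finset.mem_cons.1 hx with rfl | hx
        · exact Or.inl rfl
        · right
          rcases h x hx with rfl | h2
          · exact h1
          · have := hc.add _ _ h2 h1
            rwa [sub_add_sub_cancel] at this

/-- The general form of the result. -/
theorem Cone.ratio (hc : Cone pos) {Ψ : AddMonoidAlgebra ℝ Γ → AddMonoidAlgebra ℝ Γ}
    (hΨ : Good Ψ) (P : AddMonoidAlgebra ℝ Γ) (hP : NN P) :
    ∃ m, P.coeff m ≠ 0 ∧ ∀ x, P.coeff x ≠ 0 → x = m ∨ (pos (x - m) ∧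
      (Ψ P).coeff x * P.coeff m = (Ψ P).coeff m * (P.coeff x * rat Ψ (x - m) 1)) := by
  have hne : P.coeff.support.Nonempty := by
    rw [Finsupp.support_nonempty_iff]
    intro h
    exact hP.2 (by ext x; rw [h]; rfl)
  obtain ⟨m, hm, hmin⟩ := hc.exists_min _ hne
  have hm0 : P.coeff m ≠ 0 := Finsupp.mem_support_iff.1 hm
  refine ⟨m, hm0, fun x hx => ?_⟩
  rcases hmin x (Finsupp.mem_support_iff.2 hx) with h | h
  · exact Or.inl h
  · refine Or.inr ⟨h, ?_⟩
    set S : AddMonoidAlgebra ℝ Γ := single (-m) 1 with hSdef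
    have hSS : SIn S (fun a => a = -m) := SIn.single _ _
    have hSc : S.coeff (-m) = 1 := sg_self _ _
    have hSnn : ∀ x, 0 ≤ S.coeff x := by
      intro y
      by_cases hy : y = -m
      · rw [hy, hSc]; exact zero_le_one
      · rw [hSdef, sg_ne _ _ _ hy]
    have hSN : NN S := nn_of_coeff hSnn (-m) (by rw [hSc]; exact one_ne_zero)
    have hshift : ∀ X Y : AddMonoidAlgebra ℝ Γ, SIn X (fun a => a = -m) → ∀ y,
        (X * Y).coeff (-m + y) = X.coeff (-m) * Y.coeff y := by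
      intro X Y hX y
      apply coeff_mul_eq
      intro a b ha hb hab
      exact hX a ha
    have hP' : ∀ y, (S * P).coeff (-m + y) = P.coeff y := by
      intro y
      rw [hshift S P hSS, hSc, one_mul]
    have hP'0 : (S * P).coeff 0 = P.coeff m := by
      have := hP' m
      rwa [neg_add_cancel] at this
    have hP'x : (S * P).coeff (x - m) = P.coeff x := by
      have := hP' x
      rwa [neg_add_eq_sub] at this
    have hPN : NN (S * P) := nn_of_coeff (nn_mul hSN hP.1) 0 (by rw [hP'0]; exact hm0)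
    have hPS : SIn (S * P) (P0 pos) := by
      intro a ha
      have h2 : (S * P).coeff (-m + (a + m)) ≠ 0 := by
        have : -m + (a + m) = a := by abel
        rwa [this]
      rw [hP'] at h2
      rcases hmin (a + m) (Finsupp.mem_support_iff.2 h2) with h3 | h3
      · left
        simpa using h3
      · right
        rwa [add_sub_cancel_right] at h3
    have hkey := hc.key' hΨ hPN hPS (by rw [hP'0]; exact hm0) (x - m) h (by rw [hP'x]; exact hx)
    have hpm : 0 < P.coeff m := lt_of_le_of_ne (hP.1 m) (Ne.symm hm0)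
    have hpx : 0 < P.coeff x := lt_of_le_of_ne (hP.1 x) (Ne.symm hx)
    rw [hP'0, hP'x, hc.rat_lin hΨ (x - m) h _ (div_pos hpx hpm), hΨ.mul _ _ hSN hP] at hkey
    have hΨS := hΨ.sin hSN hSS
    have e1 : (Ψ S * Ψ P).coeff (x - m) = (Ψ S).coeff (-m) * (Ψ P).coeff x := by
      have := hshift (Ψ S) (Ψ P) hΨS x
      rwa [neg_add_eq_sub] at this
    have e2 : (Ψ S * Ψ P).coeff 0 = (Ψ S).coeff (-m) * (Ψ P).coeff m := by
      have := hshift (Ψ S) (Ψ P) hΨS m
      rwa [neg_add_cancel] at this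
    rw [e1, e2] at hkey
    have ht : 0 < (Ψ S).coeff (-m) := hΨ.pos_iff S hSN (-m) (by rw [hSc]; exact one_ne_zero)
    apply mul_left_cancel₀ ht.ne'
    calc (Ψ S).coeff (-m) * ((Ψ P).coeff x * P.coeff m)
        = ((Ψ S).coeff (-m) * (Ψ P).coeff x) * P.coeff m := by ring
      _ = (Ψ S).coeff (-m) * (Ψ P).coeff m * (P.coeff x / P.coeff m * rat Ψ (x - m) 1) *
          P.coeff m := by rw [hkey]
      _ = (Ψ S).coeff (-m) * ((Ψ P).coeff m * (P.coeff x * rat Ψ (x - m) 1)) := by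
          field_simp

end Pool.Agent.R986.Boltz
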