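import Pool.Agent.R986.Boltz2

/-!
# The lattice `ℤ^d`: the character is `exp (-β · x)`
-/

set_option autoImplicit false

namespace Pool.Agent.R986.Boltz

open AddMonoidAlgebra

variable {d : ℕ}

/-- the lexicographic positive cone of `ℤ^d` -/
def lexPos (v : Fin d → ℤ) : Prop := ∃ i, (∀ j, j < i → v j = 0) ∧ 0 < v i

theorem lexCone : Cone (lexPos (d := d)) where
  zero := by
    rintro ⟨i, _, h⟩
    simp at h
  add := by
    rintro a b ⟨i, hi, hi2⟩ ⟨j, hj, hj2⟩
    rcases lt_trichotomy i j with h | h | h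
    · exact ⟨i, fun k hk => by rw [Pi.add_apply, hi k hk, hj k (hk.trans h)]; rfl, by
        rw [Pi.add_apply, hj i h]; simpa using hi2⟩
    · subst h
      exact ⟨i, fun k hk => by rw [Pi.add_apply, hi k hk, hj k hk]; rfl, by
        rw [Pi.add_apply]; positivity⟩
    · exact ⟨j, fun k hk => by rw [Pi.add_apply, hi k (hk.trans h), hj k hk]; rfl, by
        rw [Pi.add_apply, hi j h]; simpa using hj2⟩
  total := by
    intro a ha
    have hex : ∃ i, a i ≠ 0 := by
      by_contra h
      push Not at h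
      exact ha (funext h)
    let s : Finset (Fin d) := Finset.univ.filter fun i => a i ≠ 0
    have hs : s.Nonempty := by
      obtain ⟨i, hi⟩ := hex
      exact ⟨i, by simp [s, hi]⟩
    have hmem : s.min' hs ∈ s := s.min'_mem hs
    have hne : a (s.min' hs) ≠ 0 := by simpa [s] using hmem
    have hlt : ∀ j, j < s.min' hs → a j = 0 := by
      intro j hj
      by_contra h
      have : j ∈ s := by simp [s, h]
      exact absurd (s.min'_le j this) (not_le.2 hj)
    rcases lt_or_gt_of_ne hne with h | h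
    · exact Or.inr ⟨s.min' hs, fun j hj => by rw [Pi.neg_apply, hlt j hj, neg_zero], by
        rw [Pi.neg_apply]; linarith⟩
    · exact Or.inl ⟨s.min' hs, hlt, h⟩

/-- A function that is additive on the cone is linear. -/
theorem cone_linear (b : (Fin d → ℤ) → ℝ)
    (hadd : ∀ u v, lexPos u → lexPos v → b (u + v) = b u + b v) (v : Fin d → ℤ) (hv : lexPos v) :
    b v = ∑ i, (v i : ℝ) * b (Pi.single i 1) := by
  have hc := lexCone (d := d)
  have hepos : ∀ (i : Fin d) (n : ℕ), lexPos (Pi.single i ((n + 1 : ℕ) : ℤ) : Fin d → ℤ) := by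
    intro i n
    refine ⟨i, fun j hj => ?_, ?_⟩
    · rw [Pi.single_eq_of_ne hj.ne]
    · rw [Pi.single_eq_same]; positivity
  have hmul : ∀ (i : Fin d) (n : ℕ), b (Pi.single i ((n + 1 : ℕ) : ℤ)) =
      (n + 1 : ℕ) * b (Pi.single i 1) := by
    intro i n
    induction n with
    | zero => simp
    | succ n ih =>
      have h1 : (Pi.single i ((n + 1 + 1 : ℕ) : ℤ) : Fin d → ℤ) =
          Pi.single i ((n + 1 : ℕ) : ℤ) + Pi.single i ((0 + 1 : ℕ) : ℤ) := by
        rw [← Pi.single_add]
        congr 1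
      rw [h1, hadd _ _ (hepos i n) (hepos i 0), ih]
      push_cast
      ring
  have hsum : ∀ (s : Finset (Fin d)) (n : Fin d → ℕ), s.Nonempty →
      lexPos (∑ i ∈ s, (Pi.single i ((n i + 1 : ℕ) : ℤ) : Fin d → ℤ)) ∧
      b (∑ i ∈ s, (Pi.single i ((n i + 1 : ℕ) : ℤ) : Fin d → ℤ)) =
        ∑ i ∈ s, ((n i + 1 : ℕ) : ℝ) * b (Pi.single i 1) := by
    intro s n hs
    induction hs using Finset.Nonempty.cons_induction with
    | singleton a =>
      rw [Finset.sum_singleton, Finset.sum_singleton]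
      exact ⟨hepos a (n a), hmul a (n a)⟩
    | cons a s ha hs ih =>
      rw [Finset.sum_cons, Finset.sum_cons]
      refine ⟨hc.add _ _ (hepos a (n a)) ih.1, ?_⟩
      rw [hadd _ _ (hepos a (n a)) ih.1, ih.2, hmul]
  have hne : (Finset.univ : Finset (Fin d)).Nonempty := by
    obtain ⟨i, _⟩ := hv
    exact ⟨i, Finset.mem_univ i⟩
  -- shift by a large vector
  set N : ℕ := ∑ i, (v i).natAbs with hN
  have hNi : ∀ i, |v i| ≤ N := by
    intro i
    have h1 : (v i).natAbs ≤ N :=
      Finset.single_le_sum (f := fun i => (v i).natAbs) (fun _ _ => Nat.zero_le _)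
        (Finset.mem_univ i)
    rw [Int.abs_eq_natAbs]
    exact_mod_cast h1
  have h1 := hsum Finset.univ (fun _ => N) hne
  have h2 := hsum Finset.univ (fun i => (v i + N).toNat) hne
  have h3 : ∀ i, (((v i + N).toNat + 1 : ℕ) : ℤ) = v i + ((N + 1 : ℕ) : ℤ) := by
    intro i
    have h4 := neg_abs_le (v i)
    have h5 := hNi i
    have h6 : 0 ≤ v i + N := by linarith
    push_cast
    rw [Int.toNat_of_nonneg h6]
    ring
  have h7 : (∑ i, (Pi.single i (((v i + N).toNat + 1 : ℕ) : ℤ) : Fin d → ℤ)) =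
      v + ∑ i, (Pi.single i ((N + 1 : ℕ) : ℤ) : Fin d → ℤ) := by
    have h8 : v = ∑ i, (Pi.single i (v i) : Fin d → ℤ) := (Finset.univ_sum_single v).symm
    conv_rhs => rw [h8]
    rw [← Finset.sum_add_distrib]
    apply Finset.sum_congr rfl
    intro i _
    rw [← Pi.single_add, h3 i]
  rw [h7, hadd _ _ hv h1.1, h1.2] at h2
  have h9 := h2.2
  have h10 : ∑ i, (((v i + N).toNat + 1 : ℕ) : ℝ) * b (Pi.single i 1) =
      ∑ i, (v i : ℝ) * b (Pi.single i 1) + ∑ i, ((N + 1 : ℕ) : ℝ) * b (Pi.single i 1) := by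
    rw [← Finset.sum_add_distrib]
    apply Finset.sum_congr rfl
    intro i _
    have h11 : (((v i + N).toNat + 1 : ℕ) : ℝ) = (v i : ℝ) + ((N + 1 : ℕ) : ℝ) := by
      have := h3 i
      exact_mod_cast this
    rw [h11]
    ring
  rw [h10] at h9
  linarith

/-- Main theorem for the group algebra of `ℤ^d`. -/
theorem main {Ψ : AddMonoidAlgebra ℝ (Fin d → ℤ) → AddMonoidAlgebra ℝ (Fin d → ℤ)}
    (hΨ : Good Ψ) : ∃ β : Fin d → ℝ, ∀ P, NN P → ∃ t : ℝ, ∀ x,
      (Ψ P).coeff x = t * (P.coeff x * Real.exp (-∑ i, β i * (x i : ℝ))) := by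
  have hc := lexCone (d := d)
  set b : (Fin d → ℤ) → ℝ := fun v => Real.log (rat Ψ v 1) with hb
  have hlin := cone_linear b (fun u v hu hv => by
    rw [hb]
    simp only
    rw [hc.rat_mul hΨ u v hu hv, Real.log_mul (rat_pos hΨ u (hc.ne hu) 1 one_pos).ne'
      (rat_pos hΨ v (hc.ne hv) 1 one_pos).ne'])
  refine ⟨fun i => -b (Pi.single i 1), fun P hP => ?_⟩
  obtain ⟨m, hm, hx⟩ := hc.ratio hΨ P hP
  set B : (Fin d → ℤ) → ℝ := fun x => -∑ i, (-b (Pi.single i 1)) * (x i : ℝ) with hB
  have hB' : ∀ x, B x = ∑ i, (x i : ℝ) * b (Pi.single i 1) := by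
    intro x
    rw [hB]
    simp only
    rw [← Finset.sum_neg_distrib]
    apply Finset.sum_congr rfl
    intro i _
    ring
  refine ⟨(Ψ P).coeff m / (P.coeff m * Real.exp (B m)), fun x => ?_⟩
  show (Ψ P).coeff x = (Ψ P).coeff m / (P.coeff m * Real.exp (B m)) *
    (P.coeff x * Real.exp (B x))
  by_cases h0 : P.coeff x = 0
  · rw [h0, zero_mul, mul_zero]
    exact hΨ.zero P hP x h0
  · rcases hx x h0 with rfl | ⟨hpos, hrat⟩
    · have := Real.exp_pos (B x)
      field_simp
    · have e1 : rat Ψ (x - m) 1 = Real.exp (B x - B m) := by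
        have h1 := hlin (x - m) hpos
        rw [hb] at h1
        simp only at h1
        have h2 : B x - B m = Real.log (rat Ψ (x - m) 1) := by
          rw [h1, hB', hB', ← Finset.sum_sub_distrib]
          apply Finset.sum_congr rfl
          intro i _
          rw [Pi.sub_apply]
          push_cast
          rw [hb]
          ring
        rw [h2, Real.exp_log (rat_pos hΨ _ (hc.ne hpos) 1 one_pos)]
      rw [e1, Real.exp_sub] at hrat
      have h3 := Real.exp_pos (B m)
      have h4 : (Ψ P).coeff x = (Ψ P).coeff m * (P.coeff x * (Real.exp (B x) / Real.exp (B m))) /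
          P.coeff m := by
        rw [eq_div_iff hm]; exact hrat
      rw [h4]
      field_simp

end Pool.Agent.R986.Boltz
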