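import Mathlib

/-! Stationary k-dependent hard-core processes on the integers: definitions and the
renewal construction of a 2-dependent process with marginal larger than 1/3. -/

namespace Pool.Agent.R986.KD

open MeasureTheory ProbabilityTheory Set

/-- configurations -/
abbrev Cfg := ℤ → Bool

/-- the shift of a configuration -/
def shift (x : Cfg) : Cfg := fun i => x (i + 1)

/-- stationary k-dependent hard-core laws on configurations -/
structure IsProc (k : ℕ) (μ : Measure Cfg) : Prop where
  prob : IsProbabilityMeasure μ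
  hardcore : μ {x | ∃ i : ℤ, x i = true ∧ x (i + 1) = true} = 0
  stationary : μ.map shift = μ
  dep : ∀ A B : Set ℤ, (∀ a ∈ A, ∀ b ∈ B, (k : ℤ) < |a - b|) →
    IndepFun (fun (x : Cfg) (a : A) => x a) (fun (x : Cfg) (b : B) => x b) μ

/-- the maximal marginal -/
noncomputable def pcrit (k : ℕ) : ℝ :=
  sSup {t : ℝ | ∃ μ : Measure Cfg, IsProc k μ ∧ t = μ.real {x | x 0 = true}}

/-- all sites of `S` are occupied -/
def cyl (S : Finset ℤ) : Set Cfg := {x | ∀ s ∈ S, x s = true}

open scoped Classical in
/-- local factor -/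
noncomputable def phi (p ρ : ℝ) (S : Finset ℤ) (s : ℤ) : ℝ :=
  if s - 1 ∈ S then 0 else if s - 2 ∈ S then ρ else p

/-- probability that all sites of `S` are occupied -/
noncomputable def aa (p ρ : ℝ) (S : Finset ℤ) : ℝ := ∏ s ∈ S, phi p ρ S s

/-- translate of a finite set -/
def tr (n : ℤ) (S : Finset ℤ) : Finset ℤ := S.map (addRightEmbedding n)

theorem mem_tr {n : ℤ} {S : Finset ℤ} {s : ℤ} : s ∈ tr n S ↔ s - n ∈ S := by
  unfold tr
  simp only [Finset.mem_map, addRightEmbedding_apply]
  constructor
  · rintro ⟨a, ha, rfl⟩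
    simpa using ha
  · intro h
    exact ⟨s - n, h, by ring⟩

theorem aa_tr (p ρ : ℝ) (n : ℤ) (S : Finset ℤ) : aa p ρ (tr n S) = aa p ρ S := by
  unfold aa
  conv_lhs => rw [tr, Finset.prod_map]
  apply Finset.prod_congr rfl
  intro s hs
  unfold phi
  change (if s + n - 1 ∈ tr n S then (0:ℝ) else if s + n - 2 ∈ tr n S then ρ else p) = _
  simp only [mem_tr]
  rw [show s + n - 1 - n = s - 1 by ring, show s + n - 2 - n = s - 2 by ring]

theorem aa_empty (p ρ : ℝ) : aa p ρ ∅ = 1 := by simp [aa]

theorem aa_singleton (p ρ : ℝ) (s : ℤ) : aa p ρ {s} = p := by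
  simp [aa, phi]

theorem aa_pair (p ρ : ℝ) (s : ℤ) : aa p ρ {s, s + 1} = 0 := by
  unfold aa
  apply Finset.prod_eq_zero (i := s + 1) (by simp)
  simp [phi]

/-- multiplicativity for separated sets -/
theorem aa_union (p ρ : ℝ) (S S' : Finset ℤ) (h : ∀ a ∈ S, ∀ b ∈ S', (2:ℤ) < |a - b|) :
    aa p ρ (S ∪ S') = aa p ρ S * aa p ρ S' := by
  have hdisj : Disjoint S S' := by
    rw [Finset.disjoint_left]
    intro a ha hb
    have := h a ha a hb
    simp at this
  unfold aa
  rw [Finset.prod_union hdisj]
  congr 1
  · apply Finset.prod_congr rfl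
    intro s hs
    unfold phi
    have h1 : s - 1 ∉ S' := by
      intro hb
      have := h s hs _ hb
      simp at this
    have h2 : s - 2 ∉ S' := by
      intro hb
      have := h s hs _ hb
      simp at this
    simp [Finset.mem_union, h1, h2]
  · apply Finset.prod_congr rfl
    intro s hs
    unfold phi
    have h1 : s - 1 ∉ S := by
      intro hb
      have := h _ hb s hs
      simp at this
    have h2 : s - 2 ∉ S := by
      intro hb
      have := h _ hb s hs
      simp at this
    simp [Finset.mem_union, h1, h2]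

open scoped Classical in
/-- splitting off the first site -/
theorem aa_split (p ρ : ℝ) (D : Finset ℤ) (hD : ∀ s ∈ D, 1 ≤ s) :
    aa p ρ (insert 0 D) =
      (if (1:ℤ) ∈ D then 0 else if (2:ℤ) ∈ D then ρ else p) * aa p ρ D := by
  have h0 : (0:ℤ) ∉ D := fun h => by have := hD 0 h; omega
  have hm : ∀ s : ℤ, s < 0 → s ∉ insert 0 D := by
    intro s hs h
    rcases Finset.mem_insert.1 h with h | h
    · omega
    · have := hD s h; omega
  unfold aa
  rw [Finset.prod_insert h0]
  have hphi0 : phi p ρ (insert 0 D) 0 = p := by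
    unfold phi
    rw [if_neg (hm _ (by norm_num)), if_neg (hm _ (by norm_num))]
  rw [hphi0]
  by_cases h1 : (1:ℤ) ∈ D
  · rw [if_pos h1, zero_mul]
    apply mul_eq_zero_of_right
    apply Finset.prod_eq_zero h1
    unfold phi
    rw [if_pos (by norm_num)]
  · rw [if_neg h1]
    have hother : ∀ s ∈ D, s ≠ 2 → phi p ρ (insert 0 D) s = phi p ρ D s := by
      intro s hs hs2
      have hs1 := hD s hs
      have hne1 : s ≠ 1 := fun h => h1 (h ▸ hs)
      unfold phi
      have e1 : s - 1 ∈ insert 0 D ↔ s - 1 ∈ D := by
        rw [Finset.mem_insert]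
        constructor
        · rintro (h | h)
          · omega
          · exact h
        · exact Or.inr
      have e2 : s - 2 ∈ insert 0 D ↔ s - 2 ∈ D := by
        rw [Finset.mem_insert]
        constructor
        · rintro (h | h)
          · omega
          · exact h
        · exact Or.inr
      simp only [e1, e2]
    by_cases h2 : (2:ℤ) ∈ D
    · rw [if_pos h2]
      rw [← Finset.mul_prod_erase D _ h2, ← Finset.mul_prod_erase D (phi p ρ D) h2]
      have e1 : phi p ρ (insert 0 D) 2 = ρ := by
        unfold phi
        have : (2:ℤ) - 1 ∉ insert 0 D := by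
          rw [Finset.mem_insert]
          rintro (h | h)
          · norm_num at h
          · norm_num at h; exact h1 h
        rw [if_neg this, if_pos (by norm_num)]
      have e2 : phi p ρ D 2 = p := by
        unfold phi
        have a1 : (2:ℤ) - 1 ∉ D := by norm_num; exact h1
        have a2 : (2:ℤ) - 2 ∉ D := by norm_num; exact h0
        rw [if_neg a1, if_neg a2]
      rw [e1, e2]
      rw [Finset.prod_congr rfl (fun s hs => hother s (Finset.mem_of_mem_erase hs)
        (Finset.ne_of_mem_erase hs))]
      ring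
    · rw [if_neg h2]
      rw [Finset.prod_congr rfl (fun s hs => hother s hs (fun h => h2 (h ▸ hs)))]

end Pool.Agent.R986.KD
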