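import Pool.Agent.R986.KD1

/-! Finite-window measures of the renewal process. -/

namespace Pool.Agent.R986.KD

open MeasureTheory ProbabilityTheory Set

/-- put the letter `b` at the origin and move the rest to the right -/
def cons (b : Bool) (x : Cfg) : Cfg := fun i => if i = 0 then b else x (i - 1)

theorem measurable_cons (b : Bool) : Measurable (cons b) := by
  apply measurable_pi_lambda
  intro i
  unfold cons
  by_cases h : i = 0
  · simp [h]
  · simp only [h, if_false]
    exact measurable_pi_apply _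

theorem measurableSet_cyl (S : Finset ℤ) : MeasurableSet (cyl S) := by
  have : cyl S = ⋂ s ∈ S, {x : Cfg | x s = true} := by
    ext x; simp [cyl]
  rw [this]
  apply Finset.measurableSet_biInter
  intro s _
  have h : Measurable (fun x : Cfg => x s) := measurable_pi_apply s
  exact h (measurableSet_singleton true)

theorem cons_pre_of_not_mem (b : Bool) (S : Finset ℤ) (h : (0:ℤ) ∉ S) :
    cons b ⁻¹' cyl S = cyl (tr (-1) S) := by
  ext x
  simp only [cyl, mem_preimage, Set.mem_ofPred_eq, cons]
  constructor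
  · intro hx s hs
    rw [mem_tr] at hs
    have := hx _ hs
    have hne : s - -1 ≠ 0 := fun h0 => h (h0 ▸ hs)
    rw [if_neg hne] at this
    rwa [show s - -1 - 1 = s by ring] at this
  · intro hx s hs
    have hne : s ≠ 0 := fun h0 => h (h0 ▸ hs)
    rw [if_neg hne]
    apply hx
    rw [mem_tr, show s - 1 - -1 = s by ring]
    exact hs

theorem cons_true_pre (S : Finset ℤ) (_h : (0:ℤ) ∈ S) :
    cons true ⁻¹' cyl S = cyl (tr (-1) (S.erase 0)) := by
  ext x
  simp only [cyl, mem_preimage, Set.mem_ofPred_eq, cons]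
  constructor
  · intro hx s hs
    rw [mem_tr, Finset.mem_erase] at hs
    have := hx _ hs.2
    rw [if_neg hs.1] at this
    rwa [show s - -1 - 1 = s by ring] at this
  · intro hx s hs
    by_cases h0 : s = 0
    · rw [if_pos h0]
    · rw [if_neg h0]
      apply hx
      rw [mem_tr, show s - 1 - -1 = s by ring, Finset.mem_erase]
      exact ⟨h0, hs⟩

theorem cons_false_pre (S : Finset ℤ) (h : (0:ℤ) ∈ S) :
    cons false ⁻¹' cyl S = ∅ := by
  ext x
  simp only [cyl, mem_preimage, Set.mem_ofPred_eq, cons, mem_empty_iff_false, iff_false]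
  intro hx
  have := hx 0 h
  simp at this

/-- gap law and tails of the renewal process -/
structure Dat where
  p : ℝ
  ρ : ℝ
  f : ℕ → ℝ
  T : ℕ → ℝ
  hp : 0 < p
  hρ : 0 ≤ ρ
  hf : ∀ j, 0 ≤ f j
  hT : ∀ j, 0 ≤ T j
  T0 : T 0 = 1
  f1 : f 1 = 0
  f2 : f 2 = ρ
  hrec : ∀ j, T j = T (j + 1) + f (j + 1)
  hren : ∀ j, f (j + 3) + ρ * f (j + 1) = p * T j

variable (d : Dat)

/-- unnormalised law of the future given that the last occupied site is `a + 1` steps back -/
noncomputable def muW : ℕ → ℕ → Measure Cfg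
  | 0, a => ENNReal.ofReal (d.T a) • Measure.dirac (fun _ => false)
  | n + 1, a => (muW n (a + 1)).map (cons false) +
      ENNReal.ofReal (d.f (a + 1)) • (muW n 0).map (cons true)

/-- unnormalised law of the future given that the last `a` sites are empty -/
noncomputable def muV : ℕ → ℕ → Measure Cfg
  | 0, a => ENNReal.ofReal (d.T (a + 2) + d.ρ * d.T a) • Measure.dirac (fun _ => false)
  | n + 1, a => (muV n (a + 1)).map (cons false) +
      ENNReal.ofReal (d.p * d.T a) • (muW d n 0).map (cons true)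

theorem fin_smul (μ : Measure Cfg) [IsFiniteMeasure μ] (c : ℝ) :
    IsFiniteMeasure (ENNReal.ofReal c • μ) := Measure.smul_finite _ ENNReal.ofReal_ne_top

instance finW (n a : ℕ) : IsFiniteMeasure (muW d n a) := by
  induction n generalizing a with
  | zero => unfold muW; exact fin_smul _ _
  | succ n ih =>
    unfold muW
    have h1 := ih (a + 1)
    have h2 := ih 0
    have h3 : IsFiniteMeasure ((muW d n 0).map (cons true)) := inferInstance
    have h4 := fin_smul ((muW d n 0).map (cons true)) (d.f (a + 1))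
    infer_instance

instance finV (n a : ℕ) : IsFiniteMeasure (muV d n a) := by
  induction n generalizing a with
  | zero => unfold muV; exact fin_smul _ _
  | succ n ih =>
    unfold muV
    have h1 := ih (a + 1)
    have h4 := fin_smul ((muW d n 0).map (cons true)) (d.p * d.T a)
    infer_instance

theorem real_step (μ ν : Measure Cfg) [IsFiniteMeasure μ] [IsFiniteMeasure ν] (c : ℝ)
    (hc : 0 ≤ c) (S : Finset ℤ) :
    (μ.map (cons false) + ENNReal.ofReal c • ν.map (cons true)).real (cyl S) =
      μ.real (cons false ⁻¹' cyl S) + c * ν.real (cons true ⁻¹' cyl S) := by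
  have hS := measurableSet_cyl S
  have h4 := fin_smul (ν.map (cons true)) c
  rw [measureReal_add_apply]
  rw [map_measureReal_apply (measurable_cons _) hS]
  rw [measureReal_ennreal_smul_apply, map_measureReal_apply (measurable_cons _) hS]
  rw [ENNReal.toReal_ofReal hc]

open scoped Classical in
/-- boundary factor for `muW` -/
noncomputable def cW (a : ℕ) (S : Finset ℤ) : ℝ :=
  if (0:ℤ) ∈ S then d.f (a + 1) else if (1:ℤ) ∈ S then d.f (a + 2) else d.p * d.T a

open scoped Classical in
/-- boundary factor for `muV` -/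
noncomputable def cV (a : ℕ) (S : Finset ℤ) : ℝ :=
  if (0:ℤ) ∈ S then d.p * d.T a else if (1:ℤ) ∈ S then d.p * d.T (a + 1) else
    d.p * (d.T (a + 2) + d.ρ * d.T a)

theorem cyl_empty : cyl ∅ = Set.univ := by
  ext x; simp [cyl]

theorem empty_of_window (S : Finset ℤ) (h : ∀ s ∈ S, (0:ℤ) ≤ s ∧ s < ((0:ℕ):ℤ)) : S = ∅ := by
  rw [Finset.eq_empty_iff_forall_notMem]
  intro s hs
  have := h s hs
  simp at this
  omega

theorem split_mem (S : Finset ℤ) (h0 : (0:ℤ) ∈ S) (n : ℕ)
    (h : ∀ s ∈ S, (0:ℤ) ≤ s ∧ s < ((n + 1 : ℕ):ℤ)) :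
    (∀ s ∈ tr (-1) (S.erase 0), (0:ℤ) ≤ s ∧ s < (n:ℤ)) ∧
    aa d.p d.ρ S = cW d 0 (tr (-1) (S.erase 0)) * aa d.p d.ρ (tr (-1) (S.erase 0)) := by
  constructor
  · intro s hs
    rw [mem_tr, Finset.mem_erase] at hs
    have := h _ hs.2
    have h1 := hs.1
    push_cast at this
    omega
  · rw [aa_tr]
    have e : S = insert 0 (S.erase 0) := (Finset.insert_erase h0).symm
    conv_lhs => rw [e]
    rw [aa_split]
    · congr 1
      unfold cW
      have e1 : ((0:ℤ) ∈ tr (-1) (S.erase 0)) ↔ (1:ℤ) ∈ S.erase 0 := by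
        rw [mem_tr]; norm_num
      have e2 : ((1:ℤ) ∈ tr (-1) (S.erase 0)) ↔ (2:ℤ) ∈ S.erase 0 := by
        rw [mem_tr]; norm_num
      simp only [e1, e2]
      rw [zero_add, zero_add, d.f1, d.f2, d.T0, mul_one]
    · intro s hs
      rw [Finset.mem_erase] at hs
      have := h _ hs.2
      have h1 := hs.1
      omega

theorem notmem_window (S : Finset ℤ) (h0 : (0:ℤ) ∉ S) (n : ℕ)
    (h : ∀ s ∈ S, (0:ℤ) ≤ s ∧ s < ((n + 1 : ℕ):ℤ)) :
    (∀ s ∈ tr (-1) S, (0:ℤ) ≤ s ∧ s < (n:ℤ)) := by
  intro s hs
  rw [mem_tr] at hs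
  have := h _ hs
  have h1 : s - -1 ≠ 0 := fun h2 => h0 (h2 ▸ hs)
  push_cast at this
  omega

theorem muW_cyl (n : ℕ) : ∀ (a : ℕ) (S : Finset ℤ), (∀ s ∈ S, (0:ℤ) ≤ s ∧ s < (n:ℤ)) →
    d.p * (muW d n a).real (cyl S) = cW d a S * aa d.p d.ρ S := by
  induction n with
  | zero =>
    intro a S h
    rw [empty_of_window S h, aa_empty, cyl_empty]
    unfold muW cW
    rw [measureReal_ennreal_smul_apply, ENNReal.toReal_ofReal (d.hT a)]
    simp
  | succ n ih =>
    intro a S h
    unfold muW
    rw [real_step _ _ _ (d.hf _)]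
    by_cases h0 : (0:ℤ) ∈ S
    · rw [cons_false_pre S h0, cons_true_pre S h0]
      obtain ⟨hw, ha⟩ := split_mem d S h0 n h
      have := ih 0 _ hw
      rw [← ha] at this
      have hc : cW d a S = d.f (a + 1) := by unfold cW; rw [if_pos h0]
      rw [hc, measureReal_empty, zero_add, ← this]
      ring
    · rw [cons_pre_of_not_mem false S h0, cons_pre_of_not_mem true S h0]
      have hw := notmem_window S h0 n h
      have e1 := ih (a + 1) _ hw
      have e2 := ih 0 _ hw
      rw [aa_tr] at e1 e2
      have : d.p * ((muW d n (a + 1)).real (cyl (tr (-1) S)) +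
          d.f (a + 1) * (muW d n 0).real (cyl (tr (-1) S))) =
          (cW d (a + 1) (tr (-1) S) + d.f (a + 1) * cW d 0 (tr (-1) S)) * aa d.p d.ρ S := by
        rw [mul_add, e1]
        rw [show d.p * (d.f (a + 1) * (muW d n 0).real (cyl (tr (-1) S))) =
          d.f (a + 1) * (d.p * (muW d n 0).real (cyl (tr (-1) S))) by ring, e2]
        ring
      rw [this]
      congr 1
      unfold cW
      have m1 : ((0:ℤ) ∈ tr (-1) S) ↔ (1:ℤ) ∈ S := by rw [mem_tr]; norm_num
      have m2 : ((1:ℤ) ∈ tr (-1) S) ↔ (2:ℤ) ∈ S := by rw [mem_tr]; norm_num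
      simp only [m1, m2]
      rw [if_neg h0, zero_add, zero_add, d.f1, d.f2, d.T0]
      by_cases h1 : (1:ℤ) ∈ S
      · simp only [h1, if_true]
        ring_nf
      · simp only [h1, if_false]
        by_cases h2 : (2:ℤ) ∈ S
        · simp only [h2, if_true]
          have := d.hren a
          rw [show a + 1 + 2 = a + 3 by ring]
          linarith
        · simp only [h2, if_false]
          have := d.hrec a
          rw [this]
          ring

theorem muV_cyl (n : ℕ) : ∀ (a : ℕ) (S : Finset ℤ), (∀ s ∈ S, (0:ℤ) ≤ s ∧ s < (n:ℤ)) →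
    d.p * (muV d n a).real (cyl S) = cV d a S * aa d.p d.ρ S := by
  induction n with
  | zero =>
    intro a S h
    rw [empty_of_window S h, aa_empty, cyl_empty]
    unfold muV cV
    rw [measureReal_ennreal_smul_apply, ENNReal.toReal_ofReal
      (add_nonneg (d.hT _) (mul_nonneg d.hρ (d.hT _)))]
    simp
  | succ n ih =>
    intro a S h
    unfold muV
    rw [real_step _ _ _ (mul_nonneg d.hp.le (d.hT _))]
    by_cases h0 : (0:ℤ) ∈ S
    · rw [cons_false_pre S h0, cons_true_pre S h0]
      obtain ⟨hw, ha⟩ := split_mem d S h0 n h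
      have := muW_cyl d n 0 _ hw
      rw [← ha] at this
      have hc : cV d a S = d.p * d.T a := by unfold cV; rw [if_pos h0]
      rw [hc, measureReal_empty, zero_add, ← this]
      ring
    · rw [cons_pre_of_not_mem false S h0, cons_pre_of_not_mem true S h0]
      have hw := notmem_window S h0 n h
      have e1 := ih (a + 1) _ hw
      have e2 := muW_cyl d n 0 _ hw
      rw [aa_tr] at e1 e2
      have : d.p * ((muV d n (a + 1)).real (cyl (tr (-1) S)) +
          d.p * d.T a * (muW d n 0).real (cyl (tr (-1) S))) =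
          (cV d (a + 1) (tr (-1) S) + d.p * d.T a * cW d 0 (tr (-1) S)) * aa d.p d.ρ S := by
        rw [mul_add, e1]
        rw [show d.p * (d.p * d.T a * (muW d n 0).real (cyl (tr (-1) S))) =
          d.p * d.T a * (d.p * (muW d n 0).real (cyl (tr (-1) S))) by ring, e2]
        ring
      rw [this]
      congr 1
      unfold cW cV
      have m1 : ((0:ℤ) ∈ tr (-1) S) ↔ (1:ℤ) ∈ S := by rw [mem_tr]; norm_num
      have m2 : ((1:ℤ) ∈ tr (-1) S) ↔ (2:ℤ) ∈ S := by rw [mem_tr]; norm_num
      simp only [m1, m2]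
      rw [if_neg h0, zero_add, zero_add, d.f1, d.f2, d.T0]
      by_cases h1 : (1:ℤ) ∈ S
      · simp only [h1, if_true]
        ring
      · simp only [h1, if_false]
        by_cases h2 : (2:ℤ) ∈ S
        · simp only [h2, if_true]
          rw [show a + 1 + 1 = a + 2 by ring]
          ring
        · simp only [h2, if_false]
          have e3 := d.hrec (a + 2)
          have e4 := d.hrec a
          have e5 := d.hren a
          rw [show a + 2 + 1 = a + 3 by ring] at e3
          rw [show a + 1 + 2 = a + 3 by ring]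
          rw [e3, e4]
          have e6 : d.f (a + 3) = d.p * (d.T (a + 1) + d.f (a + 1)) - d.ρ * d.f (a + 1) := by
            rw [← e4]; linarith
          rw [e6]
          ring

theorem muV_zero_cyl (n : ℕ) (S : Finset ℤ) (h : ∀ s ∈ S, (0:ℤ) ≤ s ∧ s < (n:ℤ)) :
    (muV d n 0).real (cyl S) = aa d.p d.ρ S := by
  have := muV_cyl d n 0 S h
  have hc : cV d 0 S = d.p := by
    unfold cV
    have e1 := d.hrec 0
    have e2 := d.hrec 1
    rw [zero_add, d.T0, d.f1] at e1
    rw [show (1:ℕ) + 1 = 2 by norm_num, d.f2] at e2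
    rw [zero_add, zero_add, d.T0]
    split_ifs
    · ring
    · rw [show d.T 1 = 1 by linarith]; ring
    · rw [show d.T 2 = 1 - d.ρ by linarith]; ring
  rw [hc] at this
  exact mul_left_cancel₀ d.hp.ne' this

instance probV (n : ℕ) : IsProbabilityMeasure (muV d n 0) := by
  have := muV_zero_cyl d n ∅ (by simp)
  rw [aa_empty, cyl_empty] at this
  constructor
  rw [Measure.real, ENNReal.toReal_eq_one_iff] at this
  exact this

end Pool.Agent.R986.KD
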