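import Pool.Agent.R986.KD2

/-! From cylinder probabilities to stationary k-dependent hard-core laws. -/

namespace Pool.Agent.R986.KD

open MeasureTheory ProbabilityTheory Set

/-- occupied cylinders over sites of `A` -/
def cyls (A : Set ℤ) : Set (Set Cfg) := {E | ∃ S : Finset ℤ, (∀ s ∈ S, s ∈ A) ∧ E = cyl S}

theorem isPiSystem_cyls (A : Set ℤ) : IsPiSystem (cyls A) := by
  rintro _ ⟨S, hS, rfl⟩ _ ⟨S', hS', rfl⟩ _
  refine ⟨S ∪ S', ?_, ?_⟩
  · intro s hs
    rcases Finset.mem_union.1 hs with h | h
    · exact hS s h
    · exact hS' s h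
  · ext x
    simp only [cyl, mem_inter_iff, Set.mem_ofPred_eq, Finset.mem_union]
    constructor
    · rintro ⟨h1, h2⟩ s (h | h)
      · exact h1 s h
      · exact h2 s h
    · intro h
      exact ⟨fun s hs => h s (Or.inl hs), fun s hs => h s (Or.inr hs)⟩

theorem cyl_single (s : ℤ) : cyl {s} = {x : Cfg | x s = true} := by
  ext x; simp [cyl]

theorem comap_eq_generate (A : Set ℤ) :
    MeasurableSpace.comap (fun (x : Cfg) (a : A) => x a) MeasurableSpace.pi =
      MeasurableSpace.generateFrom (cyls A) := by
  apply le_antisymm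
  · rw [MeasurableSpace.comap_le_iff_le_map]
    rw [← measurable_iff_le_map]
    refine @measurable_pi_lambda _ _ _ (MeasurableSpace.generateFrom (cyls A)) _ _ ?_
    intro a
    have h1 : ∀ s : Bool, @MeasurableSet _ (MeasurableSpace.generateFrom (cyls A))
        ((fun x : Cfg => x a) ⁻¹' {s}) := by
      have ht : @MeasurableSet _ (MeasurableSpace.generateFrom (cyls A))
          ((fun x : Cfg => x a) ⁻¹' {true}) := by
        apply MeasurableSpace.measurableSet_generateFrom
        refine ⟨{(a:ℤ)}, ?_, ?_⟩
        · intro s hs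
          rw [Finset.mem_singleton] at hs
          rw [hs]
          exact a.2
        · rw [cyl_single]
          rfl
      intro s
      cases s with
      | true => exact ht
      | false =>
        have : ((fun x : Cfg => x a) ⁻¹' {false}) = ((fun x : Cfg => x a) ⁻¹' {true})ᶜ := by
          ext x
          simp
        rw [this]
        exact ht.compl
    exact @measurable_to_countable' Bool Cfg _ _ (MeasurableSpace.generateFrom (cyls A))
      (fun x : Cfg => x a) h1
  · apply MeasurableSpace.generateFrom_le
    rintro _ ⟨S, hS, rfl⟩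
    have : cyl S = ⋂ s ∈ S, {x : Cfg | x s = true} := by
      ext x; simp [cyl]
    rw [this]
    apply Finset.measurableSet_biInter
    intro s hs
    refine ⟨{y : A → Bool | y ⟨s, hS s hs⟩ = true}, ?_, ?_⟩
    · have h : Measurable (fun y : A → Bool => y ⟨s, hS s hs⟩) := measurable_pi_apply _
      exact h (measurableSet_singleton true)
    · rfl

theorem measurable_restr (A : Set ℤ) : Measurable (fun (x : Cfg) (a : A) => x a) := by
  apply measurable_pi_lambda
  intro a
  exact measurable_pi_apply _

theorem indepFun_of_cyl (μ : Measure Cfg) [IsProbabilityMeasure μ] (A B : Set ℤ)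
    (h : ∀ S S' : Finset ℤ, (∀ s ∈ S, s ∈ A) → (∀ s ∈ S', s ∈ B) →
      μ.real (cyl (S ∪ S')) = μ.real (cyl S) * μ.real (cyl S')) :
    IndepFun (fun (x : Cfg) (a : A) => x a) (fun (x : Cfg) (b : B) => x b) μ := by
  rw [IndepFun_iff_Indep]
  apply IndepSets.indep (measurable_restr A).comap_le (measurable_restr B).comap_le
    (isPiSystem_cyls A) (isPiSystem_cyls B) (comap_eq_generate A) (comap_eq_generate B)
  rw [IndepSets_iff]
  rintro _ _ ⟨S, hS, rfl⟩ ⟨S', hS', rfl⟩
  have hi : cyl S ∩ cyl S' = cyl (S ∪ S') := by
    ext x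
    simp only [cyl, mem_inter_iff, Set.mem_ofPred_eq, Finset.mem_union]
    constructor
    · rintro ⟨h1, h2⟩ s (h | h)
      · exact h1 s h
      · exact h2 s h
    · intro h
      exact ⟨fun s hs => h s (Or.inl hs), fun s hs => h s (Or.inr hs)⟩
  rw [hi]
  have := h S S' hS hS'
  rw [Measure.real, Measure.real, Measure.real, ← ENNReal.toReal_mul] at this
  exact (ENNReal.toReal_eq_toReal_iff' (measure_ne_top _ _)
    (ENNReal.mul_ne_top (measure_ne_top _ _) (measure_ne_top _ _))).1 this

theorem measurable_shift : Measurable shift := by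
  apply measurable_pi_lambda
  intro i
  exact measurable_pi_apply _

theorem generate_univ : (inferInstance : MeasurableSpace Cfg) =
    MeasurableSpace.generateFrom (cyls Set.univ) := by
  have := comap_eq_generate Set.univ
  rw [← this]
  apply le_antisymm
  · have h : @Measurable Cfg Cfg (MeasurableSpace.comap
        (fun (x : Cfg) (a : (Set.univ : Set ℤ)) => x a) MeasurableSpace.pi) MeasurableSpace.pi
        (fun x => x) := by
      refine @measurable_pi_lambda _ _ _ (MeasurableSpace.comap _ _) _ _ ?_
      intro i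
      have h1 : Measurable (fun y : ↥(Set.univ : Set ℤ) → Bool => y ⟨i, trivial⟩) :=
        measurable_pi_apply _
      exact h1.comp (comap_measurable _)
    intro s hs
    exact h hs
  · exact (measurable_restr Set.univ).comap_le

theorem shift_pre (S : Finset ℤ) : shift ⁻¹' cyl S = cyl (tr 1 S) := by
  ext x
  simp only [cyl, shift, mem_preimage, Set.mem_ofPred_eq, mem_tr]
  constructor
  · intro h s hs
    have := h _ hs
    rwa [sub_add_cancel] at this
  · intro h s hs
    apply h
    rw [add_sub_cancel_right]
    exact hs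

/-- criterion for a stationary k-dependent hard-core law -/
theorem isProc_of (k : ℕ) (μ : Measure Cfg) [hμ : IsProbabilityMeasure μ]
    (h1 : ∀ S : Finset ℤ, μ.real (cyl (tr 1 S)) = μ.real (cyl S))
    (h2 : ∀ i : ℤ, μ.real (cyl {i, i + 1}) = 0)
    (h3 : ∀ S S' : Finset ℤ, (∀ a ∈ S, ∀ b ∈ S', (k:ℤ) < |a - b|) →
      μ.real (cyl (S ∪ S')) = μ.real (cyl S) * μ.real (cyl S')) : IsProc k μ where
  prob := hμ
  hardcore := by
    have : {x : Cfg | ∃ i : ℤ, x i = true ∧ x (i + 1) = true} = ⋃ i : ℤ, cyl {i, i + 1} := by
      ext x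
      simp [cyl]
    rw [this, measure_iUnion_null_iff]
    intro i
    have := h2 i
    rw [Measure.real, ENNReal.toReal_eq_zero_iff] at this
    rcases this with h | h
    · exact h
    · exact absurd h (measure_ne_top _ _)
  stationary := by
    have : IsProbabilityMeasure (μ.map shift) :=
      Measure.isProbabilityMeasure_map measurable_shift.aemeasurable
    apply ext_of_generate_finite (cyls Set.univ) generate_univ (isPiSystem_cyls _)
    · rintro _ ⟨S, hS, rfl⟩
      rw [Measure.map_apply measurable_shift (measurableSet_cyl S), shift_pre]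
      have := h1 S
      exact (ENNReal.toReal_eq_toReal_iff' (measure_ne_top _ _) (measure_ne_top _ _)).1 this
    · rw [measure_univ, measure_univ]
  dep := by
    intro A B hAB
    apply indepFun_of_cyl
    intro S S' hS hS'
    exact h3 S S' (fun a ha b hb => hAB a (hS a ha) b (hS' b hb))

/-- translate a configuration -/
def trc (n : ℤ) (x : Cfg) : Cfg := fun i => x (i + n)

theorem measurable_trc (n : ℤ) : Measurable (trc n) := by
  apply measurable_pi_lambda
  intro i
  exact measurable_pi_apply _

theorem trc_pre (n : ℤ) (S : Finset ℤ) : trc n ⁻¹' cyl S = cyl (tr n S) := by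
  ext x
  simp only [cyl, trc, mem_preimage, Set.mem_ofPred_eq, mem_tr]
  constructor
  · intro h s hs
    have := h _ hs
    rwa [sub_add_cancel] at this
  · intro h s hs
    apply h
    rw [add_sub_cancel_right]
    exact hs

/-- continuous indicator of an occupied cylinder -/
noncomputable def indc (S : Finset ℤ) : BoundedContinuousFunction Cfg ℝ :=
  BoundedContinuousFunction.mkOfCompact
    ⟨fun x => ∏ s ∈ S, (if x s = true then (1:ℝ) else 0), by
      apply continuous_finsetProd
      intro s _
      exact (continuous_of_discreteTopology (f := fun b : Bool => if b = true then (1:ℝ) else 0)).comp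
        (continuous_apply s)⟩

theorem integral_indc (μ : Measure Cfg) [IsFiniteMeasure μ] (S : Finset ℤ) :
    ∫ x, indc S x ∂μ = μ.real (cyl S) := by
  have : (fun x => indc S x) = (cyl S).indicator (fun _ => (1:ℝ)) := by
    funext x
    change (∏ s ∈ S, (if x s = true then (1:ℝ) else 0)) = _
    by_cases h : x ∈ cyl S
    · rw [indicator_of_mem h]
      apply Finset.prod_eq_one
      intro s hs
      rw [if_pos (h s hs)]
    · rw [indicator_of_notMem h]
      simp only [cyl, Set.mem_ofPred_eq, not_forall] at h
      obtain ⟨s, hs, hx⟩ := h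
      apply Finset.prod_eq_zero hs
      rw [if_neg hx]
  rw [this, integral_indicator (measurableSet_cyl S)]
  simp

/-- existence of a measure on two-sided configurations with prescribed cylinders -/
theorem exists_measure (a : Finset ℤ → ℝ)
    (h : ∀ n : ℕ, ∃ μ : Measure Cfg, IsProbabilityMeasure μ ∧
      ∀ S : Finset ℤ, (∀ s ∈ S, -(n:ℤ) ≤ s ∧ s ≤ n) → μ.real (cyl S) = a S) :
    ∃ μ : Measure Cfg, IsProbabilityMeasure μ ∧ ∀ S, μ.real (cyl S) = a S := by
  let K : ℕ → Set (ProbabilityMeasure Cfg) := fun n =>
    {μ | ∀ S : Finset ℤ, (∀ s ∈ S, -(n:ℤ) ≤ s ∧ s ≤ n) → (μ : Measure Cfg).real (cyl S) = a S}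
  have hclosed : ∀ n, IsClosed (K n) := by
    intro n
    have : K n = ⋂ S : Finset ℤ, ⋂ _ : (∀ s ∈ S, -(n:ℤ) ≤ s ∧ s ≤ n),
        {μ : ProbabilityMeasure Cfg | (μ : Measure Cfg).real (cyl S) = a S} := by
      ext μ
      simp [K]
    rw [this]
    apply isClosed_iInter
    intro S
    apply isClosed_iInter
    intro _
    have hc := ProbabilityMeasure.continuous_integral_boundedContinuousFunction (indc S)
    have : {μ : ProbabilityMeasure Cfg | (μ : Measure Cfg).real (cyl S) = a S} =
        {μ : ProbabilityMeasure Cfg | ∫ x, indc S x ∂(μ : Measure Cfg) = a S} := by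
      ext μ
      simp only [Set.mem_ofPred_eq, integral_indc]
    rw [this]
    exact isClosed_eq hc continuous_const
  have hne : (⋂ n, K n).Nonempty := by
    apply IsCompact.nonempty_iInter_of_sequence_nonempty_isCompact_isClosed
    · intro n μ hμ S hS
      apply hμ
      intro s hs
      have := hS s hs
      push_cast
      omega
    · intro n
      obtain ⟨μ, h1, h2⟩ := h n
      exact ⟨⟨μ, h1⟩, h2⟩
    · exact (hclosed 0).isCompact
    · exact hclosed
  obtain ⟨μ, hμ⟩ := hne
  refine ⟨(μ : Measure Cfg), inferInstance, ?_⟩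
  intro S
  obtain ⟨n, hn⟩ : ∃ n : ℕ, ∀ s ∈ S, -(n:ℤ) ≤ s ∧ s ≤ n := by
    refine ⟨∑ s ∈ S, s.natAbs, ?_⟩
    intro s hs
    have : s.natAbs ≤ ∑ s ∈ S, s.natAbs := Finset.single_le_sum (fun _ _ => Nat.zero_le _) hs
    omega
  exact (mem_iInter.1 hμ n) S hn

/-- the renewal process exists -/
theorem exists_renewal (d : Dat) :
    ∃ μ : Measure Cfg, IsProc 2 μ ∧ μ.real {x | x 0 = true} = d.p := by
  obtain ⟨μ, h1, h2⟩ := exists_measure (aa d.p d.ρ) (by
    intro n
    refine ⟨(muV d (2 * n + 1) 0).map (trc n), ?_, ?_⟩
    · exact Measure.isProbabilityMeasure_map (measurable_trc n).aemeasurable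
    · intro S hS
      rw [map_measureReal_apply (measurable_trc _) (measurableSet_cyl S), trc_pre,
        muV_zero_cyl, aa_tr]
      intro s hs
      rw [mem_tr] at hs
      have := hS _ hs
      push_cast
      omega)
  refine ⟨μ, ?_, ?_⟩
  · apply isProc_of
    · intro S; rw [h2, h2, aa_tr]
    · intro i; rw [h2, aa_pair]
    · intro S S' h
      rw [h2, h2, h2, aa_union]
      intro a ha b hb
      have := h a ha b hb
      simpa using this
  · rw [← cyl_single, h2, aa_singleton]

end Pool.Agent.R986.KD
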