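import Pool.Agent.R986.KD3

/-! The explicit renewal law with marginal 7/20. -/

namespace Pool.Agent.R986.KD

open MeasureTheory ProbabilityTheory Set

/-- the state (T j, f (j+1), f (j+2)) -/
noncomputable def st : ℕ → ℝ × ℝ × ℝ
  | 0 => (1, 0, 9 / 20)
  | n + 1 => ((st n).1 - (st n).2.1, (st n).2.2, 7 / 20 * (st n).1 - 9 / 20 * (st n).2.1)

theorem st_inv (n : ℕ) :
    7 / 10 * (st n).1 - 1 / 2 * (st n).2.1 - (st n).2.2 = 1 / 4 * (1 / 2) ^ n := by
  induction n with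
  | zero => simp only [st]; norm_num
  | succ n ih =>
    simp only [st]
    rw [pow_succ]
    linarith

theorem st_quad (n : ℕ) :
    (14 / 5) * ((st n).1 - 5 / 4 * (1 / 2) ^ n) ^ 2
      - 6 * ((st n).1 - 5 / 4 * (1 / 2) ^ n) * ((st n).2.1 - 5 / 8 * (1 / 2) ^ n)
      + 4 * ((st n).2.1 - 5 / 8 * (1 / 2) ^ n) ^ 2 = 4 / 5 * (1 / 5) ^ n := by
  induction n with
  | zero => simp only [st]; norm_num
  | succ n ih =>
    have h := st_inv n
    have hv : (st n).2.2 = 7 / 10 * (st n).1 - 1 / 2 * (st n).2.1 - 1 / 4 * (1 / 2) ^ n := by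
      linarith
    simp only [st]
    have e1 : ((1:ℝ) / 2) ^ (n + 1) = (1 / 2) ^ n * (1 / 2) := pow_succ _ _
    have e2 : ((1:ℝ) / 5) ^ (n + 1) = (1 / 5) ^ n * (1 / 5) := pow_succ _ _
    have e : (4:ℝ) / 5 * ((1 / 5) ^ n * (1 / 5)) = 1 / 5 * (4 / 5 * (1 / 5) ^ n) := by ring
    rw [hv, e1, e2, e, ← ih]
    ring

theorem T_nonneg (n : ℕ) : 0 ≤ (st n).1 := by
  have h := st_quad n
  set y : ℝ := (1 / 2) ^ n with hy
  have hy0 : 0 < y := by positivity
  set τ := (st n).1 - 5 / 4 * y with hτ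
  set υ := (st n).2.1 - 5 / 8 * y with hυ
  have h5 : ((1:ℝ) / 5) ^ n ≤ y ^ 2 := by
    rw [hy, ← pow_mul, mul_comm, pow_mul]
    apply pow_le_pow_left₀ (by norm_num)
    norm_num
  have hτ2 : τ ^ 2 ≤ (5 / 4 * y) ^ 2 := by
    nlinarith [sq_nonneg (υ - 3 / 4 * τ)]
  have : -(5 / 4 * y) ≤ τ := by
    exact (abs_le_of_sq_le_sq' hτ2 (by positivity)).1
  linarith

theorem f_nonneg (n : ℕ) : 0 ≤ (st n).2.1 := by
  rcases Nat.lt_or_ge n 5 with h | h
  · interval_cases n <;> simp only [st] <;> norm_num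
  · obtain ⟨m, rfl⟩ := Nat.exists_eq_add_of_le h
    have h := st_quad (5 + m)
    set y : ℝ := (1 / 2) ^ (5 + m) with hy
    have hy0 : 0 < y := by positivity
    set τ := (st (5 + m)).1 - 5 / 4 * y with hτ
    set υ := (st (5 + m)).2.1 - 5 / 8 * y with hυ
    have h5 : ((1:ℝ) / 5) ^ (5 + m) ≤ (4 / 5) ^ 5 * y ^ 2 := by
      rw [hy, ← pow_mul, mul_comm (5 + m) 2, pow_mul, pow_add, pow_add, ← mul_assoc]
      have e1 : ((4:ℝ) / 5) ^ 5 * ((1 / 2) ^ 2) ^ 5 = (1 / 5) ^ 5 := by norm_num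
      rw [e1]
      have : ((1:ℝ) / 5) ^ m ≤ ((1 / 2) ^ 2) ^ m := by
        apply pow_le_pow_left₀ (by norm_num)
        norm_num
      have h0 : (0:ℝ) ≤ (1 / 5) ^ 5 := by positivity
      exact mul_le_mul_of_nonneg_left this h0
    have hυ2 : υ ^ 2 ≤ (5 / 8 * y) ^ 2 := by
      nlinarith [sq_nonneg (τ - 15 / 14 * υ), sq_nonneg y]
    have : -(5 / 8 * y) ≤ υ := by
      exact (abs_le_of_sq_le_sq' hυ2 (by positivity)).1
    linarith

/-- explicit data -/
noncomputable def theDat : Dat where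
  p := 7 / 20
  ρ := 9 / 20
  f := fun n => match n with
    | 0 => 0
    | n + 1 => (st n).2.1
  T := fun n => (st n).1
  hp := by norm_num
  hρ := by norm_num
  hf := by
    intro j
    cases j with
    | zero => exact le_refl _
    | succ j => exact f_nonneg j
  hT := T_nonneg
  T0 := rfl
  f1 := rfl
  f2 := rfl
  hrec := by
    intro j
    simp only [st]
    ring
  hren := by
    intro j
    simp only [st]
    ring

theorem exists_seven_twentieths :
    ∃ μ : Measure Cfg, IsProc 2 μ ∧ μ.real {x | x 0 = true} = 7 / 20 :=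
  exists_renewal theDat

theorem pcrit_bdd (k : ℕ) :
    BddAbove {t : ℝ | ∃ μ : Measure Cfg, IsProc k μ ∧ t = μ.real {x | x 0 = true}} := by
  refine ⟨1, ?_⟩
  rintro _ ⟨μ, h, rfl⟩
  have := h.prob
  exact measureReal_le_one

theorem pcrit_two_ge : (7:ℝ) / 20 ≤ pcrit 2 := by
  obtain ⟨μ, h1, h2⟩ := exists_seven_twentieths
  exact le_csSup (pcrit_bdd 2) ⟨μ, h1, h2.symm⟩

end Pool.Agent.R986.KD
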