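import Pool.Agent.R986.KD4

/-! Upper bounds for the marginal of k-dependent hard-core processes. -/

namespace Pool.Agent.R986.KD

open MeasureTheory ProbabilityTheory Set

variable {k : ℕ} {μ : Measure Cfg}

theorem IsProc.tr_one (h : IsProc k μ) (S : Finset ℤ) :
    μ.real (cyl (tr 1 S)) = μ.real (cyl S) := by
  have := h.prob
  conv_rhs => rw [← h.stationary]
  rw [map_measureReal_apply measurable_shift (measurableSet_cyl S), shift_pre]

theorem tr_tr (m n : ℤ) (S : Finset ℤ) : tr m (tr n S) = tr (m + n) S := by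
  ext s
  rw [mem_tr, mem_tr, mem_tr, sub_sub, add_comm]

theorem IsProc.tr_nat (h : IsProc k μ) (n : ℕ) (S : Finset ℤ) :
    μ.real (cyl (tr n S)) = μ.real (cyl S) := by
  induction n with
  | zero =>
    congr 2
    ext s
    rw [mem_tr]
    simp
  | succ n ih =>
    have : tr ((n + 1 : ℕ) : ℤ) S = tr 1 (tr n S) := by
      rw [tr_tr]
      push_cast
      rw [add_comm]
    rw [this, h.tr_one, ih]

theorem meas_all (A : Set ℤ) : MeasurableSet {y : ↥A → Bool | ∀ s, y s = true} := by
  have : {y : ↥A → Bool | ∀ s, y s = true} = ⋂ s : ↥A, {y | y s = true} := by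
    ext y; simp
  rw [this]
  apply MeasurableSet.iInter
  intro s
  have hm : Measurable (fun y : ↥A → Bool => y s) := measurable_pi_apply _
  exact hm (measurableSet_singleton true)

theorem IsProc.mul (h : IsProc k μ) (S S' : Finset ℤ)
    (hS : ∀ a ∈ S, ∀ b ∈ S', (k:ℤ) < |a - b|) :
    μ.real (cyl (S ∪ S')) = μ.real (cyl S) * μ.real (cyl S') := by
  have hp := h.prob
  have h1 := h.dep (S : Set ℤ) (S' : Set ℤ) (by
    intro a ha b hb
    exact hS a (by simpa using ha) b (by simpa using hb))
  rw [indepFun_iff_measure_inter_preimage_eq_mul] at h1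
  have h2 := h1 {y | ∀ s, y s = true} {y | ∀ s, y s = true} (meas_all _) (meas_all _)
  have e1 : (fun (x : Cfg) (a : (S : Set ℤ)) => x a) ⁻¹' {y | ∀ s, y s = true} = cyl S := by
    ext x
    simp [cyl]
  have e2 : (fun (x : Cfg) (a : (S' : Set ℤ)) => x a) ⁻¹' {y | ∀ s, y s = true} = cyl S' := by
    ext x
    simp [cyl]
  have e3 : cyl S ∩ cyl S' = cyl (S ∪ S') := by
    ext x
    simp only [cyl, mem_inter_iff, Set.mem_ofPred_eq, Finset.mem_union]
    constructor
    · rintro ⟨h1, h2⟩ s (h | h)
      · exact h1 s h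
      · exact h2 s h
    · intro h
      exact ⟨fun s hs => h s (Or.inl hs), fun s hs => h s (Or.inr hs)⟩
  rw [e1, e2, e3] at h2
  rw [Measure.real, h2, ENNReal.toReal_mul]
  rfl

/-- configurations without adjacent occupied sites -/
def good : Set Cfg := {x | ∀ i : ℤ, ¬ (x i = true ∧ x (i + 1) = true)}

theorem IsProc.ae_good (h : IsProc k μ) : ∀ᵐ x ∂μ, x ∈ good := by
  rw [ae_iff]
  have : {x : Cfg | ¬ x ∈ good} = {x | ∃ i : ℤ, x i = true ∧ x (i + 1) = true} := by
    ext x
    simp [good]
  rw [this]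
  exact h.hardcore

/-- indicator of an occupied cylinder -/
noncomputable def ic (S : Finset ℤ) (x : Cfg) : ℝ := (cyl S).indicator (fun _ => (1:ℝ)) x

theorem integrable_ic [IsFiniteMeasure μ] (S : Finset ℤ) : Integrable (ic S) μ :=
  (integrable_const (1:ℝ)).indicator (measurableSet_cyl S)

theorem integral_ic [IsFiniteMeasure μ] (S : Finset ℤ) : ∫ x, ic S x ∂μ = μ.real (cyl S) := by
  unfold ic
  rw [integral_indicator (measurableSet_cyl S)]
  simp

/-- value of a linear combination -/
noncomputable def lc (L : List (ℝ × Finset ℤ)) (x : Cfg) : ℝ := (L.map (fun z => z.1 * ic z.2 x)).sum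

theorem integral_lc [IsFiniteMeasure μ] (L : List (ℝ × Finset ℤ)) :
    Integrable (lc L) μ ∧
      ∫ x, lc L x ∂μ = (L.map (fun z => z.1 * μ.real (cyl z.2))).sum := by
  induction L with
  | nil =>
    constructor
    · have : lc [] = fun _ => (0:ℝ) := by
        funext x; simp [lc]
      rw [this]
      exact integrable_const _
    · simp [lc]
  | cons z L ih =>
    have e : lc (z :: L) = fun x => z.1 * ic z.2 x + lc L x := by
      funext x
      simp [lc]
    have hi : Integrable (fun x => z.1 * ic z.2 x) μ := (integrable_ic z.2).const_mul _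
    constructor
    · rw [e]
      exact hi.add ih.1
    · rw [e, integral_add hi ih.1, ih.2, integral_const_mul, integral_ic]
      simp

theorem ic_eq (S : Finset ℤ) (x : Cfg) : ic S x = ∏ s ∈ S, (if x s = true then (1:ℝ) else 0) := by
  unfold ic
  by_cases h : x ∈ cyl S
  · rw [indicator_of_mem h]
    symm
    apply Finset.prod_eq_one
    intro s hs
    rw [if_pos (h s hs)]
  · rw [indicator_of_notMem h]
    simp only [cyl, Set.mem_ofPred_eq, not_forall] at h
    obtain ⟨s, hs, hx⟩ := h
    symm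
    apply Finset.prod_eq_zero hs
    rw [if_neg hx]

/-- the linear functional used for the window of length six -/
noncomputable def L1 (c : ℝ) : List (ℝ × Finset ℤ) :=
  [(1, ∅), (-1, {0}), (1, {1}), (-1, {2}), (-1, {3}), (-1, {4}), (-1, {5}),
   (1, {0, 2}), (-1, {1, 3}), (1, {2, 4}), (1, {3, 5}),
   (1, {0, 3}), (-1, {1, 4}), (1, {2, 5}), (1, {0, 4}), (-1, {1, 5}), (1 + c, {0, 5}),
   (-1, {0, 2, 4}), (1, {1, 3, 5}), (-1 - c, {0, 2, 5}), (-1 - c, {0, 3, 5})]

theorem L1_nonneg (c : ℝ) (hc : 0 ≤ c) (x : Cfg) (hx : x ∈ good) : 0 ≤ lc (L1 c) x := by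
  have h0 := hx 0
  have h1 := hx 1
  have h2 := hx 2
  have h3 := hx 3
  have h4 := hx 4
  norm_num at h0 h1 h2 h3 h4
  have e : lc (L1 c) x = (L1 c |>.map (fun z => z.1 * ∏ s ∈ z.2, (if x s = true then (1:ℝ) else 0))).sum := by
    unfold lc
    simp only [ic_eq]
  rw [e]
  unfold L1
  simp only [List.map_cons, List.map_nil, List.sum_cons, List.sum_nil, Finset.prod_empty,
    Finset.prod_singleton]
  have p2 : ∀ a b : ℤ, a ≠ b → ∏ s ∈ ({a, b} : Finset ℤ), (if x s = true then (1:ℝ) else 0) =
      (if x a = true then (1:ℝ) else 0) * (if x b = true then (1:ℝ) else 0) := by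
    intro a b hab
    rw [Finset.prod_pair hab]
  have p3 : ∀ a b c : ℤ, a ≠ b → a ≠ c → b ≠ c →
      ∏ s ∈ ({a, b, c} : Finset ℤ), (if x s = true then (1:ℝ) else 0) =
      (if x a = true then (1:ℝ) else 0) * ((if x b = true then (1:ℝ) else 0) *
        (if x c = true then (1:ℝ) else 0)) := by
    intro a b c hab hac hbc
    rw [Finset.prod_insert (by simp [hab, hac]), Finset.prod_pair hbc]
  simp only [p2 0 2 (by norm_num), p2 1 3 (by norm_num), p2 2 4 (by norm_num),
    p2 3 5 (by norm_num), p2 0 3 (by norm_num), p2 1 4 (by norm_num), p2 2 5 (by norm_num),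
    p2 0 4 (by norm_num), p2 1 5 (by norm_num), p2 0 5 (by norm_num),
    p3 0 2 4 (by norm_num) (by norm_num) (by norm_num),
    p3 1 3 5 (by norm_num) (by norm_num) (by norm_num),
    p3 0 2 5 (by norm_num) (by norm_num) (by norm_num),
    p3 0 3 5 (by norm_num) (by norm_num) (by norm_num)]
  cases x0 : x 0 <;> cases x1 : x 1 <;> cases x2 : x 2 <;> cases x3 : x 3 <;>
    cases x4 : x 4 <;> cases x5 : x 5 <;> simp_all


theorem tr_pair (n a b : ℤ) : tr n {a, b} = {a + n, b + n} := by
  ext s
  rw [mem_tr]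
  simp only [Finset.mem_insert, Finset.mem_singleton]
  constructor
  · rintro (h | h)
    · left; linarith
    · right; linarith
  · rintro (h | h)
    · left; linarith
    · right; linarith

theorem tr_single (n a : ℤ) : tr n {a} = {a + n} := by
  ext s
  rw [mem_tr]
  simp only [Finset.mem_singleton]
  constructor <;> intro h <;> linarith

theorem IsProc.single (h : IsProc k μ) (n : ℕ) :
    μ.real (cyl {(n:ℤ)}) = μ.real (cyl {0}) := by
  have := h.tr_nat n {0}
  rwa [tr_single, zero_add] at this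

theorem IsProc.pair (h : IsProc k μ) (n : ℕ) (b : ℤ) :
    μ.real (cyl {(n:ℤ), b + n}) = μ.real (cyl {0, b}) := by
  have := h.tr_nat n {0, b}
  rwa [tr_pair, zero_add] at this

/-- window-six inequality -/
theorem quad_two (h : IsProc 2 μ) (hp : 0 < μ.real (cyl {0})) :
    0 ≤ 1 - 3 * μ.real (cyl {0}) + μ.real (cyl {0}) ^ 2 := by
  have hprob := h.prob
  set p := μ.real (cyl {0}) with hpdef
  have hp1 : p ≤ 1 := measureReal_le_one
  set q := μ.real (cyl {0, 2}) with hq
  have hc : 0 ≤ (1 - p) / p := div_nonneg (by linarith) hp.le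
  have hint := integral_lc (μ := μ) (L1 ((1 - p) / p))
  have hnn : 0 ≤ ∫ x, lc (L1 ((1 - p) / p)) x ∂μ := by
    apply integral_nonneg_of_ae
    filter_upwards [h.ae_good] with x hx
    exact L1_nonneg _ hc x hx
  rw [hint.2] at hnn
  have s1 : μ.real (cyl {1}) = p := h.single 1
  have s2 : μ.real (cyl {2}) = p := h.single 2
  have s3 : μ.real (cyl {3}) = p := h.single 3
  have s4 : μ.real (cyl {4}) = p := h.single 4
  have s5 : μ.real (cyl {5}) = p := h.single 5
  have t13 : μ.real (cyl {1, 3}) = q := h.pair 1 2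
  have t24 : μ.real (cyl {2, 4}) = q := h.pair 2 2
  have t35 : μ.real (cyl {3, 5}) = q := h.pair 3 2
  have ind : ∀ a b : ℤ, 2 < |a - b| → μ.real (cyl {a, b}) = μ.real (cyl {a}) * μ.real (cyl {b}) := by
    intro a b hab
    have := h.mul {a} {b} (by
      intro x hx y hy
      rw [Finset.mem_singleton] at hx hy
      rw [hx, hy]
      exact hab)
    exact this
  have u03 : μ.real (cyl {0, 3}) = p * p := by rw [ind 0 3 (by norm_num), s3]
  have u14 : μ.real (cyl {1, 4}) = p * p := by rw [ind 1 4 (by norm_num), s1, s4]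
  have u25 : μ.real (cyl {2, 5}) = p * p := by rw [ind 2 5 (by norm_num), s2, s5]
  have u04 : μ.real (cyl {0, 4}) = p * p := by rw [ind 0 4 (by norm_num), s4]
  have u15 : μ.real (cyl {1, 5}) = p * p := by rw [ind 1 5 (by norm_num), s1, s5]
  have u05 : μ.real (cyl {0, 5}) = p * p := by rw [ind 0 5 (by norm_num), s5]
  have v : μ.real (cyl {1, 3, 5}) = μ.real (cyl {0, 2, 4}) := by
    have := h.tr_nat 1 {0, 2, 4}
    rw [← this]
    congr 2
  have w1 : μ.real (cyl {0, 2, 5}) = q * p := by
    have := h.mul {0, 2} {5} (by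
      intro x hx y hy
      rw [Finset.mem_singleton] at hy
      rw [Finset.mem_insert, Finset.mem_singleton] at hx
      rcases hx with rfl | rfl <;> rw [hy] <;> norm_num)
    rw [s5] at this
    rw [← this]
    congr 2
  have w2 : μ.real (cyl {0, 3, 5}) = p * q := by
    have := h.mul {0} {3, 5} (by
      intro x hx y hy
      rw [Finset.mem_singleton] at hx
      rw [Finset.mem_insert, Finset.mem_singleton] at hy
      rcases hy with rfl | rfl <;> rw [hx] <;> norm_num)
    rw [t35] at this
    rw [← this]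
    congr 2
  unfold L1 at hnn
  simp only [List.map_cons, List.map_nil, List.sum_cons, List.sum_nil] at hnn
  rw [s1, s2, s3, s4, s5, t13, t24, t35, u03, u14, u25, u04, u15, u05, v, w1, w2, cyl_empty,
    ← hpdef, ← hq] at hnn
  rw [probReal_univ] at hnn
  have e : (1 - p) / p * p = 1 - p := by field_simp
  have e2 : (1 + (1 - p) / p) * p = 1 := by rw [add_mul, e]; ring
  have e3 : (1 + (1 - p) / p) * (p * p) = p := by rw [← mul_assoc, e2, one_mul]
  have e4 : (-1 - (1 - p) / p) * (q * p) = -q := by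
    rw [show (-1 - (1 - p) / p) * (q * p) = -q * ((1 + (1 - p) / p) * p) by ring, e2]
    ring
  have e5 : (-1 - (1 - p) / p) * (p * q) = -q := by
    rw [show (-1 - (1 - p) / p) * (p * q) = -q * ((1 + (1 - p) / p) * p) by ring, e2]
    ring
  rw [e3, e4, e5] at hnn
  linarith [hnn, sq p]

end Pool.Agent.R986.KD
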