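import Pool.Agent.R986.KD5

/-! General upper bound, and the upper bound for two-dependent processes. -/

namespace Pool.Agent.R986.KD

open MeasureTheory ProbabilityTheory Set

variable {k : ℕ} {μ : Measure Cfg}

theorem ic_single (i : ℤ) (x : Cfg) : ic {i} x = if x i = true then 1 else 0 := by
  rw [ic_eq, Finset.prod_singleton]

theorem z_nonneg (x : Cfg) (hx : x ∈ good) (i : ℤ) : 0 ≤ 1 - ic {i} x - ic {i + 1} x := by
  rw [ic_single, ic_single]
  have := hx i
  by_cases h1 : x i = true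
  · by_cases h2 : x (i + 1) = true
    · exact absurd ⟨h1, h2⟩ this
    · rw [if_pos h1, if_neg h2]; norm_num
  · rw [if_neg h1]
    split_ifs <;> norm_num

theorem tele (x : Cfg) (hx : x ∈ good) (n : ℕ) :
    ic {0} x - ic {((2 * n : ℕ) : ℤ)} x ≤
      ∑ i ∈ Finset.range (2 * n), (1 - ic {(i:ℤ)} x - ic {((i:ℤ) + 1)} x) := by
  induction n with
  | zero => simp
  | succ n ih =>
    rw [show 2 * (n + 1) = 2 * n + 1 + 1 by ring, Finset.sum_range_succ, Finset.sum_range_succ]
    have h1 := z_nonneg x hx ((2 * n : ℕ) : ℤ)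
    have e : (((2 * n + 1 : ℕ)) : ℤ) = ((2 * n : ℕ) : ℤ) + 1 := by push_cast; ring
    have e2 : (((2 * n + 1 + 1 : ℕ)) : ℤ) = ((2 * n + 1 : ℕ) : ℤ) + 1 := by push_cast; ring
    rw [e2, e] at *
    linarith

theorem pw_bound (x : Cfg) (hx : x ∈ good) (n : ℕ) :
    ic {0} x - ic {0, ((2 * n : ℕ) : ℤ)} x ≤
      ∑ i ∈ Finset.range (2 * n), (1 - ic {(i:ℤ)} x - ic {((i:ℤ) + 1)} x) := by
  have h := tele x hx n
  have hs : 0 ≤ ∑ i ∈ Finset.range (2 * n), (1 - ic {(i:ℤ)} x - ic {((i:ℤ) + 1)} x) :=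
    Finset.sum_nonneg (fun i _ => z_nonneg x hx i)
  rcases Nat.eq_zero_or_pos n with hn | hn
  · subst hn
    simp
  · have hne : (0:ℤ) ≠ ((2 * n : ℕ) : ℤ) := by
      push_cast; omega
    have e : ic {0, ((2 * n : ℕ) : ℤ)} x = ic {0} x * ic {((2 * n : ℕ) : ℤ)} x := by
      rw [ic_eq, Finset.prod_pair hne, ic_single, ic_single]
    rw [e]
    rw [ic_single, ic_single] at *
    by_cases h1 : x 0 = true
    · rw [if_pos h1] at *
      linarith
    · rw [if_neg h1] at *
      linarith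

theorem integral_z [IsProbabilityMeasure μ] (S S' : Finset ℤ) :
    ∫ x, (1 - ic S x - ic S' x) ∂μ = 1 - μ.real (cyl S) - μ.real (cyl S') := by
  have h1 : Integrable (fun x => 1 - ic S x) μ := (integrable_const (1:ℝ)).sub (integrable_ic S)
  rw [integral_sub h1 (integrable_ic S'),
    integral_sub (integrable_const (1:ℝ)) (integrable_ic S), integral_ic, integral_ic]
  simp

/-- quadratic constraint for k-dependent processes -/
theorem quad_gen (h : IsProc k μ) (n : ℕ) (hn : k < 2 * n) :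
    μ.real (cyl {0}) - μ.real (cyl {0}) ^ 2 ≤ (2 * n : ℕ) * (1 - 2 * μ.real (cyl {0})) := by
  have hprob := h.prob
  have hi : ∀ i : ℕ, Integrable (fun x => 1 - ic {(i:ℤ)} x - ic {((i:ℤ) + 1)} x) μ := fun i =>
    ((integrable_const (1:ℝ)).sub (integrable_ic _)).sub (integrable_ic _)
  have h1 : ∫ x, (ic {0} x - ic {0, ((2 * n : ℕ) : ℤ)} x) ∂μ ≤
      ∫ x, (∑ i ∈ Finset.range (2 * n), (1 - ic {(i:ℤ)} x - ic {((i:ℤ) + 1)} x)) ∂μ := by
    apply integral_mono_ae
    · exact (integrable_ic _).sub (integrable_ic _)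
    · exact integrable_finsetSum _ (fun i _ => hi i)
    · filter_upwards [h.ae_good] with x hx
      exact pw_bound x hx n
  rw [integral_sub (integrable_ic _) (integrable_ic _), integral_ic, integral_ic,
    integral_finsetSum _ (fun i _ => hi i)] at h1
  have h2 : ∀ i ∈ Finset.range (2 * n),
      ∫ x, (1 - ic {(i:ℤ)} x - ic {((i:ℤ) + 1)} x) ∂μ = 1 - 2 * μ.real (cyl {0}) := by
    intro i _
    rw [integral_z]
    have e1 := h.single i
    have e2 := h.single (i + 1)
    push_cast at e2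
    rw [e1, e2]
    ring
  rw [Finset.sum_congr rfl h2, Finset.sum_const, Finset.card_range, nsmul_eq_mul] at h1
  have h3 : μ.real (cyl {0, ((2 * n : ℕ) : ℤ)}) = μ.real (cyl {0}) ^ 2 := by
    have := h.mul {0} {((2 * n : ℕ) : ℤ)} (by
      intro a ha b hb
      rw [Finset.mem_singleton] at ha hb
      rw [ha, hb, zero_sub, abs_neg, abs_of_nonneg (by positivity)]
      exact_mod_cast hn)
    rw [h.single (2 * n), ← sq] at this
    exact this
  rw [h3] at h1
  exact h1

theorem half_bound (h : IsProc k μ) : 0 ≤ 1 - 2 * μ.real (cyl {0}) := by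
  have hprob := h.prob
  have h1 : 0 ≤ ∫ x, (1 - ic {0} x - ic {0 + 1} x) ∂μ := by
    apply integral_nonneg_of_ae
    filter_upwards [h.ae_good] with x hx
    exact z_nonneg x hx 0
  rw [integral_z] at h1
  have e := h.single 1
  push_cast at e
  rw [zero_add, e] at h1
  linarith

theorem quad_gen' (h : IsProc k μ) :
    μ.real (cyl {0}) - μ.real (cyl {0}) ^ 2 ≤ (k + 2) * (1 - 2 * μ.real (cyl {0})) := by
  have h1 := quad_gen h ((k + 2) / 2) (by omega)
  have h2 := half_bound h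
  have h3 : ((2 * ((k + 2) / 2) : ℕ) : ℝ) ≤ (k:ℝ) + 2 := by
    have : 2 * ((k + 2) / 2) ≤ k + 2 := by omega
    exact_mod_cast this
  nlinarith

theorem two_upper (h : IsProc 2 μ) : μ.real (cyl {0}) ≤ (3 - Real.sqrt 5) / 2 := by
  have hprob := h.prob
  have hs : Real.sqrt 5 ^ 2 = 5 := Real.sq_sqrt (by norm_num)
  have hs0 : 0 ≤ Real.sqrt 5 := Real.sqrt_nonneg 5
  have hs3 : Real.sqrt 5 < 3 := by
    rw [Real.sqrt_lt' (by norm_num)]; norm_num
  rcases eq_or_lt_of_le (measureReal_nonneg (μ := μ) (s := cyl {0})) with h0 | h0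
  · rw [← h0]; linarith
  · have hq := quad_two h h0
    have h1 : μ.real (cyl {0}) ≤ 1 := measureReal_le_one
    by_contra hc
    push Not at hc
    nlinarith

end Pool.Agent.R986.KD
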