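import Pool.Agent.R986.KD6

/-! A block factor showing that the maximal marginals tend to one half. -/

namespace Pool.Agent.R986.KD

open MeasureTheory ProbabilityTheory Set

/-- Bernoulli law -/
noncomputable def bern (q : ℝ) : Measure Bool :=
  ENNReal.ofReal q • Measure.dirac true + ENNReal.ofReal (1 - q) • Measure.dirac false

theorem prob_bern (q : ℝ) (h0 : 0 ≤ q) (h1 : q ≤ 1) : IsProbabilityMeasure (bern q) := by
  constructor
  unfold bern
  simp only [Measure.coe_add, Measure.coe_smul, Pi.add_apply, Pi.smul_apply, measure_univ,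
    smul_eq_mul, mul_one]
  rw [← ENNReal.ofReal_add h0 (by linarith)]
  simp

theorem bern_true (q : ℝ) : bern q {true} = ENNReal.ofReal q := by
  unfold bern
  simp

theorem bern_false (q : ℝ) : bern q {false} = ENNReal.ofReal (1 - q) := by
  unfold bern
  simp

/-- the marker rule -/
def Occ (k : ℕ) (ω : Cfg) (i : ℤ) : Prop :=
  ∃ d : ℕ, d ≤ k ∧ d % 2 = 1 ∧ ω (i - d) = true ∧ ∀ j : ℕ, j < d → ω (i - j) = false

open scoped Classical in
/-- the block factor -/
noncomputable def blk (k : ℕ) (ω : Cfg) : Cfg := fun i => decide (Occ k ω i)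

theorem blk_true (k : ℕ) (ω : Cfg) (i : ℤ) : blk k ω i = true ↔ Occ k ω i := by
  unfold blk
  simp

/-- sigma-algebra of the sites in `U` -/
@[reducible] def sig (U : Set ℤ) : MeasurableSpace Cfg :=
  ⨆ j ∈ U, MeasurableSpace.comap (fun ω : Cfg => ω j) inferInstance

theorem meas_site (U : Set ℤ) (j : ℤ) (hj : j ∈ U) (b : Bool) :
    @MeasurableSet Cfg (sig U) {ω | ω j = b} := by
  have h : MeasurableSpace.comap (fun ω : Cfg => ω j) inferInstance ≤ sig U :=
    le_iSup₂_of_le j hj le_rfl
  apply h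
  exact ⟨{b}, measurableSet_singleton b, rfl⟩

theorem meas_occ (k : ℕ) (U : Set ℤ) (i : ℤ) (hU : ∀ j : ℕ, j ≤ k → i - j ∈ U) :
    @MeasurableSet Cfg (sig U) {ω | Occ k ω i} := by
  have : {ω : Cfg | Occ k ω i} = ⋃ d ∈ {d : ℕ | d ≤ k ∧ d % 2 = 1},
      ({ω : Cfg | ω (i - d) = true} ∩ ⋂ j ∈ {j : ℕ | j < d}, {ω : Cfg | ω (i - j) = false}) := by
    ext ω
    simp only [Occ, mem_iUnion, mem_inter_iff, mem_iInter, Set.mem_ofPred_eq]
    constructor
    · rintro ⟨d, h1, h2, h3, h4⟩
      exact ⟨d, ⟨h1, h2⟩, h3, h4⟩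
    · rintro ⟨d, ⟨h1, h2⟩, h3, h4⟩
      exact ⟨d, h1, h2, h3, h4⟩
  rw [this]
  refine @MeasurableSet.biUnion Cfg ℕ (sig U) _ _ (to_countable _) ?_
  intro d hd
  refine @MeasurableSet.inter Cfg (sig U) _ _ (meas_site U _ (hU d hd.1) _) ?_
  refine @MeasurableSet.biInter Cfg ℕ (sig U) _ _ (to_countable _) ?_
  intro j hj
  have hj' : j < d := hj
  exact meas_site U _ (hU j (by have := hd.1; omega)) _

theorem sig_le (U : Set ℤ) : sig U ≤ (inferInstance : MeasurableSpace Cfg) := by
  unfold sig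
  apply iSup₂_le
  intro j _
  exact (measurable_pi_apply j).comap_le

theorem measurable_blk (k : ℕ) : Measurable (blk k) := by
  apply measurable_pi_lambda
  intro i
  apply measurable_to_bool
  have h := sig_le Set.univ _ (meas_occ k Set.univ i (fun _ _ => trivial))
  have e : (fun ω => blk k ω i) ⁻¹' {true} = {ω | Occ k ω i} := by
    ext ω
    simp only [mem_preimage, mem_singleton_iff, Set.mem_ofPred_eq]
    exact blk_true k ω i
  rw [e]
  exact h

theorem comap_blk_le (k : ℕ) (A U : Set ℤ) (hU : ∀ a ∈ A, ∀ j : ℕ, j ≤ k → a - j ∈ U) :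
    MeasurableSpace.comap (fun (ω : Cfg) (a : A) => blk k ω a) MeasurableSpace.pi ≤ sig U := by
  rw [← measurable_iff_comap_le]
  refine @measurable_pi_lambda _ _ _ (sig U) _ _ ?_
  intro a
  refine @measurable_to_bool Cfg (sig U) _ ?_
  have e : (fun ω => blk k ω a) ⁻¹' {true} = {ω | Occ k ω a} := by
    ext ω
    simp only [mem_preimage, mem_singleton_iff, Set.mem_ofPred_eq]
    exact blk_true k ω a
  rw [e]
  exact meas_occ k U a (hU a a.2)

/-- iid Bernoulli sites -/
noncomputable def PP (q : ℝ) : Measure Cfg := Measure.infinitePi (fun _ : ℤ => bern q)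

theorem indep_sig (q : ℝ) (h0 : 0 ≤ q) (h1 : q ≤ 1) (U V : Set ℤ) (h : Disjoint U V) :
    Indep (sig U) (sig V) (PP q) := by
  have := prob_bern q h0 h1
  have hi : iIndepFun (fun (i : ℤ) (ω : Cfg) => ω i) (PP q) :=
    iIndepFun_infinitePi (Ω := fun _ : ℤ => Bool) (P := fun _ : ℤ => bern q) (X := fun _ => id)
      (fun _ => measurable_id)
  have hi2 := hi.iIndep
  exact indep_iSup_of_disjoint (fun i => (measurable_pi_apply i).comap_le) hi2 h

theorem blk_shift (k : ℕ) (ω : Cfg) : blk k (shift ω) = shift (blk k ω) := by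
  funext i
  rw [Bool.eq_iff_iff]
  rw [blk_true]
  unfold shift
  rw [blk_true]
  unfold Occ
  have hd : ∀ d : ℕ, i + 1 - (d:ℤ) = i - d + 1 := fun d => by ring
  simp only [hd]

theorem PP_shift (q : ℝ) (h0 : 0 ≤ q) (h1 : q ≤ 1) : (PP q).map shift = PP q := by
  have := prob_bern q h0 h1
  exact Measure.map_infinitePi_infinitePi_of_inj (P := fun _ : ℤ => bern q)
    (f := fun i : ℤ => i + 1) (fun a b h => by simpa using h)

theorem isProc_blk (k : ℕ) (q : ℝ) (h0 : 0 ≤ q) (h1 : q ≤ 1) :
    IsProc k ((PP q).map (blk k)) := by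
  have hb := prob_bern q h0 h1
  have hP : IsProbabilityMeasure (PP q) := by unfold PP; infer_instance
  have hm := measurable_blk k
  constructor
  · exact Measure.isProbabilityMeasure_map hm.aemeasurable
  · have hempty : blk k ⁻¹' {x | ∃ i : ℤ, x i = true ∧ x (i + 1) = true} = ∅ := by
      ext ω
      simp only [mem_preimage, Set.mem_ofPred_eq, mem_empty_iff_false, iff_false, not_exists,
        not_and, blk_true]
      rintro i ⟨d, _, hd2, hd3, hd4⟩ ⟨e, _, he2, he3, he4⟩
      rcases Nat.lt_or_ge e (d + 1) with h | h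
      · have hne : e ≠ d + 1 := by omega
        have h5 := hd4 (e - 1) (by omega)
        have : i - ((e - 1 : ℕ) : ℤ) = i + 1 - e := by omega
        rw [this, he3] at h5
        exact absurd h5 (by simp)
      · rcases Nat.lt_or_ge (d + 1) e with h' | h'
        · have h5 := he4 (d + 1) h'
          have : i + 1 - ((d + 1 : ℕ) : ℤ) = i - d := by push_cast; ring
          rw [this, hd3] at h5
          exact absurd h5 (by simp)
        · omega
    have hms : MeasurableSet {x : Cfg | ∃ i : ℤ, x i = true ∧ x (i + 1) = true} := by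
      have : {x : Cfg | ∃ i : ℤ, x i = true ∧ x (i + 1) = true} = ⋃ i : ℤ, cyl {i, i + 1} := by
        ext x
        simp [cyl]
      rw [this]
      exact MeasurableSet.iUnion (fun i => measurableSet_cyl _)
    rw [Measure.map_apply hm hms, hempty, measure_empty]
  · rw [Measure.map_map measurable_shift hm]
    have : shift ∘ blk k = blk k ∘ shift := by
      funext ω
      exact (blk_shift k ω).symm
    rw [this, ← Measure.map_map hm measurable_shift, PP_shift q h0 h1]
  · intro A B hAB
    rw [indepFun_iff_measure_inter_preimage_eq_mul]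
    intro s t hs ht
    let U : Set ℤ := {j | ∃ a ∈ A, ∃ i : ℕ, i ≤ k ∧ j = a - i}
    let V : Set ℤ := {j | ∃ b ∈ B, ∃ i : ℕ, i ≤ k ∧ j = b - i}
    have hUV : Disjoint U V := by
      rw [Set.disjoint_left]
      rintro j ⟨a, ha, i, hi, rfl⟩ ⟨b, hb, i', hi', h⟩
      have h2 := hAB a ha b hb
      have h3 : a - b = i - i' := by linarith
      rw [h3] at h2
      have h4 : |(i:ℤ) - i'| ≤ k := by
        rw [abs_le]
        constructor <;> omega
      omega
    have hI := indep_sig q h0 h1 U V hUV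
    have hA := comap_blk_le k A U (fun a ha j hj => ⟨a, ha, j, hj, rfl⟩)
    have hB := comap_blk_le k B V (fun a ha j hj => ⟨a, ha, j, hj, rfl⟩)
    have hI2 := indep_of_indep_of_le_left (indep_of_indep_of_le_right hI hB) hA
    rw [Indep_iff] at hI2
    have h5 := hI2 ((fun (ω : Cfg) (a : A) => blk k ω a) ⁻¹' s)
      ((fun (ω : Cfg) (b : B) => blk k ω b) ⁻¹' t) ⟨s, hs, rfl⟩ ⟨t, ht, rfl⟩
    rw [Measure.map_apply hm ((measurable_restr A hs).inter (measurable_restr B ht)),
      Measure.map_apply hm (measurable_restr A hs), Measure.map_apply hm (measurable_restr B ht)]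
    exact h5

end Pool.Agent.R986.KD
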