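import Pool.Agent.R986.KD7

/-! Density of the block factor and bounds for the maximal marginals. -/

namespace Pool.Agent.R986.KD

open MeasureTheory ProbabilityTheory Set Filter Topology

/-- the nearest marker to the left of the origin is at distance `d` -/
def Ev (d : ℕ) : Set Cfg := {ω | ω (-(d:ℤ)) = true ∧ ∀ j : ℕ, j < d → ω (-(j:ℤ)) = false}

/-- negation embedding -/
def negEmb : ℕ ↪ ℤ := ⟨fun j => -(j:ℤ), fun a b h => by simpa using h⟩

theorem prob_Ev (q : ℝ) (h0 : 0 ≤ q) (h1 : q ≤ 1) (d : ℕ) :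
    (PP q).real (Ev d) = q * (1 - q) ^ d := by
  have hb := prob_bern q h0 h1
  let t : ℤ → Set Bool := fun i => if i = -(d:ℤ) then {true} else {false}
  have he : Ev d = Set.pi ((Finset.range (d + 1)).map negEmb : Finset ℤ) t := by
    ext ω
    simp only [Ev, Set.mem_ofPred_eq, Set.mem_pi, Finset.coe_map, mem_image, Finset.mem_coe,
      Finset.mem_range]
    constructor
    · rintro ⟨ha, hb⟩ i ⟨j, hj, rfl⟩
      by_cases h : j = d
      · subst h
        change ω (-(j:ℤ)) ∈ t (-(j:ℤ))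
        simp [t, ha]
      · have hj' : j < d := by omega
        change ω (-(j:ℤ)) ∈ t (-(j:ℤ))
        have : -(j:ℤ) ≠ -(d:ℤ) := by omega
        simp [t, h, hb j hj']
    · intro h
      constructor
      · have := h (-(d:ℤ)) ⟨d, by omega, rfl⟩
        simpa [t] using this
      · intro j hj
        have := h (-(j:ℤ)) ⟨j, by omega, rfl⟩
        have hne : j ≠ d := by omega
        simpa [t, hne] using this
  rw [he, Measure.real, PP, Measure.infinitePi_pi _ (fun i _ => by
    change MeasurableSet (if i = -(d:ℤ) then ({true} : Set Bool) else {false})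
    split_ifs <;> exact measurableSet_singleton _)]
  rw [Finset.prod_map, Finset.prod_range_succ]
  have e1 : bern q (t (negEmb d)) = ENNReal.ofReal q := by
    have : t (negEmb d) = {true} := by
      change (if -(d:ℤ) = -(d:ℤ) then ({true} : Set Bool) else {false}) = _
      rw [if_pos rfl]
    rw [this, bern_true]
  have e2 : ∀ j ∈ Finset.range d, bern q (t (negEmb j)) = ENNReal.ofReal (1 - q) := by
    intro j hj
    rw [Finset.mem_range] at hj
    have : t (negEmb j) = {false} := by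
      change (if -(j:ℤ) = -(d:ℤ) then ({true} : Set Bool) else {false}) = _
      rw [if_neg (by omega)]
    rw [this, bern_false]
  rw [e1, Finset.prod_congr rfl e2, Finset.prod_const, Finset.card_range, ENNReal.toReal_mul,
    ENNReal.toReal_pow, ENNReal.toReal_ofReal h0, ENNReal.toReal_ofReal (by linarith)]
  ring

theorem meas_Ev (d : ℕ) : MeasurableSet (Ev d) := by
  have : Ev d = {ω : Cfg | ω (-(d:ℤ)) = true} ∩ ⋂ j ∈ Finset.range d, {ω : Cfg | ω (-(j:ℤ)) = false} := by
    ext ω
    simp [Ev]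
  rw [this]
  apply MeasurableSet.inter
  · exact sig_le Set.univ _ (meas_site Set.univ _ trivial _)
  · apply Finset.measurableSet_biInter
    intro j _
    exact sig_le Set.univ _ (meas_site Set.univ _ trivial _)

theorem sum_geo (q : ℝ) (M : ℕ) :
    (2 - q) * ∑ m ∈ Finset.range M, q * (1 - q) ^ (2 * m + 1) =
      (1 - q) * (1 - (1 - q) ^ (2 * M)) := by
  induction M with
  | zero => simp
  | succ M ih =>
    rw [Finset.sum_range_succ, mul_add, ih]
    rw [show 2 * (M + 1) = 2 * M + 2 by ring, pow_add, pow_add]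
    ring

theorem density_blk (k : ℕ) (q : ℝ) (h0 : 0 ≤ q) (h1 : q ≤ 1) :
    (1 - q) / (2 - q) * (1 - (1 - q) ^ k) ≤ (PP q).real {ω | Occ k ω 0} := by
  have hb := prob_bern q h0 h1
  have hP : IsProbabilityMeasure (PP q) := by unfold PP; infer_instance
  have hsub : (⋃ m ∈ Finset.range ((k + 1) / 2), Ev (2 * m + 1)) ⊆ {ω | Occ k ω 0} := by
    intro ω hω
    simp only [mem_iUnion, Finset.mem_range] at hω
    obtain ⟨m, hm, h2, h3⟩ := hω
    refine ⟨2 * m + 1, by omega, by omega, ?_, ?_⟩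
    · rw [zero_sub]; exact h2
    · intro j hj
      rw [zero_sub]
      exact h3 j hj
  have hdisj : Set.PairwiseDisjoint (↑(Finset.range ((k + 1) / 2)) : Set ℕ)
      (fun m => Ev (2 * m + 1)) := by
    have key : ∀ m n : ℕ, m < n → Disjoint (Ev (2 * m + 1)) (Ev (2 * n + 1)) := by
      intro m n hmn
      rw [Set.disjoint_left]
      rintro ω ⟨a, _⟩ ⟨_, b⟩
      have := b (2 * m + 1) (by omega)
      rw [a] at this
      exact absurd this (by simp)
    intro m _ n _ hmn
    rcases lt_or_gt_of_ne hmn with h | h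
    · exact key m n h
    · exact (key n m h).symm
  have hm := measureReal_mono (μ := PP q) hsub
  rw [measureReal_biUnion_finset hdisj (fun m _ => meas_Ev _)] at hm
  rw [Finset.sum_congr rfl (fun m _ => prob_Ev q h0 h1 (2 * m + 1))] at hm
  refine le_trans ?_ hm
  have hg := sum_geo q ((k + 1) / 2)
  have h2q : 0 < 2 - q := by linarith
  rw [div_mul_eq_mul_div, div_le_iff₀ h2q, mul_comm (Finset.sum _ _) (2 - q), hg]
  apply mul_le_mul_of_nonneg_left _ (by linarith)
  have : (1 - q) ^ (2 * ((k + 1) / 2)) ≤ (1 - q) ^ k :=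
    pow_le_pow_of_le_one (by linarith) (by linarith) (by omega)
  linarith

theorem pcrit_ge (k : ℕ) (q : ℝ) (h0 : 0 ≤ q) (h1 : q ≤ 1) :
    (1 - q) / (2 - q) * (1 - (1 - q) ^ k) ≤ pcrit k := by
  refine le_trans (density_blk k q h0 h1) ?_
  apply le_csSup (pcrit_bdd k)
  refine ⟨_, isProc_blk k q h0 h1, ?_⟩
  have hm := measurable_blk k
  have hs : MeasurableSet {x : Cfg | x 0 = true} := by
    rw [← cyl_single]
    exact measurableSet_cyl _
  rw [map_measureReal_apply hm hs]
  congr 1
  ext ω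
  simp only [mem_preimage, Set.mem_ofPred_eq]
  rw [blk_true]

theorem pcrit_nonempty (k : ℕ) :
    {t : ℝ | ∃ μ : Measure Cfg, IsProc k μ ∧ t = μ.real {x | x 0 = true}}.Nonempty :=
  ⟨_, _, isProc_blk k 0 le_rfl zero_le_one, rfl⟩

theorem pcrit_two_le : pcrit 2 ≤ (3 - Real.sqrt 5) / 2 := by
  apply csSup_le (pcrit_nonempty 2)
  rintro _ ⟨μ, h, rfl⟩
  rw [← cyl_single]
  exact two_upper h

theorem marg_upper (k : ℕ) (t : ℝ) (ht : t ≤ 1) (h1 : t - t ^ 2 ≤ (k + 2) * (1 - 2 * t)) :
    t ≤ 1 / 2 - 3 / (32 * (k + 2)) := by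
  have hk : (0:ℝ) < k + 2 := by positivity
  have hk2 : (2:ℝ) ≤ (k:ℝ) + 2 := by
    have : (0:ℝ) ≤ k := Nat.cast_nonneg k
    linarith
  rcases le_or_gt t (1 / 4) with h | h
  · have : 3 / (32 * ((k:ℝ) + 2)) ≤ 3 / 64 := by
      apply div_le_div_of_nonneg_left (by norm_num) (by norm_num)
      linarith
    linarith
  · rcases le_or_gt t (3 / 4) with h' | h'
    · have h3 : 3 / 16 ≤ t - t ^ 2 := by nlinarith
      have h4 : 3 / 16 ≤ (k + 2) * (1 - 2 * t) := le_trans h3 h1
      have h5 : 3 / 16 / ((k:ℝ) + 2) ≤ 1 - 2 * t := by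
        rw [div_le_iff₀ hk]
        linarith
      have h6 : 3 / (32 * ((k:ℝ) + 2)) = 3 / 16 / ((k:ℝ) + 2) / 2 := by
        field_simp
        norm_num
      rw [h6]
      linarith
    · exfalso
      have h7 : 0 ≤ t - t ^ 2 := by nlinarith
      have h8 : (k + 2) * (1 - 2 * t) < 0 := by
        apply mul_neg_of_pos_of_neg hk
        linarith
      linarith

theorem pcrit_upper (k : ℕ) : pcrit k ≤ 1 / 2 - 3 / (32 * (k + 2)) := by
  apply csSup_le (pcrit_nonempty k)
  rintro _ ⟨μ, h, rfl⟩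
  have hp := h.prob
  rw [← cyl_single]
  exact marg_upper k _ measureReal_le_one (quad_gen' h)

theorem pcrit_lower (k : ℕ) (hk : 3 ≤ k) : 1 / 2 - Real.log k / k ≤ pcrit k := by
  have hk0 : (0:ℝ) < k := by positivity
  have hk3 : (3:ℝ) ≤ k := by exact_mod_cast hk
  have hlog1 : 1 ≤ Real.log k := by
    rw [Real.le_log_iff_exp_le hk0]
    have := Real.exp_one_lt_d9
    linarith
  have hlogk : Real.log k ≤ k := by
    have := Real.log_le_sub_one_of_pos hk0
    linarith
  set q : ℝ := Real.log k / k with hq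
  have hq0 : 0 ≤ q := div_nonneg (by linarith) hk0.le
  have hq1 : q ≤ 1 := by
    rw [hq, div_le_one hk0]
    exact hlogk
  have h := pcrit_ge k q hq0 hq1
  refine le_trans ?_ h
  have h1 : (1 - q) ^ k ≤ 1 / k := by
    have e1 : 1 - q ≤ Real.exp (-q) := by
      have := Real.add_one_le_exp (-q)
      linarith
    calc (1 - q) ^ k ≤ (Real.exp (-q)) ^ k := pow_le_pow_left₀ (by linarith) e1 k
      _ = Real.exp (-(Real.log k)) := by
        rw [← Real.exp_nat_mul, hq]
        congr 1
        field_simp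
      _ = 1 / k := by
        rw [Real.exp_neg, Real.exp_log hk0, one_div]
  have h2 : 1 / 2 - q / 2 ≤ (1 - q) / (2 - q) := by
    rw [le_div_iff₀ (by linarith)]
    nlinarith
  have h3 : 0 ≤ 1 / 2 - q / 2 := by linarith
  have h4 : 1 / (k:ℝ) ≤ q := by
    rw [hq]
    gcongr
  have h5 : 0 ≤ 1 - 1 / (k:ℝ) := by linarith
  calc 1 / 2 - q ≤ (1 / 2 - q / 2) * (1 - 1 / k) := by nlinarith
    _ ≤ (1 - q) / (2 - q) * (1 - (1 - q) ^ k) := by
      apply mul_le_mul h2 (by linarith) h5
      exact le_trans h3 h2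

theorem pcrit_tendsto : Tendsto pcrit atTop (𝓝 (1 / 2)) := by
  have h1 : Tendsto (fun k : ℕ => (1:ℝ) / 2 - Real.log k / k) atTop (𝓝 (1 / 2 - 0)) := by
    apply Tendsto.sub tendsto_const_nhds
    have := Real.isLittleO_log_id_atTop.tendsto_div_nhds_zero
    exact this.comp tendsto_natCast_atTop_atTop
  rw [sub_zero] at h1
  apply tendsto_of_tendsto_of_tendsto_of_le_of_le' h1 (tendsto_const_nhds (x := (1:ℝ) / 2))
  · filter_upwards [eventually_ge_atTop 3] with k hk
    exact pcrit_lower k hk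
  · filter_upwards with k
    have := pcrit_upper k
    have h2 : 0 ≤ 3 / (32 * ((k:ℝ) + 2)) := by positivity
    linarith

end Pool.Agent.R986.KD
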