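import Pool.Agent.R986.KD8

/-! Monotonicity in k and existence of critical processes. -/

namespace Pool.Agent.R986.KD

open MeasureTheory ProbabilityTheory Set Filter Topology

theorem IsProc.mono {k l : ℕ} (hkl : k ≤ l) {μ : Measure Cfg} (h : IsProc k μ) : IsProc l μ where
  prob := h.prob
  hardcore := h.hardcore
  stationary := h.stationary
  dep := by
    intro A B hAB
    apply h.dep A B
    intro a ha b hb
    have := hAB a ha b hb
    have : (k:ℤ) ≤ l := by exact_mod_cast hkl
    omega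

theorem pcrit_mono {k l : ℕ} (hkl : k ≤ l) : pcrit k ≤ pcrit l := by
  apply csSup_le_csSup (pcrit_bdd l) (pcrit_nonempty k)
  rintro _ ⟨μ, h, rfl⟩
  exact ⟨μ, h.mono hkl, rfl⟩

/-- the set of laws described by cylinder probabilities -/
def KK (k : ℕ) : Set (ProbabilityMeasure Cfg) :=
  {μ | (∀ S : Finset ℤ, (μ : Measure Cfg).real (cyl (tr 1 S)) = (μ : Measure Cfg).real (cyl S)) ∧
    (∀ i : ℤ, (μ : Measure Cfg).real (cyl {i, i + 1}) = 0) ∧
    (∀ S S' : Finset ℤ, (∀ a ∈ S, ∀ b ∈ S', (k:ℤ) < |a - b|) →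
      (μ : Measure Cfg).real (cyl (S ∪ S')) =
        (μ : Measure Cfg).real (cyl S) * (μ : Measure Cfg).real (cyl S'))}

theorem cont_cyl (S : Finset ℤ) :
    Continuous (fun μ : ProbabilityMeasure Cfg => (μ : Measure Cfg).real (cyl S)) := by
  have hc := ProbabilityMeasure.continuous_integral_boundedContinuousFunction (indc S)
  have : (fun μ : ProbabilityMeasure Cfg => (μ : Measure Cfg).real (cyl S)) =
      fun μ : ProbabilityMeasure Cfg => ∫ x, indc S x ∂(μ : Measure Cfg) := by
    funext μ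
    rw [integral_indc]
  rw [this]
  exact hc

theorem isClosed_KK (k : ℕ) : IsClosed (KK k) := by
  have : KK k = (⋂ S : Finset ℤ, {μ : ProbabilityMeasure Cfg |
      (μ : Measure Cfg).real (cyl (tr 1 S)) = (μ : Measure Cfg).real (cyl S)}) ∩
      ((⋂ i : ℤ, {μ : ProbabilityMeasure Cfg | (μ : Measure Cfg).real (cyl {i, i + 1}) = 0}) ∩
      (⋂ S : Finset ℤ, ⋂ S' : Finset ℤ, ⋂ _ : (∀ a ∈ S, ∀ b ∈ S', (k:ℤ) < |a - b|),
        {μ : ProbabilityMeasure Cfg | (μ : Measure Cfg).real (cyl (S ∪ S')) =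
          (μ : Measure Cfg).real (cyl S) * (μ : Measure Cfg).real (cyl S')})) := by
    ext μ
    simp [KK]
  rw [this]
  refine IsClosed.inter ?_ (IsClosed.inter ?_ ?_)
  · exact isClosed_iInter (fun S => isClosed_eq (cont_cyl _) (cont_cyl _))
  · exact isClosed_iInter (fun i => isClosed_eq (cont_cyl _) continuous_const)
  · exact isClosed_iInter (fun S => isClosed_iInter (fun S' => isClosed_iInter (fun _ =>
      isClosed_eq (cont_cyl _) ((cont_cyl _).mul (cont_cyl _)))))

theorem mem_KK {k : ℕ} {μ : Measure Cfg} (h : IsProc k μ) (hp : IsProbabilityMeasure μ) :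
    (⟨μ, hp⟩ : ProbabilityMeasure Cfg) ∈ KK k := by
  refine ⟨?_, ?_, ?_⟩
  · intro S
    exact h.tr_one S
  · intro i
    change μ.real (cyl {i, i + 1}) = 0
    rw [measureReal_def, ENNReal.toReal_eq_zero_iff]
    left
    refine measure_mono_null ?_ h.hardcore
    intro x hx
    exact ⟨i, hx i (by simp), hx (i + 1) (by simp)⟩
  · intro S S' hS
    exact h.mul S S' hS

/-- for every k there is a critical process -/
theorem exists_critical (k : ℕ) :
    ∃ μ : Measure Cfg, IsProc k μ ∧ μ.real {x | x 0 = true} = pcrit k := by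
  have hne : (KK k).Nonempty := by
    have h := isProc_blk k 0 le_rfl zero_le_one
    exact ⟨_, mem_KK h h.prob⟩
  obtain ⟨μ, hμ, hmax⟩ := (isClosed_KK k).isCompact.exists_isMaxOn hne
    (cont_cyl {0}).continuousOn
  have hproc : IsProc k (μ : Measure Cfg) := isProc_of k _ hμ.1 hμ.2.1 hμ.2.2
  refine ⟨μ, hproc, ?_⟩
  apply le_antisymm
  · exact le_csSup (pcrit_bdd k) ⟨μ, hproc, rfl⟩
  · apply csSup_le (pcrit_nonempty k)
    rintro _ ⟨ν, h, rfl⟩
    have := hmax (mem_KK h h.prob)
    rw [← cyl_single]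
    exact this

end Pool.Agent.R986.KD
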