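import Mathlib

/-!
Random abelian Cayley graphs: the multiscale kernel and its basic bounds.
-/

open Finset

namespace R986.RCC

/-- The weight `Σ_{j ≤ J} 2^{-j} (3/4)^{J-j} |1 - w^{2^j}|^2`. -/
noncomputable def F (J : ℕ) (w : ℂ) : ℝ :=
  ∑ j ∈ range (J + 1), (1 / 2 : ℝ) ^ j * (3 / 4 : ℝ) ^ (J - j) * ‖1 - w ^ (2 ^ j)‖ ^ 2

lemma F_nonneg (J : ℕ) (w : ℂ) : 0 ≤ F J w := by
  unfold F
  positivity

lemma F_ge_term (J j : ℕ) (hj : j ≤ J) (w : ℂ) :
    (1 / 2 : ℝ) ^ j * (3 / 4 : ℝ) ^ (J - j) * ‖1 - w ^ (2 ^ j)‖ ^ 2 ≤ F J w := by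
  unfold F
  exact Finset.single_le_sum
    (f := fun j => (1 / 2 : ℝ) ^ j * (3 / 4 : ℝ) ^ (J - j) * ‖1 - w ^ (2 ^ j)‖ ^ 2)
    (fun i _ => by positivity) (mem_range.2 (by omega))

/-- normalized angle -/
noncomputable def ang (w : ℂ) : ℝ := |Complex.arg w| / (2 * Real.pi)

lemma ang_nonneg (w : ℂ) : 0 ≤ ang w := by
  unfold ang; positivity

lemma ang_le (w : ℂ) : ang w ≤ 1 / 2 := by
  unfold ang
  rw [div_le_iff₀ (by positivity)]
  have := Complex.abs_arg_le_pi w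
  linarith

lemma eq_exp_arg (w : ℂ) (hw : ‖w‖ = 1) : w = Complex.exp (Complex.I * (Complex.arg w : ℝ)) := by
  conv_lhs => rw [← Complex.norm_mul_exp_arg_mul_I w]
  rw [hw]
  simp [mul_comm]

lemma chord (w : ℂ) (hw : ‖w‖ = 1) (n : ℕ) (hn : n * ang w ≤ 1 / 2) :
    4 * (n * ang w) ≤ ‖1 - w ^ n‖ := by
  have h1 : w ^ n = Complex.exp (Complex.I * ((n * Complex.arg w : ℝ) : ℂ)) := by
    conv_lhs => rw [eq_exp_arg w hw]
    rw [← Complex.exp_nat_mul]
    congr 1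
    push_cast
    ring
  rw [h1, norm_sub_rev, Complex.norm_exp_I_mul_ofReal_sub_one]
  have h2 : |(n * Complex.arg w) / 2| ≤ Real.pi / 2 := by
    unfold ang at hn
    rw [abs_div, abs_mul, Nat.abs_cast, abs_two]
    rw [← mul_div_assoc, div_le_iff₀ (by positivity)] at hn
    linarith
  have h3 := Real.mul_abs_le_abs_sin h2
  rw [Real.norm_eq_abs, abs_mul, abs_two]
  have h4 : 2 * (2 / Real.pi * |(n * Complex.arg w) / 2|) = 4 * (n * ang w) := by
    unfold ang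
    rw [abs_div, abs_mul, Nat.abs_cast, abs_two]
    field_simp
    ring
  linarith

lemma NF_small (J : ℕ) (w : ℂ) (hw : ‖w‖ = 1) (h : 2 ^ J * ang w ≤ 1 / 2) :
    16 * (2 ^ J * ang w) ^ 2 ≤ 2 ^ J * F J w := by
  have h1 := F_ge_term J J le_rfl w
  have h2 := chord w hw (2 ^ J) (by push_cast; exact h)
  push_cast at h2
  have h3 : 0 ≤ 2 ^ J * ang w := by have := ang_nonneg w; positivity
  have h4 : (4 * (2 ^ J * ang w)) ^ 2 ≤ ‖1 - w ^ (2 ^ J)‖ ^ 2 := by
    apply pow_le_pow_left₀ (by positivity) h2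
  have h5 : (2 : ℝ) ^ J * ((1 / 2 : ℝ) ^ J * (3 / 4 : ℝ) ^ (J - J) * ‖1 - w ^ (2 ^ J)‖ ^ 2)
      = ‖1 - w ^ (2 ^ J)‖ ^ 2 := by
    rw [Nat.sub_self, pow_zero, mul_one, ← mul_assoc, ← mul_pow]
    norm_num
  have h6 := mul_le_mul_of_nonneg_left h1 (by positivity : (0 : ℝ) ≤ 2 ^ J)
  rw [h5] at h6
  nlinarith

lemma NF_large (J i : ℕ) (hi : i ≤ J) (w : ℂ) (hw : ‖w‖ = 1)
    (h1 : 2 ^ J * ang w ≤ 2 ^ i / 2) (h2 : (2 : ℝ) ^ i / 4 ≤ 2 ^ J * ang w) :
    (3 / 2) ^ i ≤ 2 ^ J * F J w := by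
  obtain ⟨j, rfl⟩ := Nat.exists_eq_add_of_le hi
  have e1 : (2 : ℝ) ^ (i + j) = 2 ^ i * 2 ^ j := pow_add _ _ _
  have p1 : (0 : ℝ) < 2 ^ i := by positivity
  have g1 : 2 ^ j * ang w ≤ 1 / 2 := by
    rw [e1] at h1
    have : (2 : ℝ) ^ i * (2 ^ j * ang w) ≤ 2 ^ i * (1 / 2) := by linarith
    exact le_of_mul_le_mul_left this p1
  have g2 : 1 / 4 ≤ 2 ^ j * ang w := by
    rw [e1] at h2
    have : (2 : ℝ) ^ i * (1 / 4) ≤ 2 ^ i * (2 ^ j * ang w) := by linarith
    exact le_of_mul_le_mul_left this p1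
  have g3 := chord w hw (2 ^ j) (by push_cast; exact g1)
  push_cast at g3
  have g4 : 1 ≤ ‖1 - w ^ (2 ^ j)‖ ^ 2 := by
    have : 1 ≤ ‖1 - w ^ (2 ^ j)‖ := by linarith
    exact one_le_pow₀ this
  have g5 := F_ge_term (i + j) j (by omega) w
  have e2 : i + j - j = i := by omega
  rw [e2] at g5
  have g6 := mul_le_mul_of_nonneg_left g5 (by positivity : (0 : ℝ) ≤ 2 ^ (i + j))
  have e3 : (2 : ℝ) ^ (i + j) * ((1 / 2 : ℝ) ^ j * (3 / 4 : ℝ) ^ i * ‖1 - w ^ (2 ^ j)‖ ^ 2)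
      = (3 / 2) ^ i * ‖1 - w ^ (2 ^ j)‖ ^ 2 := by
    have a1 : (2 : ℝ) ^ j * (1 / 2) ^ j = 1 := by rw [← mul_pow]; norm_num
    have a2 : (2 : ℝ) ^ i * (3 / 4) ^ i = (3 / 2) ^ i := by rw [← mul_pow]; norm_num
    rw [pow_add, ← a2]
    linear_combination (2 ^ i * (3 / 4 : ℝ) ^ i * ‖1 - w ^ (2 ^ j)‖ ^ 2) * a1
  rw [e3] at g6
  have p2 : (0 : ℝ) < (3 / 2) ^ i := by positivity
  nlinarith

/-- every unit complex number other than `1` has nonzero angle -/
lemma ang_pos (w : ℂ) (hw : ‖w‖ = 1) (h1 : w ≠ 1) : 0 < ang w := by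
  rcases (ang_nonneg w).lt_or_eq with h | h
  · exact h
  · exfalso
    apply h1
    unfold ang at h
    have : |Complex.arg w| = 0 := by
      rcases div_eq_zero_iff.1 h.symm with h | h
      · exact h
      · exfalso; have := Real.pi_pos; linarith
    rw [abs_eq_zero] at this
    rw [eq_exp_arg w hw, this]
    simp

/-- pointwise bound of `exp(-λ N F)` by a layer-cake sum of indicator functions. -/
lemma exp_bound (J : ℕ) (w : ℂ) (hw : ‖w‖ = 1) (L η : ℝ) (hL : 0 < L) (hη : 0 < η) :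
    Real.exp (-(L * (2 ^ J * F J w))) ≤
      (if w = 1 then 1 else 0) + (if w ≠ 1 ∧ ang w ≤ η / 2 ^ J then 1 else 0)
      + Real.exp (-(16 * L * η ^ 2)) * (if w ≠ 1 ∧ ang w ≤ (1 / 2) / 2 ^ J then 1 else 0)
      + ∑ i ∈ Icc 1 J, Real.exp (-(L * (3 / 2) ^ i)) *
          (if w ≠ 1 ∧ ang w ≤ (2 ^ i / 2) / 2 ^ J then 1 else 0) := by
  have hNF : 0 ≤ L * (2 ^ J * F J w) := by have := F_nonneg J w; positivity
  have hle1 : Real.exp (-(L * (2 ^ J * F J w))) ≤ 1 := by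
    rw [← Real.exp_zero]; exact Real.exp_le_exp.2 (by linarith)
  have n0 : (0 : ℝ) ≤ (if w = 1 then 1 else 0) := by split_ifs <;> norm_num
  have n1 : (0 : ℝ) ≤ (if w ≠ 1 ∧ ang w ≤ η / 2 ^ J then 1 else 0) := by split_ifs <;> norm_num
  have n2 : (0 : ℝ) ≤ Real.exp (-(16 * L * η ^ 2)) *
      (if w ≠ 1 ∧ ang w ≤ (1 / 2) / 2 ^ J then 1 else 0) := by
    split_ifs <;> positivity
  have n3 : ∀ i ∈ Icc 1 J, (0 : ℝ) ≤ Real.exp (-(L * (3 / 2) ^ i)) *
          (if w ≠ 1 ∧ ang w ≤ (2 ^ i / 2) / 2 ^ J then 1 else 0) := by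
    intro i _; split_ifs <;> positivity
  have n3' := Finset.sum_nonneg n3
  have p2 : (0 : ℝ) < 2 ^ J := by positivity
  by_cases h1 : w = 1
  · rw [if_pos h1] at n0 ⊢
    linarith
  · by_cases h2 : ang w ≤ η / 2 ^ J
    · rw [if_pos (⟨h1, h2⟩ : w ≠ 1 ∧ ang w ≤ η / 2 ^ J)] at n1 ⊢
      linarith
    · by_cases h3 : ang w ≤ (1 / 2) / 2 ^ J
      · rw [if_pos (⟨h1, h3⟩ : w ≠ 1 ∧ ang w ≤ (1 / 2) / 2 ^ J)] at n2 ⊢
        have h4 := NF_small J w hw (by rw [le_div_iff₀ p2] at h3; linarith)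
        push Not at h2
        rw [div_lt_iff₀ p2] at h2
        have h5 : Real.exp (-(L * (2 ^ J * F J w))) ≤ Real.exp (-(16 * L * η ^ 2)) := by
          apply Real.exp_le_exp.2
          have : η ^ 2 ≤ (2 ^ J * ang w) ^ 2 := pow_le_pow_left₀ hη.le (by linarith) 2
          nlinarith
        linarith
      · -- find the scale
        push Not at h3
        rw [div_lt_iff₀ p2] at h3
        -- least i with 2^J * ang ≤ 2^i/2
        have hex : ∃ i : ℕ, 2 ^ J * ang w ≤ 2 ^ i / 2 := by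
          refine ⟨J, ?_⟩
          have := ang_le w
          nlinarith
        classical
        have hspec := Nat.find_spec hex
        have hmin := @Nat.find_min _ _ hex
        set i := Nat.find hex with hi
        have hiJ : i ≤ J := Nat.find_min' hex (by have := ang_le w; nlinarith)
        have hi1 : 1 ≤ i := by
          rcases Nat.eq_zero_or_pos i with h | h
          · rw [h] at hspec
            norm_num at hspec
            linarith
          · exact h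
        have h4 : (2 : ℝ) ^ i / 4 ≤ 2 ^ J * ang w := by
          have := hmin (m := i - 1) (by omega)
          push Not at this
          have e : (2 : ℝ) ^ i = 2 ^ (i - 1) * 2 := by
            rw [← pow_succ]; congr 1; omega
          rw [e]
          linarith
        have h5 := NF_large J i hiJ w hw hspec h4
        have h6 : Real.exp (-(L * (2 ^ J * F J w))) ≤ Real.exp (-(L * (3 / 2) ^ i)) := by
          apply Real.exp_le_exp.2
          nlinarith
        have h7 := Finset.single_le_sum n3 (mem_Icc.2 ⟨hi1, hiJ⟩)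
        rw [if_pos (⟨h1, by rw [le_div_iff₀ p2]; linarith⟩ :
          w ≠ 1 ∧ ang w ≤ (2 ^ i / 2) / 2 ^ J)] at h7
        linarith

/-- counting roots of unity with small angle -/
lemma card_roots_le (m : ℕ) (hm : 0 < m) (t : ℝ) (ht : 0 ≤ t) (T : Finset ℂ)
    (hT : ∀ w ∈ T, w ^ m = 1 ∧ w ≠ 1 ∧ ang w ≤ t) : (T.card : ℝ) ≤ 2 * t * m := by
  have hnorm : ∀ w ∈ T, ‖w‖ = 1 := fun w hw =>
    Complex.norm_eq_one_of_pow_eq_one (hT w hw).1 hm.ne'
  have key : ∀ w ∈ T, ∃ n : ℤ, (m : ℝ) * Complex.arg w = n * (2 * Real.pi) := by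
    intro w hw
    have h1 : Complex.exp (m * (Complex.arg w) * Complex.I) = 1 := by
      have h2 := (hT w hw).1
      rw [eq_exp_arg w (hnorm w hw), ← Complex.exp_nat_mul] at h2
      rw [← h2]; congr 1; ring
    rw [Complex.exp_eq_one_iff] at h1
    obtain ⟨n, hn⟩ := h1
    refine ⟨n, ?_⟩
    have h3 : (((m : ℝ) * Complex.arg w : ℝ) : ℂ) = ((n * (2 * Real.pi) : ℝ) : ℂ) := by
      have := mul_right_cancel₀ Complex.I_ne_zero
        (hn.trans (by ring : (n : ℂ) * (2 * Real.pi * Complex.I) = (n * (2 * Real.pi)) * Complex.I))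
      push_cast
      exact this
    exact_mod_cast h3
  choose! a ha using key
  set K : ℤ := ⌊t * m⌋ with hK
  have hK0 : 0 ≤ K := Int.floor_nonneg.2 (by positivity)
  have hmaps : ∀ w ∈ T, a w ∈ (Finset.Icc (-K) K).erase 0 := by
    intro w hw
    have h1 := ha w hw
    have hpi := Real.pi_pos
    have hm' : (0 : ℝ) < m := by exact_mod_cast hm
    rw [mem_erase, Finset.mem_Icc]
    constructor
    · intro h0
      rw [h0] at h1
      have harg : Complex.arg w = 0 := by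
        rcases mul_eq_zero.1 (h1.trans (by simp)) with h | h
        · exact absurd h hm'.ne'
        · exact h
      apply (hT w hw).2.1
      rw [eq_exp_arg w (hnorm w hw), harg]
      simp
    · rw [← abs_le]
      rw [hK, Int.le_floor]
      have h2 := (hT w hw).2.2
      unfold ang at h2
      rw [div_le_iff₀ (by positivity)] at h2
      have h3 : |(m : ℝ) * Complex.arg w| = |(a w : ℝ) * (2 * Real.pi)| := by rw [h1]
      rw [abs_mul, abs_mul, Nat.abs_cast, abs_of_pos (by positivity : 0 < 2 * Real.pi)] at h3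
      push_cast
      have h4 : |(a w : ℝ)| * (2 * Real.pi) ≤ (t * m) * (2 * Real.pi) := by
        rw [← h3]; nlinarith
      exact le_of_mul_le_mul_right h4 (by positivity)
  have hinj : Set.InjOn a (T : Set ℂ) := by
    intro w hw v hv h
    have hm' : (m : ℝ) ≠ 0 := by exact_mod_cast hm.ne'
    have h1 := ha w hw
    have h2 := ha v hv
    rw [h, ← h2] at h1
    have h3 := mul_left_cancel₀ hm' h1
    rw [eq_exp_arg w (hnorm w hw), h3, ← eq_exp_arg v (hnorm v hv)]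
  have hcard := Finset.card_le_card_of_injOn a hmaps hinj
  rw [Finset.card_erase_of_mem (by simp [hK0]), Int.card_Icc] at hcard
  have e1 : (K + 1 - -K).toNat - 1 = 2 * K.toNat := by omega
  rw [e1] at hcard
  have h5 : ((K.toNat : ℕ) : ℝ) ≤ t * m := by
    have h6 : ((K.toNat : ℕ) : ℤ) = K := Int.toNat_of_nonneg hK0
    have h7 : ((K.toNat : ℕ) : ℝ) = (K : ℝ) := by exact_mod_cast congrArg (Int.cast : ℤ → ℝ) h6
    rw [h7, hK]
    exact Int.floor_le _
  have h8 : (T.card : ℝ) ≤ 2 * (K.toNat : ℝ) := by exact_mod_cast hcard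
  nlinarith

end R986.RCC
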