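import Pool.Agent.R986.RCC1

/-!
Random abelian Cayley graphs: counting in the group.
-/

open Finset

namespace R986.RCC

variable {G : Type} [AddCommGroup G] [Fintype G]

lemma ψ_ne_zero (ψ : AddChar G ℂ) (z : G) : ψ z ≠ 0 := by
  intro h
  have h1 : ψ (z + -z) = 1 := by rw [add_neg_cancel, AddChar.map_zero_eq_one]
  rw [AddChar.map_add_eq_mul, h, zero_mul] at h1
  exact zero_ne_one h1

/-- size of the image of a character -/
noncomputable def imc (ψ : AddChar G ℂ) : ℕ := (univ.image (fun z => ψ z)).card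

/-- size of the kernel of a character -/
noncomputable def kerc (ψ : AddChar G ℂ) : ℕ := (univ.filter (fun z => ψ z = 1)).card

lemma fiber_card (ψ : AddChar G ℂ) (z0 : G) :
    (univ.filter (fun z => ψ z = ψ z0)).card = kerc ψ := by
  unfold kerc
  apply Finset.card_bij (fun z _ => z - z0)
  · intro z hz
    simp only [mem_filter, mem_univ, true_and] at hz ⊢
    rw [AddChar.map_sub_eq_div, hz, div_self]
    exact ψ_ne_zero ψ z0
  · intro a _ b _ h
    simpa using h
  · intro b hb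
    simp only [mem_filter, mem_univ, true_and] at hb
    refine ⟨b + z0, ?_, by simp⟩
    simp only [mem_filter, mem_univ, true_and]
    rw [AddChar.map_add_eq_mul, hb, one_mul]

lemma imc_pos (ψ : AddChar G ℂ) : 0 < imc ψ := by
  unfold imc
  rw [Finset.card_pos]
  exact ⟨ψ 0, mem_image_of_mem _ (mem_univ _)⟩

lemma imc_le (ψ : AddChar G ℂ) : imc ψ ≤ Fintype.card G := by
  unfold imc
  exact Finset.card_image_le

lemma card_eq_mul (ψ : AddChar G ℂ) : imc ψ * kerc ψ = Fintype.card G := by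
  have h := Finset.card_eq_sum_card_image (fun z => ψ z) (univ : Finset G)
  rw [← Finset.card_univ, h]
  unfold imc
  rw [Finset.sum_const_nat (m := kerc ψ)]
  intro w hw
  obtain ⟨z0, -, rfl⟩ := mem_image.1 hw
  exact fiber_card ψ z0

lemma pow_imc (ψ : AddChar G ℂ) (z : G) : ψ z ^ imc ψ = 1 := by
  have h1 : ∏ w ∈ univ.image (fun z => ψ z), (ψ z * w) = ∏ w ∈ univ.image (fun z => ψ z), w := by
    apply Finset.prod_bij (fun w _ => ψ z * w)
    · intro w hw
      obtain ⟨z0, -, rfl⟩ := mem_image.1 hw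
      rw [← AddChar.map_add_eq_mul]
      exact mem_image_of_mem _ (mem_univ _)
    · intro a _ b _ h
      exact mul_left_cancel₀ (ψ_ne_zero ψ z) h
    · intro w hw
      obtain ⟨z0, -, rfl⟩ := mem_image.1 hw
      refine ⟨ψ (z0 - z), mem_image_of_mem _ (mem_univ _), ?_⟩
      rw [← AddChar.map_add_eq_mul]
      congr 1
      abel
    · intro a _; rfl
  rw [Finset.prod_mul_distrib, Finset.prod_const] at h1
  have h2 : ∏ w ∈ univ.image (fun z => ψ z), w ≠ 0 := by
    rw [Finset.prod_ne_zero_iff]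
    intro w hw
    obtain ⟨z0, -, rfl⟩ := mem_image.1 hw
    exact ψ_ne_zero ψ z0
  exact mul_right_cancel₀ h2 (h1.trans (one_mul _).symm)

lemma norm_ψ (ψ : AddChar G ℂ) (z : G) : ‖ψ z‖ = 1 :=
  Complex.norm_eq_one_of_pow_eq_one (pow_imc ψ z) (imc_pos ψ).ne'

lemma count_small (ψ : AddChar G ℂ) (t : ℝ) (ht : 0 ≤ t) :
    ((univ.filter (fun z => ψ z ≠ 1 ∧ ang (ψ z) ≤ t)).card : ℝ) ≤ 2 * t * Fintype.card G := by
  set s := univ.filter (fun z => ψ z ≠ 1 ∧ ang (ψ z) ≤ t) with hs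
  have h := Finset.card_eq_sum_card_image (fun z => ψ z) s
  have h2 : s.card = (s.image (fun z => ψ z)).card * kerc ψ := by
    rw [h, Finset.sum_const_nat (m := kerc ψ)]
    intro w hw
    obtain ⟨z0, hz0, rfl⟩ := mem_image.1 hw
    rw [← fiber_card ψ z0]
    congr 1
    ext z
    simp only [hs, mem_filter, mem_univ, true_and] at hz0 ⊢
    constructor
    · intro hz; exact hz.2
    · intro hz; exact ⟨by rw [hz]; exact hz0, hz⟩
  have h3 := card_roots_le (imc ψ) (imc_pos ψ) t ht (s.image (fun z => ψ z)) (by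
    intro w hw
    obtain ⟨z0, hz0, rfl⟩ := mem_image.1 hw
    simp only [hs, mem_filter, mem_univ, true_and] at hz0
    exact ⟨pow_imc ψ z0, hz0.1, hz0.2⟩)
  rw [h2, ← card_eq_mul ψ]
  push_cast
  have h4 : (0 : ℝ) ≤ kerc ψ := Nat.cast_nonneg _
  nlinarith

/-- number of characters with image of size `m` -/
lemma count_chars (s : Finset G) (hs : AddSubgroup.closure (s : Set G) = ⊤) (m : ℕ) (hm : 0 < m) :
    (univ.filter (fun ψ : AddChar G ℂ => imc ψ = m)).card ≤ m ^ s.card := by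
  classical
  have h1 : (Fintype.piFinset (fun _ : s => Polynomial.nthRootsFinset m (1 : ℂ))).card
      ≤ m ^ s.card := by
    rw [Fintype.card_piFinset, Finset.prod_const, Finset.card_univ, Fintype.card_coe]
    apply Nat.pow_le_pow_left
    rw [Polynomial.nthRootsFinset_def]
    exact (Multiset.toFinset_card_le _).trans (Polynomial.card_nthRoots m 1)
  refine le_trans ?_ h1
  apply Finset.card_le_card_of_injOn (fun ψ => fun g : s => ψ (g : G))
  · intro ψ hψ
    simp only [coe_filter, mem_univ, true_and, Set.mem_ofPred_eq] at hψ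
    rw [Finset.mem_coe, Fintype.mem_piFinset]
    intro g
    rw [Polynomial.mem_nthRootsFinset hm, ← hψ]
    exact pow_imc ψ _
  · intro ψ _ φ _ h
    apply AddChar.ext
    intro g
    have hg : g ∈ AddSubgroup.closure (s : Set G) := by rw [hs]; trivial
    induction hg using AddSubgroup.closure_induction with
    | mem x hx => exact congrFun h ⟨x, hx⟩
    | zero => rw [AddChar.map_zero_eq_one, AddChar.map_zero_eq_one]
    | add x y _ _ hx hy => rw [AddChar.map_add_eq_mul, AddChar.map_add_eq_mul, hx, hy]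
    | neg x _ hx => rw [AddChar.map_neg_eq_inv, AddChar.map_neg_eq_inv, hx]

lemma imc_ge_two (ψ : AddChar G ℂ) (h : ψ ≠ 1) : 2 ≤ imc ψ := by
  by_contra hlt
  have h1 : imc ψ = 1 := by have := imc_pos ψ; omega
  apply h
  apply AddChar.ext
  intro g
  have := pow_imc ψ g
  rw [h1, pow_one] at this
  rw [this]
  rfl

lemma geo89 (J : ℕ) : ∑ i ∈ Icc 1 J, (8 / 9 : ℝ) ^ i ≤ 8 - 8 * (8 / 9) ^ J := by
  induction J with
  | zero => simp
  | succ n ih =>
    rw [Finset.sum_Icc_succ_top (by omega)]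
    rw [pow_succ]
    linarith

lemma exp_neg_four : Real.exp (-4) ≤ 1 / 50 := by
  have h1 : (2.7182818283 : ℝ) < Real.exp 1 := Real.exp_one_gt_d9
  have h2 : Real.exp 4 = Real.exp 1 ^ 4 := by
    rw [← Real.exp_nat_mul]; norm_num
  have h3 : (50 : ℝ) ≤ Real.exp 4 := by
    rw [h2]
    calc (50 : ℝ) ≤ 2.7182818283 ^ 4 := by norm_num
      _ ≤ Real.exp 1 ^ 4 := pow_le_pow_left₀ (by norm_num) h1.le 4
  rw [Real.exp_neg, inv_eq_one_div]
  exact one_div_le_one_div_of_le (by norm_num) h3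

lemma tail_term (i : ℕ) :
    (2 : ℝ) ^ i * Real.exp (-(2500 * (3 / 2) ^ i)) ≤ (2 / 6250000) * (8 / 9) ^ i := by
  set y : ℝ := 2500 * (3 / 2) ^ i with hy
  have hy0 : 0 < y := by positivity
  have h1 := Real.quadratic_le_exp_of_nonneg hy0.le
  have h2 : y ^ 2 / 2 ≤ Real.exp y := by nlinarith
  have h3 : Real.exp (-y) ≤ 2 / y ^ 2 := by
    rw [Real.exp_neg]
    rw [inv_eq_one_div, div_le_div_iff₀ (Real.exp_pos _) (by positivity)]
    linarith
  have h4 : (2 : ℝ) ^ i * (2 / y ^ 2) = (2 / 6250000) * (8 / 9) ^ i := by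
    have h5 : y ^ 2 = 6250000 * ((9 / 4) ^ i) := by
      rw [hy, mul_pow, ← pow_mul, mul_comm i 2, pow_mul]
      norm_num
    have h6 : (8 / 9 : ℝ) ^ i = 2 ^ i / (9 / 4) ^ i := by
      rw [← div_pow]; norm_num
    rw [h5, h6]
    field_simp
  rw [← h4]
  exact mul_le_mul_of_nonneg_left h3 (by positivity)

/-- The exponential moment of the kernel. -/
lemma exp_moment (ψ : AddChar G ℂ) (J : ℕ) :
    ∑ z : G, Real.exp (-(2500 * (2 ^ J * F J (ψ z)))) ≤
      Fintype.card G * ((1 : ℝ) / imc ψ + (1 / 20) / 2 ^ J) := by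
  have h1 : ∀ z : G, _ := fun z => exp_bound J (ψ z) (norm_ψ ψ z) 2500 (1 / 100)
    (by norm_num) (by norm_num)
  refine (Finset.sum_le_sum (fun z _ => h1 z)).trans ?_
  rw [Finset.sum_add_distrib, Finset.sum_add_distrib, Finset.sum_add_distrib, ← Finset.mul_sum,
    Finset.sum_comm]
  simp_rw [← Finset.mul_sum, Finset.sum_boole]
  have p2 : (0 : ℝ) < 2 ^ J := by positivity
  have c1 := count_small ψ ((1 / 100) / 2 ^ J) (by positivity)
  have c2 := count_small ψ ((1 / 2) / 2 ^ J) (by positivity)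
  have c3 := fun i : ℕ => count_small ψ ((2 ^ i / 2) / 2 ^ J) (by positivity)
  have hG : (0 : ℝ) ≤ Fintype.card G := Nat.cast_nonneg _
  have e0 : ((univ.filter (fun z => ψ z = 1)).card : ℝ) = Fintype.card G * ((1 : ℝ) / imc ψ) := by
    have h := card_eq_mul ψ
    unfold kerc at h
    rw [← h]
    have := imc_pos ψ
    have h' : (imc ψ : ℝ) ≠ 0 := by exact_mod_cast this.ne'
    push_cast
    field_simp
  have e2 : Real.exp (-(16 * 2500 * (1 / 100 : ℝ) ^ 2)) ≤ 1 / 50 := by
    have : (16 * 2500 * (1 / 100 : ℝ) ^ 2) = 4 := by norm_num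
    rw [this]; exact exp_neg_four
  have e3 : ∑ i ∈ Icc 1 J, Real.exp (-(2500 * (3 / 2 : ℝ) ^ i)) *
      ((univ.filter (fun z => ψ z ≠ 1 ∧ ang (ψ z) ≤ (2 ^ i / 2) / 2 ^ J)).card : ℝ)
      ≤ (16 / 6250000) * (Fintype.card G / 2 ^ J) := by
    calc _ ≤ ∑ i ∈ Icc 1 J, ((2 / 6250000) * (8 / 9 : ℝ) ^ i) * (Fintype.card G / 2 ^ J) := by
          apply Finset.sum_le_sum
          intro i _
          have t1 := tail_term i
          have t2 := c3 i
          have t3 : 2 * ((2 : ℝ) ^ i / 2 / 2 ^ J) * Fintype.card G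
              = 2 ^ i * (Fintype.card G / 2 ^ J) := by ring
          rw [t3] at t2
          calc _ ≤ Real.exp (-(2500 * (3 / 2 : ℝ) ^ i)) * (2 ^ i * (Fintype.card G / 2 ^ J)) :=
                mul_le_mul_of_nonneg_left t2 (Real.exp_pos _).le
            _ = (2 ^ i * Real.exp (-(2500 * (3 / 2 : ℝ) ^ i))) * (Fintype.card G / 2 ^ J) := by ring
            _ ≤ _ := mul_le_mul_of_nonneg_right t1 (by positivity)
      _ = (2 / 6250000) * (∑ i ∈ Icc 1 J, (8 / 9 : ℝ) ^ i) * (Fintype.card G / 2 ^ J) := by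
          rw [Finset.mul_sum, Finset.sum_mul]
      _ ≤ (2 / 6250000) * 8 * (Fintype.card G / 2 ^ J) := by
          apply mul_le_mul_of_nonneg_right _ (by positivity)
          have := geo89 J
          have h9 : (0 : ℝ) < (8 / 9) ^ J := by positivity
          linarith
      _ = _ := by ring
  have e4 : Real.exp (-(16 * 2500 * (1 / 100 : ℝ) ^ 2)) *
      ((univ.filter (fun z => ψ z ≠ 1 ∧ ang (ψ z) ≤ (1 / 2) / 2 ^ J)).card : ℝ)
      ≤ (1 / 50) * (2 * ((1 / 2) / 2 ^ J) * Fintype.card G) :=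
    mul_le_mul e2 c2 (Nat.cast_nonneg _) (by norm_num)
  have hdiv : 0 ≤ (Fintype.card G : ℝ) / 2 ^ J := by positivity
  have f1 : 2 * ((1 / 100 : ℝ) / 2 ^ J) * Fintype.card G
    = (2 / 100) * (Fintype.card G / 2 ^ J) := by ring
  have f2 : (1 / 50) * (2 * ((1 / 2) / 2 ^ J) * (Fintype.card G : ℝ))
    = (1 / 50) * (Fintype.card G / 2 ^ J) := by ring
  have f3 : (Fintype.card G : ℝ) * ((1 : ℝ) / imc ψ + (1 / 20) / 2 ^ J)
    = Fintype.card G * ((1 : ℝ) / imc ψ) + (1 / 20) * (Fintype.card G / 2 ^ J) := by ring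
  rw [f1] at c1
  rw [f2] at e4
  rw [f3]
  linarith

end R986.RCC
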