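import Pool.Agent.R986.RCC2

/-!
Random abelian Cayley graphs: the union bound.
-/

open Finset

namespace R986.RCC

variable {G : Type} [AddCommGroup G] [Fintype G]

lemma exp_twentieth : Real.exp (1 / 20) ≤ 20 / 19 := by
  have h1 : (1 : ℝ) - 1 / 20 ≤ Real.exp (-(1 / 20)) := Real.one_sub_le_exp_neg _
  rw [Real.exp_neg, inv_eq_one_div, le_div_iff₀ (Real.exp_pos _)] at h1
  rw [le_div_iff₀ (by norm_num)]
  linarith

lemma bad_card (ψ : AddChar G ℂ) (J k : ℕ) :
    ((univ.filter (fun Z : Fin k → G =>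
      ∑ i, 2 ^ J * F J (ψ (Z i)) ≤ (1 / 50000) * (k : ℝ))).card : ℝ) ≤
      (20 / 19) ^ k * (Fintype.card G * ((1 : ℝ) / imc ψ + (1 / 20) / 2 ^ J)) ^ k := by
  have h0 : ∀ Z : Fin k → G, Real.exp (2500 * ((1 / 50000) * k - ∑ i, 2 ^ J * F J (ψ (Z i))))
      = Real.exp (1 / 20) ^ k * ∏ i, Real.exp (-(2500 * (2 ^ J * F J (ψ (Z i))))) := by
    intro Z
    rw [← Real.exp_nat_mul, ← Real.exp_sum, ← Real.exp_add]
    congr 1
    simp only [Finset.sum_neg_distrib, ← Finset.mul_sum]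
    ring
  calc ((univ.filter (fun Z : Fin k → G =>
      ∑ i, 2 ^ J * F J (ψ (Z i)) ≤ (1 / 50000) * (k : ℝ))).card : ℝ)
      = ∑ Z ∈ univ.filter (fun Z : Fin k → G =>
          ∑ i, 2 ^ J * F J (ψ (Z i)) ≤ (1 / 50000) * (k : ℝ)), (1 : ℝ) := by simp
    _ ≤ ∑ Z ∈ univ.filter (fun Z : Fin k → G =>
          ∑ i, 2 ^ J * F J (ψ (Z i)) ≤ (1 / 50000) * (k : ℝ)),
          Real.exp (2500 * ((1 / 50000) * k - ∑ i, 2 ^ J * F J (ψ (Z i)))) := by
        apply Finset.sum_le_sum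
        intro Z hZ
        simp only [mem_filter, mem_univ, true_and] at hZ
        apply Real.one_le_exp
        linarith
    _ ≤ ∑ Z : Fin k → G,
          Real.exp (2500 * ((1 / 50000) * k - ∑ i, 2 ^ J * F J (ψ (Z i)))) := by
        apply Finset.sum_le_sum_of_subset_of_nonneg (Finset.filter_subset _ _)
        intro i _ _
        positivity
    _ = Real.exp (1 / 20) ^ k *
          (∑ z : G, Real.exp (-(2500 * (2 ^ J * F J (ψ z))))) ^ k := by
        simp_rw [h0]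
        rw [← Finset.mul_sum, Finset.sum_pow', Fintype.piFinset_univ]
    _ ≤ _ := by
        apply mul_le_mul
        · exact pow_le_pow_left₀ (Real.exp_pos _).le exp_twentieth k
        · apply pow_le_pow_left₀ _ (exp_moment ψ J)
          positivity
        · positivity
        · positivity

lemma add_pow_le_split (x y : ℝ) (hx : 0 ≤ x) (hy : 0 ≤ y) (k : ℕ) :
    (x + y) ^ k ≤ (11 / 10 * x) ^ k + (11 * y) ^ k := by
  rcases le_total (10 * y) x with h | h
  · have h1 : (x + y) ^ k ≤ (11 / 10 * x) ^ k := pow_le_pow_left₀ (by positivity) (by linarith) k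
    have h2 : 0 ≤ (11 * y) ^ k := by positivity
    linarith
  · have h1 : (x + y) ^ k ≤ (11 * y) ^ k := pow_le_pow_left₀ (by positivity) (by linarith) k
    have h2 : 0 ≤ (11 / 10 * x) ^ k := by positivity
    linarith

lemma zeta_tail' (n : ℕ) : ∑ m ∈ Icc 2 (n + 1), (1 / (m : ℝ)) ^ 2 ≤ 1 - 1 / ((n : ℝ) + 1) := by
  induction n with
  | zero => simp
  | succ n ih =>
    rw [Finset.sum_Icc_succ_top (by omega)]
    push_cast
    have h1 : (0 : ℝ) < (n : ℝ) + 1 := by positivity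
    have h2 : (1 / ((n : ℝ) + 1 + 1)) ^ 2 ≤ 1 / ((n : ℝ) + 1) - 1 / ((n : ℝ) + 1 + 1) := by
      rw [div_sub_div _ _ (by positivity) (by positivity), div_pow,
        div_le_div_iff₀ (by positivity) (by positivity)]
      nlinarith
    linarith

lemma zeta_tail (n : ℕ) : ∑ m ∈ Icc 2 n, (1 / (m : ℝ)) ^ 2 ≤ 1 := by
  rcases n with _ | n
  · simp
  · have := zeta_tail' n
    have h2 : (0 : ℝ) ≤ 1 / ((n : ℝ) + 1) := by positivity
    linarith

lemma sum_imc (s : Finset G) (hs : AddSubgroup.closure (s : Set G) = ⊤) (k q : ℕ)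
    (hq : k = (q + 2) + s.card) :
    ∑ ψ ∈ univ.filter (fun ψ : AddChar G ℂ => 2 ≤ imc ψ), ((1 : ℝ) / imc ψ) ^ k
      ≤ (1 / 2) ^ q := by
  have hmaps : ∀ ψ ∈ univ.filter (fun ψ : AddChar G ℂ => 2 ≤ imc ψ),
      imc ψ ∈ Icc 2 (Fintype.card G) := by
    intro ψ hψ
    simp only [mem_filter, mem_univ, true_and] at hψ
    exact mem_Icc.2 ⟨hψ, imc_le ψ⟩
  rw [← Finset.sum_fiberwise_of_maps_to hmaps]
  calc ∑ m ∈ Icc 2 (Fintype.card G),
        ∑ ψ ∈ (univ.filter (fun ψ : AddChar G ℂ => 2 ≤ imc ψ)).filter (fun ψ => imc ψ = m),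
          ((1 : ℝ) / imc ψ) ^ k
      ≤ ∑ m ∈ Icc 2 (Fintype.card G), (1 / 2 : ℝ) ^ q * (1 / (m : ℝ)) ^ 2 := by
        apply Finset.sum_le_sum
        intro m hm
        rw [mem_Icc] at hm
        have hm0 : 0 < m := by omega
        have hmR : (0 : ℝ) < m := by exact_mod_cast hm0
        have h1 : ∑ ψ ∈ (univ.filter (fun ψ : AddChar G ℂ => 2 ≤ imc ψ)).filter
              (fun ψ => imc ψ = m), ((1 : ℝ) / imc ψ) ^ k
            = (((univ.filter (fun ψ : AddChar G ℂ => 2 ≤ imc ψ)).filter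
              (fun ψ => imc ψ = m)).card : ℝ) * ((1 : ℝ) / m) ^ k := by
          rw [← nsmul_eq_mul, ← Finset.sum_const]
          apply Finset.sum_congr rfl
          intro ψ hψ
          rw [(mem_filter.1 hψ).2]
        rw [h1]
        have h2 : ((univ.filter (fun ψ : AddChar G ℂ => 2 ≤ imc ψ)).filter
              (fun ψ => imc ψ = m)).card ≤ m ^ s.card := by
          refine le_trans (Finset.card_le_card ?_) (count_chars s hs m hm0)
          intro ψ hψ
          simp only [mem_filter, mem_univ, true_and] at hψ ⊢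
          exact hψ.2
        have h3 : (((univ.filter (fun ψ : AddChar G ℂ => 2 ≤ imc ψ)).filter
              (fun ψ => imc ψ = m)).card : ℝ) ≤ (m : ℝ) ^ s.card := by exact_mod_cast h2
        calc _ ≤ (m : ℝ) ^ s.card * ((1 : ℝ) / m) ^ k :=
              mul_le_mul_of_nonneg_right h3 (by positivity)
          _ = (1 / (m : ℝ)) ^ q * (1 / (m : ℝ)) ^ 2 := by
              rw [hq, pow_add (1 / (m : ℝ)) (q + 2) s.card, mul_comm, mul_assoc, ← mul_pow,
                one_div_mul_cancel hmR.ne', one_pow, mul_one, pow_add]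
          _ ≤ _ := by
              apply mul_le_mul_of_nonneg_right _ (by positivity)
              apply pow_le_pow_left₀ (by positivity)
              apply one_div_le_one_div_of_le (by norm_num)
              exact_mod_cast hm.1
    _ = (1 / 2 : ℝ) ^ q * ∑ m ∈ Icc 2 (Fintype.card G), (1 / (m : ℝ)) ^ 2 := by
        rw [Finset.mul_sum]
    _ ≤ (1 / 2 : ℝ) ^ q * 1 := mul_le_mul_of_nonneg_left (zeta_tail _) (by positivity)
    _ = _ := mul_one _

/-- The bad event: some nontrivial character has a small multiscale energy. -/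
def IsBad (J : ℕ) {k : ℕ} (Z : Fin k → G) : Prop :=
  ∃ ψ : AddChar G ℂ, 2 ≤ imc ψ ∧ ∑ i, 2 ^ J * F J (ψ (Z i)) ≤ (1 / 50000) * (k : ℝ)

open Classical in
lemma bad_total (s : Finset G) (hs : AddSubgroup.closure (s : Set G) = ⊤) (J k : ℕ)
    (hk : 4 ≤ k) (hks : 2 * s.card ≤ k) (hJ : (Fintype.card G : ℝ) ≤ (2 ^ J) ^ k) :
    ((univ.filter (fun Z : Fin k → G => IsBad J Z)).card : ℝ) ≤
      5 * (9 / 10) ^ k * (Fintype.card G : ℝ) ^ k := by
  obtain ⟨q, hq⟩ : ∃ q, k = (q + 2) + s.card := ⟨k - s.card - 2, by omega⟩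
  have h1 : univ.filter (fun Z : Fin k → G => IsBad J Z) ⊆
      (univ.filter (fun ψ : AddChar G ℂ => 2 ≤ imc ψ)).biUnion (fun ψ =>
        univ.filter (fun Z : Fin k → G =>
          ∑ i, 2 ^ J * F J (ψ (Z i)) ≤ (1 / 50000) * (k : ℝ))) := by
    intro Z hZ
    obtain ⟨ψ, h2, h3⟩ := (mem_filter.1 hZ).2
    rw [mem_biUnion]
    exact ⟨ψ, by simp [h2], by simp only [mem_filter, mem_univ, true_and]; exact h3⟩
  have h2 : ((univ.filter (fun Z : Fin k → G => IsBad J Z)).card : ℝ) ≤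
      ∑ ψ ∈ univ.filter (fun ψ : AddChar G ℂ => 2 ≤ imc ψ),
        (20 / 19) ^ k * (Fintype.card G * ((1 : ℝ) / imc ψ + (1 / 20) / 2 ^ J)) ^ k := by
    calc ((univ.filter (fun Z : Fin k → G => IsBad J Z)).card : ℝ)
        ≤ ((∑ ψ ∈ univ.filter (fun ψ : AddChar G ℂ => 2 ≤ imc ψ),
          (univ.filter (fun Z : Fin k → G =>
          ∑ i, 2 ^ J * F J (ψ (Z i)) ≤ (1 / 50000) * (k : ℝ))).card : ℕ) : ℝ) := by
          exact_mod_cast (Finset.card_le_card h1).trans Finset.card_biUnion_le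
      _ ≤ _ := by
          rw [Nat.cast_sum]
          exact Finset.sum_le_sum (fun ψ _ => bad_card ψ J k)
  have hG : (0 : ℝ) ≤ Fintype.card G := Nat.cast_nonneg _
  have h3 : ∑ ψ ∈ univ.filter (fun ψ : AddChar G ℂ => 2 ≤ imc ψ),
        (20 / 19 : ℝ) ^ k * (Fintype.card G * ((1 : ℝ) / imc ψ + (1 / 20) / 2 ^ J)) ^ k
      ≤ (22 / 19) ^ k * (Fintype.card G : ℝ) ^ k *
          (∑ ψ ∈ univ.filter (fun ψ : AddChar G ℂ => 2 ≤ imc ψ), ((1 : ℝ) / imc ψ) ^ k)
        + (11 / 19) ^ k * (Fintype.card G : ℝ) ^ k := by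
    have h4 : ∀ ψ ∈ univ.filter (fun ψ : AddChar G ℂ => 2 ≤ imc ψ),
        (20 / 19 : ℝ) ^ k * (Fintype.card G * ((1 : ℝ) / imc ψ + (1 / 20) / 2 ^ J)) ^ k ≤
        (22 / 19) ^ k * (Fintype.card G : ℝ) ^ k * ((1 : ℝ) / imc ψ) ^ k +
        (11 / 19) ^ k * (Fintype.card G : ℝ) ^ k * (1 / (2 ^ J) ^ k) := by
      intro ψ _
      have h5 := add_pow_le_split ((1 : ℝ) / imc ψ) ((1 / 20) / 2 ^ J) (by positivity)
        (by positivity) k
      rw [mul_pow]
      calc (20 / 19 : ℝ) ^ k * ((Fintype.card G : ℝ) ^ k *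
            ((1 : ℝ) / imc ψ + (1 / 20) / 2 ^ J) ^ k)
          ≤ (20 / 19 : ℝ) ^ k * ((Fintype.card G : ℝ) ^ k *
            ((11 / 10 * ((1 : ℝ) / imc ψ)) ^ k + (11 * ((1 / 20) / 2 ^ J)) ^ k)) := by
            apply mul_le_mul_of_nonneg_left _ (by positivity)
            exact mul_le_mul_of_nonneg_left h5 (by positivity)
        _ = _ := by
            rw [mul_pow (11 / 10 : ℝ)]
            have e1 : (11 * ((1 / 20 : ℝ) / 2 ^ J)) ^ k = (11 / 20) ^ k * (1 / (2 ^ J) ^ k) := by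
              rw [← one_div_pow, ← mul_pow]; congr 1; ring
            have e2 : (22 / 19 : ℝ) ^ k = (20 / 19) ^ k * (11 / 10) ^ k := by
              rw [← mul_pow]; norm_num
            have e3 : (11 / 19 : ℝ) ^ k = (20 / 19) ^ k * (11 / 20) ^ k := by
              rw [← mul_pow]; norm_num
            rw [e1, e2, e3]
            ring
    refine (Finset.sum_le_sum h4).trans ?_
    rw [Finset.sum_add_distrib, ← Finset.mul_sum, Finset.sum_const, nsmul_eq_mul]
    have h6 : ((univ.filter (fun ψ : AddChar G ℂ => 2 ≤ imc ψ)).card : ℝ) ≤ (2 ^ J) ^ k := by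
      refine le_trans ?_ hJ
      have : (univ.filter (fun ψ : AddChar G ℂ => 2 ≤ imc ψ)).card ≤ Fintype.card G := by
        refine (Finset.card_le_univ _).trans ?_
        rw [AddChar.card_eq]
      exact_mod_cast this
    have h7 : ((univ.filter (fun ψ : AddChar G ℂ => 2 ≤ imc ψ)).card : ℝ) *
        ((11 / 19) ^ k * (Fintype.card G : ℝ) ^ k * (1 / (2 ^ J) ^ k))
        ≤ (11 / 19) ^ k * (Fintype.card G : ℝ) ^ k := by
      have p : (0 : ℝ) < (2 ^ J) ^ k := by positivity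
      calc _ ≤ ((2 : ℝ) ^ J) ^ k *
          ((11 / 19) ^ k * (Fintype.card G : ℝ) ^ k * (1 / (2 ^ J) ^ k)) :=
            mul_le_mul_of_nonneg_right h6 (by positivity)
        _ = _ := by field_simp
    linarith
  have h8 := sum_imc s hs k q hq
  have h9 : (22 / 19 : ℝ) ^ k * (1 / 2) ^ q ≤ 4 * (9 / 10) ^ k := by
    have a1 : ((22 / 19 : ℝ) ^ k * (1 / 2) ^ (q + 2)) ^ 2 ≤ ((9 / 10 : ℝ) ^ k) ^ 2 := by
      have a2 : ((1 / 2 : ℝ) ^ (q + 2)) ^ 2 ≤ (1 / 2) ^ k := by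
        rw [← pow_mul]
        apply pow_le_pow_of_le_one (by norm_num) (by norm_num)
        omega
      calc ((22 / 19 : ℝ) ^ k * (1 / 2) ^ (q + 2)) ^ 2
          = ((22 / 19 : ℝ) ^ 2) ^ k * ((1 / 2 : ℝ) ^ (q + 2)) ^ 2 := by
            rw [mul_pow, ← pow_mul, ← pow_mul, ← pow_mul, mul_comm k 2]
        _ ≤ ((22 / 19 : ℝ) ^ 2) ^ k * (1 / 2) ^ k :=
            mul_le_mul_of_nonneg_left a2 (by positivity)
        _ = (((22 / 19 : ℝ) ^ 2) * (1 / 2)) ^ k := by rw [← mul_pow]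
        _ ≤ ((9 / 10 : ℝ) ^ 2) ^ k := pow_le_pow_left₀ (by norm_num) (by norm_num) k
        _ = ((9 / 10 : ℝ) ^ k) ^ 2 := by rw [← pow_mul, ← pow_mul, mul_comm]
    have a3 := (abs_le_of_sq_le_sq' a1 (by positivity)).2
    have a4 : (1 / 2 : ℝ) ^ (q + 2) = (1 / 4) * (1 / 2) ^ q := by rw [pow_add]; ring
    rw [a4] at a3
    linarith
  have h10 : (11 / 19 : ℝ) ^ k ≤ (9 / 10) ^ k := pow_le_pow_left₀ (by norm_num) (by norm_num) k
  have hGk : (0 : ℝ) ≤ (Fintype.card G : ℝ) ^ k := by positivity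
  calc ((univ.filter (fun Z : Fin k → G => IsBad J Z)).card : ℝ)
      ≤ _ := h2.trans h3
    _ ≤ (22 / 19) ^ k * (Fintype.card G : ℝ) ^ k * (1 / 2) ^ q
        + (11 / 19) ^ k * (Fintype.card G : ℝ) ^ k := by
        have := mul_le_mul_of_nonneg_left h8
          (by positivity : (0 : ℝ) ≤ (22 / 19) ^ k * (Fintype.card G : ℝ) ^ k)
        linarith
    _ = ((22 / 19 : ℝ) ^ k * (1 / 2) ^ q) * (Fintype.card G : ℝ) ^ k
        + (11 / 19) ^ k * (Fintype.card G : ℝ) ^ k := by ring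
    _ ≤ (4 * (9 / 10) ^ k) * (Fintype.card G : ℝ) ^ k
        + (9 / 10) ^ k * (Fintype.card G : ℝ) ^ k := by
        have b1 := mul_le_mul_of_nonneg_right h9 hGk
        have b2 := mul_le_mul_of_nonneg_right h10 hGk
        linarith
    _ = _ := by ring

end R986.RCC
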