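import Pool.Agent.R986.RCC3

/-!
Random abelian Cayley graphs: the deterministic isoperimetric part.
-/

open Finset

namespace R986.RCC

/-- Number of edges `(g,i)` (joining `g` and `g + Z i`) with exactly one endpoint in `S`. -/
def cut {G : Type} [AddCommGroup G] [Fintype G] [DecidableEq G] {k : ℕ} (Z : Fin k → G)
    (S : Finset G) : ℕ :=
  (univ.filter (fun p : G × Fin k => ¬ (p.1 ∈ S ↔ p.1 + Z p.2 ∈ S))).card

/-- The Cheeger constant `Φ_*` of the `2k`-regular random Cayley multigraph. -/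
noncomputable def cheeger {G : Type} [AddCommGroup G] [Fintype G] [DecidableEq G] {k : ℕ}
    (Z : Fin k → G) : ℝ :=
  (1 / (2 * (k : ℝ))) *
    ⨅ S : {S : Finset G // 1 ≤ S.card ∧ 2 * S.card ≤ Fintype.card G},
      (cut Z S.1 : ℝ) / (S.1.card : ℝ)

variable {G : Type} [AddCommGroup G] [Fintype G] [DecidableEq G]

/-- edge boundary in the direction `h` -/
def D (S : Finset G) (h : G) : ℕ := (univ.filter (fun g : G => ¬ (g ∈ S ↔ g + h ∈ S))).card

lemma cut_eq {k : ℕ} (Z : Fin k → G) (S : Finset G) : cut Z S = ∑ i, D S (Z i) := by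
  unfold cut D
  simp_rw [Finset.card_filter]
  rw [Fintype.sum_prod_type_right]

lemma D_add (S : Finset G) (h h' : G) : D S (h + h') ≤ D S h + D S h' := by
  have h1 : D S h' = (univ.filter (fun g : G => ¬ (g + h ∈ S ↔ g + h + h' ∈ S))).card := by
    unfold D
    symm
    apply Finset.card_bij (fun g _ => g + h)
    · intro g hg
      simpa using hg
    · intro a _ b _ hab
      simpa using hab
    · intro b hb
      refine ⟨b - h, ?_, by simp⟩
      simpa using hb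
  rw [h1]
  unfold D
  refine le_trans (Finset.card_le_card ?_) (Finset.card_union_le _ _)
  intro g hg
  simp only [mem_filter, mem_univ, true_and, mem_union, ← add_assoc] at hg ⊢
  tauto

lemma D_zero (S : Finset G) : D S 0 = 0 := by
  unfold D
  simp

lemma D_nsmul (S : Finset G) (n : ℕ) (h : G) : D S (n • h) ≤ n * D S h := by
  induction n with
  | zero => simp [D_zero]
  | succ n ih =>
    rw [succ_nsmul, add_mul, one_mul]
    exact (D_add S _ _).trans (by omega)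

/-- Fourier transform of the indicator -/
noncomputable def fh (S : Finset G) (ψ : AddChar G ℂ) : ℂ := ∑ g ∈ S, ψ g

omit [DecidableEq G] in
lemma conj_ψ (ψ : AddChar G ℂ) (h : G) : (starRingEnd ℂ) (ψ h) = ψ (-h) := by
  rw [AddChar.map_neg_eq_inv, ← Complex.inv_eq_conj (norm_ψ ψ h)]

lemma parseval (u : G → ℂ) :
    ∑ ψ : AddChar G ℂ, ‖∑ g, u g * ψ g‖ ^ 2 = Fintype.card G * ∑ g, ‖u g‖ ^ 2 := by
  have key : ((∑ ψ : AddChar G ℂ, ‖∑ g, u g * ψ g‖ ^ 2 : ℝ) : ℂ)
      = ((Fintype.card G * ∑ g, ‖u g‖ ^ 2 : ℝ) : ℂ) := by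
    push_cast
    have h1 : ∀ ψ : AddChar G ℂ, (‖∑ g, u g * ψ g‖ : ℂ) ^ 2
        = ∑ g, ∑ h, u g * (starRingEnd ℂ) (u h) * ψ (g - h) := by
      intro ψ
      rw [← Complex.mul_conj', map_sum, Finset.sum_mul_sum]
      apply Finset.sum_congr rfl
      intro g _
      apply Finset.sum_congr rfl
      intro h _
      rw [map_mul, conj_ψ, sub_eq_add_neg, AddChar.map_add_eq_mul]
      ring
    simp_rw [h1]
    rw [Finset.sum_comm]
    rw [Finset.mul_sum]
    apply Finset.sum_congr rfl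
    intro g _
    rw [Finset.sum_comm]
    simp_rw [← Finset.mul_sum, AddChar.sum_apply_eq_ite]
    rw [Finset.sum_eq_single g]
    · simp only [sub_self, if_true]
      rw [Complex.mul_conj', mul_comm]
    · intro b _ hb
      rw [if_neg (by rw [sub_eq_zero]; exact fun h => hb h.symm), mul_zero]
    · intro h; exact absurd (mem_univ g) h
  exact_mod_cast key

lemma fourier_D (S : Finset G) (h : G) :
    (Fintype.card G : ℝ) * D S h = ∑ ψ : AddChar G ℂ, ‖fh S ψ‖ ^ 2 * ‖1 - ψ h‖ ^ 2 := by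
  have h1 := parseval (fun g : G => (if g ∈ S then (1 : ℂ) else 0) - (if g - h ∈ S then 1 else 0))
  have h2 : ∀ ψ : AddChar G ℂ, ∑ g, ((if g ∈ S then (1 : ℂ) else 0) -
      (if g - h ∈ S then 1 else 0)) * ψ g = fh S ψ * (1 - ψ h) := by
    intro ψ
    simp_rw [sub_mul]
    rw [Finset.sum_sub_distrib]
    have e1 : ∑ g, (if g ∈ S then (1 : ℂ) else 0) * ψ g = fh S ψ := by
      unfold fh
      simp
    have e2 : ∑ g, (if g - h ∈ S then (1 : ℂ) else 0) * ψ g = fh S ψ * ψ h := by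
      rw [← e1, Finset.sum_mul]
      rw [← Equiv.sum_comp (Equiv.addRight h)]
      apply Finset.sum_congr rfl
      intro g _
      simp only [Equiv.coe_addRight, add_sub_cancel_right]
      rw [AddChar.map_add_eq_mul]
      ring
    rw [e1, e2]
    ring
  simp_rw [h2, norm_mul, mul_pow] at h1
  rw [h1]
  congr 1
  unfold D
  rw [Finset.card_filter, Nat.cast_sum]
  rw [← Equiv.sum_comp (Equiv.addRight h) (fun g : G => ‖(if g ∈ S then (1 : ℂ) else 0) -
      (if g - h ∈ S then 1 else 0)‖ ^ 2)]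
  apply Finset.sum_congr rfl
  intro g _
  simp only [Equiv.coe_addRight, add_sub_cancel_right]
  by_cases a : g ∈ S <;> by_cases b : g + h ∈ S <;> simp [a, b]

lemma fourier_card (S : Finset G) :
    ∑ ψ : AddChar G ℂ, ‖fh S ψ‖ ^ 2 = (Fintype.card G : ℝ) * S.card := by
  have h1 := parseval (fun g : G => (if g ∈ S then (1 : ℂ) else 0))
  have e1 : ∀ ψ : AddChar G ℂ, ∑ g, (if g ∈ S then (1 : ℂ) else 0) * ψ g = fh S ψ := by
    intro ψ; unfold fh; simp
  simp_rw [e1] at h1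
  rw [h1]
  congr 1
  have : ∀ g : G, ‖(if g ∈ S then (1 : ℂ) else 0)‖ ^ 2 = if g ∈ S then 1 else 0 := by
    intro g; split_ifs <;> simp
  simp_rw [this]
  simp

lemma geo34 (J : ℕ) : ∑ j ∈ range (J + 1), (3 / 4 : ℝ) ^ (J - j) ≤ 4 := by
  have h1 : ∑ j ∈ range (J + 1), (3 / 4 : ℝ) ^ (J - j) = ∑ j ∈ range (J + 1), (3 / 4 : ℝ) ^ j := by
    rw [← Finset.sum_range_reflect]
    apply Finset.sum_congr rfl
    intro j hj
    rw [mem_range] at hj
    congr 1
    omega
  rw [h1, geom_sum_eq (by norm_num)]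
  have : (0 : ℝ) < (3 / 4) ^ (J + 1) := by positivity
  rw [div_le_iff_of_neg (by norm_num)]
  linarith

lemma cut_lower {k : ℕ} (Z : Fin k → G) (S : Finset G) (J : ℕ) :
    ∑ ψ : AddChar G ℂ, ‖fh S ψ‖ ^ 2 * ∑ i, F J (ψ (Z i)) ≤
      (Fintype.card G : ℝ) * (4 * cut Z S) := by
  have h1 : ∀ i : Fin k, ∑ ψ : AddChar G ℂ, ‖fh S ψ‖ ^ 2 * F J (ψ (Z i)) ≤
      (Fintype.card G : ℝ) * (4 * D S (Z i)) := by
    intro i
    have e1 : ∑ ψ : AddChar G ℂ, ‖fh S ψ‖ ^ 2 * F J (ψ (Z i)) =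
        ∑ j ∈ range (J + 1), (1 / 2 : ℝ) ^ j * (3 / 4 : ℝ) ^ (J - j) *
          ((Fintype.card G : ℝ) * D S (2 ^ j • Z i)) := by
      unfold F
      simp_rw [fourier_D, AddChar.map_nsmul_eq_pow, Finset.mul_sum]
      rw [Finset.sum_comm]
      apply Finset.sum_congr rfl
      intro j _
      apply Finset.sum_congr rfl
      intro ψ _
      ring
    rw [e1]
    calc _ ≤ ∑ j ∈ range (J + 1), (3 / 4 : ℝ) ^ (J - j) * ((Fintype.card G : ℝ) * D S (Z i)) := by
          apply Finset.sum_le_sum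
          intro j _
          have h2 : (D S (2 ^ j • Z i) : ℝ) ≤ 2 ^ j * D S (Z i) := by
            exact_mod_cast D_nsmul S (2 ^ j) (Z i)
          have h3 : (1 / 2 : ℝ) ^ j * 2 ^ j = 1 := by rw [← mul_pow]; norm_num
          calc (1 / 2 : ℝ) ^ j * (3 / 4 : ℝ) ^ (J - j) *
                ((Fintype.card G : ℝ) * D S (2 ^ j • Z i))
              ≤ (1 / 2 : ℝ) ^ j * (3 / 4 : ℝ) ^ (J - j) *
                ((Fintype.card G : ℝ) * (2 ^ j * D S (Z i))) := by
                apply mul_le_mul_of_nonneg_left _ (by positivity)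
                exact mul_le_mul_of_nonneg_left h2 (by positivity)
            _ = _ := by
                linear_combination ((3 / 4 : ℝ) ^ (J - j) * ((Fintype.card G : ℝ) * D S (Z i))) * h3
      _ = (∑ j ∈ range (J + 1), (3 / 4 : ℝ) ^ (J - j)) * ((Fintype.card G : ℝ) * D S (Z i)) := by
          rw [Finset.sum_mul]
      _ ≤ 4 * ((Fintype.card G : ℝ) * D S (Z i)) :=
          mul_le_mul_of_nonneg_right (geo34 J) (by positivity)
      _ = _ := by ring
  calc _ = ∑ i, ∑ ψ : AddChar G ℂ, ‖fh S ψ‖ ^ 2 * F J (ψ (Z i)) := by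
        rw [Finset.sum_comm]
        apply Finset.sum_congr rfl
        intro ψ _
        rw [Finset.mul_sum]
    _ ≤ ∑ i, (Fintype.card G : ℝ) * (4 * D S (Z i)) := Finset.sum_le_sum (fun i _ => h1 i)
    _ = _ := by
        rw [cut_eq, Nat.cast_sum, Finset.mul_sum, Finset.mul_sum]

lemma good_cut {k : ℕ} (Z : Fin k → G) (J : ℕ) (hZ : ¬ IsBad J Z) (S : Finset G)
    (hS : 2 * S.card ≤ Fintype.card G) :
    (k : ℝ) * S.card ≤ 400000 * 2 ^ J * cut Z S := by
  have h1 := cut_lower Z S J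
  have h2 : ∀ ψ : AddChar G ℂ, ψ ≠ 1 → (1 / 50000) * (k : ℝ) / 2 ^ J ≤ ∑ i, F J (ψ (Z i)) := by
    intro ψ hψ
    by_contra hlt
    apply hZ
    refine ⟨ψ, imc_ge_two ψ hψ, ?_⟩
    push Not at hlt
    rw [lt_div_iff₀ (by positivity)] at hlt
    rw [← Finset.mul_sum]
    linarith
  have hcard : (0 : ℝ) < Fintype.card G := by exact_mod_cast Fintype.card_pos
  have h3 : ∑ ψ : AddChar G ℂ, ‖fh S ψ‖ ^ 2 * ∑ i, F J (ψ (Z i)) ≥
      ((Fintype.card G : ℝ) * S.card - (S.card : ℝ) ^ 2) * ((1 / 50000) * (k : ℝ) / 2 ^ J) := by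
    classical
    have h4 : ∀ ψ : AddChar G ℂ, (‖fh S ψ‖ ^ 2 - (if ψ = 1 then (S.card : ℝ) ^ 2 else 0)) *
        ((1 / 50000) * (k : ℝ) / 2 ^ J) ≤ ‖fh S ψ‖ ^ 2 * ∑ i, F J (ψ (Z i)) := by
      intro ψ
      by_cases hψ : ψ = 1
      · have : fh S ψ = S.card := by
          unfold fh; rw [hψ]; simp
        rw [if_pos hψ, this]
        simp only [Complex.norm_natCast, sub_self, zero_mul]
        apply mul_nonneg (by positivity)
        exact Finset.sum_nonneg (fun i _ => F_nonneg _ _)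
      · rw [if_neg hψ, sub_zero]
        exact mul_le_mul_of_nonneg_left (h2 ψ hψ) (by positivity)
    have h5 := Finset.sum_le_sum (fun ψ (_ : ψ ∈ (univ : Finset (AddChar G ℂ))) => h4 ψ)
    rw [← Finset.sum_mul, Finset.sum_sub_distrib, fourier_card] at h5
    simpa using h5
  have h6 : ((Fintype.card G : ℝ) * S.card - (S.card : ℝ) ^ 2) ≥
      (Fintype.card G : ℝ) * (S.card / 2) := by
    have : (2 : ℝ) * S.card ≤ Fintype.card G := by exact_mod_cast hS
    have h0 : (0 : ℝ) ≤ S.card := Nat.cast_nonneg _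
    nlinarith
  have h7 : (0 : ℝ) ≤ (1 / 50000) * (k : ℝ) / 2 ^ J := by positivity
  have h8 := mul_le_mul_of_nonneg_right h6 h7
  have h9 : (Fintype.card G : ℝ) * (S.card / 2) * ((1 / 50000) * (k : ℝ) / 2 ^ J) ≤
      (Fintype.card G : ℝ) * (4 * cut Z S) := h8.trans (h3.le.trans h1)
  rw [mul_assoc] at h9
  have h10 := le_of_mul_le_mul_left h9 hcard
  have p : (0 : ℝ) < 2 ^ J := by positivity
  have h11 : (S.card : ℝ) / 2 * ((1 / 50000) * (k : ℝ) / 2 ^ J) * 2 ^ J
      ≤ (4 * cut Z S) * 2 ^ J := mul_le_mul_of_nonneg_right h10 p.le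
  have h12 : (S.card : ℝ) / 2 * ((1 / 50000) * (k : ℝ) / 2 ^ J) * 2 ^ J
    = S.card * k / 100000 := by field_simp; ring
  rw [h12] at h11
  linarith

/-- Cheeger lower bound for a good generating tuple. -/
lemma good_cheeger {k : ℕ} (hk : 0 < k) (Z : Fin k → G) (J : ℕ) (hZ : ¬ IsBad J Z)
    (hG : 2 ≤ Fintype.card G) : 1 / (800000 * 2 ^ J) ≤ cheeger Z := by
  have hne : Nonempty {S : Finset G // 1 ≤ S.card ∧ 2 * S.card ≤ Fintype.card G} :=
    ⟨⟨{0}, by simp, by simpa using hG⟩⟩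
  have hkR : (0 : ℝ) < k := by exact_mod_cast hk
  have h1 : (k : ℝ) / (400000 * 2 ^ J) ≤
      ⨅ S : {S : Finset G // 1 ≤ S.card ∧ 2 * S.card ≤ Fintype.card G},
      (cut Z S.1 : ℝ) / (S.1.card : ℝ) := by
    apply le_ciInf
    rintro ⟨S, hS1, hS2⟩
    have h2 := good_cut Z J hZ S hS2
    have h3 : (0 : ℝ) < S.card := by exact_mod_cast hS1
    simp only
    rw [div_le_div_iff₀ (by positivity) h3]
    linarith
  unfold cheeger
  calc (1 : ℝ) / (800000 * 2 ^ J) = (1 / (2 * (k : ℝ))) * ((k : ℝ) / (400000 * 2 ^ J)) := by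
        field_simp; norm_num
    _ ≤ _ := mul_le_mul_of_nonneg_left h1 (by positivity)

/-- choice of the scale -/
lemma exists_scale (n k : ℕ) (hn : 2 ≤ n) (hk : 0 < k) :
    ∃ J : ℕ, (n : ℝ) ≤ (2 ^ J) ^ k ∧ (2 : ℝ) ^ J < 2 * (n : ℝ) ^ ((1 : ℝ) / k) := by
  have hex : ∃ J : ℕ, n ≤ (2 ^ J) ^ k := by
    refine ⟨n, ?_⟩
    calc n ≤ 2 ^ n := Nat.lt_two_pow_self.le
      _ ≤ (2 ^ n) ^ k := Nat.le_self_pow hk.ne' _
  classical
  have hspec := Nat.find_spec hex
  have hmin := @Nat.find_min _ _ hex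
  set J := Nat.find hex with hJ
  have hJ1 : 1 ≤ J := by
    rcases Nat.eq_zero_or_pos J with h | h
    · rw [h] at hspec; simp at hspec; omega
    · exact h
  refine ⟨J, by exact_mod_cast hspec, ?_⟩
  have h1 := hmin (m := J - 1) (by omega)
  push Not at h1
  have h2 : (((2 : ℝ) ^ (J - 1)) ^ k) < n := by exact_mod_cast h1
  have h3 : (2 : ℝ) ^ J = 2 * 2 ^ (J - 1) := by
    rw [← pow_succ']; congr 1; omega
  rw [h3]
  have h4 : (2 : ℝ) ^ (J - 1) < (n : ℝ) ^ ((1 : ℝ) / k) := by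
    have h5 : (((2 : ℝ) ^ (J - 1)) ^ k) ^ ((1 : ℝ) / k) = 2 ^ (J - 1) := by
      rw [← Real.rpow_natCast (2 ^ (J - 1) : ℝ) k, ← Real.rpow_mul (by positivity)]
      rw [mul_one_div_cancel (by exact_mod_cast hk.ne'), Real.rpow_one]
    rw [← h5]
    exact Real.rpow_lt_rpow (by positivity) h2 (by positivity)
  linarith

end R986.RCC
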