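import Pool.Agent.R986.SpeedAna

/-!
# Invariant random rate fields with bounded rates: existence of the speed
-/

set_option autoImplicit false
set_option linter.unusedSectionVars false

open Filter Topology MeasureTheory

namespace R986.RF

variable {B : Type} [Fintype B] {M : CoxeterMatrix B} {W : Type} [Group W]
  (cs : CoxeterSystem M W)

/-- One step of the walk in the rate field `r` (with `0 ≤ r ≤ 1`), sampled at the rings of a
Poisson clock of rate `|B|`: a uniformly chosen edge `{w, w s}` is crossed with probability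
`r w s`. -/
noncomputable def step (r : W → B → ℝ) (f : W → ℝ) (w : W) : ℝ :=
  f w + (∑ s, r w s * (f (w * cs.simple s) - f w)) / Fintype.card B

/-- word length as a real function -/
noncomputable def lenR (w : W) : ℝ := (cs.length w : ℝ)

variable {cs} in
lemma step_mono {r : W → B → ℝ} (h0 : ∀ w s, 0 ≤ r w s) (h1 : ∀ w s, r w s ≤ 1)
    {f g : W → ℝ} (h : ∀ w, f w ≤ g w) (w : W) : step cs r f w ≤ step cs r g w := by
  unfold step
  rcases isEmpty_or_nonempty B with hB | hB
  · simp [h w]
  have hc : (0 : ℝ) < Fintype.card B := by exact_mod_cast Fintype.card_pos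
  have e1 : ∀ f : W → ℝ, f w + (∑ s, r w s * (f (w * cs.simple s) - f w)) / Fintype.card B =
      ((∑ s, ((1 - r w s) * f w + r w s * f (w * cs.simple s)))) / Fintype.card B := by
    intro f
    have : f w = (∑ _s : B, f w) / Fintype.card B := by
      rw [Finset.sum_const, Finset.card_univ, nsmul_eq_mul]
      field_simp
    conv_lhs => rw [this]
    rw [← add_div, ← Finset.sum_add_distrib]
    congr 1
    apply Finset.sum_congr rfl
    intro s _
    rw [← this]
    ring
  rw [e1 f, e1 g]
  apply div_le_div_of_nonneg_right _ hc.le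
  apply Finset.sum_le_sum
  intro s _
  have a1 := mul_le_mul_of_nonneg_left (h w) (by linarith [h1 w s] : 0 ≤ 1 - r w s)
  have a2 := mul_le_mul_of_nonneg_left (h (w * cs.simple s)) (h0 w s)
  linarith

lemma step_const (r : W → B → ℝ) (c : ℝ) (w : W) : step cs r (fun _ => c) w = c := by
  unfold step
  simp

lemma step_add (r : W → B → ℝ) (f g : W → ℝ) (w : W) :
    step cs r (fun w => f w + g w) w = step cs r f w + step cs r g w := by
  unfold step
  have : ∀ s, r w s * (f (w * cs.simple s) + g (w * cs.simple s) - (f w + g w)) =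
      r w s * (f (w * cs.simple s) - f w) + r w s * (g (w * cs.simple s) - g w) := by
    intro s; ring
  simp_rw [this]
  rw [Finset.sum_add_distrib, add_div]
  ring

lemma step_smul (r : W → B → ℝ) (c : ℝ) (f : W → ℝ) (w : W) :
    step cs r (fun w => c * f w) w = c * step cs r f w := by
  unfold step
  rw [mul_add, mul_div_assoc', Finset.mul_sum]
  congr 2
  apply Finset.sum_congr rfl
  intro s _
  ring

lemma iter_mono {r : W → B → ℝ} (h0 : ∀ w s, 0 ≤ r w s) (h1 : ∀ w s, r w s ≤ 1) (n : ℕ)
    {f g : W → ℝ} (h : ∀ w, f w ≤ g w) (w : W) :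
    (step cs r)^[n] f w ≤ (step cs r)^[n] g w := by
  induction n generalizing w with
  | zero => exact h w
  | succ n ih =>
    rw [Function.iterate_succ_apply', Function.iterate_succ_apply']
    exact step_mono h0 h1 ih w

lemma iter_const (r : W → B → ℝ) (n : ℕ) (c : ℝ) (w : W) :
    (step cs r)^[n] (fun _ => c) w = c := by
  induction n generalizing w with
  | zero => rfl
  | succ n ih =>
    rw [Function.iterate_succ_apply']
    have : (step cs r)^[n] (fun _ => c) = fun _ => c := funext ih
    rw [this]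
    exact step_const cs r c w

lemma iter_add (r : W → B → ℝ) (n : ℕ) (f g : W → ℝ) (w : W) :
    (step cs r)^[n] (fun w => f w + g w) w = (step cs r)^[n] f w + (step cs r)^[n] g w := by
  induction n generalizing w with
  | zero => rfl
  | succ n ih =>
    rw [Function.iterate_succ_apply', Function.iterate_succ_apply',
      Function.iterate_succ_apply']
    have : (step cs r)^[n] (fun w => f w + g w) =
      fun w => (step cs r)^[n] f w + (step cs r)^[n] g w := funext ih
    rw [this]
    exact step_add cs r _ _ w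

/-- upper comparison -/
lemma iter_le_of_step_le {r : W → B → ℝ} (h0 : ∀ w s, 0 ≤ r w s) (h1 : ∀ w s, r w s ≤ 1)
    {f u : W → ℝ} (h : ∀ w, step cs r f w ≤ f w + u w) (n : ℕ) (w : W) :
    (step cs r)^[n] f w ≤ f w + ∑ k ∈ Finset.range n, (step cs r)^[k] u w := by
  induction n with
  | zero => simp
  | succ n ih =>
    rw [Function.iterate_succ_apply, Finset.sum_range_succ]
    have h2 := iter_mono cs h0 h1 n h w
    rw [iter_add] at h2
    linarith

/-- lower comparison -/
lemma le_iter_of_le_step {r : W → B → ℝ} (h0 : ∀ w s, 0 ≤ r w s) (h1 : ∀ w s, r w s ≤ 1)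
    {f u : W → ℝ} (h : ∀ w, f w + u w ≤ step cs r f w) (n : ℕ) (w : W) :
    f w + ∑ k ∈ Finset.range n, (step cs r)^[k] u w ≤ (step cs r)^[n] f w := by
  induction n with
  | zero => simp
  | succ n ih =>
    rw [Function.iterate_succ_apply, Finset.sum_range_succ]
    have h2 := iter_mono cs h0 h1 n h w
    rw [iter_add] at h2
    linarith

/-- A probability space carrying a random rate field with rates in `[0,1]`, measurable, symmetric
(so that it is a function of the undirected edge) and such that each left translation of the field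
is realised by a measure preserving map of the probability space. -/
structure Good {Ω : Type} [MeasurableSpace Ω] (μ : Measure Ω) (r : Ω → W → B → ℝ) : Prop where
  meas : ∀ w s, Measurable fun ω => r ω w s
  nonneg : ∀ ω w s, 0 ≤ r ω w s
  le_one : ∀ ω w s, r ω w s ≤ 1
  symm : ∀ ω w s, r ω (w * cs.simple s) s = r ω w s
  shift : ∀ b : B, ∃ Θ : Ω → Ω, MeasurePreserving Θ μ μ ∧
    ∀ ω w s, r ω (cs.simple b * w) s = r (Θ ω) w s

variable {Ω : Type} [MeasurableSpace Ω] {μ : Measure Ω}

lemma step_translate {r r' : W → B → ℝ} (g : W) (h : ∀ w s, r (g * w) s = r' w s) (f : W → ℝ)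
    (w : W) : step cs r f (g * w) = step cs r' (fun x => f (g * x)) w := by
  unfold step
  simp_rw [h, mul_assoc]

lemma iter_translate {r r' : W → B → ℝ} (g : W) (h : ∀ w s, r (g * w) s = r' w s) (f : W → ℝ)
    (n : ℕ) (w : W) : (step cs r)^[n] f (g * w) = (step cs r')^[n] (fun x => f (g * x)) w := by
  induction n generalizing w with
  | zero => rfl
  | succ n ih =>
    rw [Function.iterate_succ_apply', Function.iterate_succ_apply', step_translate cs g h]
    congr 1
    funext x
    exact ih x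

lemma step_measurable {r : Ω → W → B → ℝ} (hm : ∀ w s, Measurable fun ω => r ω w s)
    (f : Ω → W → ℝ) (hf : ∀ w, Measurable fun ω => f ω w) (w : W) :
    Measurable fun ω => step cs (r ω) (f ω) w := by
  unfold step
  apply Measurable.add (hf w)
  apply Measurable.div_const
  apply Finset.measurable_fun_sum
  intro s _
  exact (hm w s).mul ((hf _).sub (hf w))

lemma iter_measurable {r : Ω → W → B → ℝ} (hm : ∀ w s, Measurable fun ω => r ω w s)
    (f : Ω → W → ℝ) (hf : ∀ w, Measurable fun ω => f ω w) (n : ℕ) (w : W) :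
    Measurable fun ω => (step cs (r ω))^[n] (f ω) w := by
  induction n generalizing w with
  | zero => exact hf w
  | succ n ih =>
    simp_rw [Function.iterate_succ_apply']
    exact step_measurable cs hm _ ih w

/-- A random function on `W` which is bounded, measurable, and equivariant. -/
structure Equiv' (r : Ω → W → B → ℝ) (μ : Measure Ω) (f : Ω → W → ℝ) : Prop where
  meas : ∀ w, Measurable fun ω => f ω w
  bdd : ∃ C : ℝ, ∀ ω w, |f ω w| ≤ C
  shift : ∀ b : B, ∃ Θ : Ω → Ω, MeasurePreserving Θ μ μ ∧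
    (∀ ω w s, r ω (cs.simple b * w) s = r (Θ ω) w s) ∧
    ∀ ω w, f ω (cs.simple b * w) = f (Θ ω) w

lemma Equiv'.step {r : Ω → W → B → ℝ} (hr : Good cs μ r) {f : Ω → W → ℝ}
    (hf : Equiv' cs r μ f) : Equiv' cs r μ (fun ω => step cs (r ω) (f ω)) := by
  refine ⟨fun w => step_measurable cs hr.meas f hf.meas w, ?_, ?_⟩
  · obtain ⟨C, hC⟩ := hf.bdd
    refine ⟨C, fun ω w => ?_⟩
    rw [abs_le]
    constructor
    · have := step_mono (cs := cs) (hr.nonneg ω) (hr.le_one ω) (f := fun _ => -C) (g := f ω)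
        (fun w => (abs_le.1 (hC ω w)).1) w
      rwa [step_const] at this
    · have := step_mono (cs := cs) (hr.nonneg ω) (hr.le_one ω) (g := fun _ => C) (f := f ω)
        (fun w => (abs_le.1 (hC ω w)).2) w
      rwa [step_const] at this
  · intro b
    obtain ⟨Θ, h1, h2, h3⟩ := hf.shift b
    refine ⟨Θ, h1, h2, fun ω w => ?_⟩
    rw [step_translate cs (cs.simple b) (h2 ω)]
    congr 1
    funext x
    exact h3 ω x

lemma Equiv'.integral_step [IsProbabilityMeasure μ] {r : Ω → W → B → ℝ} (hr : Good cs μ r)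
    {f : Ω → W → ℝ} (hf : Equiv' cs r μ f) :
    ∫ ω, RF.step cs (r ω) (f ω) 1 ∂μ = ∫ ω, f ω 1 ∂μ := by
  obtain ⟨C, hC⟩ := hf.bdd
  have hint : ∀ w, Integrable (fun ω => f ω w) μ := fun w =>
    Integrable.of_bound (hf.meas w).aestronglyMeasurable C
      (Eventually.of_forall fun ω => by rw [Real.norm_eq_abs]; exact hC ω w)
  have hint2 : ∀ w v s, Integrable (fun ω => r ω w s * f ω v) μ := fun w v s =>
    Integrable.of_bound ((hr.meas w s).mul (hf.meas v)).aestronglyMeasurable C
      (Eventually.of_forall fun ω => by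
        rw [Real.norm_eq_abs, abs_mul, abs_of_nonneg (hr.nonneg ω w s)]
        calc r ω w s * |f ω v| ≤ 1 * |f ω v| :=
              mul_le_mul_of_nonneg_right (hr.le_one ω w s) (abs_nonneg _)
          _ ≤ C := by rw [one_mul]; exact hC ω v)
  have key : ∀ s : B, ∫ ω, r ω 1 s * (f ω (1 * cs.simple s) - f ω 1) ∂μ = 0 := by
    intro s
    obtain ⟨Θ, h1, h2, h3⟩ := hf.shift s
    have e1 : ∀ ω, r ω 1 s * (f ω (1 * cs.simple s) - f ω 1) =
        r ω 1 s * f ω (cs.simple s) - r ω 1 s * f ω 1 := by
      intro ω; rw [one_mul]; ring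
    simp_rw [e1]
    rw [integral_sub (hint2 _ _ _) (hint2 _ _ _), sub_eq_zero]
    have e2 : ∀ ω, r ω 1 s * f ω (cs.simple s) = (fun ω' => r ω' 1 s * f ω' 1) (Θ ω) := by
      intro ω
      have a1 := h2 ω 1 s
      have a2 := h3 ω 1
      have a3 := hr.symm ω 1 s
      rw [mul_one] at a1 a2
      rw [one_mul] at a3
      simp only
      rw [← a1, ← a2, a3]
    simp_rw [e2]
    have hmeas : AEStronglyMeasurable (fun ω' => r ω' 1 s * f ω' 1) (μ.map Θ) :=
      ((hr.meas 1 s).mul (hf.meas 1)).aestronglyMeasurable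
    rw [← integral_map h1.measurable.aemeasurable hmeas, h1.map_eq]
  unfold RF.step
  have hI : Integrable (fun ω => (∑ s, r ω 1 s * (f ω (1 * cs.simple s) - f ω 1)) /
      (Fintype.card B : ℝ)) μ := by
    apply Integrable.div_const
    apply integrable_finsetSum
    intro s _
    have : (fun ω => r ω 1 s * (f ω (1 * cs.simple s) - f ω 1)) =
        fun ω => r ω 1 s * f ω (1 * cs.simple s) - r ω 1 s * f ω 1 := by
      funext ω; ring
    rw [this]
    exact (hint2 _ _ _).sub (hint2 _ _ _)
  rw [integral_add (hint 1) hI, integral_div, integral_finsetSum]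
  · simp_rw [key]
    simp
  · intro s _
    have : (fun ω => r ω 1 s * (f ω (1 * cs.simple s) - f ω 1)) =
        fun ω => r ω 1 s * f ω (1 * cs.simple s) - r ω 1 s * f ω 1 := by
      funext ω; ring
    rw [this]
    exact (hint2 _ _ _).sub (hint2 _ _ _)

lemma Equiv'.iter {r : Ω → W → B → ℝ} (hr : Good cs μ r) {f : Ω → W → ℝ}
    (hf : Equiv' cs r μ f) (n : ℕ) : Equiv' cs r μ (fun ω => (RF.step cs (r ω))^[n] (f ω)) := by
  induction n with
  | zero => exact hf
  | succ n ih =>
    simp_rw [Function.iterate_succ_apply']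
    exact ih.step cs hr

lemma Equiv'.integral_iter [IsProbabilityMeasure μ] {r : Ω → W → B → ℝ} (hr : Good cs μ r)
    {f : Ω → W → ℝ} (hf : Equiv' cs r μ f) (n : ℕ) :
    ∫ ω, (RF.step cs (r ω))^[n] (f ω) 1 ∂μ = ∫ ω, f ω 1 ∂μ := by
  induction n with
  | zero => rfl
  | succ n ih =>
    simp_rw [Function.iterate_succ_apply']
    rw [(hf.iter cs hr n).integral_step cs hr, ih]

/-- annealed expected distance after `n` rings -/
noncomputable def stepMean (μ : Measure Ω) (r : Ω → W → B → ℝ) (n : ℕ) : ℝ :=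
  ∫ ω, (step cs (r ω))^[n] (lenR cs) 1 ∂μ

/-- word length measured from `x` -/
noncomputable def phi (r : Ω → W → B → ℝ) (m : ℕ) (ω : Ω) (x : W) : ℝ :=
  (step cs (r ω))^[m] (fun y => lenR cs (x⁻¹ * y)) x

lemma lenR_nonneg (w : W) : 0 ≤ lenR cs w := Nat.cast_nonneg _

lemma lenR_one : lenR cs (1 : W) = 0 := by simp [lenR]

lemma lenR_mul_le (x y : W) : lenR cs (x * y) ≤ lenR cs x + lenR cs y := by
  unfold lenR
  exact_mod_cast cs.length_mul_le x y

lemma lenR_step (x w : W) (s : B) : lenR cs (x * (w * cs.simple s)) - lenR cs (x * w) ≤ 1 := by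
  rw [← mul_assoc]
  have := lenR_mul_le cs (x * w) (cs.simple s)
  have h2 : lenR cs (cs.simple s) = 1 := by unfold lenR; rw [cs.length_simple]; simp
  linarith

lemma step_len_le {r : W → B → ℝ} (h0 : ∀ w s, 0 ≤ r w s) (h1 : ∀ w s, r w s ≤ 1) (x w : W) :
    step cs r (fun y => lenR cs (x * y)) w ≤ lenR cs (x * w) + 1 := by
  unfold step
  have h : (∑ s, r w s * (lenR cs (x * (w * cs.simple s)) - lenR cs (x * w))) /
      (Fintype.card B : ℝ) ≤ 1 := by
    apply div_le_one_of_le₀ _ (Nat.cast_nonneg _)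
    calc _ ≤ ∑ _s : B, (1 : ℝ) := by
          apply Finset.sum_le_sum
          intro s _
          have a1 := lenR_step cs x w s
          have a2 := h0 w s
          have a3 := h1 w s
          nlinarith
      _ = _ := by simp
  linarith

lemma iter_len_le {r : W → B → ℝ} (h0 : ∀ w s, 0 ≤ r w s) (h1 : ∀ w s, r w s ≤ 1) (n : ℕ)
    (x w : W) : (step cs r)^[n] (fun y => lenR cs (x * y)) w ≤ lenR cs (x * w) + n := by
  have h := iter_le_of_step_le cs h0 h1 (f := fun y => lenR cs (x * y)) (u := fun _ => 1)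
    (step_len_le cs h0 h1 x) n w
  simp_rw [iter_const] at h
  simpa using h

lemma iter_len_nonneg {r : W → B → ℝ} (h0 : ∀ w s, 0 ≤ r w s) (h1 : ∀ w s, r w s ≤ 1) (n : ℕ)
    (x w : W) : 0 ≤ (step cs r)^[n] (fun y => lenR cs (x * y)) w := by
  have h := iter_mono cs h0 h1 n (f := fun _ => 0) (g := fun y => lenR cs (x * y))
    (fun y => lenR_nonneg cs _) w
  rwa [iter_const] at h

lemma phi_equiv {r : Ω → W → B → ℝ} (hr : Good cs μ r) (m : ℕ) :
    Equiv' cs r μ (phi cs r m) := by
  refine ⟨fun w => ?_, ⟨m, fun ω w => ?_⟩, fun b => ?_⟩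
  · exact iter_measurable cs hr.meas (fun _ y => lenR cs (w⁻¹ * y)) (fun _ => measurable_const) m w
  · unfold phi
    rw [abs_of_nonneg (iter_len_nonneg cs (hr.nonneg ω) (hr.le_one ω) m _ _)]
    have := iter_len_le cs (hr.nonneg ω) (hr.le_one ω) m w⁻¹ w
    rw [inv_mul_cancel, lenR_one, zero_add] at this
    exact this
  · obtain ⟨Θ, h1, h2⟩ := hr.shift b
    refine ⟨Θ, h1, h2, fun ω w => ?_⟩
    unfold phi
    rw [iter_translate cs (cs.simple b) (h2 ω)]
    have : (fun x => lenR cs ((cs.simple b * w)⁻¹ * (cs.simple b * x))) =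
        fun y => lenR cs (w⁻¹ * y) := by
      funext x
      congr 1
      group
    rw [this]

lemma iter_add_le {r : Ω → W → B → ℝ} (hr : Good cs μ r) (m n : ℕ) (ω : Ω) :
    (step cs (r ω))^[m + n] (lenR cs) 1 ≤
      (step cs (r ω))^[m] (lenR cs) 1 + (step cs (r ω))^[m] (phi cs r n ω) 1 := by
  rw [Function.iterate_add_apply]
  rw [← iter_add]
  apply iter_mono cs (hr.nonneg ω) (hr.le_one ω)
  intro x
  unfold phi
  have h1 : (step cs (r ω))^[n] (fun y => lenR cs x + lenR cs (x⁻¹ * y)) x =
      lenR cs x + (step cs (r ω))^[n] (fun y => lenR cs (x⁻¹ * y)) x := by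
    rw [iter_add cs (r ω) n (fun _ => lenR cs x), iter_const]
  rw [← h1]
  apply iter_mono cs (hr.nonneg ω) (hr.le_one ω)
  intro y
  have := lenR_mul_le cs x (x⁻¹ * y)
  rwa [mul_inv_cancel_left] at this

lemma integrable_iter_len [IsProbabilityMeasure μ] {r : Ω → W → B → ℝ} (hr : Good cs μ r)
    (n : ℕ) : Integrable (fun ω => (step cs (r ω))^[n] (lenR cs) 1) μ := by
  apply Integrable.of_bound (C := n)
    (iter_measurable cs hr.meas (fun _ => lenR cs) (fun _ => measurable_const) n
      1).aestronglyMeasurable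
  refine Eventually.of_forall fun ω => ?_
  have h1 := iter_len_le cs (hr.nonneg ω) (hr.le_one ω) n 1 1
  have h2 := iter_len_nonneg cs (hr.nonneg ω) (hr.le_one ω) n 1 1
  simp only [one_mul, lenR_one, zero_add] at h1 h2
  rw [Real.norm_eq_abs, abs_of_nonneg h2]
  exact h1

lemma stepMean_nonneg [IsProbabilityMeasure μ] {r : Ω → W → B → ℝ} (hr : Good cs μ r)
    (n : ℕ) : 0 ≤ stepMean cs μ r n := by
  apply integral_nonneg
  intro ω
  have h2 := iter_len_nonneg cs (hr.nonneg ω) (hr.le_one ω) n 1 1
  simp only [one_mul] at h2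
  exact h2

lemma stepMean_subadditive [IsProbabilityMeasure μ] {r : Ω → W → B → ℝ} (hr : Good cs μ r) :
    Subadditive (stepMean cs μ r) := by
  intro m n
  unfold stepMean
  have h1 : ∫ ω, (step cs (r ω))^[n] (lenR cs) 1 ∂μ = ∫ ω, phi cs r n ω 1 ∂μ := by
    unfold phi
    simp
  rw [h1]
  rw [← (phi_equiv cs hr n).integral_iter cs hr m]
  have hE := (phi_equiv cs hr n).iter cs hr m
  obtain ⟨C, hC⟩ := hE.bdd
  rw [← integral_add (integrable_iter_len cs hr m)
    (Integrable.of_bound (hE.meas 1).aestronglyMeasurable C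
      (Eventually.of_forall fun ω => by rw [Real.norm_eq_abs]; exact hC ω 1))]
  apply integral_mono (integrable_iter_len cs hr (m + n))
  · exact (integrable_iter_len cs hr m).add
      (Integrable.of_bound (hE.meas 1).aestronglyMeasurable C
      (Eventually.of_forall fun ω => by rw [Real.norm_eq_abs]; exact hC ω 1))
  · intro ω
    exact iter_add_le cs hr m n ω

lemma tendsto_stepMean [IsProbabilityMeasure μ] {r : Ω → W → B → ℝ} (hr : Good cs μ r) :
    ∃ l : ℝ, Tendsto (fun n : ℕ => stepMean cs μ r n / n) atTop (𝓝 l) := by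
  refine ⟨_, (stepMean_subadditive cs hr).tendsto_lim ?_⟩
  refine ⟨0, ?_⟩
  rintro x ⟨n, _, rfl⟩
  exact div_nonneg (stepMean_nonneg cs hr n) (Nat.cast_nonneg _)

/-- annealed expected distance at time `t`: the rings form a Poisson process of rate `|B|`
independent of everything else -/
noncomputable def meanLen (μ : Measure Ω) (r : Ω → W → B → ℝ) (t : ℝ) : ℝ :=
  ∑' n : ℕ, Real.exp (-(Fintype.card B * t)) * (Fintype.card B * t) ^ n / n.factorial *
    stepMean cs μ r n

lemma tendsto_meanLen [Nonempty B] {r : Ω → W → B → ℝ} {l : ℝ}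
    (h : Tendsto (fun n : ℕ => stepMean cs μ r n / n) atTop (𝓝 l)) :
    Tendsto (fun t : ℝ => meanLen cs μ r t / t) atTop (𝓝 (Fintype.card B * l)) := by
  have hc : (0 : ℝ) < Fintype.card B := by exact_mod_cast Fintype.card_pos
  have h1 := Pool.Agent.R986.CoxSpeed.poisson_limit (stepMean cs μ r) l h
  have h2 : Tendsto (fun t : ℝ => (Fintype.card B : ℝ) * t) atTop atTop :=
    tendsto_id.const_mul_atTop hc
  have h3 := (h1.comp h2).const_mul (Fintype.card B : ℝ)
  refine h3.congr fun t => ?_
  simp only [Function.comp_apply]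
  unfold meanLen
  rw [mul_div_assoc', mul_div_mul_left _ _ hc.ne']

lemma lim_le [IsProbabilityMeasure μ] {r : Ω → W → B → ℝ} {l C c : ℝ}
    (h : Tendsto (fun n : ℕ => stepMean cs μ r n / n) atTop (𝓝 l))
    (hb : ∀ n : ℕ, stepMean cs μ r n ≤ C + n * c) : l ≤ c := by
  have h1 : Tendsto (fun n : ℕ => C / (n : ℝ) + c) atTop (𝓝 (0 + c)) :=
    (tendsto_const_div_atTop_nhds_zero_nat C).add_const c
  rw [zero_add] at h1
  refine le_of_tendsto_of_tendsto h h1 ?_
  filter_upwards [eventually_gt_atTop 0] with n hn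
  have hn' : (0 : ℝ) < n := by exact_mod_cast hn
  rw [div_add' _ _ _ hn'.ne']
  apply div_le_div_of_nonneg_right _ hn'.le
  have := hb n
  linarith

lemma le_lim [IsProbabilityMeasure μ] {r : Ω → W → B → ℝ} {l C c : ℝ}
    (h : Tendsto (fun n : ℕ => stepMean cs μ r n / n) atTop (𝓝 l))
    (hb : ∀ n : ℕ, n * c - C ≤ stepMean cs μ r n) : c ≤ l := by
  have h1 : Tendsto (fun n : ℕ => c - C / (n : ℝ)) atTop (𝓝 (c - 0)) :=
    (tendsto_const_div_atTop_nhds_zero_nat C).const_sub c
  rw [sub_zero] at h1
  refine le_of_tendsto_of_tendsto h1 h ?_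
  filter_upwards [eventually_gt_atTop 0] with n hn
  have hn' : (0 : ℝ) < n := by exact_mod_cast hn
  rw [sub_div' hn'.ne']
  apply div_le_div_of_nonneg_right _ hn'.le
  have := hb n
  linarith

end R986.RF
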