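import Mathlib

/-!
# Combinatorics: normal forms for `(Z/2)^2 * (Z/2)^2` and for `Z/2 * ... * Z/2`
-/

set_option autoImplicit false
set_option linter.unusedSectionVars false

namespace R986.RF

/-- nontrivial elements of `(Z/2)^2` -/
inductive V
  | sing (j : Bool)
  | both
  deriving DecidableEq

/-- adding a basis vector; `none` is the trivial element -/
def V.add : V → Bool → Option V
  | .sing j, j' => if j = j' then none else some .both
  | .both, j => some (.sing (!j))

/-- alternating lists of syllables -/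
abbrev valid1 (l : List (Bool × V)) : Prop := l.IsChain (fun a b => a.1 ≠ b.1)

/-- right multiplication by the generator `(τ, j)` -/
def op1 (τ j : Bool) : List (Bool × V) → List (Bool × V)
  | [] => [(τ, .sing j)]
  | (σ, v) :: t => if σ = τ then (match v.add j with | none => t | some v' => (τ, v') :: t)
      else (τ, .sing j) :: (σ, v) :: t

lemma op1_ne {τ j : Bool} {l : List (Bool × V)} (h : l.head?.map Prod.fst ≠ some τ) :
    op1 τ j l = (τ, .sing j) :: l := by
  rcases l with _ | ⟨⟨σ, v⟩, t⟩
  · rfl
  · simp only [List.head?_cons, Option.map_some, ne_eq, Option.some.injEq] at h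
    simp only [op1, if_neg h]

lemma op1_eq {τ j : Bool} {v : V} {t : List (Bool × V)} :
    op1 τ j ((τ, v) :: t) = (match v.add j with | none => t | some v' => (τ, v') :: t) := by
  simp only [op1, if_true]

lemma valid_op1 (τ j : Bool) (l : List (Bool × V)) (hl : valid1 l) : valid1 (op1 τ j l) := by
  rcases l with _ | ⟨⟨σ, v⟩, t⟩
  · simp [op1, valid1]
  · by_cases h : σ = τ
    · subst h
      rw [op1_eq]
      rcases hv : v.add j with _ | v'
      · exact hl.tail
      · simp only
        rcases t with _ | ⟨⟨σ', v''⟩, t'⟩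
        · simp [valid1]
        · simp only [valid1, List.isChain_cons_cons] at hl ⊢
          exact hl
    · rw [op1_ne (by simpa using h)]
      simp only [valid1, List.isChain_cons_cons]
      exact ⟨fun h' => h h'.symm, hl⟩

lemma head_tail_ne {τ : Bool} {v : V} {t : List (Bool × V)} (h : valid1 ((τ, v) :: t)) :
    t.head?.map Prod.fst ≠ some τ := by
  rcases t with _ | ⟨⟨σ, v'⟩, t'⟩
  · simp
  · simp only [valid1, List.isChain_cons_cons] at h
    simp only [List.head?_cons, Option.map_some, ne_eq, Option.some.injEq]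
    exact fun h' => h.1 h'.symm

lemma cases1 (τ : Bool) (l : List (Bool × V)) :
    (l.head?.map Prod.fst ≠ some τ) ∨ ∃ v t, l = (τ, v) :: t := by
  rcases l with _ | ⟨⟨σ, v⟩, t⟩
  · left; simp
  · by_cases h : σ = τ
    · right; exact ⟨v, t, by rw [h]⟩
    · left; simpa using h

lemma op1_op1 (τ j : Bool) (l : List (Bool × V)) (hl : valid1 l) :
    op1 τ j (op1 τ j l) = l := by
  rcases cases1 τ l with h | ⟨v, t, rfl⟩
  · rw [op1_ne h, op1_eq]
    simp [V.add]
  · have ht := head_tail_ne hl
    rw [op1_eq]
    rcases v with j' | _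
    · by_cases hj : j' = j
      · subst hj
        simp [V.add, op1_ne ht]
      · have : j' = !j := by revert hj; cases j <;> cases j' <;> simp
        subst this
        simp [V.add, op1_eq]
    · simp [V.add, op1_eq]

lemma op1_comm (τ : Bool) (l : List (Bool × V)) (hl : valid1 l) :
    op1 τ false (op1 τ true l) = op1 τ true (op1 τ false l) := by
  rcases cases1 τ l with h | ⟨v, t, rfl⟩
  · rw [op1_ne h, op1_ne h, op1_eq, op1_eq]
    simp [V.add]
  · have ht := head_tail_ne hl
    rcases v with j' | _
    · cases j'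
      · simp [V.add, op1_eq, op1_ne ht]
      · simp [V.add, op1_eq, op1_ne ht]
    · simp [V.add, op1_eq]

/-- number of syllables of type `τ` -/
def cnt (τ : Bool) (l : List (Bool × V)) : ℕ := l.countP (fun a => a.1 = τ)

lemma cnt_add (l : List (Bool × V)) (τ : Bool) : cnt τ l + cnt (!τ) l = l.length := by
  induction l with
  | nil => simp [cnt]
  | cons a t ih =>
    unfold cnt at ih ⊢
    rw [List.countP_cons, List.countP_cons, List.length_cons]
    rcases a with ⟨σ, v⟩
    cases σ <;> cases τ <;> simp at ih ⊢ <;> omega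

lemma cnt_balance_aux (l : List (Bool × V)) : ∀ (σ : Bool) (v : V), valid1 ((σ, v) :: l) →
    cnt σ ((σ, v) :: l) = cnt (!σ) ((σ, v) :: l) ∨
    cnt σ ((σ, v) :: l) = cnt (!σ) ((σ, v) :: l) + 1 := by
  induction l with
  | nil => intro σ v _; right; simp [cnt]
  | cons a t ih =>
    intro σ v hl
    rcases a with ⟨σ', v'⟩
    simp only [valid1, List.isChain_cons_cons] at hl
    have hσ : σ' = !σ := by
      have := hl.1
      revert this; cases σ <;> cases σ' <;> simp
    subst hσ
    have h := ih (!σ) v' hl.2
    have e1 : cnt σ ((σ, v) :: ((!σ), v') :: t) = cnt σ (((!σ), v') :: t) + 1 := by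
      unfold cnt; rw [List.countP_cons]; simp
    have e2 : cnt (!σ) ((σ, v) :: ((!σ), v') :: t) = cnt (!σ) (((!σ), v') :: t) := by
      unfold cnt; rw [List.countP_cons]; simp
    rw [Bool.not_not] at h
    rw [e1, e2]
    omega

lemma cnt_balance (l : List (Bool × V)) (hl : valid1 l) (τ : Bool) :
    cnt τ l ≤ cnt (!τ) l + 1 := by
  rcases l with _ | ⟨⟨σ, v⟩, t⟩
  · simp [cnt]
  · have h := cnt_balance_aux t σ v hl
    cases σ <;> cases τ <;> simp at h ⊢ <;> omega

lemma cnt_op1 (τ τ' j : Bool) (l : List (Bool × V)) :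
    cnt τ (op1 τ' j l) ≤ cnt τ l + (if τ = τ' then 1 else 0) := by
  rcases cases1 τ' l with h | ⟨v, t, rfl⟩
  · rw [op1_ne h]
    unfold cnt
    rw [List.countP_cons]
    cases τ <;> cases τ' <;> simp
  · rw [op1_eq]
    have e : cnt τ ((τ', v) :: t) = cnt τ t + (if τ' = τ then 1 else 0) := by
      unfold cnt; rw [List.countP_cons]; simp
    rcases hv : v.add j with _ | v'
    · simp only; rw [e]; split_ifs <;> omega
    · have e2 : cnt τ ((τ', v') :: t) = cnt τ t + (if τ' = τ then 1 else 0) := by
        unfold cnt; rw [List.countP_cons]; simp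
      simp only; rw [e, e2]; split_ifs <;> omega

lemma length_op1 (τ j : Bool) (l : List (Bool × V)) :
    (op1 τ j l).length ≤ l.length + 1 := by
  rcases cases1 τ l with h | ⟨v, t, rfl⟩
  · rw [op1_ne h]; simp
  · rw [op1_eq]
    rcases hv : v.add j with _ | v' <;> simp <;> omega

/-- the potential used for the lower bound -/
noncomputable def hpot (τ : Bool) (l : List (Bool × V)) : ℝ :=
  l.length + (if l.head?.map Prod.fst ≠ some τ then 3 / 5 else 0)

lemma hpot_nonneg (τ : Bool) (l : List (Bool × V)) : 0 ≤ hpot τ l := by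
  unfold hpot; split_ifs <;> positivity

lemma hpot_le (τ : Bool) (l : List (Bool × V)) : hpot τ l ≤ l.length + 1 := by
  unfold hpot; split_ifs <;> linarith

lemma hpot_ne {τ : Bool} {l : List (Bool × V)} (h : l.head?.map Prod.fst ≠ some τ) :
    hpot τ l = l.length + 3 / 5 := by
  unfold hpot; rw [if_pos h]

lemma hpot_eq {τ : Bool} {v : V} {t : List (Bool × V)} :
    hpot τ ((τ, v) :: t) = t.length + 1 := by
  unfold hpot; simp

lemma drift (τ : Bool) (l : List (Bool × V)) (hl : valid1 l) :
    1 / 5 ≤ (hpot τ (op1 τ false l) - hpot τ l) + (hpot τ (op1 τ true l) - hpot τ l)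
      + (hpot (!τ) l - hpot τ l) := by
  rcases cases1 τ l with h | ⟨v, t, rfl⟩
  · rw [op1_ne h, op1_ne h, hpot_eq, hpot_eq, hpot_ne h]
    have : (l.length : ℝ) ≤ hpot (!τ) l := by unfold hpot; split_ifs <;> linarith
    linarith
  · have ht := head_tail_ne hl
    have h1 : hpot (!τ) ((τ, v) :: t) = t.length + 1 + 3 / 5 := by
      rw [hpot_ne]
      · simp
      · simp
    rw [h1, hpot_eq]
    rcases v with j' | _
    · cases j'
      · simp [V.add, op1_eq, hpot_eq, hpot_ne ht]
        norm_num
      · simp [V.add, op1_eq, hpot_eq, hpot_ne ht]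
        norm_num
    · simp [V.add, op1_eq, hpot_eq]
      norm_num

end R986.RF
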