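import Pool.Agent.R986.RF1
import Pool.Agent.R986.RF2

/-!
# The Coxeter groups used in the counterexample
-/

set_option autoImplicit false
set_option linter.unusedSectionVars false

namespace R986.RF

variable {D : Type} [DecidableEq D]

/-! ### The universal Coxeter group on `D` -/

/-- right multiplication by the letter `s`; the last letter of the word is the head of the list -/
def op2 (s : D) (l : List D) : List D := if l.head? = some s then l.tail else s :: l

abbrev valid2 (l : List D) : Prop := l.IsChain (· ≠ ·)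

lemma op2_ne {s : D} {l : List D} (h : l.head? ≠ some s) : op2 s l = s :: l := if_neg h

lemma op2_eq {s : D} {t : List D} : op2 s (s :: t) = t := by simp [op2]

lemma cases2 (s : D) (l : List D) : l.head? ≠ some s ∨ ∃ t, l = s :: t := by
  rcases l with _ | ⟨a, t⟩
  · left; simp
  · by_cases h : a = s
    · right; exact ⟨t, by rw [h]⟩
    · left; simpa using h

lemma valid_cons2 {s : D} {l : List D} : valid2 (s :: l) ↔ l.head? ≠ some s ∧ valid2 l := by
  rcases l with _ | ⟨a, t⟩
  · simp [valid2]
  · simp only [valid2, List.isChain_cons_cons, List.head?_cons, ne_eq, Option.some.injEq]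
    constructor
    · exact fun h => ⟨fun h' => h.1 h'.symm, h.2⟩
    · exact fun h => ⟨fun h' => h.1 h'.symm, h.2⟩

lemma valid_op2 (s : D) (l : List D) (hl : valid2 l) : valid2 (op2 s l) := by
  rcases cases2 s l with h | ⟨t, rfl⟩
  · rw [op2_ne h]; exact valid_cons2.2 ⟨h, hl⟩
  · rw [op2_eq]; exact (valid_cons2.1 hl).2

lemma op2_op2 (s : D) (l : List D) (hl : valid2 l) : op2 s (op2 s l) = l := by
  rcases cases2 s l with h | ⟨t, rfl⟩
  · rw [op2_ne h, op2_eq]
  · rw [op2_eq, op2_ne (valid_cons2.1 hl).1]

lemma op2_append (a s : D) (l : List D) (hl : l ≠ []) : op2 s (l ++ [a]) = op2 s l ++ [a] := by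
  rcases l with _ | ⟨b, t⟩
  · exact absurd rfl hl
  · by_cases h : b = s <;> simp [op2, h]

lemma length_op2 (s : D) (l : List D) : (op2 s l).length ≤ l.length + 1 := by
  unfold op2; split_ifs <;> simp; omega

variable (D) in
/-- the universal Coxeter matrix -/
def M2 : CoxeterMatrix D where
  M := fun i j => if i = j then 1 else 0
  isSymm := Matrix.IsSymm.ext fun i j => by simp only [eq_comm]
  diagonal := by simp
  off_diagonal := by intro i j h; simp [h]

lemma M2_apply (i j : D) : (M2 D) i j = if i = j then 1 else 0 := rfl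

variable (D) in
abbrev W2 : Type := (M2 D).Group

/-- generator of the universal Coxeter group -/
def tt (s : D) : W2 D := (M2 D).toCoxeterSystem.simple s

lemma liftable2 {G : Type} [Group G] (f : D → G) (hf : ∀ s, f s * f s = 1) :
    (M2 D).IsLiftable f := by
  intro i j
  rw [M2_apply]
  by_cases h : i = j
  · subst h; simp [hf]
  · simp [h]

/-- the state space -/
abbrev X2 (D : Type) : Type := {l : List D // valid2 l}

/-- right multiplication as a permutation of reduced words -/
def perm2 (s : D) : Equiv.Perm (X2 D) :=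
  Function.Involutive.toPerm (fun l => ⟨op2 s l.1, valid_op2 s l.1 l.2⟩)
    (fun l => Subtype.ext (op2_op2 s l.1 l.2))

lemma perm2_sq (s : D) : perm2 s * perm2 s = 1 := by
  apply Equiv.ext
  intro l
  exact Subtype.ext (op2_op2 s l.1 l.2)

noncomputable def hom2 : W2 D →* Equiv.Perm (X2 D) :=
  (M2 D).toCoxeterSystem.lift ⟨perm2, liftable2 perm2 perm2_sq⟩

lemma hom2_tt (s : D) : hom2 (tt s) = perm2 s :=
  (M2 D).toCoxeterSystem.lift_apply_simple (liftable2 perm2 perm2_sq) s

/-- the reduced word of `z`, last letter first -/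
noncomputable def st2 (z : W2 D) : List D := ((hom2 z)⁻¹ ⟨[], by simp [valid2]⟩ : X2 D).1

lemma st2_valid (z : W2 D) : valid2 (st2 z) := ((hom2 z)⁻¹ ⟨[], by simp [valid2]⟩ : X2 D).2

lemma st2_one : st2 (1 : W2 D) = [] := by simp [st2]

lemma st2_mul (z : W2 D) (s : D) : st2 (z * tt s) = op2 s (st2 z) := by
  unfold st2
  rw [map_mul, mul_inv_rev, hom2_tt, Equiv.Perm.mul_apply]
  have h : (perm2 s)⁻¹ = perm2 s := inv_eq_of_mul_eq_one_left (perm2_sq s)
  rw [h]
  rfl

lemma tt_sq (s : D) : tt s * tt s = 1 := (M2 D).toCoxeterSystem.simple_mul_simple_self s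

lemma induction2 {p : W2 D → Prop} (z : W2 D) (one : p 1) (mul : ∀ z s, p z → p (z * tt s)) :
    p z :=
  (M2 D).toCoxeterSystem.simple_induction_right z one (fun w i => mul w i)

/-- reconstruct the group element -/
def rec2 : List D → W2 D
  | [] => 1
  | s :: t => rec2 t * tt s

lemma rec2_op2 (s : D) (l : List D) : rec2 (op2 s l) = rec2 l * tt s := by
  rcases cases2 s l with h | ⟨t, rfl⟩
  · rw [op2_ne h]; rfl
  · rw [op2_eq]
    simp only [rec2]
    rw [mul_assoc, tt_sq, mul_one]

lemma rec2_st2 (z : W2 D) : rec2 (st2 z) = z := by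
  induction z using induction2 with
  | one => rw [st2_one]; rfl
  | mul z s ih => rw [st2_mul, rec2_op2, ih]

lemma st2_eq_nil {z : W2 D} : st2 z = [] ↔ z = 1 := by
  constructor
  · intro h
    rw [← rec2_st2 z, h]; rfl
  · rintro rfl; exact st2_one

lemma st2_tt (s : D) : st2 (tt s) = [s] := by
  rw [← one_mul (tt s), st2_mul, st2_one]; rfl

/-- left multiplication adds or removes a letter at the end of the list -/
lemma st2_left (a : D) (z : W2 D) :
    st2 (tt a * z) = st2 z ++ [a] ∨ st2 z = st2 (tt a * z) ++ [a] := by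
  induction z using induction2 with
  | one => left; rw [mul_one, st2_tt, st2_one]; rfl
  | mul z s ih =>
    rw [← mul_assoc, st2_mul, st2_mul]
    rcases ih with h | h
    · by_cases hz : st2 z = []
      · rw [h, hz]
        by_cases hs : s = a
        · subst hs
          right
          simp [op2]
        · left
          simp [op2, Ne.symm hs]
      · left
        rw [h, op2_append a s _ hz]
    · by_cases hz : st2 (tt a * z) = []
      · rw [h, hz]
        by_cases hs : s = a
        · subst hs
          left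
          simp [op2]
        · right
          simp [op2, Ne.symm hs]
      · right
        rw [h, op2_append a s _ hz]

/-- last letter -/
noncomputable def last (z : W2 D) : Option D := (st2 z).head?

lemma last_one : last (1 : W2 D) = none := by simp [last, st2_one]

lemma last_tt (s : D) : last (tt s) = some s := by simp [last, st2_tt]

lemma last_mul (z : W2 D) (s : D) : last (z * tt s) = some s ↔ last z ≠ some s := by
  unfold last
  rw [st2_mul]
  rcases cases2 s (st2 z) with h | ⟨t, ht⟩
  · rw [op2_ne h]; simp [h]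
  · rw [ht, op2_eq]
    have := st2_valid z
    rw [ht, valid_cons2] at this
    simp [this.1]

lemma last_left (a : D) (z : W2 D) (h1 : z ≠ 1) (h2 : z ≠ tt a) : last (tt a * z) = last z := by
  have e1 : st2 z ≠ [] := fun h => h1 (st2_eq_nil.1 h)
  have e2 : st2 (tt a * z) ≠ [] := by
    intro h
    apply h2
    have h3 := st2_eq_nil.1 h
    calc z = tt a * (tt a * z) := by rw [← mul_assoc, tt_sq, one_mul]
      _ = tt a := by rw [h3, mul_one]
  unfold last
  rcases st2_left a z with h | h
  · rw [h]
    rcases hz : st2 z with _ | ⟨b, t⟩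
    · exact absurd hz e1
    · simp
  · rw [h]
    rcases hz : st2 (tt a * z) with _ | ⟨b, t⟩
    · exact absurd hz e2
    · simp

/-- length of an element of the universal Coxeter group -/
noncomputable def len2 (z : W2 D) : ℕ := (st2 z).length

lemma len2_mul (z : W2 D) (s : D) : len2 (z * tt s) ≤ len2 z + 1 := by
  unfold len2; rw [st2_mul]; exact length_op2 s _

lemma len2_one : len2 (1 : W2 D) = 0 := by simp [len2, st2_one]

lemma tt_ne_one (s : D) : tt s ≠ 1 := by
  intro h
  have := st2_tt s
  rw [h, st2_one] at this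
  simp at this

lemma tt_injective : Function.Injective (tt : D → W2 D) := by
  intro a b h
  have h1 := st2_tt a
  rw [h, st2_tt] at h1
  simpa using h1.symm

lemma tt_ne_tt_mul {a b c : D} (h : c ≠ b) : tt a ≠ tt b * tt c := by
  intro h1
  have h2 := st2_tt a
  rw [h1, st2_mul, st2_tt] at h2
  have h3 : op2 c [b] = [c, b] := by
    rw [op2_ne]; simp; exact fun h' => h h'.symm
  rw [h3] at h2
  simp at h2

lemma one_ne_tt_mul {b c : D} (h : c ≠ b) : (1 : W2 D) ≠ tt b * tt c := by
  intro h1
  have h2 : st2 (1 : W2 D) = [] := st2_one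
  rw [h1, st2_mul, st2_tt] at h2
  have h3 : op2 c [b] = [c, b] := by
    rw [op2_ne]; simp; exact fun h' => h h'.symm
  rw [h3] at h2
  simp at h2

/-! ### The product Coxeter group -/

/-- the entries of the Coxeter matrix of `((Z/2)^2 * (Z/2)^2) × (Z/2 * ... * Z/2)` -/
def m1 (a b : (Bool × Bool) ⊕ D) : ℕ :=
  if a = b then 1 else
    match a, b with
    | .inl x, .inl y => if x.1 = y.1 then 2 else 0
    | .inr _, .inr _ => 0
    | .inl _, .inr _ => 2
    | .inr _, .inl _ => 2

lemma m1_symm (a b : (Bool × Bool) ⊕ D) : m1 b a = m1 a b := by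
  unfold m1
  rcases a with x | x <;> rcases b with y | y <;> simp [eq_comm]

variable (D) in
/-- the Coxeter matrix of `((Z/2)^2 * (Z/2)^2) × (Z/2 * ... * Z/2)` -/
def M1 : CoxeterMatrix ((Bool × Bool) ⊕ D) where
  M := m1
  isSymm := Matrix.IsSymm.ext fun a b => m1_symm a b
  diagonal := by simp [m1]
  off_diagonal := by
    intro a b h
    unfold m1
    rcases a with x | x <;> rcases b with y | y <;> simp only [if_neg h]
    · split_ifs <;> simp
    · simp
    · simp
    · simp

lemma M1_apply (a b : (Bool × Bool) ⊕ D) : (M1 D) a b = m1 a b := rfl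

variable (D) in
abbrev WW : Type := (M1 D).Group

variable (D) in
abbrev CS : CoxeterSystem (M1 D) (WW D) := (M1 D).toCoxeterSystem

lemma liftable1 {G : Type} [Group G] (f : (Bool × Bool) ⊕ D → G) (hf : ∀ s, f s * f s = 1)
    (h1 : ∀ x y : Bool × Bool, x.1 = y.1 → f (.inl x) * f (.inl y) = f (.inl y) * f (.inl x))
    (h2 : ∀ (x : Bool × Bool) (s : D), f (.inl x) * f (.inr s) = f (.inr s) * f (.inl x)) :
    (M1 D).IsLiftable f := by
  have key : ∀ a b, f a * f b = f b * f a → (f a * f b) ^ 2 = 1 := by
    intro a b h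
    rw [pow_two]
    calc f a * f b * (f a * f b) = f a * (f b * f a) * f b := by group
      _ = f a * (f a * f b) * f b := by rw [h]
      _ = (f a * f a) * (f b * f b) := by group
      _ = 1 := by rw [hf, hf, one_mul]
  intro a b
  by_cases hab : a = b
  · subst hab
    rw [CoxeterMatrix.diagonal]
    simp [hf]
  rcases a with x | x <;> rcases b with y | y
  · by_cases hxy : x.1 = y.1
    · have : (M1 D) (.inl x) (.inl y) = 2 := by
        rw [M1_apply]; unfold m1; rw [if_neg hab]; simp [hxy]
      rw [this]; exact key _ _ (h1 x y hxy)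
    · have : (M1 D) (.inl x) (.inl y) = 0 := by
        rw [M1_apply]; unfold m1; rw [if_neg hab]; simp [hxy]
      rw [this, pow_zero]
  · have : (M1 D) (.inl x) (.inr y) = 2 := by
      rw [M1_apply]; unfold m1; rw [if_neg hab]
    rw [this]; exact key _ _ (h2 x y)
  · have : (M1 D) (.inr x) (.inl y) = 2 := by
      rw [M1_apply]; unfold m1; rw [if_neg hab]
    rw [this]; exact key _ _ (h2 y x).symm
  · have : (M1 D) (.inr x) (.inr y) = 0 := by
      rw [M1_apply]; unfold m1; rw [if_neg hab]
    rw [this, pow_zero]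

/-- generators of the two kinds -/
def sa (τ j : Bool) : WW D := (CS D).simple (.inl (τ, j))

def sd (s : D) : WW D := (CS D).simple (.inr s)

lemma sa_sq (τ j : Bool) : (sa τ j : WW D) * sa τ j = 1 := (CS D).simple_mul_simple_self _

lemma sd_sq (s : D) : sd s * sd s = 1 := (CS D).simple_mul_simple_self _

lemma comm_of_two {a b : (Bool × Bool) ⊕ D} (h : (M1 D) a b = 2) :
    (CS D).simple a * (CS D).simple b = (CS D).simple b * (CS D).simple a := by
  have h1 := (CS D).simple_mul_simple_pow a b
  rw [h, pow_two] at h1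
  have h2 : (CS D).simple a * (CS D).simple b = ((CS D).simple a * (CS D).simple b)⁻¹ :=
    eq_inv_of_mul_eq_one_left h1
  rw [mul_inv_rev, (CS D).inv_simple, (CS D).inv_simple] at h2
  exact h2

lemma sa_comm (τ j j' : Bool) : (sa τ j : WW D) * sa τ j' = sa τ j' * sa τ j := by
  by_cases h : j = j'
  · rw [h]
  · apply comm_of_two
    rw [M1_apply]; unfold m1
    rw [if_neg (by simpa using h)]
    simp

lemma sa_sd (τ j : Bool) (s : D) : (sa τ j : WW D) * sd s = sd s * sa τ j := by
  apply comm_of_two
  rw [M1_apply]; unfold m1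
  rw [if_neg (by simp)]

abbrev X1 : Type := {l : List (Bool × V) // valid1 l}

def perm1 (x : Bool × Bool) : Equiv.Perm X1 :=
  Function.Involutive.toPerm (fun l => ⟨op1 x.1 x.2 l.1, valid_op1 x.1 x.2 l.1 l.2⟩)
    (fun l => Subtype.ext (op1_op1 x.1 x.2 l.1 l.2))

lemma perm1_sq (x : Bool × Bool) : perm1 x * perm1 x = 1 := by
  apply Equiv.ext
  intro l
  exact Subtype.ext (op1_op1 x.1 x.2 l.1 l.2)

lemma perm1_comm (x y : Bool × Bool) (h : x.1 = y.1) : perm1 x * perm1 y = perm1 y * perm1 x := by
  rcases x with ⟨τ, j⟩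
  rcases y with ⟨τ', j'⟩
  simp only at h
  subst h
  apply Equiv.ext
  intro l
  apply Subtype.ext
  show op1 τ j (op1 τ j' l.1) = op1 τ j' (op1 τ j l.1)
  cases j <;> cases j'
  · rfl
  · exact op1_comm τ l.1 l.2
  · exact (op1_comm τ l.1 l.2).symm
  · rfl

def f1 : (Bool × Bool) ⊕ D → Equiv.Perm X1
  | .inl x => perm1 x
  | .inr _ => 1

lemma f1_liftable : (M1 D).IsLiftable (f1 : (Bool × Bool) ⊕ D → Equiv.Perm X1) := by
  apply liftable1
  · rintro (x | x)
    · exact perm1_sq x
    · exact mul_one 1
  · exact fun x y h => perm1_comm x y h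
  · intro x s
    show perm1 x * 1 = 1 * perm1 x
    rw [mul_one, one_mul]

noncomputable def hom1 : WW D →* Equiv.Perm X1 := (CS D).lift ⟨f1, f1_liftable⟩

lemma hom1_simple (i : (Bool × Bool) ⊕ D) : hom1 ((CS D).simple i) = f1 i :=
  (CS D).lift_apply_simple f1_liftable i

/-- the syllables of the first coordinate, last syllable first -/
noncomputable def st1 (w : WW D) : List (Bool × V) := ((hom1 w)⁻¹ ⟨[], by simp [valid1]⟩ : X1).1

lemma st1_valid (w : WW D) : valid1 (st1 w) := ((hom1 w)⁻¹ ⟨[], by simp [valid1]⟩ : X1).2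

lemma st1_one : st1 (1 : WW D) = [] := by simp [st1]

lemma st1_sa (w : WW D) (τ j : Bool) : st1 (w * sa τ j) = op1 τ j (st1 w) := by
  unfold st1 sa
  rw [map_mul, mul_inv_rev, hom1_simple, Equiv.Perm.mul_apply]
  have h : (f1 (.inl (τ, j) : (Bool × Bool) ⊕ D))⁻¹ = perm1 (τ, j) :=
    inv_eq_of_mul_eq_one_left (perm1_sq _)
  rw [h]
  rfl

lemma st1_sd (w : WW D) (s : D) : st1 (w * sd s) = st1 w := by
  unfold st1 sd
  rw [map_mul, mul_inv_rev, hom1_simple, Equiv.Perm.mul_apply]
  have h : (f1 (.inr s : (Bool × Bool) ⊕ D))⁻¹ = 1 := inv_one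
  rw [h]
  rfl

def f2 : (Bool × Bool) ⊕ D → W2 D
  | .inl _ => 1
  | .inr s => tt s

lemma f2_liftable : (M1 D).IsLiftable (f2 : (Bool × Bool) ⊕ D → W2 D) := by
  apply liftable1
  · rintro (x | x)
    · exact mul_one 1
    · exact tt_sq x
  · intro x y _; rfl
  · intro x s
    show 1 * tt s = tt s * 1
    rw [mul_one, one_mul]

/-- projection to the universal Coxeter group -/
noncomputable def pr : WW D →* W2 D := (CS D).lift ⟨f2, f2_liftable⟩

lemma pr_sa (τ j : Bool) : pr (sa τ j : WW D) = 1 := (CS D).lift_apply_simple f2_liftable _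

lemma pr_sd (s : D) : pr (sd s) = tt s := (CS D).lift_apply_simple f2_liftable _

lemma io_liftable : (M2 D).IsLiftable (sd : D → WW D) := liftable2 sd sd_sq

/-- inclusion of the universal Coxeter group -/
noncomputable def io : W2 D →* WW D := (M2 D).toCoxeterSystem.lift ⟨sd, io_liftable⟩

lemma io_tt (s : D) : io (tt s) = sd s :=
  (M2 D).toCoxeterSystem.lift_apply_simple io_liftable s

lemma sa_io (τ j : Bool) (z : W2 D) : sa τ j * io z = io z * sa τ j := by
  induction z using induction2 with
  | one => rw [map_one, mul_one, one_mul]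
  | mul z s ih =>
    rw [map_mul, io_tt, ← mul_assoc, ih, mul_assoc, sa_sd, mul_assoc]

def valV (τ : Bool) : V → WW D
  | .sing j => sa τ j
  | .both => sa τ false * sa τ true

def rec1 : List (Bool × V) → WW D
  | [] => 1
  | (τ, v) :: t => rec1 t * valV τ v

lemma rec1_op1 (τ j : Bool) (l : List (Bool × V)) :
    (rec1 (op1 τ j l) : WW D) = rec1 l * sa τ j := by
  rcases cases1 τ l with h | ⟨v, t, rfl⟩
  · rw [op1_ne h]; rfl
  · rw [op1_eq]
    rcases v with j' | _
    · by_cases hj : j' = j
      · subst hj
        simp only [V.add, if_true, rec1, valV]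
        rw [mul_assoc, sa_sq, mul_one]
      · simp only [V.add, if_neg hj, rec1, valV]
        rw [mul_assoc]
        congr 1
        cases j <;> cases j' <;> simp at hj
        · exact sa_comm _ _ _
        · rfl
    · simp only [V.add, rec1, valV]
      rw [mul_assoc]
      congr 1
      cases j
      · rw [mul_assoc, sa_comm τ true false, ← mul_assoc, sa_sq, one_mul]; rfl
      · rw [mul_assoc, sa_sq, mul_one]; rfl

lemma inductionW {p : WW D → Prop} (w : WW D) (one : p 1) (ma : ∀ w τ j, p w → p (w * sa τ j))
    (md : ∀ w s, p w → p (w * sd s)) : p w := by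
  apply (CS D).simple_induction_right w one
  rintro w (⟨τ, j⟩ | s) h
  · exact ma w τ j h
  · exact md w s h

lemma decomp (w : WW D) : rec1 (st1 w) * io (pr w) = w := by
  induction w using inductionW with
  | one => rw [st1_one, map_one, map_one]; simp [rec1]
  | ma w τ j ih =>
    rw [st1_sa, map_mul, pr_sa, mul_one, rec1_op1, mul_assoc, sa_io, ← mul_assoc, ih]
  | md w s ih =>
    rw [st1_sd, map_mul, pr_sd, map_mul, io_tt, ← mul_assoc, ih]

lemma len_simple_le (i : (Bool × Bool) ⊕ D) : (CS D).length ((CS D).simple i) ≤ 1 := by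
  rw [(CS D).length_simple]

lemma len_rec1 (l : List (Bool × V)) : (CS D).length (rec1 l) ≤ 2 * l.length := by
  induction l with
  | nil => simp [rec1]
  | cons a t ih =>
    rcases a with ⟨τ, v⟩
    have hv : (CS D).length (valV τ v) ≤ 2 := by
      rcases v with j | _
      · exact (len_simple_le _).trans (by norm_num)
      · refine ((CS D).length_mul_le _ _).trans ?_
        have := len_simple_le (.inl (τ, false) : (Bool × Bool) ⊕ D)
        have := len_simple_le (.inl (τ, true) : (Bool × Bool) ⊕ D)
        unfold sa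
        omega
    have := (CS D).length_mul_le (rec1 t) (valV τ v)
    simp only [rec1, List.length_cons]
    omega

lemma len_io (z : W2 D) : (CS D).length (io z) ≤ len2 z := by
  have key : ∀ l : List D, (CS D).length (io (rec2 l)) ≤ l.length := by
    intro l
    induction l with
    | nil => simp [rec2]
    | cons a t ih =>
      simp only [rec2, map_mul, io_tt, List.length_cons]
      have h1 := (CS D).length_mul_le (io (rec2 t)) (sd a)
      have h2 := len_simple_le (.inr a : (Bool × Bool) ⊕ D)
      unfold sd at h1 ⊢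
      omega
  have h := key (st2 z)
  rw [rec2_st2] at h
  exact h

lemma len_upper (w : WW D) : (CS D).length w ≤ 2 * (st1 w).length + len2 (pr w) := by
  conv_lhs => rw [← decomp w]
  refine ((CS D).length_mul_le _ _).trans ?_
  have h1 := len_rec1 (D := D) (st1 w)
  have h2 := len_io (pr w)
  omega

lemma len_lower (w : WW D) : (st1 w).length ≤ (CS D).length w := by
  obtain ⟨ω, hω, rfl⟩ := (CS D).exists_isReduced w
  rw [hω]
  clear hω
  induction ω using List.reverseRecOn with
  | nil => simp [st1_one]
  | append_singleton ω i ih =>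
    rw [(CS D).wordProd_append, (CS D).wordProd_singleton, List.length_append]
    rcases i with ⟨τ, j⟩ | s
    · have h := st1_sa ((CS D).wordProd ω) τ j
      unfold sa at h
      rw [h]
      have := length_op1 τ j (st1 ((CS D).wordProd ω))
      simp only [List.length_singleton]
      omega
    · have h := st1_sd ((CS D).wordProd ω) s
      unfold sd at h
      rw [h]
      omega

end R986.RF
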