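import Pool.Agent.R986.RF3

/-!
# The two random rate fields
-/

set_option autoImplicit false
set_option linter.unusedSectionVars false

open MeasureTheory

namespace R986.RF

/-- marks: `e` means not marked, `m τ` is a mark of type `τ` -/
inductive Mark
  | e
  | m (τ : Bool)
  deriving DecidableEq

instance : MeasurableSpace Mark := ⊤

instance : DiscreteMeasurableSpace Mark := ⟨fun _ => trivial⟩

def Mark.flip : Mark → Mark
  | .e => .e
  | .m τ => .m (!τ)

lemma Mark.flip_flip (a : Mark) : a.flip.flip = a := by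
  rcases a with _ | τ <;> simp [Mark.flip]

lemma Mark.flip_eq_e (a : Mark) : a.flip = .e ↔ a = .e := by
  rcases a with _ | τ <;> simp [Mark.flip]

lemma Mark.flip_eq_m (a : Mark) (τ : Bool) : a.flip = .m τ ↔ a = .m (!τ) := by
  rcases a with _ | σ
  · simp [Mark.flip]
  · cases σ <;> cases τ <;> simp [Mark.flip]

/-- the law of a mark: unmarked with probability `1-p`, the two types have probability `p/2` -/
noncomputable def nu (p : ℝ) : Measure Mark :=
  ENNReal.ofReal (1 - p) • Measure.dirac .e + ENNReal.ofReal (p / 2) • Measure.dirac (.m true)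
    + ENNReal.ofReal (p / 2) • Measure.dirac (.m false)

lemma nu_prob (p : ℝ) (h0 : 0 ≤ p) (h1 : p ≤ 1) : IsProbabilityMeasure (nu p) := by
  constructor
  unfold nu
  simp only [Measure.coe_add, Measure.coe_smul, Pi.add_apply, Pi.smul_apply, measure_univ,
    smul_eq_mul, mul_one]
  rw [← ENNReal.ofReal_add (by linarith) (by linarith), ← ENNReal.ofReal_add (by linarith)
    (by linarith)]
  have : 1 - p + p / 2 + p / 2 = 1 := by ring
  rw [this, ENNReal.ofReal_one]

lemma map_dirac_flip (a : Mark) :
    (Measure.dirac a).map Mark.flip = Measure.dirac a.flip :=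
  Measure.map_dirac' Measurable.of_discrete a

lemma nu_flip (p : ℝ) : (nu p).map Mark.flip = nu p := by
  unfold nu
  rw [Measure.map_add _ _ Measurable.of_discrete,
    Measure.map_add _ _ Measurable.of_discrete, Measure.map_smul, Measure.map_smul,
    Measure.map_smul, map_dirac_flip, map_dirac_flip, map_dirac_flip]
  simp only [Mark.flip, Bool.not_true, Bool.not_false]
  rw [add_assoc, add_assoc, add_comm (ENNReal.ofReal (p / 2) • Measure.dirac (Mark.m false))]

/-- the i.i.d. measure -/
noncomputable def PP (I : Type) (p : ℝ) : Measure (I → Mark) := Measure.infinitePi (fun _ => nu p)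

lemma mp_general {I : Type} (p : ℝ) (h0 : 0 ≤ p) (h1 : p ≤ 1) (e : Equiv.Perm I)
    (F : I → Mark → Mark) (hF : ∀ i, (nu p).map (F i) = nu p) :
    MeasurePreserving (fun (ω : I → Mark) (i : I) => F i (ω (e i))) (PP I p) (PP I p) := by
  have inst := nu_prob p h0 h1
  have hmeas : Measurable (fun (ω : I → Mark) (i : I) => F i (ω (e i))) :=
    measurable_pi_lambda _ fun i => Measurable.of_discrete.comp (measurable_pi_apply (e i))
  refine ⟨hmeas, ?_⟩
  unfold PP
  have key : ∀ (s : Finset I) (t : I → Set Mark), (∀ i, MeasurableSet (t i)) →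
      ((Measure.infinitePi (fun _ : I => nu p)).map
        (fun (ω : I → Mark) (i : I) => F i (ω (e i)))) (Set.pi (s : Set I) t) =
      ∏ i ∈ s, nu p (t i) := by
   intro s t ht
   rw [Measure.map_apply hmeas (MeasurableSet.pi s.countable_toSet (fun i _ => ht i))]
   have hset : (fun (ω : I → Mark) (i : I) => F i (ω (e i))) ⁻¹' (Set.pi (s : Set I) t) =
       Set.pi ((s.map e.toEmbedding : Finset I) : Set I)
         (fun j => F (e.symm j) ⁻¹' t (e.symm j)) := by
     ext ω
     simp only [Set.mem_preimage, Set.mem_pi, Finset.mem_coe, Finset.mem_map,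
       Equiv.coe_toEmbedding]
     constructor
     · rintro h j ⟨i, hi, rfl⟩
       simpa using h i hi
     · intro h i hi
       simpa using h (e i) ⟨i, hi, rfl⟩
   rw [hset, Measure.infinitePi_pi _ (fun i _ => MeasurableSet.of_discrete), Finset.prod_map]
   apply Finset.prod_congr rfl
   intro i _
   simp only [Equiv.coe_toEmbedding, Equiv.symm_apply_apply]
   rw [← Measure.map_apply Measurable.of_discrete (ht i), hF]
  exact Measure.eq_infinitePi _ key

lemma PP_prob (I : Type) (p : ℝ) (h0 : 0 ≤ p) (h1 : p ≤ 1) : IsProbabilityMeasure (PP I p) := by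
  have inst := nu_prob p h0 h1
  unfold PP
  infer_instance

/-- indicator of being marked -/
noncomputable def mk {I : Type} (ω : I → Mark) (z : I) : ℝ := if ω z = .e then 0 else 1

lemma mk_nonneg {I : Type} (ω : I → Mark) (z : I) : 0 ≤ mk ω z := by
  unfold mk; split_ifs <;> norm_num

lemma mk_le_one {I : Type} (ω : I → Mark) (z : I) : mk ω z ≤ 1 := by
  unfold mk; split_ifs <;> norm_num

lemma mk_meas {I : Type} (z : I) : Measurable fun ω : I → Mark => mk ω z := by
  have : (fun ω : I → Mark => mk ω z) = (fun a : Mark => if a = .e then (0 : ℝ) else 1) ∘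
      (fun ω : I → Mark => ω z) := rfl
  rw [this]
  exact Measurable.of_discrete.comp (measurable_pi_apply z)

lemma nu_marked (p : ℝ) (h0 : 0 ≤ p) : nu p {a | a ≠ Mark.e} = ENNReal.ofReal p := by
  unfold nu
  simp only [Measure.coe_add, Measure.coe_smul, Pi.add_apply, Pi.smul_apply, smul_eq_mul]
  rw [Measure.dirac_apply, Measure.dirac_apply, Measure.dirac_apply]
  simp only [Set.indicator, Set.mem_ofPred_eq]
  simp
  rw [← ENNReal.ofReal_add (by linarith) (by linarith)]
  congr 1
  ring

lemma integral_mk {I : Type} (p : ℝ) (h0 : 0 ≤ p) (h1 : p ≤ 1) (z : I) :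
    ∫ ω, mk ω z ∂(PP I p) = p := by
  have inst := nu_prob p h0 h1
  have e1 : (fun ω : I → Mark => mk ω z) =
      Set.indicator (Set.pi (({z} : Finset I) : Set I) (fun _ => {a | a ≠ Mark.e})) 1 := by
    funext ω
    unfold mk Set.indicator
    by_cases h : ω z = .e <;> simp [h]
  rw [e1, integral_indicator_one]
  · unfold PP Measure.real
    rw [Measure.infinitePi_pi _ (fun i _ => MeasurableSet.of_discrete)]
    simp [nu_marked p h0, ENNReal.toReal_ofReal h0]
  · exact MeasurableSet.pi (Finset.countable_toSet _) (fun i _ => MeasurableSet.of_discrete)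

lemma integral_mk_mk {I : Type} [DecidableEq I] (p : ℝ) (h0 : 0 ≤ p) (h1 : p ≤ 1) (z z' : I)
    (hz : z ≠ z') : ∫ ω, mk ω z * mk ω z' ∂(PP I p) = p ^ 2 := by
  have inst := nu_prob p h0 h1
  have e1 : (fun ω : I → Mark => mk ω z * mk ω z') =
      Set.indicator (Set.pi (({z, z'} : Finset I) : Set I) (fun _ => {a | a ≠ Mark.e})) 1 := by
    funext ω
    unfold mk Set.indicator
    by_cases h : ω z = .e <;> by_cases h' : ω z' = .e <;> simp [h, h']
  rw [e1, integral_indicator_one]
  · unfold PP Measure.real
    rw [Measure.infinitePi_pi _ (fun i _ => MeasurableSet.of_discrete)]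
    rw [Finset.prod_pair hz, nu_marked p h0, ENNReal.toReal_mul, ENNReal.toReal_ofReal h0]
    ring
  · exact MeasurableSet.pi (Finset.countable_toSet _) (fun i _ => MeasurableSet.of_discrete)

end R986.RF
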