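import Pool.Agent.R986.RF4

/-!
# The two random rate fields: definitions and invariance
-/

set_option autoImplicit false
set_option linter.unusedSectionVars false

open MeasureTheory

namespace R986.RF

variable {D : Type} [DecidableEq D] [Fintype D]

/-- The mark of the edge `{z, z s}` seen from `z`: the edge carries the mark of its endpoint
farther from the identity, flipped when seen from the other endpoint. -/
noncomputable def edgeMark (ω : W2 D → Mark) (z : W2 D) (s : D) : Mark :=
  if last z = some s then ω z else (ω (z * tt s)).flip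

open Classical in
/-- The smaller field. -/
noncomputable def rA (ω : W2 D → Mark) (w : WW D) : (Bool × Bool) ⊕ D → ℝ
  | .inl (τ, _) => if ∃ s, edgeMark ω (pr w) s = .m τ then 1 else 0
  | .inr s => if edgeMark ω (pr w) s ≠ .e then 1 else 0

open Classical in
/-- The larger field. -/
noncomputable def rB (ω : W2 D → Mark) (w : WW D) : (Bool × Bool) ⊕ D → ℝ
  | .inl (τ, _) => if ω (pr w) = .m τ ∨ ∃ s, ω (pr w * tt s) = .m (!τ) then 1 else 0
  | .inr s => if ω (pr w) ≠ .e ∨ ω (pr w * tt s) ≠ .e then 1 else 0

lemma rA_le_rB (ω : W2 D → Mark) (w : WW D) (i : (Bool × Bool) ⊕ D) : rA ω w i ≤ rB ω w i := by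
  rcases i with ⟨τ, j⟩ | s
  · unfold rA rB
    simp only
    by_cases h : ∃ s, edgeMark ω (pr w) s = .m τ
    · rw [if_pos h, if_pos]
      obtain ⟨s, hs⟩ := h
      unfold edgeMark at hs
      split_ifs at hs with h1
      · exact Or.inl hs
      · exact Or.inr ⟨s, (Mark.flip_eq_m _ _).1 hs⟩
    · rw [if_neg h]; split_ifs <;> norm_num
  · unfold rA rB
    simp only
    by_cases h : edgeMark ω (pr w) s ≠ .e
    · rw [if_pos h, if_pos]
      unfold edgeMark at h
      split_ifs at h with h1
      · exact Or.inl h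
      · exact Or.inr (fun h2 => h ((Mark.flip_eq_e _).2 h2))
    · rw [if_neg h]; split_ifs <;> norm_num

lemma tt_tt (z : W2 D) (s : D) : z * tt s * tt s = z := by rw [mul_assoc, tt_sq, mul_one]

lemma edgeMark_flip (ω : W2 D → Mark) (z : W2 D) (s : D) :
    edgeMark ω (z * tt s) s = (edgeMark ω z s).flip := by
  unfold edgeMark
  by_cases h : last z = some s
  · rw [if_pos h, if_neg (by rw [last_mul]; simpa using h), tt_tt]
  · rw [if_neg h, if_pos ((last_mul z s).2 h), Mark.flip_flip]

lemma rA_nonneg (ω : W2 D → Mark) (w : WW D) (i : (Bool × Bool) ⊕ D) : 0 ≤ rA ω w i := by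
  rcases i with ⟨τ, j⟩ | s <;> unfold rA <;> simp only <;> split_ifs <;> norm_num

lemma rA_le_one (ω : W2 D → Mark) (w : WW D) (i : (Bool × Bool) ⊕ D) : rA ω w i ≤ 1 := by
  rcases i with ⟨τ, j⟩ | s <;> unfold rA <;> simp only <;> split_ifs <;> norm_num

lemma rB_nonneg (ω : W2 D → Mark) (w : WW D) (i : (Bool × Bool) ⊕ D) : 0 ≤ rB ω w i := by
  rcases i with ⟨τ, j⟩ | s <;> unfold rB <;> simp only <;> split_ifs <;> norm_num

lemma rB_le_one (ω : W2 D → Mark) (w : WW D) (i : (Bool × Bool) ⊕ D) : rB ω w i ≤ 1 := by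
  rcases i with ⟨τ, j⟩ | s <;> unfold rB <;> simp only <;> split_ifs <;> norm_num

lemma pr_mul_sa (w : WW D) (τ j : Bool) : pr (w * (CS D).simple (.inl (τ, j))) = pr w := by
  have := pr_sa (D := D) τ j
  unfold sa at this
  rw [map_mul, this, mul_one]

lemma pr_mul_sd (w : WW D) (s : D) : pr (w * (CS D).simple (.inr s)) = pr w * tt s := by
  have := pr_sd s
  unfold sd at this
  rw [map_mul, this]

lemma pr_sa_mul (w : WW D) (τ j : Bool) : pr ((CS D).simple (.inl (τ, j)) * w) = pr w := by
  have := pr_sa (D := D) τ j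
  unfold sa at this
  rw [map_mul, this, one_mul]

lemma pr_sd_mul (w : WW D) (s : D) : pr ((CS D).simple (.inr s) * w) = tt s * pr w := by
  have := pr_sd s
  unfold sd at this
  rw [map_mul, this]

lemma rA_symm (ω : W2 D → Mark) (w : WW D) (i : (Bool × Bool) ⊕ D) :
    rA ω (w * (CS D).simple i) i = rA ω w i := by
  rcases i with ⟨τ, j⟩ | s
  · unfold rA; simp only [pr_mul_sa]
  · unfold rA
    simp only [pr_mul_sd, edgeMark_flip]
    have : (edgeMark ω (pr w) s).flip ≠ .e ↔ edgeMark ω (pr w) s ≠ .e :=
      not_congr (Mark.flip_eq_e _)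
    simp only [this]

lemma rB_symm (ω : W2 D → Mark) (w : WW D) (i : (Bool × Bool) ⊕ D) :
    rB ω (w * (CS D).simple i) i = rB ω w i := by
  rcases i with ⟨τ, j⟩ | s
  · unfold rB; simp only [pr_mul_sa]
  · unfold rB
    simp only [pr_mul_sd, tt_tt]
    simp only [or_comm]

/-- the shift for the larger field -/
noncomputable def shB (a : D) (ω : W2 D → Mark) : W2 D → Mark := fun z => ω (tt a * z)

open Classical in
/-- the shift for the smaller field -/
noncomputable def shA (a : D) (ω : W2 D → Mark) : W2 D → Mark := fun z =>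
  if z = 1 ∨ z = tt a then (ω z).flip else ω (tt a * z)

lemma rB_shift (a : D) (ω : W2 D → Mark) (w : WW D) (i : (Bool × Bool) ⊕ D) :
    rB ω ((CS D).simple (.inr a) * w) i = rB (shB a ω) w i := by
  rcases i with ⟨τ, j⟩ | s
  · unfold rB shB; simp only [pr_sd_mul, mul_assoc]
  · unfold rB shB; simp only [pr_sd_mul, mul_assoc]

lemma edgeMark_shift (a : D) (ω : W2 D → Mark) (z : W2 D) (s : D) :
    edgeMark ω (tt a * z) s = edgeMark (shA a ω) z s := by
  unfold edgeMark shA
  by_cases h1 : z = 1
  · subst h1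
    rw [mul_one, last_tt, last_one, one_mul]
    by_cases hs : s = a
    · subst hs
      simp [Mark.flip_flip]
    · rw [if_neg (by simpa using Ne.symm hs), if_neg (by simp), if_neg]
      rintro (h | h)
      · exact tt_ne_one s h
      · exact hs (tt_injective h)
  by_cases h2 : z = tt a
  · subst h2
    rw [tt_sq, last_one, last_tt, one_mul]
    by_cases hs : s = a
    · subst hs
      simp
    · rw [if_neg (by simp), if_neg (by simpa using Ne.symm hs), if_neg, ← mul_assoc, tt_sq,
        one_mul]
      rintro (h | h)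
      · exact one_ne_tt_mul hs h.symm
      · exact tt_ne_tt_mul hs h.symm
  rw [last_left a z h1 h2]
  by_cases h3 : last z = some s
  · rw [if_pos h3, if_pos h3, if_neg]
    rintro (h | h)
    · exact h1 h
    · exact h2 h
  · rw [if_neg h3, if_neg h3, if_neg, mul_assoc]
    rintro (h | h)
    · apply h3
      have : z = tt s := by
        calc z = z * tt s * tt s := (tt_tt z s).symm
          _ = tt s := by rw [h, one_mul]
      rw [this, last_tt]
    · have hz : z = tt a * tt s := by
        calc z = z * tt s * tt s := (tt_tt z s).symm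
          _ = tt a * tt s := by rw [h]
      by_cases hs : s = a
      · apply h1; rw [hz, hs, tt_sq]
      · apply h3
        rw [hz, last_mul, last_tt]
        simpa using Ne.symm hs

lemma rA_shift (a : D) (ω : W2 D → Mark) (w : WW D) (i : (Bool × Bool) ⊕ D) :
    rA ω ((CS D).simple (.inr a) * w) i = rA (shA a ω) w i := by
  rcases i with ⟨τ, j⟩ | s
  · unfold rA; simp only [pr_sd_mul, edgeMark_shift]
  · unfold rA; simp only [pr_sd_mul, edgeMark_shift]

lemma shB_mp (p : ℝ) (h0 : 0 ≤ p) (h1 : p ≤ 1) (a : D) :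
    MeasurePreserving (shB a) (PP (W2 D) p) (PP (W2 D) p) :=
  mp_general p h0 h1 (Equiv.mulLeft (tt a)) (fun _ => id) (fun _ => Measure.map_id)

open Classical in
lemma inv_aux (a : D) : Function.Involutive
    (fun z : W2 D => if z = 1 ∨ z = tt a then z else tt a * z) := by
  intro z
  by_cases h : z = 1 ∨ z = tt a
  · simp only [if_pos h]
  · simp only [if_neg h]
    have h' : ¬ (tt a * z = 1 ∨ tt a * z = tt a) := by
      rintro (h2 | h2)
      · apply h; right
        calc z = tt a * (tt a * z) := by rw [← mul_assoc, tt_sq, one_mul]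
          _ = tt a := by rw [h2, mul_one]
      · apply h; left
        calc z = tt a * (tt a * z) := by rw [← mul_assoc, tt_sq, one_mul]
          _ = 1 := by rw [h2, tt_sq]
    rw [if_neg h', ← mul_assoc, tt_sq, one_mul]

open Classical in
lemma shA_mp (p : ℝ) (h0 : 0 ≤ p) (h1 : p ≤ 1) (a : D) :
    MeasurePreserving (shA a) (PP (W2 D) p) (PP (W2 D) p) := by
  have h := mp_general p h0 h1 (Function.Involutive.toPerm _ (inv_aux a))
    (fun z => if z = 1 ∨ z = tt a then Mark.flip else id) (by
      intro z
      by_cases h : z = 1 ∨ z = tt a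
      · rw [if_pos h]; exact nu_flip p
      · rw [if_neg h]; exact Measure.map_id)
  have e : shA a = (fun (ω : W2 D → Mark) (z : W2 D) =>
      (if z = 1 ∨ z = tt a then Mark.flip else id) (ω (Function.Involutive.toPerm _ (inv_aux a) z))) := by
    funext ω z
    unfold shA
    by_cases h : z = 1 ∨ z = tt a
    · simp only [if_pos h, Function.Involutive.coe_toPerm]
    · simp only [if_neg h, Function.Involutive.coe_toPerm, id]
  rw [e]
  exact h

lemma edgeMark_meas (z : W2 D) (s : D) : Measurable fun ω : W2 D → Mark => edgeMark ω z s := by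
  unfold edgeMark
  by_cases h : last z = some s
  · simp only [if_pos h]
    exact measurable_pi_apply z
  · simp only [if_neg h]
    exact (Measurable.of_discrete (f := Mark.flip)).comp (measurable_pi_apply _)

lemma rA_meas (w : WW D) (i : (Bool × Bool) ⊕ D) :
    Measurable fun ω : W2 D → Mark => rA ω w i := by
  classical
  rcases i with ⟨τ, j⟩ | s
  · unfold rA
    simp only
    apply Measurable.ite _ measurable_const measurable_const
    have : {ω : W2 D → Mark | ∃ s, edgeMark ω (pr w) s = .m τ} =
        ⋃ s : D, (fun ω => edgeMark ω (pr w) s) ⁻¹' {.m τ} := by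
      ext ω; simp
    rw [this]
    exact MeasurableSet.iUnion fun s => edgeMark_meas _ _ MeasurableSet.of_discrete
  · unfold rA
    simp only
    apply Measurable.ite _ measurable_const measurable_const
    exact edgeMark_meas (pr w) s (MeasurableSet.of_discrete (s := {a : Mark | a ≠ .e}))

lemma rB_meas (w : WW D) (i : (Bool × Bool) ⊕ D) :
    Measurable fun ω : W2 D → Mark => rB ω w i := by
  classical
  rcases i with ⟨τ, j⟩ | s
  · unfold rB
    simp only
    apply Measurable.ite _ measurable_const measurable_const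
    have : {ω : W2 D → Mark | ω (pr w) = .m τ ∨ ∃ s, ω (pr w * tt s) = .m (!τ)} =
        (fun ω : W2 D → Mark => ω (pr w)) ⁻¹' {.m τ} ∪
        ⋃ s : D, (fun ω : W2 D → Mark => ω (pr w * tt s)) ⁻¹' {.m (!τ)} := by
      ext ω; simp
    rw [this]
    exact (measurable_pi_apply _ MeasurableSet.of_discrete).union
      (MeasurableSet.iUnion fun s => measurable_pi_apply _ MeasurableSet.of_discrete)
  · unfold rB
    simp only
    apply Measurable.ite _ measurable_const measurable_const
    have : {ω : W2 D → Mark | ω (pr w) ≠ .e ∨ ω (pr w * tt s) ≠ .e} =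
        (fun ω : W2 D → Mark => ω (pr w)) ⁻¹' {a : Mark | a ≠ .e} ∪
        (fun ω : W2 D → Mark => ω (pr w * tt s)) ⁻¹' {a : Mark | a ≠ .e} := by
      ext ω; simp
    rw [this]
    exact (measurable_pi_apply _ MeasurableSet.of_discrete).union
      (measurable_pi_apply _ MeasurableSet.of_discrete)

lemma rA_good (p : ℝ) (h0 : 0 ≤ p) (h1 : p ≤ 1) :
    Good (CS D) (PP (W2 D) p) (rA : (W2 D → Mark) → WW D → (Bool × Bool) ⊕ D → ℝ) where
  meas := rA_meas
  nonneg := rA_nonneg
  le_one := rA_le_one
  symm := rA_symm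
  shift := by
    rintro (⟨τ, j⟩ | a)
    · refine ⟨id, MeasurePreserving.id _, fun ω w i => ?_⟩
      rcases i with ⟨τ', j'⟩ | s
      · unfold rA; simp only [pr_sa_mul, id]
      · unfold rA; simp only [pr_sa_mul, id]
    · exact ⟨shA a, shA_mp p h0 h1 a, rA_shift a⟩

lemma rB_good (p : ℝ) (h0 : 0 ≤ p) (h1 : p ≤ 1) :
    Good (CS D) (PP (W2 D) p) (rB : (W2 D → Mark) → WW D → (Bool × Bool) ⊕ D → ℝ) where
  meas := rB_meas
  nonneg := rB_nonneg
  le_one := rB_le_one
  symm := rB_symm
  shift := by
    rintro (⟨τ, j⟩ | a)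
    · refine ⟨id, MeasurePreserving.id _, fun ω w i => ?_⟩
      rcases i with ⟨τ', j'⟩ | s
      · unfold rB; simp only [pr_sa_mul, id]
      · unfold rB; simp only [pr_sa_mul, id]
    · exact ⟨shB a, shB_mp p h0 h1 a, rB_shift a⟩

end R986.RF
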