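import Pool.Agent.R986.RF5

/-!
# Upper bound for the speed in the larger field
-/

set_option autoImplicit false
set_option linter.unusedSectionVars false

open MeasureTheory

namespace R986.RF

variable {D : Type} [DecidableEq D] [Fintype D]

/-- a quantity which is at least one at the bad vertices -/
noncomputable def bb (ω : W2 D → Mark) (z : W2 D) : ℝ :=
  (∑ s, mk ω z * mk ω (z * tt s)) +
    ∑ s, ∑ s' ∈ Finset.univ.erase s, mk ω (z * tt s) * mk ω (z * tt s')

lemma bb_nonneg (ω : W2 D → Mark) (z : W2 D) : 0 ≤ bb ω z := by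
  unfold bb
  apply add_nonneg
  · exact Finset.sum_nonneg fun s _ => mul_nonneg (mk_nonneg _ _) (mk_nonneg _ _)
  · exact Finset.sum_nonneg fun s _ => Finset.sum_nonneg fun s' _ =>
      mul_nonneg (mk_nonneg _ _) (mk_nonneg _ _)

lemma mk_eq_one {ω : W2 D → Mark} {z : W2 D} (h : ω z ≠ .e) : mk ω z = 1 := by
  unfold mk; rw [if_neg h]

lemma bb_ge_a {ω : W2 D → Mark} {z : W2 D} {s : D} (h1 : ω z ≠ .e) (h2 : ω (z * tt s) ≠ .e) :
    1 ≤ bb ω z := by
  unfold bb
  have h3 : (1 : ℝ) ≤ ∑ s, mk ω z * mk ω (z * tt s) := by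
    have := Finset.single_le_sum (f := fun s => mk ω z * mk ω (z * tt s))
      (fun s _ => mul_nonneg (mk_nonneg _ _) (mk_nonneg _ _)) (Finset.mem_univ s)
    simp only [mk_eq_one h1, mk_eq_one h2, mul_one] at this
    simpa only [mk_eq_one h1] using this
  have h4 : 0 ≤ ∑ s, ∑ s' ∈ Finset.univ.erase s, mk ω (z * tt s) * mk ω (z * tt s') :=
    Finset.sum_nonneg fun s _ => Finset.sum_nonneg fun s' _ =>
      mul_nonneg (mk_nonneg _ _) (mk_nonneg _ _)
  linarith

lemma bb_ge_b {ω : W2 D → Mark} {z : W2 D} {s s' : D} (h : s' ≠ s) (h1 : ω (z * tt s) ≠ .e)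
    (h2 : ω (z * tt s') ≠ .e) : 1 ≤ bb ω z := by
  unfold bb
  have h3 : 0 ≤ ∑ s, mk ω z * mk ω (z * tt s) :=
    Finset.sum_nonneg fun s _ => mul_nonneg (mk_nonneg _ _) (mk_nonneg _ _)
  have h4 : (1 : ℝ) ≤ ∑ s, ∑ s' ∈ Finset.univ.erase s, mk ω (z * tt s) * mk ω (z * tt s') := by
    have a1 := Finset.single_le_sum
      (f := fun s => ∑ s' ∈ Finset.univ.erase s, mk ω (z * tt s) * mk ω (z * tt s'))
      (fun s _ => Finset.sum_nonneg fun s' _ => mul_nonneg (mk_nonneg _ _) (mk_nonneg _ _))
      (Finset.mem_univ s)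
    have a2 := Finset.single_le_sum (s := Finset.univ.erase s)
      (f := fun s' => mk ω (z * tt s) * mk ω (z * tt s'))
      (fun s' _ => mul_nonneg (mk_nonneg _ _) (mk_nonneg _ _))
      (Finset.mem_erase.2 ⟨h, Finset.mem_univ s'⟩)
    simp only [mk_eq_one h1, mk_eq_one h2, mul_one] at a2
    simp only [mk_eq_one h1] at a1
    linarith
  linarith

open Classical in
/-- the centre of the star containing `z` -/
noncomputable def ctr (ω : W2 D → Mark) (z : W2 D) : W2 D :=
  if ω z ≠ .e then z else if h : ∃ s, ω (z * tt s) ≠ .e then z * tt h.choose else z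

/-- type of a mark -/
def Mark.ty : Mark → Bool
  | .e => true
  | .m τ => τ

/-- the minority type at `z` -/
noncomputable def mt (ω : W2 D → Mark) (z : W2 D) : Bool := (ω (ctr ω z)).ty

lemma ctr_marked {ω : W2 D → Mark} {z : W2 D} (h : ω z ≠ .e) : ctr ω z = z := by
  unfold ctr; rw [if_pos h]

lemma ctr_leaf {ω : W2 D → Mark} {z : W2 D} {s : D} (h : ω (z * tt s) ≠ .e) :
    1 ≤ bb ω z ∨ ω z ≠ .e ∨ ctr ω z = z * tt s := by
  by_cases h1 : ω z ≠ .e
  · exact Or.inr (Or.inl h1)
  · have hex : ∃ s, ω (z * tt s) ≠ .e := ⟨s, h⟩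
    by_cases h2 : hex.choose = s
    · right; right
      unfold ctr
      rw [if_neg h1, dif_pos hex, h2]
    · left
      exact bb_ge_b h2 h hex.choose_spec

lemma ctr_edge_aux {ω : W2 D → Mark} {z : W2 D} {s : D} (h : ω z ≠ .e) :
    1 ≤ bb ω (z * tt s) ∨ ctr ω (z * tt s) = ctr ω z := by
  have h1 : ω (z * tt s * tt s) ≠ .e := by rwa [tt_tt]
  rcases ctr_leaf h1 with h2 | h2 | h2
  · exact Or.inl h2
  · exact Or.inl (bb_ge_a h2 h1)
  · right
    rw [h2, tt_tt, ctr_marked h]

lemma ctr_edge {ω : W2 D → Mark} {z : W2 D} {s : D} (h : ω z ≠ .e ∨ ω (z * tt s) ≠ .e) :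
    1 ≤ bb ω z + bb ω (z * tt s) ∨ ctr ω (z * tt s) = ctr ω z := by
  have p1 := bb_nonneg ω z
  have p2 := bb_nonneg ω (z * tt s)
  rcases h with h | h
  · rcases ctr_edge_aux (s := s) h with h1 | h1
    · left; linarith
    · exact Or.inr h1
  · rcases ctr_edge_aux (s := s) h with h1 | h1
    · rw [tt_tt] at h1; left; linarith
    · rw [tt_tt] at h1; exact Or.inr h1.symm

lemma len2_mul' (z : W2 D) (s : D) : len2 z ≤ len2 (z * tt s) + 1 := by
  have := len2_mul (z * tt s) s
  rwa [tt_tt] at this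

lemma len2_ctr_le (ω : W2 D → Mark) (z : W2 D) : len2 (ctr ω z) ≤ len2 z + 1 := by
  unfold ctr
  split_ifs with h1 h2
  · omega
  · exact len2_mul _ _
  · omega

lemma le_len2_ctr (ω : W2 D → Mark) (z : W2 D) : len2 z ≤ len2 (ctr ω z) + 1 := by
  unfold ctr
  split_ifs with h1 h2
  · omega
  · exact len2_mul' _ _
  · omega

/-- the potential -/
noncomputable def Psi (ω : W2 D → Mark) (w : WW D) : ℝ :=
  4 * (cnt (mt ω (pr w)) (st1 w) : ℝ) + (len2 (ctr ω (pr w)) : ℝ)

lemma len_le_Psi (ω : W2 D → Mark) (w : WW D) : lenR (CS D) w ≤ Psi ω w + 3 := by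
  unfold lenR Psi
  have h1 := len_upper w
  have h2 := cnt_add (st1 w) (mt ω (pr w))
  have h3 := cnt_balance (st1 w) (st1_valid w) (!(mt ω (pr w)))
  rw [Bool.not_not] at h3
  have h4 := le_len2_ctr ω (pr w)
  have h5 : (CS D).length w ≤ 4 * cnt (mt ω (pr w)) (st1 w) + len2 (ctr ω (pr w)) + 3 := by omega
  exact_mod_cast h5

lemma step_sa (ω : W2 D → Mark) (w : WW D) (τ j : Bool) :
    rB ω w (.inl (τ, j)) * (Psi ω (w * (CS D).simple (.inl (τ, j))) - Psi ω w) ≤
      4 * (mk ω (pr w) + bb ω (pr w)) := by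
  have p1 := bb_nonneg ω (pr w)
  have p2 := mk_nonneg ω (pr w)
  have e1 : Psi ω (w * (CS D).simple (.inl (τ, j))) =
      4 * (cnt (mt ω (pr w)) (op1 τ j (st1 w)) : ℝ) + (len2 (ctr ω (pr w)) : ℝ) := by
    unfold Psi
    have := st1_sa w τ j
    unfold sa at this
    rw [pr_mul_sa, this]
  rw [e1]
  unfold Psi
  have h1 := cnt_op1 (mt ω (pr w)) τ j (st1 w)
  have h1' : (cnt (mt ω (pr w)) (op1 τ j (st1 w)) : ℝ) ≤
      cnt (mt ω (pr w)) (st1 w) + (if mt ω (pr w) = τ then 1 else 0) := by
    have h := h1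
    split_ifs at h ⊢ <;> exact_mod_cast h
  unfold rB
  simp only
  split_ifs with h2
  · rw [one_mul]
    by_cases h3 : mt ω (pr w) = τ
    · rw [if_pos h3] at h1'
      -- then bad or marked
      have h4 : 1 ≤ mk ω (pr w) + bb ω (pr w) := by
        by_cases h5 : ω (pr w) ≠ .e
        · rw [mk_eq_one h5]; linarith
        · rcases h2 with h2 | ⟨s, hs⟩
          · exfalso; apply h5; rw [h2]; simp
          · have hs' : ω (pr w * tt s) ≠ .e := by rw [hs]; simp
            rcases ctr_leaf hs' with h6 | h6 | h6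
            · linarith
            · exact absurd h6 h5
            · exfalso
              unfold mt at h3
              rw [h6, hs] at h3
              simp [Mark.ty] at h3
      linarith
    · rw [if_neg h3] at h1'
      linarith
  · rw [zero_mul]; positivity

lemma step_sd (ω : W2 D → Mark) (w : WW D) (s : D) :
    rB ω w (.inr s) * (Psi ω (w * (CS D).simple (.inr s)) - Psi ω w) ≤
      7 * (bb ω (pr w) + bb ω (pr w * tt s)) := by
  have p1 := bb_nonneg ω (pr w)
  have p2 := bb_nonneg ω (pr w * tt s)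
  have e1 : Psi ω (w * (CS D).simple (.inr s)) =
      4 * (cnt (mt ω (pr w * tt s)) (st1 w) : ℝ) + (len2 (ctr ω (pr w * tt s)) : ℝ) := by
    unfold Psi
    have := st1_sd w s
    unfold sd at this
    rw [pr_mul_sd, this]
  rw [e1]
  unfold Psi
  unfold rB
  simp only
  split_ifs with h2
  · rw [one_mul]
    rcases ctr_edge h2 with h3 | h3
    · have h4 : cnt (mt ω (pr w * tt s)) (st1 w) ≤ cnt (mt ω (pr w)) (st1 w) + 1 := by
        by_cases h5 : mt ω (pr w * tt s) = mt ω (pr w)
        · rw [h5]; omega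
        · have h6 : mt ω (pr w * tt s) = !(mt ω (pr w)) := by
            revert h5
            cases mt ω (pr w * tt s) <;> cases mt ω (pr w) <;> simp
          rw [h6]
          have := cnt_balance (st1 w) (st1_valid w) (!(mt ω (pr w)))
          rwa [Bool.not_not] at this
      have h5 : len2 (ctr ω (pr w * tt s)) ≤ len2 (ctr ω (pr w)) + 3 := by
        have a1 := len2_ctr_le ω (pr w * tt s)
        have a2 := len2_mul (pr w) s
        have a3 := le_len2_ctr ω (pr w)
        omega
      have h4' : (cnt (mt ω (pr w * tt s)) (st1 w) : ℝ) ≤ cnt (mt ω (pr w)) (st1 w) + 1 := by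
        exact_mod_cast h4
      have h5' : (len2 (ctr ω (pr w * tt s)) : ℝ) ≤ len2 (ctr ω (pr w)) + 3 := by
        exact_mod_cast h5
      linarith
    · have h4 : mt ω (pr w * tt s) = mt ω (pr w) := by unfold mt; rw [h3]
      rw [h4, h3]
      linarith
  · rw [zero_mul]; positivity

/-- the drift bound -/
noncomputable def uB (ω : W2 D → Mark) (w : WW D) : ℝ :=
  (16 * (mk ω (pr w) + bb ω (pr w)) + ∑ s : D, 7 * (bb ω (pr w) + bb ω (pr w * tt s))) /
    Fintype.card ((Bool × Bool) ⊕ D)

lemma step_Psi (ω : W2 D → Mark) (w : WW D) :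
    step (CS D) (rB ω) (Psi ω) w ≤ Psi ω w + uB ω w := by
  unfold step uB
  have hc : (0 : ℝ) < Fintype.card ((Bool × Bool) ⊕ D) := by
    exact_mod_cast Fintype.card_pos
  have h : ∑ i, rB ω w i * (Psi ω (w * (CS D).simple i) - Psi ω w) ≤
      16 * (mk ω (pr w) + bb ω (pr w)) + ∑ s : D, 7 * (bb ω (pr w) + bb ω (pr w * tt s)) := by
    rw [Fintype.sum_sum_type]
    apply add_le_add
    · calc _ ≤ ∑ _x : Bool × Bool, 4 * (mk ω (pr w) + bb ω (pr w)) :=
            Finset.sum_le_sum fun x _ => step_sa ω w x.1 x.2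
        _ = _ := by
            rw [Finset.sum_const, Finset.card_univ, Fintype.card_prod, Fintype.card_bool,
              nsmul_eq_mul]
            push_cast
            ring
    · exact Finset.sum_le_sum fun s _ => step_sd ω w s
  have := div_le_div_of_nonneg_right h hc.le
  linarith

lemma mk_shB (a : D) (ω : W2 D → Mark) (z : W2 D) : mk ω (tt a * z) = mk (shB a ω) z := rfl

lemma bb_shB (a : D) (ω : W2 D → Mark) (z : W2 D) : bb ω (tt a * z) = bb (shB a ω) z := by
  unfold bb
  simp only [mul_assoc, mk_shB]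

lemma bb_le (ω : W2 D → Mark) (z : W2 D) :
    bb ω z ≤ Fintype.card D + Fintype.card D * Fintype.card D := by
  unfold bb
  have h1 : ∀ z z', mk ω z * mk ω z' ≤ 1 := fun z z' => by
    have := mk_nonneg ω z; have := mk_nonneg ω z'; have := mk_le_one ω z
    have := mk_le_one ω z'
    nlinarith
  apply add_le_add
  · calc _ ≤ ∑ _s : D, (1 : ℝ) := Finset.sum_le_sum fun s _ => h1 _ _
      _ = _ := by simp
  · calc _ ≤ ∑ _s : D, (Fintype.card D : ℝ) := by
          apply Finset.sum_le_sum
          intro s _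
          calc _ ≤ ∑ s' ∈ Finset.univ.erase s, (1 : ℝ) := Finset.sum_le_sum fun s _ => h1 _ _
            _ ≤ ∑ _s : D, (1 : ℝ) :=
              Finset.sum_le_sum_of_subset_of_nonneg (Finset.erase_subset _ _)
                (fun _ _ _ => by norm_num)
            _ = _ := by simp
      _ = _ := by simp

lemma bb_meas (z : W2 D) : Measurable fun ω : W2 D → Mark => bb ω z := by
  unfold bb
  apply Measurable.add
  · exact Finset.measurable_fun_sum _ fun s _ => (mk_meas _).mul (mk_meas _)
  · exact Finset.measurable_fun_sum _ fun s _ =>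
      Finset.measurable_fun_sum _ fun s' _ => (mk_meas _).mul (mk_meas _)

lemma uB_equiv (p : ℝ) (h0 : 0 ≤ p) (h1 : p ≤ 1) :
    Equiv' (CS D) rB (PP (W2 D) p) (uB : (W2 D → Mark) → WW D → ℝ) := by
  refine ⟨fun w => ?_, ?_, ?_⟩
  · unfold uB
    apply Measurable.div_const
    apply Measurable.add
    · exact ((mk_meas _).add (bb_meas _)).const_mul _
    · exact Finset.measurable_fun_sum _ fun s _ => ((bb_meas _).add (bb_meas _)).const_mul _
  · refine ⟨(16 * (1 + (Fintype.card D + Fintype.card D * Fintype.card D : ℝ)) +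
      ∑ _s : D, 7 * ((Fintype.card D + Fintype.card D * Fintype.card D : ℝ) +
        (Fintype.card D + Fintype.card D * Fintype.card D : ℝ))) /
      Fintype.card ((Bool × Bool) ⊕ D), fun ω w => ?_⟩
    unfold uB
    rw [abs_of_nonneg]
    · apply div_le_div_of_nonneg_right _ (Nat.cast_nonneg _)
      apply add_le_add
      · have := mk_le_one ω (pr w)
        have := bb_le ω (pr w)
        linarith
      · apply Finset.sum_le_sum
        intro s _
        have := bb_le ω (pr w)
        have := bb_le ω (pr w * tt s)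
        linarith
    · apply div_nonneg _ (Nat.cast_nonneg _)
      apply add_nonneg
      · have := mk_nonneg ω (pr w)
        have := bb_nonneg ω (pr w)
        linarith
      · apply Finset.sum_nonneg
        intro s _
        have := bb_nonneg ω (pr w)
        have := bb_nonneg ω (pr w * tt s)
        linarith
  · rintro (⟨τ, j⟩ | a)
    · refine ⟨id, MeasurePreserving.id _, fun ω w i => ?_, fun ω w => ?_⟩
      · rcases i with ⟨τ', j'⟩ | s
        · unfold rB; simp only [pr_sa_mul, id]
        · unfold rB; simp only [pr_sa_mul, id]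
      · unfold uB; simp only [pr_sa_mul, id]
    · refine ⟨shB a, shB_mp p h0 h1 a, rB_shift a, fun ω w => ?_⟩
      unfold uB
      simp only [pr_sd_mul, mul_assoc, mk_shB, bb_shB]

lemma ne_mul_tt (z : W2 D) (s : D) : z ≠ z * tt s := by
  intro h
  exact tt_ne_one s (by simpa using h.symm)

lemma integral_bb (p : ℝ) (h0 : 0 ≤ p) (h1 : p ≤ 1) (z : W2 D) :
    ∫ ω, bb ω z ∂(PP (W2 D) p) ≤ (Fintype.card D + Fintype.card D * Fintype.card D) * p ^ 2 := by
  classical
  have inst := PP_prob (W2 D) p h0 h1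
  have hint : ∀ z z' : W2 D, Integrable (fun ω => mk ω z * mk ω z') (PP (W2 D) p) := fun z z' =>
    Integrable.of_bound ((mk_meas z).mul (mk_meas z')).aestronglyMeasurable 1
      (Filter.Eventually.of_forall fun ω => by
        have := mk_nonneg ω z; have := mk_nonneg ω z'; have := mk_le_one ω z
        have := mk_le_one ω z'
        rw [Real.norm_eq_abs, abs_of_nonneg (by positivity)]
        nlinarith)
  unfold bb
  rw [integral_add (integrable_finsetSum _ fun s _ => hint _ _)
    (integrable_finsetSum _ fun s _ => integrable_finsetSum _ fun s' _ => hint _ _)]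
  rw [integral_finsetSum _ fun s _ => hint _ _,
    integral_finsetSum _ fun s _ => integrable_finsetSum _ fun s' _ => hint _ _]
  rw [add_mul]
  apply add_le_add
  · apply le_of_eq
    calc _ = ∑ _s : D, p ^ 2 := Finset.sum_congr rfl fun s _ =>
          integral_mk_mk p h0 h1 z (z * tt s) (ne_mul_tt z s)
      _ = _ := by simp
  · calc _ ≤ ∑ _s : D, (Fintype.card D : ℝ) * p ^ 2 := by
          apply Finset.sum_le_sum
          intro s _
          rw [integral_finsetSum _ fun s' _ => hint _ _]
          calc _ = ∑ _s' ∈ Finset.univ.erase s, p ^ 2 := by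
                apply Finset.sum_congr rfl
                intro s' hs'
                apply integral_mk_mk p h0 h1
                intro h
                exact (Finset.mem_erase.1 hs').1 (tt_injective (mul_left_cancel h)).symm
            _ ≤ ∑ _s' : D, p ^ 2 :=
                Finset.sum_le_sum_of_subset_of_nonneg (Finset.erase_subset _ _)
                  (fun _ _ _ => by positivity)
            _ = _ := by simp
      _ = _ := by simp; ring

lemma integral_uB (p : ℝ) (h0 : 0 ≤ p) (h1 : p ≤ 1) :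
    ∫ ω, uB ω (1 : WW D) ∂(PP (W2 D) p) ≤
      (16 * p + (16 + 14 * Fintype.card D) *
        ((Fintype.card D + Fintype.card D * Fintype.card D) * p ^ 2)) /
        Fintype.card ((Bool × Bool) ⊕ D) := by
  have inst := PP_prob (W2 D) p h0 h1
  have hm : ∀ z : W2 D, Integrable (fun ω => mk ω z) (PP (W2 D) p) := fun z =>
    Integrable.of_bound (mk_meas z).aestronglyMeasurable 1
      (Filter.Eventually.of_forall fun ω => by
        rw [Real.norm_eq_abs, abs_of_nonneg (mk_nonneg ω z)]; exact mk_le_one ω z)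
  have hb : ∀ z : W2 D, Integrable (fun ω => bb ω z) (PP (W2 D) p) := fun z =>
    Integrable.of_bound (bb_meas z).aestronglyMeasurable
      (Fintype.card D + Fintype.card D * Fintype.card D)
      (Filter.Eventually.of_forall fun ω => by
        rw [Real.norm_eq_abs, abs_of_nonneg (bb_nonneg ω z)]; exact bb_le ω z)
  unfold uB
  rw [integral_div]
  apply div_le_div_of_nonneg_right _ (Nat.cast_nonneg _)
  have i1 : Integrable (fun ω => 16 * (mk ω (pr (1 : WW D)) + bb ω (pr (1 : WW D))))
      (PP (W2 D) p) := ((hm _).add (hb _)).const_mul _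
  have i2 : ∀ s : D, Integrable (fun ω => 7 * (bb ω (pr (1 : WW D)) +
      bb ω (pr (1 : WW D) * tt s))) (PP (W2 D) p) := fun s => ((hb _).add (hb _)).const_mul _
  rw [integral_add i1 (integrable_finsetSum _ fun s _ => i2 s)]
  rw [integral_const_mul, integral_add (hm _) (hb _), integral_mk p h0 h1,
    integral_finsetSum _ fun s _ => i2 s]
  have h2 : ∑ s : D, ∫ ω, 7 * (bb ω (pr (1 : WW D)) + bb ω (pr (1 : WW D) * tt s))
      ∂(PP (W2 D) p) ≤ ∑ _s : D, 14 * ((Fintype.card D + Fintype.card D * Fintype.card D)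
        * p ^ 2) := by
    apply Finset.sum_le_sum
    intro s _
    rw [integral_const_mul, integral_add (hb _) (hb _)]
    have := integral_bb (D := D) p h0 h1 (pr (1 : WW D))
    have := integral_bb (D := D) p h0 h1 (pr (1 : WW D) * tt s)
    linarith
  have h3 := integral_bb (D := D) p h0 h1 (pr (1 : WW D))
  have h4 : ∑ _s : D, 14 * (((Fintype.card D : ℝ) + Fintype.card D * Fintype.card D)
        * p ^ 2) = 14 * Fintype.card D * ((Fintype.card D + Fintype.card D * Fintype.card D)
        * p ^ 2) := by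
    rw [Finset.sum_const, Finset.card_univ, nsmul_eq_mul]; ring
  rw [h4] at h2
  linarith

lemma iter_upper (ω : W2 D → Mark) (n : ℕ) :
    (step (CS D) (rB ω))^[n] (lenR (CS D)) 1 ≤
      (4 + Fintype.card D : ℝ) + ∑ k ∈ Finset.range n, (step (CS D) (rB ω))^[k] (uB ω) 1 := by
  have h1 := iter_mono (CS D) (rB_nonneg ω) (rB_le_one ω) n (f := lenR (CS D))
    (g := fun w => 3 + Psi ω w) (fun w => by have := len_le_Psi ω w; linarith) 1
  rw [iter_add (CS D) (rB ω) n (fun _ => 3), iter_const] at h1
  have h2 := iter_le_of_step_le (CS D) (rB_nonneg ω) (rB_le_one ω) (step_Psi ω) n 1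
  have h3 : Psi ω (1 : WW D) ≤ 1 := by
    unfold Psi
    rw [st1_one, map_one]
    have := len2_ctr_le ω (1 : W2 D)
    rw [len2_one] at this
    have h4 : (len2 (ctr ω (1 : W2 D)) : ℝ) ≤ 1 := by exact_mod_cast this
    simp [cnt]
    exact_mod_cast this
  have h4 : (0 : ℝ) ≤ Fintype.card D := Nat.cast_nonneg _
  linarith

lemma stepMean_upper (p : ℝ) (h0 : 0 ≤ p) (h1 : p ≤ 1) (n : ℕ) :
    stepMean (CS D) (PP (W2 D) p) rB n ≤ (4 + Fintype.card D : ℝ) + n *
      ((16 * p + (16 + 14 * Fintype.card D) *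
        ((Fintype.card D + Fintype.card D * Fintype.card D) * p ^ 2)) /
        Fintype.card ((Bool × Bool) ⊕ D)) := by
  have inst := PP_prob (W2 D) p h0 h1
  have hg := rB_good (D := D) p h0 h1
  have hint : ∀ k, Integrable (fun ω => (step (CS D) (rB ω))^[k] (uB ω) 1) (PP (W2 D) p) := by
    intro k
    have hE := (uB_equiv (D := D) p h0 h1).iter (CS D) hg k
    obtain ⟨C, hC⟩ := hE.bdd
    exact Integrable.of_bound (hE.meas 1).aestronglyMeasurable C
      (Filter.Eventually.of_forall fun ω => by rw [Real.norm_eq_abs]; exact hC ω 1)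
  unfold stepMean
  calc ∫ ω, (step (CS D) (rB ω))^[n] (lenR (CS D)) 1 ∂(PP (W2 D) p)
      ≤ ∫ ω, ((4 + Fintype.card D : ℝ) +
          ∑ k ∈ Finset.range n, (step (CS D) (rB ω))^[k] (uB ω) 1) ∂(PP (W2 D) p) := by
        apply integral_mono (integrable_iter_len (CS D) hg n)
        · exact (integrable_const _).add (integrable_finsetSum _ fun k _ => hint k)
        · exact fun ω => iter_upper ω n
    _ = (4 + Fintype.card D : ℝ) + ∑ k ∈ Finset.range n,
          ∫ ω, (step (CS D) (rB ω))^[k] (uB ω) 1 ∂(PP (W2 D) p) := by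
        rw [integral_add (integrable_const _) (integrable_finsetSum _ fun k _ => hint k),
          integral_finsetSum _ fun k _ => hint k]
        simp
    _ = (4 + Fintype.card D : ℝ) + n * ∫ ω, uB ω (1 : WW D) ∂(PP (W2 D) p) := by
        congr 1
        rw [← nsmul_eq_mul, ← Finset.card_range n, ← Finset.sum_const, Finset.card_range]
        exact Finset.sum_congr rfl fun k _ =>
          (uB_equiv (D := D) p h0 h1).integral_iter (CS D) hg k
    _ ≤ _ := by
        have := integral_uB (D := D) p h0 h1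
        have h5 : (0 : ℝ) ≤ n := Nat.cast_nonneg _
        have := mul_le_mul_of_nonneg_left this h5
        linarith

end R986.RF
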