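import Pool.Agent.R986.RF6

/-!
# Lower bound for the speed in the smaller field
-/

set_option autoImplicit false
set_option linter.unusedSectionVars false

open MeasureTheory

namespace R986.RF

variable {D : Type} [DecidableEq D] [Fintype D]

/-- `z` is the end of type `τ` of an isolated marked edge -/
def isoT (ω : W2 D → Mark) (z : W2 D) (τ : Bool) : Prop :=
  ∃ s, edgeMark ω z s = .m τ ∧ (∀ s', s' ≠ s → edgeMark ω z s' = .e) ∧
    (∀ s', s' ≠ s → edgeMark ω (z * tt s) s' = .e)

lemma isoT_not {ω : W2 D → Mark} {z : W2 D} {τ : Bool} (h : isoT ω z τ) : ¬ isoT ω z (!τ) := by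
  rintro ⟨s', h1, -, -⟩
  obtain ⟨s, h2, h3, -⟩ := h
  by_cases hs : s' = s
  · rw [hs, h2] at h1
    simp at h1
  · rw [h3 s' hs] at h1
    simp at h1

open Classical in
/-- potential for the lower bound -/
noncomputable def HH (ω : W2 D → Mark) (w : WW D) : ℝ :=
  (if isoT ω (pr w) true then hpot true (st1 w) else 0) +
    (if isoT ω (pr w) false then hpot false (st1 w) else 0)

open Classical in
/-- indicator that `z` lies in an isolated marked edge -/
noncomputable def iso (ω : W2 D → Mark) (z : W2 D) : ℝ :=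
  (if isoT ω z true then 1 else 0) + (if isoT ω z false then 1 else 0)

lemma HH_of_iso {ω : W2 D → Mark} {w : WW D} {τ : Bool} (h : isoT ω (pr w) τ) :
    HH ω w = hpot τ (st1 w) := by
  have h2 := isoT_not h
  unfold HH
  cases τ
  · simp only [Bool.not_false] at h2
    rw [if_pos h, if_neg h2, zero_add]
  · simp only [Bool.not_true] at h2
    rw [if_pos h, if_neg h2, add_zero]

lemma iso_of_iso {ω : W2 D → Mark} {z : W2 D} {τ : Bool} (h : isoT ω z τ) :
    iso ω z = 1 := by
  have h2 := isoT_not h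
  unfold iso
  cases τ
  · simp only [Bool.not_false] at h2
    rw [if_pos h, if_neg h2, zero_add]
  · simp only [Bool.not_true] at h2
    rw [if_pos h, if_neg h2, add_zero]

lemma HH_nonneg (ω : W2 D → Mark) (w : WW D) : 0 ≤ HH ω w := by
  unfold HH
  apply add_nonneg
  · split_ifs
    · exact hpot_nonneg _ _
    · exact le_rfl
  · split_ifs
    · exact hpot_nonneg _ _
    · exact le_rfl

lemma iso_nonneg (ω : W2 D → Mark) (z : W2 D) : 0 ≤ iso ω z := by
  unfold iso
  apply add_nonneg <;> split_ifs <;> norm_num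

lemma iso_le (ω : W2 D → Mark) (z : W2 D) : iso ω z ≤ 2 := by
  unfold iso
  split_ifs <;> norm_num

lemma not_iso {ω : W2 D → Mark} {w : WW D} (h : ∀ τ, ¬ isoT ω (pr w) τ) :
    HH ω w = 0 ∧ iso ω (pr w) = 0 := by
  unfold HH iso
  rw [if_neg (h true), if_neg (h false), if_neg (h true), if_neg (h false)]
  simp

lemma HH_le (ω : W2 D → Mark) (w : WW D) : HH ω w ≤ lenR (CS D) w + 1 := by
  by_cases h : ∃ τ, isoT ω (pr w) τ
  · obtain ⟨τ, hτ⟩ := h
    rw [HH_of_iso hτ]
    have h1 := hpot_le τ (st1 w)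
    have h2 : ((st1 w).length : ℝ) ≤ lenR (CS D) w := by
      unfold lenR; exact_mod_cast len_lower w
    linarith
  · push Not at h
    rw [(not_iso h).1]
    have := lenR_nonneg (CS D) w
    linarith

/-- drift -/
noncomputable def uA (ω : W2 D → Mark) (w : WW D) : ℝ :=
  (1 / 5 * iso ω (pr w)) / Fintype.card ((Bool × Bool) ⊕ D)

lemma step_HH (ω : W2 D → Mark) (w : WW D) :
    HH ω w + uA ω w ≤ step (CS D) (rA ω) (HH ω) w := by
  by_cases h : ∃ τ, isoT ω (pr w) τ
  · obtain ⟨τ, hτ⟩ := h
    unfold step uA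
    have hc : (0 : ℝ) < Fintype.card ((Bool × Bool) ⊕ D) := by
      exact_mod_cast Fintype.card_pos
    rw [iso_of_iso hτ]
    have key : (1 / 5 : ℝ) * 1 ≤ ∑ i, rA ω w i * (HH ω (w * (CS D).simple i) - HH ω w) := by
      rw [HH_of_iso hτ]
      have hd := drift τ (st1 w) (st1_valid w)
      have hsa : ∀ τ' j, HH ω (w * (CS D).simple (.inl (τ', j))) = hpot τ (op1 τ' j (st1 w)) := by
        intro τ' j
        have h1 : isoT ω (pr (w * (CS D).simple (.inl (τ', j)))) τ := by
          rw [pr_mul_sa]; exact hτ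
        rw [HH_of_iso h1]
        have := st1_sa w τ' j
        unfold sa at this
        rw [this]
      obtain ⟨s, hs1, hs2, hs3⟩ := hτ
      have hiso' : isoT ω (pr (w * (CS D).simple (.inr s))) (!τ) := by
        rw [pr_mul_sd]
        refine ⟨s, ?_, hs3, ?_⟩
        · rw [edgeMark_flip, hs1]; rfl
        · rw [tt_tt]; exact hs2
      have hsd : HH ω (w * (CS D).simple (.inr s)) = hpot (!τ) (st1 w) := by
        rw [HH_of_iso hiso']
        have := st1_sd w s
        unfold sd at this
        rw [this]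
      have ra1 : ∀ τ' j, rA ω w (.inl (τ', j)) = if τ' = τ then 1 else 0 := by
        intro τ' j
        unfold rA
        simp only
        by_cases h1 : τ' = τ
        · rw [if_pos h1, if_pos ⟨s, by rw [h1]; exact hs1⟩]
        · rw [if_neg h1, if_neg]
          rintro ⟨s', h2⟩
          by_cases h3 : s' = s
          · rw [h3, hs1] at h2
            apply h1
            simpa using h2.symm
          · rw [hs2 s' h3] at h2
            simp at h2
      have ra2 : ∀ s', rA ω w (.inr s') = if s' = s then 1 else 0 := by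
        intro s'
        unfold rA
        simp only
        by_cases h1 : s' = s
        · rw [if_pos h1, if_pos]
          rw [h1, hs1]; simp
        · rw [if_neg h1, if_neg]
          rw [hs2 s' h1]; simp
      rw [Fintype.sum_sum_type, Fintype.sum_prod_type]
      simp only [Fintype.sum_bool]
      rw [hsa, hsa, hsa, hsa, ra1, ra1, ra1, ra1]
      have e2 : ∑ s', rA ω w (.inr s') * (HH ω (w * (CS D).simple (.inr s')) - hpot τ (st1 w)) =
          hpot (!τ) (st1 w) - hpot τ (st1 w) := by
        rw [Finset.sum_eq_single s]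
        · rw [ra2, if_pos rfl, hsd, one_mul]
        · intro s' _ h1
          rw [ra2, if_neg h1, zero_mul]
        · intro h1; exact absurd (Finset.mem_univ s) h1
      rw [e2]
      cases τ
      · simp only [Bool.not_false] at hd ⊢
        simp
        linarith
      · simp only [Bool.not_true] at hd ⊢
        simp
        linarith
    have := div_le_div_of_nonneg_right key hc.le
    linarith
  · push Not at h
    have h1 := not_iso h
    unfold uA
    rw [h1.1, h1.2, mul_zero, zero_div, add_zero]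
    have h2 := step_mono (cs := CS D) (rA_nonneg ω) (rA_le_one ω) (f := fun _ => 0) (g := HH ω)
      (HH_nonneg ω) w
    rwa [step_const] at h2

lemma isoT_shA (a : D) (ω : W2 D → Mark) (z : W2 D) (τ : Bool) :
    isoT ω (tt a * z) τ ↔ isoT (shA a ω) z τ := by
  unfold isoT
  simp only [edgeMark_shift, mul_assoc]

lemma iso_shA (a : D) (ω : W2 D → Mark) (z : W2 D) :
    iso ω (tt a * z) = iso (shA a ω) z := by
  have e1 := isoT_shA a ω z true
  have e2 := isoT_shA a ω z false
  unfold iso
  by_cases h1 : isoT (shA a ω) z true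
  · by_cases h2 : isoT (shA a ω) z false
    · rw [if_pos h1, if_pos h2, if_pos (e1.2 h1), if_pos (e2.2 h2)]
    · rw [if_pos h1, if_neg h2, if_pos (e1.2 h1), if_neg (fun h => h2 (e2.1 h))]
  · by_cases h2 : isoT (shA a ω) z false
    · rw [if_neg h1, if_pos h2, if_neg (fun h => h1 (e1.1 h)), if_pos (e2.2 h2)]
    · rw [if_neg h1, if_neg h2, if_neg (fun h => h1 (e1.1 h)), if_neg (fun h => h2 (e2.1 h))]

lemma iso_meas (z : W2 D) : Measurable fun ω : W2 D → Mark => iso ω z := by
  classical
  have key : ∀ τ, MeasurableSet {ω : W2 D → Mark | isoT ω z τ} := by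
    intro τ
    have : {ω : W2 D → Mark | isoT ω z τ} = ⋃ s : D,
        ((fun ω => edgeMark ω z s) ⁻¹' {.m τ} ∩
          ((⋂ s' ∈ {s' : D | s' ≠ s}, (fun ω => edgeMark ω z s') ⁻¹' {.e}) ∩
          (⋂ s' ∈ {s' : D | s' ≠ s}, (fun ω => edgeMark ω (z * tt s) s') ⁻¹' {.e}))) := by
      ext ω
      simp [isoT]
    rw [this]
    refine MeasurableSet.iUnion fun s => ?_
    refine (edgeMark_meas z s MeasurableSet.of_discrete).inter (MeasurableSet.inter ?_ ?_)
    · exact MeasurableSet.biInter (Set.to_countable _) fun s' _ =>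
        edgeMark_meas _ _ MeasurableSet.of_discrete
    · exact MeasurableSet.biInter (Set.to_countable _) fun s' _ =>
        edgeMark_meas _ _ MeasurableSet.of_discrete
  unfold iso
  apply Measurable.add
  · exact Measurable.ite (key true) measurable_const measurable_const
  · exact Measurable.ite (key false) measurable_const measurable_const

lemma uA_equiv (p : ℝ) (h0 : 0 ≤ p) (h1 : p ≤ 1) :
    Equiv' (CS D) rA (PP (W2 D) p) (uA : (W2 D → Mark) → WW D → ℝ) := by
  refine ⟨fun w => ?_, ?_, ?_⟩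
  · unfold uA
    exact ((iso_meas _).const_mul _).div_const _
  · refine ⟨(1 / 5 * 2) / Fintype.card ((Bool × Bool) ⊕ D), fun ω w => ?_⟩
    unfold uA
    have h1 := iso_nonneg ω (pr w)
    have h2 := iso_le ω (pr w)
    rw [abs_of_nonneg (by positivity)]
    apply div_le_div_of_nonneg_right _ (Nat.cast_nonneg _)
    linarith
  · rintro (⟨τ, j⟩ | a)
    · refine ⟨id, MeasurePreserving.id _, fun ω w i => ?_, fun ω w => ?_⟩
      · rcases i with ⟨τ', j'⟩ | s
        · unfold rA; simp only [pr_sa_mul, id]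
        · unfold rA; simp only [pr_sa_mul, id]
      · unfold uA; simp only [pr_sa_mul, id]
    · refine ⟨shA a, shA_mp p h0 h1 a, rA_shift a, fun ω w => ?_⟩
      unfold uA
      simp only [pr_sd_mul, iso_shA]

lemma edgeMark_one_ne (ω : W2 D → Mark) (s : D) :
    edgeMark ω 1 s = .e ↔ ω (tt s) = .e := by
  unfold edgeMark
  rw [last_one, if_neg (by simp), one_mul, Mark.flip_eq_e]

lemma edgeMark_tt_ne (ω : W2 D → Mark) (s s' : D) (h : s' ≠ s) :
    edgeMark ω (tt s) s' = .e ↔ ω (tt s * tt s') = .e := by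
  unfold edgeMark
  rw [last_tt, if_neg (by simpa using Ne.symm h), Mark.flip_eq_e]

lemma mk_eq_zero {ω : W2 D → Mark} {z : W2 D} (h : ω z = .e) : mk ω z = 0 := by
  unfold mk; rw [if_pos h]

/-- the local contribution -/
noncomputable def tq (ω : W2 D → Mark) (s : D) : ℝ :=
  mk ω (tt s) - ∑ s' ∈ Finset.univ.erase s, mk ω (tt s) * mk ω (tt s')
    - ∑ s' ∈ Finset.univ.erase s, mk ω (tt s) * mk ω (tt s * tt s')

lemma tq_le_one (ω : W2 D → Mark) (s : D) : tq ω s ≤ 1 := by
  unfold tq
  have h1 := mk_le_one ω (tt s)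
  have h2 : 0 ≤ ∑ s' ∈ Finset.univ.erase s, mk ω (tt s) * mk ω (tt s') :=
    Finset.sum_nonneg fun _ _ => mul_nonneg (mk_nonneg _ _) (mk_nonneg _ _)
  have h3 : 0 ≤ ∑ s' ∈ Finset.univ.erase s, mk ω (tt s) * mk ω (tt s * tt s') :=
    Finset.sum_nonneg fun _ _ => mul_nonneg (mk_nonneg _ _) (mk_nonneg _ _)
  linarith

lemma tq_nonpos {ω : W2 D → Mark} {s : D}
    (h : ω (tt s) = .e ∨ ∃ s', s' ≠ s ∧ (ω (tt s') ≠ .e ∨ ω (tt s * tt s') ≠ .e)) :
    tq ω s ≤ 0 := by
  unfold tq
  rcases h with h | ⟨s', hs', h⟩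
  · simp [mk_eq_zero h]
  · have h1 := mk_le_one ω (tt s)
    have h0 := mk_nonneg ω (tt s)
    have h2 : 0 ≤ ∑ s' ∈ Finset.univ.erase s, mk ω (tt s) * mk ω (tt s') :=
      Finset.sum_nonneg fun _ _ => mul_nonneg (mk_nonneg _ _) (mk_nonneg _ _)
    have h3 : 0 ≤ ∑ s' ∈ Finset.univ.erase s, mk ω (tt s) * mk ω (tt s * tt s') :=
      Finset.sum_nonneg fun _ _ => mul_nonneg (mk_nonneg _ _) (mk_nonneg _ _)
    rcases h with h | h
    · have h4 := Finset.single_le_sum (s := Finset.univ.erase s)
        (f := fun s' => mk ω (tt s) * mk ω (tt s'))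
        (fun _ _ => mul_nonneg (mk_nonneg _ _) (mk_nonneg _ _))
        (Finset.mem_erase.2 ⟨hs', Finset.mem_univ s'⟩)
      simp only [mk_eq_one h, mul_one] at h4
      linarith
    · have h4 := Finset.single_le_sum (s := Finset.univ.erase s)
        (f := fun s' => mk ω (tt s) * mk ω (tt s * tt s'))
        (fun _ _ => mul_nonneg (mk_nonneg _ _) (mk_nonneg _ _))
        (Finset.mem_erase.2 ⟨hs', Finset.mem_univ s'⟩)
      simp only [mk_eq_one h, mul_one] at h4
      linarith

lemma sum_tq_le (ω : W2 D → Mark) : ∑ s, tq ω s ≤ iso ω 1 := by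
  by_cases h : ∃ s, ω (tt s) ≠ .e ∧ (∀ s', s' ≠ s → ω (tt s') = .e) ∧
      (∀ s', s' ≠ s → ω (tt s * tt s') = .e)
  · obtain ⟨s, h1, h2, h3⟩ := h
    have hiso : ∃ τ, isoT ω 1 τ := by
      have h4 : edgeMark ω 1 s ≠ .e := fun h => h1 ((edgeMark_one_ne ω s).1 h)
      obtain ⟨τ, hτ⟩ : ∃ τ, edgeMark ω 1 s = .m τ := by
        rcases hh : edgeMark ω 1 s with _ | τ
        · exact absurd hh h4
        · exact ⟨τ, rfl⟩
      refine ⟨τ, s, hτ, fun s' hs' => (edgeMark_one_ne ω s').2 (h2 s' hs'), fun s' hs' => ?_⟩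
      rw [one_mul]
      exact (edgeMark_tt_ne ω s s' hs').2 (h3 s' hs')
    obtain ⟨τ, hτ⟩ := hiso
    rw [iso_of_iso hτ, ← Finset.add_sum_erase _ _ (Finset.mem_univ s)]
    have h5 : ∑ s' ∈ Finset.univ.erase s, tq ω s' ≤ 0 :=
      Finset.sum_nonpos fun s' hs' => tq_nonpos (Or.inl (h2 s' (Finset.mem_erase.1 hs').1))
    have h6 := tq_le_one ω s
    linarith
  · push Not at h
    refine le_trans (Finset.sum_nonpos fun s _ => ?_) (iso_nonneg ω 1)
    apply tq_nonpos
    by_cases h1 : ω (tt s) = .e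
    · exact Or.inl h1
    · right
      by_cases h2 : ∀ s', s' ≠ s → ω (tt s') = .e
      · obtain ⟨s', h3, h4⟩ := h s h1 h2
        exact ⟨s', h3, Or.inr h4⟩
      · push Not at h2
        obtain ⟨s', h3, h4⟩ := h2
        exact ⟨s', h3, Or.inl h4⟩

lemma integral_iso (p : ℝ) (h0 : 0 ≤ p) (h1 : p ≤ 1) :
    (Fintype.card D : ℝ) * p - 2 * (Fintype.card D * Fintype.card D) * p ^ 2 ≤
      ∫ ω, iso ω (1 : W2 D) ∂(PP (W2 D) p) := by
  classical
  have inst := PP_prob (W2 D) p h0 h1
  have hm : ∀ z : W2 D, Integrable (fun ω => mk ω z) (PP (W2 D) p) := fun z =>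
    Integrable.of_bound (mk_meas z).aestronglyMeasurable 1
      (Filter.Eventually.of_forall fun ω => by
        rw [Real.norm_eq_abs, abs_of_nonneg (mk_nonneg ω z)]; exact mk_le_one ω z)
  have hint : ∀ z z' : W2 D, Integrable (fun ω => mk ω z * mk ω z') (PP (W2 D) p) := fun z z' =>
    Integrable.of_bound ((mk_meas z).mul (mk_meas z')).aestronglyMeasurable 1
      (Filter.Eventually.of_forall fun ω => by
        have := mk_nonneg ω z; have := mk_nonneg ω z'; have := mk_le_one ω z
        have := mk_le_one ω z'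
        rw [Real.norm_eq_abs, abs_of_nonneg (by positivity)]
        nlinarith)
  have hs1 : ∀ s : D, Integrable (fun ω => ∑ s' ∈ Finset.univ.erase s,
      mk ω (tt s) * mk ω (tt s')) (PP (W2 D) p) :=
    fun s => integrable_finsetSum _ fun s' _ => hint _ _
  have hs2 : ∀ s : D, Integrable (fun ω => ∑ s' ∈ Finset.univ.erase s,
      mk ω (tt s) * mk ω (tt s * tt s')) (PP (W2 D) p) :=
    fun s => integrable_finsetSum _ fun s' _ => hint _ _
  have hs12 : ∀ s : D, Integrable (fun ω => mk ω (tt s) - ∑ s' ∈ Finset.univ.erase s,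
      mk ω (tt s) * mk ω (tt s')) (PP (W2 D) p) := fun s => (hm _).sub (hs1 s)
  have htq : ∀ s : D, Integrable (fun ω => tq ω s) (PP (W2 D) p) := fun s =>
    (hs12 s).sub (hs2 s)
  have hisoI : Integrable (fun ω => iso ω (1 : W2 D)) (PP (W2 D) p) :=
    Integrable.of_bound (iso_meas 1).aestronglyMeasurable 2
      (Filter.Eventually.of_forall fun ω => by
        rw [Real.norm_eq_abs, abs_of_nonneg (iso_nonneg ω 1)]; exact iso_le ω 1)
  have e1 : ∀ s : D, p - 2 * Fintype.card D * p ^ 2 ≤ ∫ ω, tq ω s ∂(PP (W2 D) p) := by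
    intro s
    unfold tq
    rw [integral_sub (hs12 s) (hs2 s), integral_sub (hm _) (hs1 s), integral_mk p h0 h1,
      integral_finsetSum _ fun s' _ => hint _ _, integral_finsetSum _ fun s' _ => hint _ _]
    have a1 : ∑ s' ∈ Finset.univ.erase s, ∫ ω, mk ω (tt s) * mk ω (tt s') ∂(PP (W2 D) p) ≤
        Fintype.card D * p ^ 2 := by
      calc _ = ∑ _s' ∈ Finset.univ.erase s, p ^ 2 := by
            apply Finset.sum_congr rfl
            intro s' hs'
            exact integral_mk_mk p h0 h1 _ _ (fun h =>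
              (Finset.mem_erase.1 hs').1 (tt_injective h).symm)
        _ ≤ ∑ _s' : D, p ^ 2 :=
            Finset.sum_le_sum_of_subset_of_nonneg (Finset.erase_subset _ _)
              (fun _ _ _ => by positivity)
        _ = _ := by simp
    have a2 : ∑ s' ∈ Finset.univ.erase s, ∫ ω, mk ω (tt s) * mk ω (tt s * tt s')
        ∂(PP (W2 D) p) ≤ Fintype.card D * p ^ 2 := by
      calc _ = ∑ _s' ∈ Finset.univ.erase s, p ^ 2 := by
            apply Finset.sum_congr rfl
            intro s' hs'
            exact integral_mk_mk p h0 h1 _ _ (ne_mul_tt _ _)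
        _ ≤ ∑ _s' : D, p ^ 2 :=
            Finset.sum_le_sum_of_subset_of_nonneg (Finset.erase_subset _ _)
              (fun _ _ _ => by positivity)
        _ = _ := by simp
    linarith
  calc _ = ∑ _s : D, (p - 2 * Fintype.card D * p ^ 2) := by
        rw [Finset.sum_const, Finset.card_univ, nsmul_eq_mul]; ring
    _ ≤ ∑ s : D, ∫ ω, tq ω s ∂(PP (W2 D) p) := Finset.sum_le_sum fun s _ => e1 s
    _ = ∫ ω, ∑ s : D, tq ω s ∂(PP (W2 D) p) := (integral_finsetSum _ fun s _ => htq s).symm
    _ ≤ _ := integral_mono (integrable_finsetSum _ fun s _ => htq s) hisoI sum_tq_le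

lemma integral_uA (p : ℝ) (h0 : 0 ≤ p) (h1 : p ≤ 1) :
    (1 / 5 * ((Fintype.card D : ℝ) * p - 2 * (Fintype.card D * Fintype.card D) * p ^ 2)) /
      Fintype.card ((Bool × Bool) ⊕ D) ≤ ∫ ω, uA ω (1 : WW D) ∂(PP (W2 D) p) := by
  unfold uA
  rw [map_one, integral_div, integral_const_mul]
  apply div_le_div_of_nonneg_right _ (Nat.cast_nonneg _)
  have := integral_iso (D := D) p h0 h1
  linarith

lemma iter_lower (ω : W2 D → Mark) (n : ℕ) :
    ∑ k ∈ Finset.range n, (step (CS D) (rA ω))^[k] (uA ω) 1 - 1 ≤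
      (step (CS D) (rA ω))^[n] (lenR (CS D)) 1 := by
  have h1 := iter_mono (CS D) (rA_nonneg ω) (rA_le_one ω) n (f := HH ω)
    (g := fun w => 1 + lenR (CS D) w) (fun w => by have := HH_le ω w; linarith) 1
  rw [iter_add (CS D) (rA ω) n (fun _ => 1), iter_const] at h1
  have h2 := le_iter_of_le_step (CS D) (rA_nonneg ω) (rA_le_one ω) (step_HH ω) n 1
  have h3 := HH_nonneg ω (1 : WW D)
  linarith

lemma stepMean_lower (p : ℝ) (h0 : 0 ≤ p) (h1 : p ≤ 1) (n : ℕ) :
    n * ((1 / 5 * ((Fintype.card D : ℝ) * p - 2 * (Fintype.card D * Fintype.card D) * p ^ 2)) /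
      Fintype.card ((Bool × Bool) ⊕ D)) - 1 ≤ stepMean (CS D) (PP (W2 D) p) rA n := by
  have inst := PP_prob (W2 D) p h0 h1
  have hg := rA_good (D := D) p h0 h1
  have hint : ∀ k, Integrable (fun ω => (step (CS D) (rA ω))^[k] (uA ω) 1) (PP (W2 D) p) := by
    intro k
    have hE := (uA_equiv (D := D) p h0 h1).iter (CS D) hg k
    obtain ⟨C, hC⟩ := hE.bdd
    exact Integrable.of_bound (hE.meas 1).aestronglyMeasurable C
      (Filter.Eventually.of_forall fun ω => by rw [Real.norm_eq_abs]; exact hC ω 1)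
  unfold stepMean
  calc _ ≤ n * ∫ ω, uA ω (1 : WW D) ∂(PP (W2 D) p) - 1 := by
        have := integral_uA (D := D) p h0 h1
        have h5 : (0 : ℝ) ≤ n := Nat.cast_nonneg _
        have := mul_le_mul_of_nonneg_left this h5
        linarith
    _ = ∑ k ∈ Finset.range n, ∫ ω, (step (CS D) (rA ω))^[k] (uA ω) 1 ∂(PP (W2 D) p) - 1 := by
        congr 1
        rw [← nsmul_eq_mul, ← Finset.card_range n, ← Finset.sum_const, Finset.card_range]
        exact Finset.sum_congr rfl fun k _ =>
          ((uA_equiv (D := D) p h0 h1).integral_iter (CS D) hg k).symm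
    _ = ∫ ω, (∑ k ∈ Finset.range n, (step (CS D) (rA ω))^[k] (uA ω) 1 - 1) ∂(PP (W2 D) p) := by
        rw [integral_sub (integrable_finsetSum _ fun k _ => hint k) (integrable_const _),
          integral_finsetSum _ fun k _ => hint k]
        simp
    _ ≤ _ := by
        apply integral_mono
        · exact (integrable_finsetSum _ fun k _ => hint k).sub (integrable_const _)
        · exact integrable_iter_len (CS D) hg n
        · exact fun ω => iter_lower ω n

end R986.RF
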