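import Mathlib

/-!
# Abel and Poisson averages of a sequence `a` with `a n / n → ℓ`
-/

set_option autoImplicit false

open Filter Topology

namespace Pool.Agent.R986.CoxSpeed

theorem linear_bound (a : ℕ → ℝ) (l : ℝ) (h : Tendsto (fun n : ℕ => a n / n) atTop (𝓝 l))
    (ε : ℝ) (hε : 0 < ε) : ∃ C : ℝ, 0 ≤ C ∧ ∀ n : ℕ, |a n - l * n| ≤ ε * n + C := by
  have h1 := (Metric.tendsto_atTop.1 h) ε hε
  obtain ⟨N, hN⟩ := h1
  refine ⟨∑ n ∈ Finset.range (N + 1), |a n - l * n|, Finset.sum_nonneg fun _ _ => abs_nonneg _,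
    fun n => ?_⟩
  by_cases hn : n < N + 1
  · have h2 : |a n - l * n| ≤ ∑ n ∈ Finset.range (N + 1), |a n - l * n| :=
      Finset.single_le_sum (f := fun n : ℕ => |a n - l * n|) (fun _ _ => abs_nonneg _)
        (Finset.mem_range.2 hn)
    have h3 : 0 ≤ ε * n := by positivity
    linarith
  · push Not at hn
    have h4 := hN n (by omega)
    rw [Real.dist_eq] at h4
    have hn0 : (0 : ℝ) < n := by
      have : 0 < n := by omega
      exact_mod_cast this
    have h5 : a n - l * n = (a n / n - l) * n := by field_simp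
    rw [h5, abs_mul, abs_of_pos hn0]
    have h6 : 0 ≤ ∑ n ∈ Finset.range (N + 1), |a n - l * n| :=
      Finset.sum_nonneg fun _ _ => abs_nonneg _
    nlinarith

theorem hasSum_nat_pow (x : ℝ) (h0 : 0 ≤ x) (h1 : x < 1) :
    HasSum (fun n : ℕ => (n : ℝ) * x ^ n) (x / (1 - x) ^ 2) :=
  hasSum_coe_mul_geometric_of_norm_lt_one (by rwa [Real.norm_eq_abs, abs_of_nonneg h0])

theorem summable_abel (a : ℕ → ℝ) (A C : ℝ) (ha : ∀ n : ℕ, |a n| ≤ A * n + C) (x : ℝ)
    (h0 : 0 ≤ x) (h1 : x < 1) : Summable fun n : ℕ => x ^ n * a n := by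
  apply Summable.of_norm_bounded (g := fun n : ℕ => A * ((n : ℝ) * x ^ n) + C * x ^ n)
  · exact ((hasSum_nat_pow x h0 h1).summable.mul_left A).add
      ((summable_geometric_of_lt_one h0 h1).mul_left C)
  · intro n
    rw [Real.norm_eq_abs, abs_mul, abs_of_nonneg (pow_nonneg h0 n)]
    have := mul_le_mul_of_nonneg_left (ha n) (pow_nonneg h0 n)
    linarith

theorem abel_limit (a : ℕ → ℝ) (l : ℝ) (h : Tendsto (fun n : ℕ => a n / n) atTop (𝓝 l)) :
    Tendsto (fun x : ℝ => (1 - x) ^ 2 * ∑' n : ℕ, x ^ n * a n) (𝓝[<] 1) (𝓝 l) := by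
  rw [Metric.tendsto_nhdsWithin_nhds]
  intro ε hε
  obtain ⟨C, hC, hb⟩ := linear_bound a l h (ε / 4) (by linarith)
  refine ⟨min 1 (ε / (4 * (C + |l| + 1))), by positivity, ?_⟩
  intro x hx1 hx2
  have hx1' : x < 1 := hx1
  rw [Real.dist_eq, abs_sub_comm, abs_of_pos (by linarith)] at hx2
  have hx3 : 1 - x < 1 := hx2.trans_le (min_le_left _ _)
  have hx4 : 1 - x < ε / (4 * (C + |l| + 1)) := hx2.trans_le (min_le_right _ _)
  have hx0 : 0 ≤ x := by linarith
  have hx5 : 0 < 1 - x := by linarith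
  have hs1 : Summable fun n : ℕ => x ^ n * a n := by
    apply summable_abel a (ε / 4 + |l|) C _ x hx0 hx1'
    intro n
    have h1 := hb n
    have h2 : |a n| ≤ |a n - l * n| + |l * n| := by
      have := abs_add_le (a n - l * n) (l * n)
      simpa using this
    rw [abs_mul, Nat.abs_cast] at h2
    nlinarith
  have hs2 := hasSum_nat_pow x hx0 hx1'
  have hs3 : Summable fun n : ℕ => x ^ n * (a n - l * n) := by
    have := hs1.sub (hs2.summable.mul_left l)
    refine this.congr fun n => ?_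
    ring
  have h3 : ∑' n : ℕ, x ^ n * (a n - l * n) = ∑' n : ℕ, x ^ n * a n - l * (x / (1 - x) ^ 2) := by
    rw [← hs2.tsum_eq, ← tsum_mul_left, ← hs1.tsum_sub (hs2.summable.mul_left l)]
    apply tsum_congr
    intro n
    ring
  have h4 : |∑' n : ℕ, x ^ n * (a n - l * n)| ≤ ε / 4 * (x / (1 - x) ^ 2) + C * (1 - x)⁻¹ := by
    have hg : HasSum (fun n : ℕ => ε / 4 * ((n : ℝ) * x ^ n) + C * x ^ n)
        (ε / 4 * (x / (1 - x) ^ 2) + C * (1 - x)⁻¹) :=
      (hs2.mul_left _).add ((hasSum_geometric_of_lt_one hx0 hx1').mul_left C)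
    rw [← Real.norm_eq_abs]
    apply tsum_of_norm_bounded hg
    intro n
    rw [Real.norm_eq_abs, abs_mul, abs_of_nonneg (pow_nonneg hx0 n)]
    have := mul_le_mul_of_nonneg_left (hb n) (pow_nonneg hx0 n)
    linarith
  rw [Real.dist_eq]
  have h5 : (1 - x) ^ 2 * ∑' n : ℕ, x ^ n * a n - l =
      (1 - x) ^ 2 * (∑' n : ℕ, x ^ n * (a n - l * n)) - l * (1 - x) := by
    rw [h3]
    field_simp
    ring
  rw [h5]
  have h6 : |(1 - x) ^ 2 * ∑' n : ℕ, x ^ n * (a n - l * n)| ≤ ε / 4 * x + C * (1 - x) := by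
    rw [abs_mul, abs_of_pos (by positivity : 0 < (1 - x) ^ 2)]
    have := mul_le_mul_of_nonneg_left h4 (by positivity : 0 ≤ (1 - x) ^ 2)
    refine this.trans (le_of_eq ?_)
    field_simp
  have h7 : |l * (1 - x)| = |l| * (1 - x) := by rw [abs_mul, abs_of_pos hx5]
  have h8 := abs_sub ((1 - x) ^ 2 * ∑' n : ℕ, x ^ n * (a n - l * n)) (l * (1 - x))
  have h9 : (C + |l| + 1) * (1 - x) < ε / 4 := by
    rw [lt_div_iff₀ (by positivity)] at hx4
    linarith
  nlinarith [abs_nonneg l]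

theorem poisson_hasSum (u : ℝ) : HasSum (fun n : ℕ => Real.exp (-u) * u ^ n / n.factorial) 1 := by
  have h := (NormedSpace.expSeries_div_hasSum_exp (𝔸 := ℝ) u).mul_left (Real.exp (-u))
  rw [← Real.exp_eq_exp_ℝ, ← Real.exp_add, neg_add_cancel, Real.exp_zero] at h
  have h2 : (fun n : ℕ => Real.exp (-u) * u ^ n / n.factorial) =
      fun n : ℕ => Real.exp (-u) * (u ^ n / n.factorial) := by
    ext n; ring
  rw [h2]
  exact h

theorem poisson_hasSum_mul (u : ℝ) :
    HasSum (fun n : ℕ => Real.exp (-u) * u ^ n / n.factorial * n) u := by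
  rw [← hasSum_nat_add_iff' 1]
  have h := (poisson_hasSum u).mul_left u
  simp only [Finset.range_one, Finset.sum_singleton, Nat.cast_zero, mul_zero, sub_zero]
  rw [mul_one] at h
  have h2 : (fun n : ℕ => Real.exp (-u) * u ^ (n + 1) / (n + 1).factorial * ((n + 1 : ℕ) : ℝ)) =
      fun n : ℕ => u * (Real.exp (-u) * u ^ n / n.factorial) := by
    ext n
    rw [Nat.factorial_succ]
    have : (n.factorial : ℝ) ≠ 0 := by exact_mod_cast n.factorial_ne_zero
    have h3 : ((n : ℝ) + 1) ≠ 0 := by positivity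
    push_cast
    field_simp
    ring
  rw [h2]
  exact h

theorem poisson_limit (a : ℕ → ℝ) (l : ℝ) (h : Tendsto (fun n : ℕ => a n / n) atTop (𝓝 l)) :
    Tendsto (fun u : ℝ => (∑' n : ℕ, Real.exp (-u) * u ^ n / n.factorial * a n) / u) atTop
      (𝓝 l) := by
  rw [Metric.tendsto_atTop]
  intro ε hε
  obtain ⟨C, hC, hb⟩ := linear_bound a l h (ε / 4) (by linarith)
  refine ⟨max 1 (4 * C / ε + 1), fun u hu => ?_⟩
  have hu1 : 1 ≤ u := (le_max_left _ _).trans hu
  have hu2 : 4 * C / ε + 1 ≤ u := (le_max_right _ _).trans hu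
  have hu0 : 0 < u := by linarith
  have hw : ∀ n : ℕ, 0 ≤ Real.exp (-u) * u ^ n / n.factorial := fun n => by positivity
  have hs0 := poisson_hasSum u
  have hs1 := poisson_hasSum_mul u
  have hg : HasSum (fun n : ℕ => ε / 4 * (Real.exp (-u) * u ^ n / n.factorial * n) +
      C * (Real.exp (-u) * u ^ n / n.factorial)) (ε / 4 * u + C * 1) :=
    (hs1.mul_left _).add (hs0.mul_left _)
  have hbd : ∀ n : ℕ, ‖Real.exp (-u) * u ^ n / n.factorial * (a n - l * n)‖ ≤
      ε / 4 * (Real.exp (-u) * u ^ n / n.factorial * n) +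
      C * (Real.exp (-u) * u ^ n / n.factorial) := by
    intro n
    rw [Real.norm_eq_abs, abs_mul, abs_of_nonneg (hw n)]
    have := mul_le_mul_of_nonneg_left (hb n) (hw n)
    linarith
  have hs3 : Summable fun n : ℕ => Real.exp (-u) * u ^ n / n.factorial * (a n - l * n) :=
    Summable.of_norm_bounded hg.summable hbd
  have h3 : ∑' n : ℕ, Real.exp (-u) * u ^ n / n.factorial * a n =
      ∑' n : ℕ, Real.exp (-u) * u ^ n / n.factorial * (a n - l * n) + l * u := by
    have h7 : l * u = ∑' n : ℕ, l * (Real.exp (-u) * u ^ n / n.factorial * n) := by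
      rw [tsum_mul_left, hs1.tsum_eq]
    rw [h7, ← hs3.tsum_add (hs1.summable.mul_left l)]
    apply tsum_congr
    intro n
    ring
  have h4 := tsum_of_norm_bounded hg hbd
  rw [Real.norm_eq_abs] at h4
  rw [Real.dist_eq, h3]
  have h5 : (∑' n : ℕ, Real.exp (-u) * u ^ n / n.factorial * (a n - l * n) + l * u) / u - l =
      (∑' n : ℕ, Real.exp (-u) * u ^ n / n.factorial * (a n - l * n)) / u := by
    field_simp
    ring
  rw [h5, abs_div, abs_of_pos hu0, div_lt_iff₀ hu0]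
  have h6 : C < ε / 4 * u := by
    have : 4 * C / ε < u := by linarith
    rw [div_lt_iff₀ hε] at this
    linarith
  nlinarith

end Pool.Agent.R986.CoxSpeed
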