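import Mathlib

/-!
# Convexity of `r ↦ ⟪φ_r, (λ + A_r)⁻¹ φ_r⟫`
-/

set_option autoImplicit false

open Filter Topology
open scoped InnerProductSpace

namespace Pool.Agent.R986.CoxSpeed

section Hilb

variable {B : Type*} [Fintype B] {H : Type*} [NormedAddCommGroup H] [InnerProductSpace ℝ H]
  (V : B → H →L[ℝ] H) (e : B → H)

/-- the weighted sum of the operators -/
noncomputable def Kop (r : B → ℝ) : H →L[ℝ] H := ∑ s, r s • V s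

/-- the weighted sum of the vectors -/
noncomputable def phi (r : B → ℝ) : H := ∑ s, (2 * r s) • e s

/-- the resolvent series -/
noncomputable def Jser (l : ℝ) (r : B → ℝ) : ℝ :=
  ∑' n : ℕ, ((l + ∑ s, r s) ^ (n + 1))⁻¹ * ⟪phi e r, (Kop V r ^ n) (phi e r)⟫_ℝ

theorem norm_Kop_le (hn : ∀ s x, ‖V s x‖ ≤ ‖x‖) (r : B → ℝ) (hr : ∀ s, 0 ≤ r s) :
    ‖Kop V r‖ ≤ ∑ s, r s := by
  unfold Kop
  refine (norm_sum_le _ _).trans (Finset.sum_le_sum fun s _ => ?_)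
  rw [norm_smul, Real.norm_eq_abs, abs_of_nonneg (hr s)]
  have : ‖V s‖ ≤ 1 := by
    apply ContinuousLinearMap.opNorm_le_bound _ zero_le_one
    intro x
    rw [one_mul]
    exact hn s x
  calc r s * ‖V s‖ ≤ r s * 1 := mul_le_mul_of_nonneg_left this (hr s)
    _ = r s := mul_one _

theorem Kop_symm (hs : ∀ s x y, ⟪V s x, y⟫_ℝ = ⟪x, V s y⟫_ℝ) (r : B → ℝ) (x y : H) :
    ⟪Kop V r x, y⟫_ℝ = ⟪x, Kop V r y⟫_ℝ := by
  unfold Kop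
  simp only [_root_.sum_apply, _root_.smul_apply, sum_inner, inner_sum,
    inner_smul_left, inner_smul_right, hs]
  simp

theorem Kop_quad_le (hn : ∀ s x, ‖V s x‖ ≤ ‖x‖) (r : B → ℝ) (hr : ∀ s, 0 ≤ r s) (x : H) :
    ⟪Kop V r x, x⟫_ℝ ≤ (∑ s, r s) * ⟪x, x⟫_ℝ := by
  refine (real_inner_le_norm _ _).trans ?_
  rw [real_inner_self_eq_norm_sq]
  have h1 : ‖Kop V r x‖ ≤ (∑ s, r s) * ‖x‖ :=
    ((Kop V r).le_opNorm x).trans
      (mul_le_mul_of_nonneg_right (norm_Kop_le V hn r hr) (norm_nonneg _))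
  calc ‖Kop V r x‖ * ‖x‖ ≤ (∑ s, r s) * ‖x‖ * ‖x‖ :=
        mul_le_mul_of_nonneg_right h1 (norm_nonneg _)
    _ = (∑ s, r s) * ‖x‖ ^ 2 := by ring

theorem exists_sol [CompleteSpace H] (hn : ∀ s x, ‖V s x‖ ≤ ‖x‖) (r : B → ℝ)
    (hr : ∀ s, 0 ≤ r s) (l : ℝ) (hl : 0 < l) :
    ∃ g : H, (l + ∑ s, r s) • g - Kop V r g = phi e r ∧
      HasSum (fun n : ℕ => ((l + ∑ s, r s) ^ (n + 1))⁻¹ *
        ⟪phi e r, (Kop V r ^ n) (phi e r)⟫_ℝ) ⟪phi e r, g⟫_ℝ := by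
  have hR : 0 ≤ ∑ s, r s := Finset.sum_nonneg fun s _ => hr s
  set c := l + ∑ s, r s with hc
  have hc0 : 0 < c := by linarith
  set X : H →L[ℝ] H := c⁻¹ • Kop V r with hX
  have hXn : ‖X‖ < 1 := by
    rw [hX, norm_smul, Real.norm_eq_abs, abs_of_pos (inv_pos.2 hc0)]
    calc c⁻¹ * ‖Kop V r‖ ≤ c⁻¹ * ∑ s, r s :=
          mul_le_mul_of_nonneg_left (norm_Kop_le V hn r hr) (inv_pos.2 hc0).le
      _ < c⁻¹ * c := mul_lt_mul_of_pos_left (by linarith) (inv_pos.2 hc0)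
      _ = 1 := inv_mul_cancel₀ hc0.ne'
  have hG := (summable_geometric_of_norm_lt_one (K := H →L[ℝ] H) hXn).hasSum
  have hinv := mul_neg_geom_series X hXn
  set G := ∑' n : ℕ, X ^ n with hGdef
  refine ⟨c⁻¹ • G (phi e r), ?_, ?_⟩
  · have h1 := congrArg (fun A : H →L[ℝ] H => A (phi e r)) hinv
    simp only [ContinuousLinearMap.mul_apply, ContinuousLinearMap.sub_apply,
      ContinuousLinearMap.one_apply] at h1
    rw [smul_smul, mul_inv_cancel₀ hc0.ne', one_smul, map_smul]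
    have h2 : X (G (phi e r)) = c⁻¹ • (Kop V r) (G (phi e r)) := by
      rw [hX]; rfl
    rw [← h2]
    exact h1
  · have h1 : HasSum (fun n : ℕ => (X ^ n) (phi e r)) (G (phi e r)) :=
      (ContinuousLinearMap.apply ℝ H (phi e r)).hasSum hG
    have h2 := ((innerSL ℝ (phi e r)).hasSum h1).mul_left c⁻¹
    have h3 : ∀ n : ℕ, c⁻¹ * (innerSL ℝ (phi e r)) ((X ^ n) (phi e r)) =
        (c ^ (n + 1))⁻¹ * ⟪phi e r, (Kop V r ^ n) (phi e r)⟫_ℝ := by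
      intro n
      rw [hX, smul_pow, innerSL_apply_apply, ContinuousLinearMap.smul_apply, inner_smul_right,
        ← mul_assoc, pow_succ', mul_inv, inv_pow]
    have h4 : c⁻¹ * (innerSL ℝ (phi e r)) (G (phi e r)) = ⟪phi e r, c⁻¹ • G (phi e r)⟫_ℝ := by
      rw [innerSL_apply_apply, inner_smul_right]
    rw [← h4]
    simp only [h3] at h2
    exact h2

/-- the variational inequality -/
theorem var_le (hn : ∀ s x, ‖V s x‖ ≤ ‖x‖) (hs : ∀ s x y, ⟪V s x, y⟫_ℝ = ⟪x, V s y⟫_ℝ)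
    (r : B → ℝ) (hr : ∀ s, 0 ≤ r s) (l : ℝ) (hl : 0 < l) (g h : H)
    (hg : (l + ∑ s, r s) • g - Kop V r g = phi e r) :
    2 * ⟪phi e r, h⟫_ℝ - ((l + ∑ s, r s) * ⟪h, h⟫_ℝ - ⟪Kop V r h, h⟫_ℝ) ≤ ⟪phi e r, g⟫_ℝ := by
  have h1 := Kop_quad_le V hn r hr (g - h)
  have h2 : 0 ≤ ⟪g - h, g - h⟫_ℝ := real_inner_self_nonneg
  have h3 : ⟪Kop V r (g - h), g - h⟫_ℝ ≤ (l + ∑ s, r s) * ⟪g - h, g - h⟫_ℝ := by nlinarith
  set c := l + ∑ s, r s with hc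
  have e1 : ⟪g - h, g - h⟫_ℝ = ⟪g, g⟫_ℝ - 2 * ⟪g, h⟫_ℝ + ⟪h, h⟫_ℝ := by
    rw [inner_sub_left, inner_sub_right, inner_sub_right, real_inner_comm g h]
    ring
  have e2 : ⟪Kop V r (g - h), g - h⟫_ℝ =
      ⟪Kop V r g, g⟫_ℝ - 2 * ⟪Kop V r g, h⟫_ℝ + ⟪Kop V r h, h⟫_ℝ := by
    rw [map_sub, inner_sub_left, inner_sub_right, inner_sub_right, Kop_symm V hs r h g,
      real_inner_comm (Kop V r g) h]
    ring
  have e3 : ∀ x, ⟪phi e r, x⟫_ℝ = c * ⟪g, x⟫_ℝ - ⟪Kop V r g, x⟫_ℝ := by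
    intro x
    rw [← hg, inner_sub_left, real_inner_smul_left]
  rw [e1, e2] at h3
  rw [e3 h, e3 g]
  linarith

theorem Jser_convex [CompleteSpace H] (hn : ∀ s x, ‖V s x‖ ≤ ‖x‖)
    (hs : ∀ s x y, ⟪V s x, y⟫_ℝ = ⟪x, V s y⟫_ℝ) (r r₁ r₂ : B → ℝ) (h1 : ∀ s, 0 ≤ r₁ s)
    (h2 : ∀ s, 0 ≤ r₂ s) (a b : ℝ) (ha : 0 ≤ a) (hb : 0 ≤ b) (hab : a + b = 1)
    (hr : ∀ s, r s = a * r₁ s + b * r₂ s) (l : ℝ) (hl : 0 < l) :
    Jser V e l r ≤ a * Jser V e l r₁ + b * Jser V e l r₂ := by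
  have h0 : ∀ s, 0 ≤ r s := fun s => by
    rw [hr s]; exact add_nonneg (mul_nonneg ha (h1 s)) (mul_nonneg hb (h2 s))
  obtain ⟨g, hg, hgs⟩ := exists_sol V e hn r h0 l hl
  obtain ⟨g₁, hg₁, hgs₁⟩ := exists_sol V e hn r₁ h1 l hl
  obtain ⟨g₂, hg₂, hgs₂⟩ := exists_sol V e hn r₂ h2 l hl
  have k1 := var_le V e hn hs r₁ h1 l hl g₁ g hg₁
  have k2 := var_le V e hn hs r₂ h2 l hl g₂ g hg₂
  unfold Jser
  rw [hgs.tsum_eq, hgs₁.tsum_eq, hgs₂.tsum_eq]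
  have hphi : phi e r = a • phi e r₁ + b • phi e r₂ := by
    unfold phi
    rw [Finset.smul_sum, Finset.smul_sum, ← Finset.sum_add_distrib]
    apply Finset.sum_congr rfl
    intro s _
    rw [hr s, smul_smul, smul_smul, ← add_smul]
    congr 1
    ring
  have hK : Kop V r g = a • Kop V r₁ g + b • Kop V r₂ g := by
    unfold Kop
    simp only [_root_.sum_apply, _root_.smul_apply]
    rw [Finset.smul_sum, Finset.smul_sum, ← Finset.sum_add_distrib]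
    apply Finset.sum_congr rfl
    intro s _
    rw [hr s, smul_smul, smul_smul, ← add_smul]
  have hsum : ∑ s, r s = a * ∑ s, r₁ s + b * ∑ s, r₂ s := by
    rw [Finset.mul_sum, Finset.mul_sum, ← Finset.sum_add_distrib]
    exact Finset.sum_congr rfl fun s _ => hr s
  have e1 : ⟪phi e r, g⟫_ℝ = (l + ∑ s, r s) * ⟪g, g⟫_ℝ - ⟪Kop V r g, g⟫_ℝ := by
    nth_rewrite 1 [← hg]
    rw [inner_sub_left, real_inner_smul_left]
  have e2 : ⟪phi e r, g⟫_ℝ = a * ⟪phi e r₁, g⟫_ℝ + b * ⟪phi e r₂, g⟫_ℝ := by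
    rw [hphi, inner_add_left, real_inner_smul_left, real_inner_smul_left]
  have e3 : ⟪Kop V r g, g⟫_ℝ = a * ⟪Kop V r₁ g, g⟫_ℝ + b * ⟪Kop V r₂ g, g⟫_ℝ := by
    rw [hK, inner_add_left, real_inner_smul_left, real_inner_smul_left]
  have e4 : ⟪phi e r, g⟫_ℝ = a * (2 * ⟪phi e r₁, g⟫_ℝ - ((l + ∑ s, r₁ s) * ⟪g, g⟫_ℝ -
      ⟪Kop V r₁ g, g⟫_ℝ)) + b * (2 * ⟪phi e r₂, g⟫_ℝ - ((l + ∑ s, r₂ s) * ⟪g, g⟫_ℝ -
      ⟪Kop V r₂ g, g⟫_ℝ)) := by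
    have hl : l = a * l + b * l := by rw [← add_mul, hab, one_mul]
    have e5 : ⟪phi e r, g⟫_ℝ = 2 * ⟪phi e r, g⟫_ℝ - ((l + ∑ s, r s) * ⟪g, g⟫_ℝ -
      ⟪Kop V r g, g⟫_ℝ) := by linarith
    rw [e5, e2, e3, hsum]
    nth_rewrite 1 [hl]
    ring
  rw [e4]
  exact add_le_add (mul_le_mul_of_nonneg_left k1 ha) (mul_le_mul_of_nonneg_left k2 hb)

end Hilb

end Pool.Agent.R986.CoxSpeed
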