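import Pool.Agent.Helper376.LC.Cox
import Pool.Agent.R986.SpeedAna
import Pool.Agent.R986.SpeedHilb

/-!
# Random walks on Coxeter groups: the mean length and the action on functions of reflections
-/

set_option autoImplicit false

open Filter Topology
open scoped InnerProductSpace

namespace Pool.Agent.R986.CoxSpeed

open Pool.Agent.Helper376.LC

variable {B : Type*} [Fintype B] {M : CoxeterMatrix B} {W : Type*} [Group W]
  (cs : CoxeterSystem M W)

/-- The sum over all words `s_1 ... s_n` of `r_{s_1} ... r_{s_n} f (s_1 ... s_n)`. -/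
noncomputable def wsum (r : B → ℝ) (n : ℕ) (f : W → ℝ) : ℝ :=
  ∑ v : Fin n → B, (∏ i, r (v i)) * f (cs.wordProd (List.ofFn v))

theorem wsum_zero (r : B → ℝ) (f : W → ℝ) : wsum cs r 0 f = f 1 := by
  simp [wsum]

theorem wsum_succ_left (r : B → ℝ) (n : ℕ) (f : W → ℝ) :
    wsum cs r (n + 1) f = ∑ s, r s * wsum cs r n (fun w => f (cs.simple s * w)) := by
  unfold wsum
  rw [← (Fin.consEquiv fun _ : Fin (n + 1) => B).sum_comp, Fintype.sum_prod_type]
  apply Finset.sum_congr rfl
  intro s _
  rw [Finset.mul_sum]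
  apply Finset.sum_congr rfl
  intro v _
  rw [Fin.prod_univ_succ, List.ofFn_succ, cs.wordProd_cons]
  simp [Fin.consEquiv, mul_assoc]

theorem wsum_succ_right (r : B → ℝ) (n : ℕ) (f : W → ℝ) :
    wsum cs r (n + 1) f = ∑ s, r s * wsum cs r n (fun w => f (w * cs.simple s)) := by
  unfold wsum
  rw [← (Fin.snocEquiv fun _ : Fin (n + 1) => B).sum_comp, Fintype.sum_prod_type]
  apply Finset.sum_congr rfl
  intro s _
  rw [Finset.mul_sum]
  apply Finset.sum_congr rfl
  intro v _
  rw [Fin.prod_univ_castSucc, List.ofFn_succ_last, cs.wordProd_append, cs.wordProd_singleton]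
  simp [Fin.snocEquiv, mul_comm, mul_left_comm]

theorem wsum_add (r : B → ℝ) (n : ℕ) (f g : W → ℝ) :
    wsum cs r n (fun w => f w + g w) = wsum cs r n f + wsum cs r n g := by
  unfold wsum
  rw [← Finset.sum_add_distrib]
  exact Finset.sum_congr rfl fun v _ => by ring

theorem wsum_mul (r : B → ℝ) (n : ℕ) (c : ℝ) (f : W → ℝ) :
    wsum cs r n (fun w => c * f w) = c * wsum cs r n f := by
  unfold wsum
  rw [Finset.mul_sum]
  exact Finset.sum_congr rfl fun v _ => by ring

theorem wsum_sum {ι : Type*} (t : Finset ι) (r : B → ℝ) (n : ℕ) (f : ι → W → ℝ) :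
    wsum cs r n (fun w => ∑ i ∈ t, f i w) = ∑ i ∈ t, wsum cs r n (f i) := by
  unfold wsum
  rw [Finset.sum_comm]
  exact Finset.sum_congr rfl fun v _ => by rw [Finset.mul_sum]

theorem wsum_const (r : B → ℝ) (n : ℕ) (c : ℝ) :
    wsum cs r n (fun _ => c) = (∑ s, r s) ^ n * c := by
  induction n with
  | zero => simp [wsum_zero]
  | succ n ih =>
    rw [wsum_succ_left, ih, ← Finset.sum_mul, pow_succ']
    ring

theorem wsum_mono (r : B → ℝ) (hr : ∀ s, 0 ≤ r s) (n : ℕ) (f g : W → ℝ) (h : ∀ w, f w ≤ g w) :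
    wsum cs r n f ≤ wsum cs r n g :=
  Finset.sum_le_sum fun v _ => mul_le_mul_of_nonneg_left (h _)
    (Finset.prod_nonneg fun i _ => hr (v i))

theorem wsum_abs_le (r : B → ℝ) (hr : ∀ s, 0 ≤ r s) (n : ℕ) (f : W → ℝ) (C : ℝ)
    (h : ∀ w, |f w| ≤ C) : |wsum cs r n f| ≤ (∑ s, r s) ^ n * C := by
  rw [abs_le]
  constructor
  · have := wsum_mono cs r hr n (fun _ => -C) f (fun w => (abs_le.1 (h w)).1)
    rw [wsum_const] at this
    linarith
  · have := wsum_mono cs r hr n f (fun _ => C) (fun w => (abs_le.1 (h w)).2)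
    rwa [wsum_const] at this

theorem wsum_comp (r : B → ℝ) (m n : ℕ) (f : W → ℝ) :
    wsum cs r (m + n) f = wsum cs r m (fun w => wsum cs r n (fun w' => f (w * w'))) := by
  induction m generalizing f with
  | zero => simp [wsum_zero]
  | succ m ih =>
    rw [show m + 1 + n = (m + n) + 1 by ring, wsum_succ_left, wsum_succ_left]
    apply Finset.sum_congr rfl
    intro s _
    rw [ih]
    simp only [mul_assoc]

theorem wsum_scale (r : B → ℝ) (c : ℝ) (n : ℕ) (f : W → ℝ) :
    wsum cs (fun s => c * r s) n f = c ^ n * wsum cs r n f := by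
  unfold wsum
  rw [Finset.mul_sum]
  apply Finset.sum_congr rfl
  intro v _
  rw [Finset.prod_mul_distrib]
  simp [mul_assoc]

/-! ### Signs -/

open Classical in
/-- the side of the wall `t` on which `w` lies -/
noncomputable def sgn (t w : W) : ℝ := if t ∈ Ninv cs w then -1 else 1

theorem sgn_one (t : W) : sgn cs t 1 = 1 := by
  unfold sgn
  rw [Ninv_one', if_neg (Set.notMem_empty _)]

theorem abs_sgn (t w : W) : |sgn cs t w| = 1 := by
  unfold sgn
  split_ifs <;> simp

theorem length_mul_left (s : B) (w : W) :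
    (cs.length (cs.simple s * w) : ℝ) = cs.length w + sgn cs (cs.simple s) w := by
  unfold sgn
  rw [simple_mem_Ninv', CoxeterSystem.IsLeftDescent]
  rcases cs.length_simple_mul w s with h | h
  · rw [if_neg (by omega), h]
    push_cast
    ring
  · rw [if_pos (by omega), ← h]
    push_cast
    ring

open Classical in
theorem sgn_mul_right (t w : W) (s : B) :
    sgn cs t (w * cs.simple s) = sgn cs t w * (if w⁻¹ * t * w = cs.simple s then -1 else 1) := by
  have h : w⁻¹ * t * w = cs.simple s ↔ t = w * cs.simple s * w⁻¹ := by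
    constructor
    · intro h
      rw [← h]; group
    · intro h
      rw [h]; group
  unfold sgn
  simp only [mem_Ninv_mul_simple', h]
  by_cases h1 : t ∈ Ninv cs w <;> by_cases h2 : t = w * cs.simple s * w⁻¹ <;> simp [h1, h2] <;>
    simp_all

/-! ### The operators on `ℓ²(W)` -/

/-- the Hilbert space -/
abbrev HW (W : Type*) : Type _ := lp (fun _ : W => ℝ) 2

/-- conjugation by a simple reflection as a permutation -/
def conjE (s : B) : W ≃ W where
  toFun t := cs.simple s * t * cs.simple s
  invFun t := cs.simple s * t * cs.simple s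
  left_inv t := by simp [mul_assoc]
  right_inv t := by simp [mul_assoc]

open Classical in
/-- the sign of the operator `V_s` -/
noncomputable def th (s : B) (t : W) : ℝ := if t = cs.simple s then -1 else 1

theorem th_sq (s : B) (t : W) : th cs s t * th cs s t = 1 := by
  unfold th; split_ifs <;> norm_num

open Classical in
theorem th_conj (s : B) (t : W) : th cs s (conjE cs s t) = th cs s t := by
  have h : (cs.simple s * t * cs.simple s = cs.simple s) ↔ t = cs.simple s := by
    constructor
    · intro h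
      have h2 := congrArg (fun x => cs.simple s * x * cs.simple s) h
      simpa [mul_assoc] using h2
    · rintro rfl
      simp
  show (if cs.simple s * t * cs.simple s = cs.simple s then (-1 : ℝ) else 1) =
    if t = cs.simple s then -1 else 1
  by_cases ht : t = cs.simple s
  · rw [if_pos (h.2 ht), if_pos ht]
  · rw [if_neg (fun x => ht (h.1 x)), if_neg ht]

theorem abs_th (s : B) (t : W) : |th cs s t| = 1 := by
  unfold th; split_ifs <;> simp

theorem memlp_V (s : B) (F : HW W) :
    Memℓp (fun t => th cs s t * F (conjE cs s t) : W → ℝ) 2 := by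
  have h2 : (0 : ℝ) < (2 : ENNReal).toReal := by norm_num
  rw [memℓp_gen_iff h2]
  have h := (memℓp_gen_iff h2).1 (lp.memℓp F)
  have h3 := (conjE cs s).summable_iff.2 h
  refine h3.congr fun t => ?_
  simp only [Function.comp_apply, norm_mul, Real.norm_eq_abs, abs_th, one_mul]

/-- the operator `V_s` as a linear map -/
noncomputable def VL (s : B) : HW W →ₗ[ℝ] HW W where
  toFun F := ⟨fun t => th cs s t * F (conjE cs s t), memlp_V cs s F⟩
  map_add' F G := by
    ext t
    show th cs s t * (F + G) (conjE cs s t) = th cs s t * F (conjE cs s t) +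
      th cs s t * G (conjE cs s t)
    rw [lp.coeFn_add, Pi.add_apply, mul_add]
  map_smul' c F := by
    ext t
    show th cs s t * (c • F) (conjE cs s t) = c * (th cs s t * F (conjE cs s t))
    rw [lp.coeFn_smul, Pi.smul_apply, smul_eq_mul]
    ring

theorem VL_apply (s : B) (F : HW W) (t : W) :
    (VL cs s F : HW W) t = th cs s t * F (conjE cs s t) := rfl

theorem VL_VL (s : B) (F : HW W) : VL cs s (VL cs s F) = F := by
  ext t
  rw [VL_apply, VL_apply, th_conj, ← mul_assoc, th_sq, one_mul]
  exact congrArg (fun x => F x) ((conjE cs s).left_inv t)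

theorem VL_symm (s : B) (F G : HW W) : ⟪VL cs s F, G⟫_ℝ = ⟪F, VL cs s G⟫_ℝ := by
  rw [lp.inner_eq_tsum, lp.inner_eq_tsum, ← (conjE cs s).tsum_eq]
  apply tsum_congr
  intro t
  have h : conjE cs s (conjE cs s t) = t := (conjE cs s).left_inv t
  rw [VL_apply, VL_apply, th_conj, h]
  simp only [RCLike.inner_apply, conj_trivial]
  ring

theorem VL_norm (s : B) (F : HW W) : ‖VL cs s F‖ = ‖F‖ := by
  have h : ‖VL cs s F‖ ^ 2 = ‖F‖ ^ 2 := by
    rw [← real_inner_self_eq_norm_sq, ← real_inner_self_eq_norm_sq, VL_symm, VL_VL]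
  exact (pow_left_inj₀ (norm_nonneg _) (norm_nonneg _) two_ne_zero).1 h

/-- the operator `V_s` -/
noncomputable def VC (s : B) : HW W →L[ℝ] HW W :=
  (VL cs s).mkContinuous 1 fun F => by rw [VL_norm, one_mul]

theorem VC_apply (s : B) (F : HW W) : VC cs s F = VL cs s F := rfl

open Classical in
/-- the basis vector at a simple reflection -/
noncomputable def ev (s : B) : HW W := lp.single 2 (cs.simple s) (1 : ℝ)

open Classical in
theorem ev_apply (s : B) (t : W) : (ev cs s : HW W) t = if t = cs.simple s then 1 else 0 := by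
  unfold ev
  rw [lp.single_apply, Pi.single_apply]

open Classical in
theorem inner_ev (s : B) (F : HW W) : ⟪ev cs s, F⟫_ℝ = F (cs.simple s) := by
  unfold ev
  rw [lp.inner_single_left]
  simp

theorem Kop_apply (r : B → ℝ) (F : HW W) (t : W) :
    (Kop (VC cs) r F : HW W) t = ∑ s, r s * (th cs s t * F (conjE cs s t)) := by
  unfold Kop
  rw [_root_.sum_apply, lp.coeFn_sum, Finset.sum_apply]
  rfl

theorem sgn_mul_right' (t w : W) (s : B) :
    sgn cs t (w * cs.simple s) = sgn cs t w * th cs s (w⁻¹ * t * w) := by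
  rw [sgn_mul_right]
  rfl

/-- matrix coefficients of the powers of `K` -/
theorem Kop_pow_apply (r : B → ℝ) (n : ℕ) (F : HW W) (t : W) :
    ((Kop (VC cs) r ^ n) F : HW W) t = wsum cs r n (fun w => sgn cs t w * F (w⁻¹ * t * w)) := by
  induction n generalizing F with
  | zero => simp [wsum_zero, sgn_one]
  | succ n ih =>
    have h1 : (Kop (VC cs) r ^ (n + 1)) F = (Kop (VC cs) r ^ n) (Kop (VC cs) r F) := by
      rw [pow_succ]; rfl
    rw [h1, ih, wsum_succ_right]
    simp only [Kop_apply]
    have h2 : ∀ w : W, sgn cs t w * ∑ s, r s * (th cs s (w⁻¹ * t * w) *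
        F (conjE cs s (w⁻¹ * t * w))) =
        ∑ s, r s * (sgn cs t (w * cs.simple s) *
          F ((w * cs.simple s)⁻¹ * t * (w * cs.simple s))) := by
      intro w
      rw [Finset.mul_sum]
      apply Finset.sum_congr rfl
      intro s _
      rw [sgn_mul_right']
      have h3 : conjE cs s (w⁻¹ * t * w) = (w * cs.simple s)⁻¹ * t * (w * cs.simple s) := by
        show cs.simple s * (w⁻¹ * t * w) * cs.simple s = _
        rw [mul_inv_rev, cs.inv_simple]
        simp only [mul_assoc]
      rw [h3]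
      ring
    simp only [h2]
    rw [wsum_sum]
    apply Finset.sum_congr rfl
    intro s _
    rw [wsum_mul]

/-! ### The recursions -/

/-- the length as a real function -/
noncomputable def len (w : W) : ℝ := cs.length w

/-- the mean drift -/
noncomputable def Dn (r : B → ℝ) (n : ℕ) : ℝ := ∑ s, r s * wsum cs r n (sgn cs (cs.simple s))

theorem A_succ (r : B → ℝ) (n : ℕ) :
    wsum cs r (n + 1) (len cs) = (∑ s, r s) * wsum cs r n (len cs) + Dn cs r n := by
  rw [wsum_succ_left]
  unfold Dn
  rw [Finset.sum_mul, ← Finset.sum_add_distrib]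
  apply Finset.sum_congr rfl
  intro s _
  rw [← mul_add, ← wsum_add]
  congr 2
  ext w
  exact length_mul_left cs s w

theorem phi_apply (r : B → ℝ) (t : W) :
    (phi (ev cs) r : HW W) t = ∑ s, 2 * r s * (ev cs s : HW W) t := by
  unfold phi
  rw [lp.coeFn_sum, Finset.sum_apply]
  rfl

theorem th_eq (s : B) (t : W) : th cs s t = 1 - 2 * (ev cs s : HW W) t := by
  classical
  rw [ev_apply]
  unfold th
  split_ifs <;> norm_num

theorem wsum_sgn_succ (r : B → ℝ) (n : ℕ) (s : B) :
    wsum cs r (n + 1) (sgn cs (cs.simple s)) = (∑ s, r s) * wsum cs r n (sgn cs (cs.simple s)) -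
      ⟪ev cs s, (Kop (VC cs) r ^ n) (phi (ev cs) r)⟫_ℝ := by
  rw [inner_ev, Kop_pow_apply, wsum_succ_right]
  simp only [← wsum_mul, ← wsum_sum]
  rw [eq_sub_iff_add_eq, ← wsum_add]
  congr 1
  ext w
  simp only [sgn_mul_right', th_eq, phi_apply]
  rw [Finset.mul_sum, Finset.sum_mul, ← Finset.sum_add_distrib]
  apply Finset.sum_congr rfl
  intro s' _
  ring

theorem D_succ (r : B → ℝ) (n : ℕ) :
    Dn cs r (n + 1) = (∑ s, r s) * Dn cs r n -
      1 / 2 * ⟪phi (ev cs) r, (Kop (VC cs) r ^ n) (phi (ev cs) r)⟫_ℝ := by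
  have h1 : 1 / 2 * ⟪phi (ev cs) r, (Kop (VC cs) r ^ n) (phi (ev cs) r)⟫_ℝ =
      ∑ s, r s * ⟪ev cs s, (Kop (VC cs) r ^ n) (phi (ev cs) r)⟫_ℝ := by
    generalize (Kop (VC cs) r ^ n) (phi (ev cs) r) = F
    unfold phi
    rw [sum_inner, Finset.mul_sum]
    apply Finset.sum_congr rfl
    intro s _
    rw [real_inner_smul_left]
    ring
  rw [h1]
  unfold Dn
  rw [Finset.mul_sum, ← Finset.sum_sub_distrib]
  apply Finset.sum_congr rfl
  intro s _
  rw [wsum_sgn_succ]
  ring

theorem D_zero (r : B → ℝ) : Dn cs r 0 = ∑ s, r s := by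
  unfold Dn
  simp [wsum_zero, sgn_one]

theorem abs_D_le (r : B → ℝ) (hr : ∀ s, 0 ≤ r s) (n : ℕ) :
    |Dn cs r n| ≤ (∑ s, r s) * (∑ s, r s) ^ n := by
  unfold Dn
  refine (Finset.abs_sum_le_sum_abs _ _).trans ?_
  rw [Finset.sum_mul]
  apply Finset.sum_le_sum
  intro s _
  rw [abs_mul, abs_of_nonneg (hr s)]
  apply mul_le_mul_of_nonneg_left _ (hr s)
  have := wsum_abs_le cs r hr n (sgn cs (cs.simple s)) 1 (fun w => (abs_sgn cs _ w).le)
  rwa [mul_one] at this

theorem abs_A_le (r : B → ℝ) (hr : ∀ s, 0 ≤ r s) (n : ℕ) :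
    |wsum cs r n (len cs)| ≤ n * (∑ s, r s) ^ n := by
  induction n with
  | zero => simp [wsum_zero, len]
  | succ n ih =>
    have hR : 0 ≤ ∑ s, r s := Finset.sum_nonneg fun s _ => hr s
    rw [A_succ]
    refine (abs_add_le _ _).trans ?_
    rw [abs_mul, abs_of_nonneg hR]
    have h1 := abs_D_le cs r hr n
    have h2 := mul_le_mul_of_nonneg_left ih hR
    push_cast
    rw [pow_succ]
    nlinarith

end Pool.Agent.R986.CoxSpeed
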