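import Pool.Agent.R986.SpeedCox

/-!
# The escape speed of random walks on Coxeter groups is concave in the rates
-/

set_option autoImplicit false

open Filter Topology
open scoped InnerProductSpace

namespace Pool.Agent.R986.CoxSpeed

variable {B : Type*} [Fintype B] {M : CoxeterMatrix B} {W : Type*} [Group W]
  (cs : CoxeterSystem M W)

/-- the mean length after `n` jumps -/
noncomputable def an (r : B → ℝ) (n : ℕ) : ℝ := wsum cs (fun s => r s / ∑ s, r s) n (len cs)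

theorem an_eq (r : B → ℝ) (n : ℕ) :
    an cs r n = ((∑ s, r s)⁻¹) ^ n * wsum cs r n (len cs) := by
  unfold an
  rw [← wsum_scale]
  congr 1
  ext s
  rw [div_eq_inv_mul]

theorem Psi_eq (r : B → ℝ) (hr : ∀ s, 0 ≤ r s) (hR : 0 < ∑ s, r s) (l : ℝ) (hl : 0 < l) :
    (∑ s, r s) - 1 / 2 * Jser (VC cs) (ev cs) l r =
      (l + ∑ s, r s) * ((1 - (∑ s, r s) / (l + ∑ s, r s)) ^ 2 *
        ∑' n : ℕ, ((∑ s, r s) / (l + ∑ s, r s)) ^ n * an cs r n) := by
  obtain ⟨g, -, hg⟩ := exists_sol (VC cs) (ev cs) (fun s x => (VL_norm cs s x).le) r hr l hl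
  have hJ : Jser (VC cs) (ev cs) l r = ⟪phi (ev cs) r, g⟫_ℝ := hg.tsum_eq
  rw [← hJ] at hg
  set J := Jser (VC cs) (ev cs) l r with hJdef
  set R := ∑ s, r s with hRdef
  set c := l + R with hc
  have hc0 : 0 < c := by linarith
  set x := R / c with hx
  have hx0 : 0 ≤ x := (div_pos hR hc0).le
  have hx1 : x < 1 := by rw [hx, div_lt_one hc0]; linarith
  have hy : ∀ n : ℕ, R ^ n * (c⁻¹) ^ n = x ^ n := by
    intro n
    rw [hx, ← mul_pow, div_eq_mul_inv]
  have hyn : ∀ n : ℕ, 0 ≤ (c⁻¹) ^ n := fun n => pow_nonneg (inv_pos.2 hc0).le n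
  have sD : Summable fun n : ℕ => (c⁻¹) ^ n * Dn cs r n := by
    apply Summable.of_norm_bounded (g := fun n : ℕ => R * x ^ n)
      ((summable_geometric_of_lt_one hx0 hx1).mul_left R)
    intro n
    rw [Real.norm_eq_abs, abs_mul, abs_of_nonneg (hyn n)]
    calc (c⁻¹) ^ n * |Dn cs r n| ≤ (c⁻¹) ^ n * (R * R ^ n) :=
          mul_le_mul_of_nonneg_left (abs_D_le cs r hr n) (hyn n)
      _ = R * x ^ n := by rw [← hy]; ring
  have sA : Summable fun n : ℕ => (c⁻¹) ^ n * wsum cs r n (len cs) := by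
    apply Summable.of_norm_bounded (g := fun n : ℕ => (n : ℝ) * x ^ n)
      (hasSum_nat_pow x hx0 hx1).summable
    intro n
    rw [Real.norm_eq_abs, abs_mul, abs_of_nonneg (hyn n)]
    calc (c⁻¹) ^ n * |wsum cs r n (len cs)| ≤ (c⁻¹) ^ n * (n * R ^ n) :=
          mul_le_mul_of_nonneg_left (abs_A_le cs r hr n) (hyn n)
      _ = n * x ^ n := by rw [← hy]; ring
  have h1 : ∑' n : ℕ, x ^ n * an cs r n = ∑' n : ℕ, (c⁻¹) ^ n * wsum cs r n (len cs) := by
    apply tsum_congr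
    intro n
    rw [an_eq, ← hy, ← hRdef]
    have : R ^ n * (R⁻¹) ^ n = 1 := by rw [← mul_pow, mul_inv_cancel₀ hR.ne', one_pow]
    linear_combination (c⁻¹ ^ n * wsum cs r n (len cs)) * this
  rw [h1]
  set SA := ∑' n : ℕ, (c⁻¹) ^ n * wsum cs r n (len cs) with hSA
  set SD := ∑' n : ℕ, (c⁻¹) ^ n * Dn cs r n with hSD
  have hA : SA = x * SA + c⁻¹ * SD := by
    have e1 : SA = wsum cs r 0 (len cs) + ∑' n : ℕ, (c⁻¹) ^ (n + 1) * wsum cs r (n + 1) (len cs) := by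
      rw [hSA, sA.tsum_eq_zero_add, pow_zero, one_mul]
    have e0 : wsum cs r 0 (len cs) = 0 := by simp [wsum_zero, len]
    rw [e0, zero_add] at e1
    have e2 : ∀ n : ℕ, (c⁻¹) ^ (n + 1) * wsum cs r (n + 1) (len cs) =
        x * ((c⁻¹) ^ n * wsum cs r n (len cs)) + c⁻¹ * ((c⁻¹) ^ n * Dn cs r n) := by
      intro n
      rw [A_succ, ← hRdef, hx, div_eq_mul_inv]
      ring
    simp only [e2] at e1
    rw [(sA.mul_left x).tsum_add (sD.mul_left c⁻¹), tsum_mul_left, tsum_mul_left] at e1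
    exact e1
  have hD : SD = R + (x * SD - 1 / 2 * J) := by
    have e1 : SD = Dn cs r 0 + ∑' n : ℕ, (c⁻¹) ^ (n + 1) * Dn cs r (n + 1) := by
      rw [hSD, sD.tsum_eq_zero_add, pow_zero, one_mul]
    rw [D_zero, ← hRdef] at e1
    have e2 : ∀ n : ℕ, (c⁻¹) ^ (n + 1) * Dn cs r (n + 1) =
        x * ((c⁻¹) ^ n * Dn cs r n) - 1 / 2 * ((c ^ (n + 1))⁻¹ *
          ⟪phi (ev cs) r, (Kop (VC cs) r ^ n) (phi (ev cs) r)⟫_ℝ) := by
      intro n
      rw [D_succ, ← hRdef, hx, div_eq_mul_inv, ← inv_pow]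
      ring
    simp only [e2] at e1
    rw [(sD.mul_left x).tsum_sub (hg.summable.mul_left (1 / 2)), tsum_mul_left, tsum_mul_left,
      hg.tsum_eq] at e1
    exact e1
  have h2 : R - 1 / 2 * J = (1 - x) * SD := by linarith
  have h3 : SD = c * ((1 - x) * SA) := by
    have : c⁻¹ * SD = (1 - x) * SA := by linarith
    rw [← this, ← mul_assoc, mul_inv_cancel₀ hc0.ne', one_mul]
  rw [h2, h3]
  ring

/-! ### The limit -/

theorem an_subadditive (r : B → ℝ) (hr : ∀ s, 0 ≤ r s) (hR : 0 < ∑ s, r s) :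
    Subadditive (an cs r) := by
  intro m n
  have hp : ∀ s, 0 ≤ r s / ∑ s, r s := fun s => div_nonneg (hr s) hR.le
  have hsum : ∑ s, r s / ∑ s, r s = 1 := by
    rw [← Finset.sum_div, div_self hR.ne']
  unfold an
  rw [wsum_comp]
  refine (wsum_mono cs _ hp m _ (fun w => len cs w +
    wsum cs (fun s => r s / ∑ s, r s) n (len cs)) fun w => ?_).trans ?_
  · refine (wsum_mono cs _ hp n _ (fun w' => len cs w + len cs w') fun w' => ?_).trans ?_
    · have := cs.length_mul_le w w'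
      unfold len
      exact_mod_cast this
    · rw [wsum_add, wsum_const, hsum, one_pow, one_mul]
  · rw [wsum_add, wsum_const, hsum, one_pow, one_mul]

theorem an_nonneg (r : B → ℝ) (hr : ∀ s, 0 ≤ r s) (n : ℕ) : 0 ≤ an cs r n := by
  have hR : 0 ≤ ∑ s, r s := Finset.sum_nonneg fun s _ => hr s
  have := wsum_mono cs (fun s => r s / ∑ s, r s) (fun s => div_nonneg (hr s) hR) n
    (fun _ => 0) (len cs) (fun w => by unfold len; positivity)
  rw [wsum_const, mul_zero] at this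
  exact this

/-- the speed of the jump chain -/
noncomputable def speedJ (r : B → ℝ) : ℝ := limUnder atTop fun n : ℕ => an cs r n / n

theorem tendsto_an (r : B → ℝ) (hr : ∀ s, 0 ≤ r s) (hR : 0 < ∑ s, r s) :
    Tendsto (fun n : ℕ => an cs r n / n) atTop (𝓝 (speedJ cs r)) := by
  unfold speedJ
  apply tendsto_nhds_limUnder
  refine ⟨_, (an_subadditive cs r hr hR).tendsto_lim ?_⟩
  refine ⟨0, ?_⟩
  rintro _ ⟨n, rfl⟩
  exact div_nonneg (an_nonneg cs r hr n) (Nat.cast_nonneg n)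

theorem tendsto_Psi (r : B → ℝ) (hr : ∀ s, 0 ≤ r s) (hR : 0 < ∑ s, r s) :
    Tendsto (fun l : ℝ => (∑ s, r s) - 1 / 2 * Jser (VC cs) (ev cs) l r) (𝓝[>] 0)
      (𝓝 ((∑ s, r s) * speedJ cs r)) := by
  have h1 : Tendsto (fun l : ℝ => (∑ s, r s) / (l + ∑ s, r s)) (𝓝[>] 0) (𝓝[<] 1) := by
    rw [tendsto_nhdsWithin_iff]
    constructor
    · have h2 : Tendsto (fun l : ℝ => (∑ s, r s) / (l + ∑ s, r s)) (𝓝 0)
          (𝓝 ((∑ s, r s) / (0 + ∑ s, r s))) := by
        apply Tendsto.div tendsto_const_nhds (tendsto_id.add_const _)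
        rw [zero_add]; exact hR.ne'
      rw [zero_add, div_self hR.ne'] at h2
      exact h2.mono_left nhdsWithin_le_nhds
    · filter_upwards [self_mem_nhdsWithin] with l hl
      have hl' : 0 < l := hl
      show (∑ s, r s) / (l + ∑ s, r s) < 1
      rw [div_lt_one (by linarith)]
      linarith
  have h3 := (abel_limit (an cs r) (speedJ cs r) (tendsto_an cs r hr hR)).comp h1
  have h4 : Tendsto (fun l : ℝ => l + ∑ s, r s) (𝓝[>] 0) (𝓝 (∑ s, r s)) := by
    have h5 : Tendsto (fun l : ℝ => l + ∑ s, r s) (𝓝 0) (𝓝 (0 + ∑ s, r s)) :=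
      tendsto_id.add_const _
    rw [zero_add] at h5
    exact h5.mono_left nhdsWithin_le_nhds
  refine (h4.mul h3).congr' ?_
  filter_upwards [self_mem_nhdsWithin] with l hl
  rw [Psi_eq cs r hr hR l hl]
  rfl

theorem speed_concave (r r₁ r₂ : B → ℝ) (h1 : ∀ s, 0 ≤ r₁ s) (h2 : ∀ s, 0 ≤ r₂ s)
    (hR : 0 < ∑ s, r s) (hR1 : 0 < ∑ s, r₁ s) (hR2 : 0 < ∑ s, r₂ s) (a b : ℝ) (ha : 0 ≤ a)
    (hb : 0 ≤ b) (hab : a + b = 1) (hr : ∀ s, r s = a * r₁ s + b * r₂ s) :
    a * ((∑ s, r₁ s) * speedJ cs r₁) + b * ((∑ s, r₂ s) * speedJ cs r₂) ≤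
      (∑ s, r s) * speedJ cs r := by
  have h0 : ∀ s, 0 ≤ r s := fun s => by
    rw [hr s]; exact add_nonneg (mul_nonneg ha (h1 s)) (mul_nonneg hb (h2 s))
  refine le_of_tendsto_of_tendsto (((tendsto_Psi cs r₁ h1 hR1).const_mul a).add
    ((tendsto_Psi cs r₂ h2 hR2).const_mul b)) (tendsto_Psi cs r h0 hR) ?_
  filter_upwards [self_mem_nhdsWithin] with l hl
  have hJ := Jser_convex (VC cs) (ev cs) (fun s x => (VL_norm cs s x).le)
    (fun s x y => VL_symm cs s x y) r r₁ r₂ h1 h2 a b ha hb hab hr l hl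
  have hsum : ∑ s, r s = a * ∑ s, r₁ s + b * ∑ s, r₂ s := by
    rw [Finset.mul_sum, Finset.mul_sum, ← Finset.sum_add_distrib]
    exact Finset.sum_congr rfl fun s _ => hr s
  rw [hsum]
  linarith

end Pool.Agent.R986.CoxSpeed
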